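import Pool.Agent.Helper13.RegisterAct

set_option autoImplicit false

/-!
# The register group acts faithfully on registers with values in a suitable group
-/

namespace Pool.Agent.Helper13

open Subgroup Monoid Equiv FRW

section

variable {H X M K G : Type} [Group H] [MulAction H X] [Group M] [Group K] [Group G]
  [DecidableEq X] {i : H →* K} {α : X → X → M → K}

omit [DecidableEq X] in
/-- Every element is a product of an element of the subgroup generated by the elementary moves and
of an element of the index group. -/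
lemma RegSys.decomp (hR : RegSys i α)
    (hgen : closure (Set.range i ∪ {a | ∃ x y m, x ≠ y ∧ a = α x y m}) = ⊤) (k : K) :
    ∃ a ∈ closure {a | ∃ x y m, x ≠ y ∧ a = α x y m}, ∃ h, k = a * i h := by
  have hk : k ∈ closure (Set.range i ∪ {a | ∃ x y m, x ≠ y ∧ a = α x y m}) := by
    rw [hgen]; trivial
  induction hk using closure_induction_right with
  | one => exact ⟨1, one_mem _, 1, by simp⟩
  | mul_right x _ y hy ih =>
    obtain ⟨a, ha, h, rfl⟩ := ih
    rcases hy with ⟨h', rfl⟩ | ⟨x, y, m, hxy, rfl⟩
    · exact ⟨a, ha, h * h', by rw [map_mul, mul_assoc]⟩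
    · refine ⟨a * α (h • x) (h • y) m, mul_mem ha (subset_closure ⟨_, _, _, ?_, rfl⟩), h, ?_⟩
      · exact fun hh => hxy (MulAction.injective h hh)
      · rw [← hR.conj]; group
  | mul_inv_cancel x _ y hy ih =>
    obtain ⟨a, ha, h, rfl⟩ := ih
    rcases hy with ⟨h', rfl⟩ | ⟨x, y, m, hxy, rfl⟩
    · exact ⟨a, ha, h * h'⁻¹, by rw [map_mul, map_inv, mul_assoc]⟩
    · refine ⟨a * α (h • x) (h • y) m⁻¹, mul_mem ha (subset_closure ⟨_, _, _, ?_, rfl⟩), h, ?_⟩
      · exact fun hh => hxy (MulAction.injective h hh)
      · rw [← hR.conj, hR.rel.inv hxy]; group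

/-- Evaluation of an element of the subgroup generated by the moves. -/
lemma eval_moves (hR : RegSys i α) (ι : M →* G)
    (ρP : K →* Perm (X → FP X M)) (hρP : ∀ x y, x ≠ y → ∀ m w, ρP (α x y m) w = mv x y m w)
    (ρ : K →* Perm (X → G))
    (hρ : ∀ x y, x ≠ y → ∀ m a, ρ (α x y m) a = Function.update a x (a y * ι m * (a y)⁻¹ * a x))
    (k : K) (hk : k ∈ closure {a | ∃ x y m, x ≠ y ∧ a = α x y m}) (e : X → G) (x : X) :
    ρ k e x = ev ι e (tup ρP k x) * e x := by
  have step : ∀ x y m, x ≠ y → ∀ b : K, (∀ z, ρ b e z = ev ι e (tup ρP b z) * e z) →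
      ∀ z, ρ (α x y m * b) e z = ev ι e (tup ρP (α x y m * b) z) * e z := by
    intro x y m hxy b hb z
    rw [tup_mul hρP hxy, map_mul, Perm.mul_apply, hρ x y hxy]
    unfold mv
    by_cases hz : z = x
    · subst hz
      rw [Function.update_self, Function.update_self, hb, hb]
      simp only [map_mul, map_inv, ev_lt]
      group
    · rw [Function.update_of_ne hz, Function.update_of_ne hz, hb]
  revert x
  induction hk using closure_induction_left with
  | one =>
    intro x
    simp [tup]
  | mul_left a ha b _ ih =>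
    obtain ⟨x, y, m, hxy, rfl⟩ := ha
    exact step x y m hxy b ih
  | inv_mul_cancel a ha b _ ih =>
    obtain ⟨x, y, m, hxy, rfl⟩ := ha
    rw [hR.rel.inv hxy]
    exact step x y _ hxy b ih

/-- **Faithfulness on almost constant registers.** -/
theorem register_faithful_eval [Countable X] [hf : FaithfulSMul H X] (hR : RegSys i α)
    (hgen : closure (Set.range i ∪ {a | ∃ x y m, x ≠ y ∧ a = α x y m}) = ⊤) (ι : M →* G)
    (ρP : K →* Perm (X → FP X M)) (hρP : ∀ x y, x ≠ y → ∀ m w, ρP (α x y m) w = mv x y m w)
    (ρ : K →* Perm (X → G))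
    (hρ : ∀ x y, x ≠ y → ∀ m a, ρ (α x y m) a = Function.update a x (a y * ι m * (a y)⁻¹ * a x))
    (hρi : ∀ h a x, ρ (i h) a x = a (h⁻¹ • x))
    (Ψ : Coprod M (FreeGroup ℕ) →* G) (hΨ : Function.Injective Ψ)
    (hΨι : ∀ m, Ψ (Coprod.inl m) = ι m) (b : X → G) (hb : ∀ (h : H) x, b (h • x) = b x)
    (k : K) (hk : ∀ a : X → G, {x | a x ≠ b x}.Finite → ρ k a = a) : k = 1 := by
  classical
  obtain ⟨ν, hν⟩ := Countable.exists_injective_nat X
  obtain ⟨a, ha, h, rfl⟩ := hR.decomp hgen k
  -- the fixed point equation, for every register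
  have key : ∀ (e : X → G), {x | e x ≠ b x}.Finite → ∀ x,
      ev ι e (tup ρP a x) * e x = e (h • x) := by
    intro e he x
    let e' : X → G := fun z => e (h • z)
    have he' : {x | e' x ≠ b x}.Finite := by
      have := he.preimage (f := fun z => h • z) (MulAction.injective h).injOn
      refine this.subset ?_
      intro z hz
      have hz' : e (h • z) ≠ b z := hz
      change e (h • z) ≠ b (h • z)
      rwa [hb]
    have h1 := congrFun (hk e' he') x
    have h2 : ρ (i h) e' = e := by
      funext z
      rw [hρi]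
      simp only [e', smul_inv_smul]
    rw [map_mul, Perm.mul_apply, h2, eval_moves hR ι ρP hρP ρ hρ a ha] at h1
    exact h1
  -- evaluation in the free product
  let Q := Coprod M (FreeGroup ℕ)
  let θ : FP X M →* Q := CoprodI.lift (fun y =>
    (MulAut.conj (Coprod.inr (FreeGroup.of (ν y)) : Q)).toMonoidHom.comp Coprod.inl)
  have hθ : ∀ x m, θ (lt x m) = Coprod.inr (FreeGroup.of (ν x)) * Coprod.inl m *
      (Coprod.inr (FreeGroup.of (ν x)))⁻¹ := by
    intro x m
    unfold lt
    exact CoprodI.lift_of _ _
  have hθinj : Function.Injective θ :=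
    conj_injective (fun x => FreeGroup.of (ν x)) (FreeGroup.of_injective.comp hν) θ hθ
  -- the key equation in `Q`
  have key2 : ∀ x, θ (tup ρP a x) * Coprod.inr (FreeGroup.of (ν x)) =
      Coprod.inr (FreeGroup.of (ν (h • x))) := by
    intro x
    obtain ⟨D, -, hD⟩ := Lv_finite (V := Set.univ) (tup ρP a x) (by rw [Lv_univ]; trivial)
    let D' : Finset X := insert x (insert (h • x) D)
    let e : X → G := fun z => if z ∈ D' then Ψ (Coprod.inr (FreeGroup.of (ν z))) else b z
    have he : {x | e x ≠ b x}.Finite := by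
      refine D'.finite_toSet.subset ?_
      intro z hz
      by_contra hcon
      have hcon' : z ∉ D' := hcon
      apply hz
      simp only [e, if_neg hcon']
    have h1 := key e he x
    have h2 : ev ι e (tup ρP a x) = Ψ (θ (tup ρP a x)) := by
      refine Lv_induction (V := (D : Set X)) (p := fun u => ev ι e u = Ψ (θ u)) (by simp) ?_ _ hD
      intro y hy m u _ ih
      have hy' : y ∈ D' := by
        simp only [D', Finset.mem_insert]; exact Or.inr (Or.inr hy)
      simp only [map_mul, map_inv, ih, ev_lt, hθ, hΨι, e, if_pos hy']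
    have h3 : e x = Ψ (Coprod.inr (FreeGroup.of (ν x))) := by
      simp only [e, D', Finset.mem_insert, true_or, if_true]
    have h4 : e (h • x) = Ψ (Coprod.inr (FreeGroup.of (ν (h • x)))) := by
      simp only [e, D', Finset.mem_insert, true_or, or_true, if_true]
    rw [h2, h3, h4, ← map_mul] at h1
    exact hΨ h1
  -- the index part is trivial
  have hh : h = 1 := by
    apply hf.eq_of_smul_eq_smul
    intro x
    rw [one_smul]
    have h1 := congrArg (Coprod.lift (1 : M →* FreeGroup ℕ) (MonoidHom.id (FreeGroup ℕ))) (key2 x)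
    have h2 : ∀ u, (Coprod.lift (1 : M →* FreeGroup ℕ) (MonoidHom.id (FreeGroup ℕ))) (θ u) = 1 := by
      intro u
      have : (Coprod.lift (1 : M →* FreeGroup ℕ) (MonoidHom.id (FreeGroup ℕ))).comp θ = 1 := by
        apply FP_ext
        intro x m
        simp [hθ]
      exact DFunLike.congr_fun this u
    rw [map_mul, h2, one_mul, Coprod.lift_apply_inr, Coprod.lift_apply_inr] at h1
    exact (hν (FreeGroup.of_injective h1)).symm
  subst hh
  have htup : tup ρP a = 1 := by
    funext x
    have := key2 x
    rw [one_smul] at this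
    apply hθinj
    rw [Pi.one_apply, map_one]
    exact mul_eq_right.1 this
  rw [map_one, mul_one]
  exact register_faithful hR.rel hρP a ha htup

end

end Pool.Agent.Helper13
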