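import Pool.Agent.Helper13.RegisterPairs
import Pool.Agent.Helper13.RegisterFaithful

set_option autoImplicit false

/-!
# The register theorem
-/

namespace Pool.Agent.Helper13

open Subgroup Monoid Equiv FRW

lemma fg_FP (n : ℕ) (M : Type) [Group M] [hM : Group.FG M] : Group.FG (FP (Fin n) M) := by
  classical
  obtain ⟨T, hT⟩ := hM.out
  refine ⟨(Finset.univ ×ˢ T).image (fun p : Fin n × M => lt p.1 p.2), ?_⟩
  rw [eq_top_iff, ← Lv_univ (X := Fin n) (M := M)]
  unfold Lv
  rw [closure_le]
  rintro _ ⟨j, -, m, rfl⟩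
  have hm : m ∈ closure (T : Set M) := by rw [hT]; trivial
  have hle : closure (T : Set M) ≤ (closure (((Finset.univ ×ˢ T).image
      (fun p : Fin n × M => lt p.1 p.2) : Finset (FP (Fin n) M)) : Set (FP (Fin n) M))).comap
      (lt j) := by
    rw [closure_le]
    intro m hm
    refine subset_closure ?_
    simp only [Finset.coe_image, Finset.coe_product, Finset.coe_univ, Set.mem_image,
      Set.mem_prod, Set.mem_univ, true_and, Prod.exists]
    exact ⟨j, m, hm, rfl⟩
  exact hle hm

/-- Finitely many conjugates generate. -/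
lemma exists_conjugators {M G : Type} [Group M] [Group G] [hG : Group.FG G] (ι : M →* G)
    (hncl : normalClosure (Set.range ι) = ⊤) :
    ∃ (n : ℕ) (s : Fin n → G), Function.Surjective (ev ι s) := by
  classical
  obtain ⟨T, hT⟩ := hG.out
  -- all conjugates generate
  have h1 : (ev ι (id : G → G)).range = ⊤ := by
    rw [eq_top_iff, ← hncl]
    unfold normalClosure
    rw [closure_le]
    intro g hg
    obtain ⟨_, ⟨m, rfl⟩, hc⟩ := Group.mem_conjugatesOfSet_iff.1 hg
    obtain ⟨c, hc⟩ := isConj_iff.1 hc
    exact ⟨lt c m, by rw [ev_lt]; exact hc⟩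
  have h2 : ∀ g : G, ∃ F : Finset G, ∃ u ∈ Lv (M := M) (F : Set G), ev ι (id : G → G) u = g := by
    intro g
    obtain ⟨u, hu⟩ : g ∈ (ev ι (id : G → G)).range := by rw [h1]; trivial
    obtain ⟨F, -, hF⟩ := Lv_finite (V := Set.univ) u (by rw [Lv_univ]; trivial)
    exact ⟨F, u, hF, hu⟩
  choose F u hu hu' using h2
  let F' : Finset G := T.biUnion F
  refine ⟨F'.card, fun j => (F'.equivFin.symm j : G), ?_⟩
  rw [← MonoidHom.range_eq_top, eq_top_iff, ← hT, closure_le]
  intro g hg
  have h3 : u g ∈ Lv (M := M) (F' : Set G) := Lv_mono (by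
    exact_mod_cast Finset.subset_biUnion_of_mem F hg) (hu g)
  have h4 : ∀ w ∈ Lv (M := M) (F' : Set G), ev ι (id : G → G) w ∈
      (ev ι (fun j => (F'.equivFin.symm j : G))).range := by
    intro w hw
    refine Lv_induction (V := (F' : Set G)) (p := fun w => ev ι (id : G → G) w ∈
      (ev ι (fun j => (F'.equivFin.symm j : G))).range) (by simp [one_mem]) ?_ w hw
    intro y hy m v _ ih
    rw [map_mul]
    refine mul_mem ⟨lt (F'.equivFin ⟨y, hy⟩) m, ?_⟩ ih
    rw [ev_lt, ev_lt, Equiv.symm_apply_apply]
    rfl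
  have := h4 _ h3
  rwa [hu'] at this

/-- **The register theorem.** -/
theorem register_typeA {M G : Type} [Group M] [Group G] [Group.IsFinitelyPresented M]
    [Group.IsFinitelyPresented G] (ι : M →* G)
    (hfin : Finite {N : Subgroup G // N.Normal})
    (hncl : normalClosure (Set.range ι) = ⊤)
    (hcent : ∀ N : Subgroup G, N.Normal → N ≠ ⊤ → ∀ g, (∀ m, g * ι m * g⁻¹ * (ι m)⁻¹ ∈ N) → g ∈ N)
    (Ψ : Coprod M (FreeGroup ℕ) →* G) (hΨ : Function.Injective Ψ)
    (hΨι : ∀ m, Ψ (Coprod.inl m) = ι m) : EmbedsInTypeA M := by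
  classical
  have hMfg : Group.FG M := fg_of_fp M
  have hGfg : Group.FG G := fg_of_fp G
  obtain ⟨n, s, hs⟩ := exists_conjugators ι hncl
  have hFPfg := fg_FP n M
  obtain ⟨R, hRfin, hRk⟩ := ker_fng (ev ι s) hs
  obtain ⟨H, X, _, _, t, HT⟩ := exists_typedHT n
  have hHfp := HT.fp
  have hHfg : Group.FG H := fg_of_fp H
  have hcount := HT.countable
  have hfaith := HT.faithful
  obtain ⟨K, _, i, α, hKfp, hR, hgen, hlift⟩ := exists_register (M := M) HT
  -- the two actions
  obtain ⟨ρP, -, hρP⟩ := hlift (Perm (X → FP X M)) inferInstance _ _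
    (regSys_act (H := H) (X := X) (M := M) (Q := FP X M) (fun x => lt x) pm pm_one pm_mul pm_lt)
  obtain ⟨ρ, hρi, hρ⟩ := hlift (Perm (X → G)) inferInstance _ _
    (regSys_act (H := H) (X := X) (M := M) (Q := G) (fun _ => ι) (fun _ => MonoidHom.id G) rfl
      (fun _ _ => rfl) (fun _ _ _ => rfl))
  have hρP' : ∀ x y, x ≠ y → ∀ m w, ρP (α x y m) w = mv x y m w := by
    intro x y hxy m w
    rw [hρP, regMove_apply _ hxy]
    rfl
  have hρ' : ∀ x y, x ≠ y → ∀ m a, ρ (α x y m) a =
      Function.update a x (a y * ι m * (a y)⁻¹ * a x) := by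
    intro x y hxy m a
    rw [hρ, regMove_apply _ hxy]
  have hρi' : ∀ h a x, ρ (i h) a x = a (h⁻¹ • x) := by
    intro h a x
    rw [hρi]
    rfl
  let b : X → G := fun x => s (t x)
  have hbH : ∀ (h : H) x, b (h • x) = b x := by
    intro h x
    simp only [b, HT.typ]
  have hbt : ∀ x y, t x = t y → b x = b y := by
    intro x y h
    simp only [b, h]
  -- the finitely generated subgroup
  obtain ⟨SH, hSH⟩ := hHfg.out
  obtain ⟨T₀, hT₀⟩ := hMfg.out
  let T : Finset M := T₀ ∪ T₀.image (·⁻¹)
  have hT : closure (T : Set M) = ⊤ := by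
    rw [eq_top_iff, ← hT₀]
    apply Subgroup.closure_mono
    intro m hm
    simp only [T, Finset.coe_union, Set.mem_union]
    exact Or.inl hm
  have hTinv : ∀ m ∈ (T : Set M), m⁻¹ ∈ (T : Set M) := by
    intro m hm
    simp only [T, Finset.coe_union, Set.mem_union, Finset.coe_image, Set.mem_image] at hm ⊢
    rcases hm with hm | ⟨m', hm', rfl⟩
    · exact Or.inr ⟨m, hm, rfl⟩
    · rw [inv_inv]; exact Or.inl hm'
  have he : ∀ j : Fin n, ∃ e : ℕ → X, Function.Injective e ∧ ∀ l, t (e l) = j := by
    intro j
    let f : ℕ ↪ (t ⁻¹' {j} : Set X) := Set.Infinite.natEmbedding _ (HT.inf j)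
    exact ⟨fun l => (f l : X), Subtype.val_injective.comp f.injective, fun l => (f l).2⟩
  choose e he1 he2 using he
  let δ : X → X → X → M → K := fun x y y' m => Ax hR x (lt y m * (lt y' m)⁻¹)
  let S1 : Set K := i '' (SH : Set H)
  let S2 : Set K := (fun p : Fin n × Fin n × M => δ (e p.1 0) (e p.2.1 1) (e p.2.1 2) p.2.2) ''
    (Set.univ ×ˢ (Set.univ ×ˢ (T : Set M)))
  let S3 : Set K := (fun p : Fin n × FP (Fin n) M => Ax hR (e p.1 0) (frm (fun j => e j 1) p.2)) ''
    (Set.univ ×ˢ R)
  let L : Subgroup K := closure (S1 ∪ S2 ∪ S3)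
  have hLfg : L.FG := by
    rw [Subgroup.fg_iff]
    refine ⟨S1 ∪ S2 ∪ S3, rfl, ?_⟩
    refine Set.Finite.union (Set.Finite.union (SH.finite_toSet.image _) ?_) ?_
    · exact (Set.finite_univ.prod (Set.finite_univ.prod T.finite_toSet)).image _
    · exact (Set.finite_univ.prod hRfin).image _
  have hLi : ∀ h, i h ∈ L := by
    intro h
    have hh : h ∈ closure (SH : Set H) := by rw [hSH]; trivial
    have hle : closure (SH : Set H) ≤ L.comap i := by
      rw [closure_le]
      intro h hh
      exact subset_closure (Or.inl (Or.inl ⟨h, hh, rfl⟩))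
    exact hle hh
  have hLconj : ∀ h k, k ∈ L → i h * k * (i h)⁻¹ ∈ L := fun h k hk =>
    mul_mem (mul_mem (hLi h) hk) (inv_mem (hLi h))
  have hLδ : ∀ x y y', x ≠ y → x ≠ y' → y ≠ y' → t y = t y' → ∀ m ∈ (T : Set M),
      Ax hR x (lt y m * (lt y' m)⁻¹) ∈ L := by
    intro x y y' hxy hxy' hyy ht m hm
    have h0 : δ (e (t x) 0) (e (t y) 1) (e (t y) 2) m ∈ L :=
      subset_closure (Or.inl (Or.inr ⟨(t x, t y, m), ⟨trivial, trivial, hm⟩, rfl⟩))
    have n1 : e (t x) 0 ≠ e (t y) 1 := by
      intro h
      have h' : t x = t y := by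
        have := congrArg t h
        rwa [he2, he2] at this
      rw [h'] at h
      exact absurd (he1 _ h) (by simp)
    have n2 : e (t x) 0 ≠ e (t y) 2 := by
      intro h
      have h' : t x = t y := by
        have := congrArg t h
        rwa [he2, he2] at this
      rw [h'] at h
      exact absurd (he1 _ h) (by simp)
    have n3 : e (t y) 1 ≠ e (t y) 2 := by
      intro h
      exact absurd (he1 _ h) (by simp)
    obtain ⟨h, hh⟩ := HT.ht {e (t x) 0, e (t y) 1, e (t y) 2}
      (fun z => if z = e (t x) 0 then x else if z = e (t y) 1 then y else y') (by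
        intro z hz w hw hzw
        simp only [Finset.coe_insert, Finset.coe_singleton, Set.mem_insert_iff,
          Set.mem_singleton_iff] at hz hw
        rcases hz with rfl | rfl | rfl <;> rcases hw with rfl | rfl | rfl
        · rfl
        · simp [n1.symm] at hzw; exact absurd hzw hxy
        · simp [n2.symm, n3.symm] at hzw; exact absurd hzw hxy'
        · simp [n1.symm] at hzw; exact absurd hzw.symm hxy
        · rfl
        · simp [n1.symm, n2.symm, n3.symm] at hzw; exact absurd hzw hyy
        · simp [n2.symm, n3.symm] at hzw; exact absurd hzw.symm hxy'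
        · simp [n1.symm, n2.symm, n3.symm] at hzw; exact absurd hzw.symm hyy
        · rfl) (by
        intro z hz
        simp only [Finset.mem_insert, Finset.mem_singleton] at hz
        rcases hz with rfl | rfl | rfl
        · simp [he2]
        · simp [n1.symm, he2]
        · rw [if_neg n2.symm, if_neg n3.symm, he2, ht])
    have hx : h • e (t x) 0 = x := by
      have := hh (e (t x) 0) (by simp)
      simpa using this
    have hy : h • e (t y) 1 = y := by
      have := hh (e (t y) 1) (by simp)
      simpa [n1.symm] using this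
    have hy' : h • e (t y) 2 = y' := by
      have := hh (e (t y) 2) (by simp)
      simpa [n2.symm, n3.symm] using this
    have := hLconj h _ h0
    simp only [δ] at this
    rw [conj_Ax, map_mul, map_inv, pm_lt, pm_lt, hx, hy, hy'] at this
    exact this
  have hLr : ∀ (x : X) (f : Fin n → X), (∀ j, t (f j) = j) → (∀ j, f j ≠ x) → ∀ r ∈ R,
      Ax hR x (frm f r) ∈ L := by
    intro x f hf1 hf2 r hr
    have h0 : Ax hR (e (t x) 0) (frm (fun j => e j 1) r) ∈ L :=
      subset_closure (Or.inr ⟨(t x, r), ⟨trivial, hr⟩, rfl⟩)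
    have n1 : ∀ j, e j 1 ≠ e (t x) 0 := by
      intro j h
      have h' : j = t x := by
        have := congrArg t h
        rwa [he2, he2] at this
      rw [h'] at h
      exact absurd (he1 _ h) (by simp)
    obtain ⟨h, hh⟩ := HT.ht (insert (e (t x) 0) (Finset.univ.image (fun j => e j 1)))
      (fun z => if z = e (t x) 0 then x else f (t z)) (by
        intro z hz w hw hzw
        simp only [Finset.coe_insert, Finset.coe_image, Finset.coe_univ, Set.image_univ,
          Set.mem_insert_iff, Set.mem_range] at hz hw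
        rcases hz with rfl | ⟨j, rfl⟩ <;> rcases hw with rfl | ⟨j', rfl⟩
        · rfl
        · simp [n1, he2] at hzw; exact absurd hzw.symm (hf2 _)
        · simp [n1, he2] at hzw; exact absurd hzw (hf2 _)
        · simp only [n1, if_false, he2] at hzw
          have := congrArg t hzw
          rw [hf1, hf1] at this
          rw [this]) (by
        intro z hz
        simp only [Finset.mem_insert, Finset.mem_image, Finset.mem_univ, true_and] at hz
        rcases hz with rfl | ⟨j, rfl⟩
        · simp [he2]
        · simp [n1, he2, hf1])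
    have hx : h • e (t x) 0 = x := by
      have := hh (e (t x) 0) (by simp)
      simpa using this
    have hfj : ∀ j, h • e j 1 = f j := by
      intro j
      have := hh (e j 1) (by simp)
      simpa [n1, he2] using this
    have := hLconj h _ h0
    rw [conj_Ax, hx] at this
    have e1 : pm h (frm (fun j => e j 1) r) = frm f r := by
      have : (pm h).comp (frm (fun j => e j 1)) = (frm f : FP (Fin n) M →* FP X M) := by
        apply FP_ext
        intro j m
        simp [hfj]
      exact DFunLike.congr_fun this r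
    rwa [e1] at this
  have hL := rel_mem HT hR L (T : Set M) hT hTinv hLδ ι s R hRk hLr
  -- `L` fixes the base
  have hLs : ∀ l ∈ L, ρ l b = b := by
    have hAx : ∀ x (κ : FP X M), κ ∈ Lv ({x} : Set X)ᶜ → ev ι b κ = 1 → ρ (Ax hR x κ) b = b := by
      intro x κ hκ hev
      rw [rho_Ax hR ι ρ hρ' x κ hκ, hev, one_mul, Function.update_eq_self]
    have hle : L ≤ (MulAction.stabilizer (Perm (X → G)) b).comap ρ := by
      rw [closure_le]
      rintro _ ((⟨h, -, rfl⟩ | ⟨⟨j, j', m⟩, -, rfl⟩) | ⟨⟨j, r⟩, ⟨-, hr⟩, rfl⟩)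
      · change ρ (i h) b = b
        funext x
        rw [hρi', hbH]
      · change ρ (Ax hR (e j 0) (lt (e j' 1) m * (lt (e j' 2) m)⁻¹)) b = b
        apply hAx
        · refine mul_mem (lt_mem_Lv ?_ m) (inv_mem (lt_mem_Lv ?_ m))
          · simp only [Set.mem_compl_iff, Set.mem_singleton_iff]
            intro h
            have h' : j' = j := by
              have := congrArg t h
              rwa [he2, he2] at this
            rw [h'] at h
            exact absurd (he1 _ h) (by simp)
          · simp only [Set.mem_compl_iff, Set.mem_singleton_iff]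
            intro h
            have h' : j' = j := by
              have := congrArg t h
              rwa [he2, he2] at this
            rw [h'] at h
            exact absurd (he1 _ h) (by simp)
        · simp only [map_mul, map_inv, ev_lt, b, he2]
          group
      · change ρ (Ax hR (e j 0) (frm (fun j => e j 1) r)) b = b
        apply hAx
        · refine Lv_induction (V := Set.univ) (p := fun r => frm (fun j => e j 1) r ∈
            Lv ({e j 0} : Set X)ᶜ) (by simp [one_mem]) ?_ r (by rw [Lv_univ]; trivial)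
          intro j' _ m u _ ih
          rw [map_mul, frm_lt]
          refine mul_mem (lt_mem_Lv ?_ m) ih
          simp only [Set.mem_compl_iff, Set.mem_singleton_iff]
          intro h
          have h' : j' = j := by
            have := congrArg t h
            rwa [he2, he2] at this
          rw [h'] at h
          exact absurd (he1 _ h) (by simp)
        · have h1 : (ev ι b).comp (frm (fun j => e j 1)) = ev ι s := by
            apply FP_ext
            intro j m
            simp [b, he2]
          have h2 : r ∈ (ev ι s).ker := by rw [← hRk]; exact subset_normalClosure hr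
          rw [MonoidHom.mem_ker] at h2
          rw [← h2, ← h1]
          rfl
    intro l hl
    exact hle hl
  -- the set acted on
  let E : Type := {a : X → G // {x | a x ≠ b x}.Finite}
  have hEρ : ∀ (k : K) (a : X → G), {x | a x ≠ b x}.Finite → {x | ρ k a x ≠ b x}.Finite := by
    have hst : ∀ x y m, x ≠ y → ∀ a : X → G, {x | a x ≠ b x}.Finite →
        {z | ρ (α x y m) a z ≠ b z}.Finite := by
      intro x y m hxy a ha
      refine (ha.union (Set.finite_singleton x)).subset ?_
      intro z hz
      by_cases hzx : z = x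
      · exact Or.inr hzx
      · left
        have hz' : ρ (α x y m) a z ≠ b z := hz
        rw [hρ' x y hxy, Function.update_of_ne hzx] at hz'
        exact hz'
    have hsi : ∀ h, ∀ a : X → G, {x | a x ≠ b x}.Finite → {z | ρ (i h) a z ≠ b z}.Finite := by
      intro h a ha
      refine (ha.image (fun x => h • x)).subset ?_
      intro z hz
      have hz' : ρ (i h) a z ≠ b z := hz
      rw [hρi'] at hz'
      refine ⟨h⁻¹ • z, ?_, smul_inv_smul h z⟩
      change a (h⁻¹ • z) ≠ b (h⁻¹ • z)
      rwa [hbH]
    intro k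
    have hk : k ∈ closure (Set.range i ∪ {a | ∃ x y m, x ≠ y ∧ a = α x y m}) := by
      rw [hgen]; trivial
    induction hk using closure_induction_left with
    | one => intro a ha; simpa using ha
    | mul_left g hg k' _ ih =>
      intro a ha
      rw [map_mul]
      rcases hg with ⟨h, rfl⟩ | ⟨x, y, m, hxy, rfl⟩
      · exact hsi h _ (ih a ha)
      · exact hst x y m hxy _ (ih a ha)
    | inv_mul_cancel g hg k' _ ih =>
      intro a ha
      rw [map_mul]
      rcases hg with ⟨h, rfl⟩ | ⟨x, y, m, hxy, rfl⟩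
      · rw [← map_inv i]
        exact hsi h⁻¹ _ (ih a ha)
      · rw [hR.rel.inv hxy]
        exact hst x y m⁻¹ hxy _ (ih a ha)
  let act : MulAction K E :=
    { smul := fun k a => ⟨ρ k a.1, hEρ k a.1 a.2⟩
      one_smul := fun a => Subtype.ext (by change ρ 1 a.1 = a.1; simp)
      mul_smul := fun k k' a => Subtype.ext (by
        change ρ (k * k') a.1 = ρ k (ρ k' a.1)
        rw [map_mul]; rfl) }
  have hsm : ∀ (k : K) (a : E), (k • a).1 = ρ k a.1 := fun _ _ => rfl
  have hfaithE : FaithfulSMul K E := by
    refine ⟨fun {k k'} hkk => ?_⟩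
    have h1 : k'⁻¹ * k = 1 := by
      apply register_faithful_eval hR hgen ι ρP hρP' ρ hρ' hρi' Ψ hΨ hΨι b hbH
      intro a ha
      have h2 := congrArg Subtype.val (hkk ⟨a, ha⟩)
      rw [hsm, hsm] at h2
      rw [map_mul, Perm.mul_apply, h2, map_inv, Perm.inv_eq_iff_eq]
    rw [inv_mul_eq_one] at h1
    exact h1.symm
  -- orbits of pairs
  have hsame : ∀ a a' c c' : E, Np ι a.1 a'.1 = Np ι c.1 c'.1 → ∃ k : K, k • a = c ∧ k • a' = c' := by
    intro a a' c c' hN
    obtain ⟨k, h1, h2⟩ := same_orbit HT hR ι ρ hρ' hρi' hcent s hs a.2 a'.2 c.2 c'.2 hN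
    exact ⟨k, Subtype.ext h1, Subtype.ext h2⟩
  have hdiag : ∀ a a' : E, ∀ g, (g, g) ∈ Rp ι a.1 a'.1 := by
    intro a a' g
    refine diag_mem HT ι s hs (D := a.2.toFinset ∪ a'.2.toFinset) ?_ ?_ g
    · intro x hx
      by_contra h
      exact hx (Finset.mem_union_left _ (a.2.mem_toFinset.2 h))
    · intro x hx
      by_contra h
      exact hx (Finset.mem_union_right _ (a'.2.mem_toFinset.2 h))
  have horb : Finite (MulAction.orbitRel.Quotient K (E × E)) := by
    refine Finite.of_injective (β := {N : Subgroup G // N.Normal}) (fun q =>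
      ⟨Np ι (Quotient.out q).1.1 (Quotient.out q).2.1, Np_normal (hdiag _ _)⟩) ?_
    intro q q' hqq
    have h1 : Np ι (Quotient.out q).1.1 (Quotient.out q).2.1 =
        Np ι (Quotient.out q').1.1 (Quotient.out q').2.1 := congrArg Subtype.val hqq
    obtain ⟨k, hk1, hk2⟩ := hsame _ _ _ _ h1
    rw [← Quotient.out_eq' q, ← Quotient.out_eq' q']
    apply Quotient.sound'
    rw [MulAction.orbitRel_apply]
    refine ⟨k⁻¹, ?_⟩
    change k⁻¹ • (Quotient.out q') = Quotient.out q
    rw [inv_smul_eq_iff]
    exact (Prod.ext hk1 hk2).symm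
  -- stabilizers
  have hNd : ∀ a : E, Np ι a.1 a.1 = ⊥ := by
    intro a
    ext g
    rw [mem_Np, Subgroup.mem_bot]
    constructor
    · rintro ⟨u, hu⟩
      rw [MonoidHom.prod_apply, Prod.mk.injEq] at hu
      rw [← hu.2, hu.1]
    · rintro rfl
      exact one_mem _
  let b₀ : E := ⟨b, by simp⟩
  have hstab₀ : (MulAction.stabilizer K b₀).FG := by
    have : MulAction.stabilizer K b₀ = L := by
      ext k
      rw [MulAction.mem_stabilizer_iff]
      constructor
      · intro h
        exact stab_le HT hR hgen ι ρ hρ' b hbt L hLi hLs hL k (congrArg Subtype.val h)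
      · intro h
        exact Subtype.ext (hLs k h)
    rw [this]
    exact hLfg
  have hstab : ∀ a : E, (MulAction.stabilizer K a).FG := by
    intro a
    obtain ⟨k, hk, -⟩ := hsame b₀ b₀ a a (by rw [hNd, hNd])
    rw [← hk, MulAction.stabilizer_smul_eq_stabilizer_map_conj]
    rw [← Group.fg_iff_subgroup_fg] at hstab₀ ⊢
    exact Group.fg_of_surjective (f := (MulEquiv.subgroupMap (MulAut.conj k)
      (MulAction.stabilizer K b₀)).toMonoidHom) (MulEquiv.surjective _)
  -- the embedding
  have hιinj : Function.Injective ι := by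
    intro m m' h
    rw [← hΨι, ← hΨι] at h
    exact Coprod.inl_injective (hΨ h)
  have hn : 0 < n := by
    rcases Nat.eq_zero_or_pos n with rfl | h
    · exfalso
      have h1 : ∀ g : G, g = 1 := by
        intro g
        obtain ⟨u, rfl⟩ := hs g
        refine Lv_induction (V := Set.univ) (p := fun u => ev ι s u = 1) (by simp) ?_ u
          (by rw [Lv_univ]; trivial)
        intro j; exact j.elim0
      have h2 : (Coprod.inr (FreeGroup.of 0) : Coprod M (FreeGroup ℕ)) = 1 :=
        hΨ ((h1 _).trans (h1 _).symm)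
      have h3 : FreeGroup.of (0 : ℕ) = 1 := Coprod.inr_injective (h2.trans (map_one _).symm)
      exact FreeGroup.of_ne_one 0 h3
    · exact h
  let x₀ : X := e ⟨0, hn⟩ 0
  let y₀ : X := e ⟨0, hn⟩ 1
  have hxy₀ : x₀ ≠ y₀ := fun h => absurd (he1 _ h) (by simp)
  refine ⟨K, E, inferInstance, act, ⟨hKfp, hfaithE, horb, hstab⟩, αh hR x₀ y₀, ?_⟩
  rw [injective_iff_map_eq_one]
  intro m hm
  have h1 : ρ (α x₀ y₀ m) b = b := by
    have : α x₀ y₀ m = 1 := hm
    rw [this]; simp
  have h2 := congrFun h1 x₀
  rw [hρ' x₀ y₀ hxy₀, Function.update_self] at h2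
  have h3 : b y₀ * ι m * (b y₀)⁻¹ = 1 := mul_eq_right.1 h2
  have h4 : ι m = 1 := by
    rw [mul_inv_eq_one] at h3
    exact mul_eq_left.1 h3
  exact hιinj (h4.trans (map_one ι).symm)

end Pool.Agent.Helper13
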