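import Mathlib

set_option autoImplicit false

/-!
# Tools on finitely presented groups
-/

namespace Pool.Agent.Helper13

open Subgroup Monoid

universe u v w z

/-- The kernel of a surjection from a finitely generated group onto a finitely presented group is
finitely generated as a normal subgroup. -/
theorem ker_fng {F : Type u} {G : Type v} [Group F] [Group G] [hF : Group.FG F]
    [hG : Group.IsFinitelyPresented G] (f : F →* G) (hf : Function.Surjective f) :
    f.ker.IsFinitelyNormallyGenerated := by
  classical
  obtain ⟨n, φ, hφ, S, hS, hSk⟩ := hG.out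
  obtain ⟨T, hT⟩ := hF.out
  -- lift of `φ` through `f`
  choose g hg using fun i : Fin n => hf (φ (FreeGroup.of i))
  let ψ : FreeGroup (Fin n) →* F := FreeGroup.lift g
  have hψ : ∀ x, f (ψ x) = φ x := by
    intro x
    have : f.comp ψ = φ := by
      ext i
      simp [ψ, hg]
    exact DFunLike.congr_fun this x
  choose w hw using fun t : F => hφ (f t)
  let R : Set F := ψ '' S ∪ (fun t => t⁻¹ * ψ (w t)) '' (T : Set F)
  have hRfin : R.Finite := (hS.image _).union (T.finite_toSet.image _)
  refine ⟨R, hRfin, ?_⟩
  have hle : normalClosure R ≤ f.ker := by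
    apply normalClosure_le_normal
    rintro _ (⟨s, hs, rfl⟩ | ⟨t, -, rfl⟩)
    · change f (ψ s) = 1
      rw [hψ]
      have : s ∈ φ.ker := by rw [← hSk]; exact subset_normalClosure hs
      exact this
    · change f (t⁻¹ * ψ (w t)) = 1
      rw [map_mul, map_inv, hψ, hw, inv_mul_cancel]
  apply le_antisymm hle
  set N := normalClosure R
  -- every element is congruent to some `ψ x`
  have hall : ∀ a : F, ∃ x, a⁻¹ * ψ x ∈ N := by
    intro a
    have ha : a ∈ closure (T : Set F) := by rw [hT]; trivial
    induction ha using closure_induction with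
    | mem t ht => exact ⟨w t, subset_normalClosure (Or.inr ⟨t, ht, rfl⟩)⟩
    | one => exact ⟨1, by simp [one_mem]⟩
    | mul a b _ _ iha ihb =>
      obtain ⟨x, hx⟩ := iha
      obtain ⟨y, hy⟩ := ihb
      refine ⟨x * y, ?_⟩
      have e : (a * b)⁻¹ * ψ (x * y) = (b⁻¹ * (a⁻¹ * ψ x) * b⁻¹⁻¹) * (b⁻¹ * ψ y) := by
        rw [map_mul]; group
      rw [e]
      exact mul_mem (Normal.conj_mem inferInstance _ hx _) hy
    | inv a _ iha =>
      obtain ⟨x, hx⟩ := iha
      refine ⟨x⁻¹, ?_⟩
      have e : a⁻¹⁻¹ * ψ x⁻¹ = a * (a⁻¹ * ψ x)⁻¹ * a⁻¹ := by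
        rw [map_inv]; group
      rw [e]
      exact Normal.conj_mem inferInstance _ (inv_mem hx) _
  intro a ha
  obtain ⟨x, hx⟩ := hall a
  have h1 : φ x = 1 := by
    have := hle hx
    rw [MonoidHom.mem_ker, map_mul, map_inv, MonoidHom.mem_ker.1 ha, hψ, inv_one, one_mul] at this
    exact this
  have h2 : x ∈ normalClosure S := by rw [hSk]; exact h1
  have h3 : ψ x ∈ N := by
    have : normalClosure S ≤ N.comap ψ := by
      apply normalClosure_le_normal
      intro s hs
      exact subset_normalClosure (Or.inl ⟨s, hs, rfl⟩)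
    exact this h2
  have h4 : a = ψ x * (a⁻¹ * ψ x)⁻¹ := by group
  rw [h4]
  exact mul_mem h3 (inv_mem hx)

/-- The product of two finitely presented groups is finitely presented. -/
theorem fp_prod (G : Type u) (H : Type v) [Group G] [Group H] [hG : Group.IsFinitelyPresented G]
    [hH : Group.IsFinitelyPresented H] : Group.IsFinitelyPresented (G × H) := by
  classical
  obtain ⟨T, hT⟩ : ∃ T : Finset G, closure (T : Set G) = ⊤ := by
    obtain ⟨n, φ, hφ, -⟩ := hG.out
    exact (Group.fg_of_surjective hφ).out
  obtain ⟨U, hU⟩ : ∃ T : Finset H, closure (T : Set H) = ⊤ := by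
    obtain ⟨n, φ, hφ, -⟩ := hH.out
    exact (Group.fg_of_surjective hφ).out
  let f : Coprod G H →* G × H := Coprod.toProd
  refine Group.IsFinitelyPresented.of_surjective f Coprod.toProd_surjective ?_
  let R : Set (Coprod G H) := (fun p : G × H => Coprod.inl p.1 * Coprod.inr p.2 *
    (Coprod.inl p.1)⁻¹ * (Coprod.inr p.2)⁻¹) '' ((T : Set G) ×ˢ (U : Set H))
  have hRfin : R.Finite := (T.finite_toSet.prod U.finite_toSet).image _
  refine ⟨R, hRfin, ?_⟩
  have hle : normalClosure R ≤ f.ker := by
    apply normalClosure_le_normal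
    rintro _ ⟨⟨g, h⟩, -, rfl⟩
    change f _ = 1
    simp [f]
  apply le_antisymm hle
  set N := normalClosure R
  let π := QuotientGroup.mk' N
  have hcomm : ∀ g h, π (Coprod.inl g) * π (Coprod.inr h) = π (Coprod.inr h) * π (Coprod.inl g) := by
    have h1 : ∀ h ∈ U, ∀ g, π (Coprod.inl g) * π (Coprod.inr h) =
        π (Coprod.inr h) * π (Coprod.inl g) := by
      intro h hh g
      have hg : g ∈ closure (T : Set G) := by rw [hT]; trivial
      have hle : closure (T : Set G) ≤ (centralizer {π (Coprod.inr h)}).comap
          (π.comp Coprod.inl) := by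
        rw [closure_le]
        intro t ht
        change π (Coprod.inl t) ∈ centralizer {π (Coprod.inr h)}
        rw [mem_centralizer_singleton_iff]
        have : π (Coprod.inl t * Coprod.inr h * (Coprod.inl t)⁻¹ * (Coprod.inr h)⁻¹) = 1 :=
          (QuotientGroup.eq_one_iff _).2 (subset_normalClosure ⟨(t, h), ⟨ht, hh⟩, rfl⟩)
        simp only [map_mul, map_inv] at this
        exact (mul_inv_eq_iff_eq_mul.1 (mul_inv_eq_one.1 this))
      have := hle hg
      rw [mem_comap, mem_centralizer_singleton_iff] at this
      exact this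
    intro g h
    have hh : h ∈ closure (U : Set H) := by rw [hU]; trivial
    have hle : closure (U : Set H) ≤ (centralizer {π (Coprod.inl g)}).comap
        (π.comp Coprod.inr) := by
      rw [closure_le]
      intro t ht
      change π (Coprod.inr t) ∈ centralizer {π (Coprod.inl g)}
      rw [mem_centralizer_singleton_iff]
      exact (h1 t ht g).symm
    have := hle hh
    rw [mem_comap, mem_centralizer_singleton_iff] at this
    exact this.symm
  have hform : ∀ x : Coprod G H, ∃ g h, π x = π (Coprod.inl g) * π (Coprod.inr h) := by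
    intro x
    induction x using Coprod.induction_on with
    | inl g => exact ⟨g, 1, by simp⟩
    | inr h => exact ⟨1, h, by simp⟩
    | mul x y ihx ihy =>
      obtain ⟨g, h, e⟩ := ihx
      obtain ⟨g', h', e'⟩ := ihy
      refine ⟨g * g', h * h', ?_⟩
      rw [map_mul, e, e', map_mul, map_mul, map_mul, map_mul]
      calc _ = π (Coprod.inl g) * (π (Coprod.inr h) * π (Coprod.inl g')) * π (Coprod.inr h') := by
            group
        _ = _ := by rw [← hcomm]; group
  intro x hx
  obtain ⟨g, h, e⟩ := hform x
  have h1 : x * (Coprod.inl g * Coprod.inr h)⁻¹ ∈ N := by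
    rw [← QuotientGroup.eq_one_iff]
    change π (x * (Coprod.inl g * Coprod.inr h)⁻¹) = 1
    rw [map_mul, map_inv, map_mul, e, mul_inv_cancel]
  have h2 := hle h1
  rw [MonoidHom.mem_ker, map_mul, MonoidHom.mem_ker.1 hx, one_mul, map_inv, inv_eq_one] at h2
  have h3 : g = 1 ∧ h = 1 := by
    have := h2
    simp [f, Prod.ext_iff] at this
    exact this
  rw [h3.1, h3.2] at h1
  simpa using h1

/-- The free product of a finitely presented group and finitely many copies of another one, with
its universal property. -/
theorem exists_copies_extension (H : Type u) [Group H] [Group.IsFinitelyPresented H]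
    (M : Type v) [Group M] [Group.IsFinitelyPresented M] (n : ℕ) :
    ∃ (W : Type (max u v)) (_ : Group W), Group.IsFinitelyPresented W ∧
      ∃ (i : H →* W) (t : Fin n → M →* W),
        closure (Set.range i ∪ ⋃ j, Set.range (t j)) = ⊤ ∧
        ∀ (P : Type z) (_ : Group P) (f : H →* P) (s : Fin n → M →* P),
          ∃ F : W →* P, (∀ h, F (i h) = f h) ∧ ∀ j m, F (t j m) = s j m := by
  induction n with
  | zero =>
    refine ⟨ULift.{v} H, inferInstance, ?_, MulEquiv.ulift.symm.toMonoidHom, Fin.elim0, ?_, ?_⟩
    · exact Group.IsFinitelyPresented.equiv (MulEquiv.ulift.symm : H ≃* ULift.{v} H)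
    · rw [eq_top_iff]
      intro x _
      exact subset_closure (Or.inl ⟨x.down, rfl⟩)
    · intro P _ f s
      exact ⟨f.comp MulEquiv.ulift.toMonoidHom, fun h => rfl, fun j => j.elim0⟩
  | succ n ih =>
    obtain ⟨W, _, hW, i, t, hgen, hlift⟩ := ih
    refine ⟨Coprod W M, inferInstance, inferInstance, Coprod.inl.comp i,
      Fin.snoc (fun j => Coprod.inl.comp (t j)) Coprod.inr, ?_, ?_⟩
    · rw [eq_top_iff, ← Coprod.range_inl_sup_range_inr, sup_le_iff]
      constructor
      · rintro _ ⟨g, rfl⟩
        have hg : g ∈ closure (Set.range i ∪ ⋃ j, Set.range (t j)) := by rw [hgen]; trivial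
        have hle : closure (Set.range i ∪ ⋃ j, Set.range (t j)) ≤
            (closure (Set.range (Coprod.inl.comp i) ∪ ⋃ j, Set.range
              ((Fin.snoc (fun j => Coprod.inl.comp (t j)) Coprod.inr :
                Fin (n + 1) → M →* Coprod W M) j))).comap Coprod.inl := by
          rw [closure_le]
          rintro _ (⟨h, rfl⟩ | hm)
          · exact subset_closure (Or.inl ⟨h, rfl⟩)
          · obtain ⟨j, m, rfl⟩ := Set.mem_iUnion.1 hm
            refine subset_closure (Or.inr (Set.mem_iUnion.2 ⟨j.castSucc, m, ?_⟩))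
            simp
        exact hle hg
      · rintro _ ⟨m, rfl⟩
        refine subset_closure (Or.inr (Set.mem_iUnion.2 ⟨Fin.last n, m, ?_⟩))
        simp
    · intro P _ f s
      obtain ⟨F, hF1, hF2⟩ := hlift P inferInstance f (fun j => s j.castSucc)
      refine ⟨Coprod.lift F (s (Fin.last n)), fun h => by simp [hF1], fun j m => ?_⟩
      refine Fin.lastCases ?_ (fun j => ?_) j
      · simp
      · simp [hF2]

end Pool.Agent.Helper13
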