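import Pool.Agent.Helper13.RegisterAct

set_option autoImplicit false

/-!
# Free factors of countable rank
-/

namespace Pool.Agent.Helper13

open Monoid Function FRW

section Map

variable {M B B' : Type} [Group M] [Group B] [Group B']

/-- Conjugates of the first factor by the second one. -/
def cj (M : Type) [Group M] (b : B) : M →* Coprod M B :=
  (MulAut.conj (Coprod.inr b : Coprod M B)).toMonoidHom.comp Coprod.inl

lemma cj_apply (b : B) (m : M) : cj M b m = Coprod.inr b * Coprod.inl m * (Coprod.inr b)⁻¹ := rfl

/-- The kernel of the projection as a free product. -/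
def thK (e : B → B') : FP B M →* Coprod M B' := CoprodI.lift fun b => cj M (e b)

lemma thK_lt (e : B → B') (b : B) (m : M) :
    thK e (lt b m) = Coprod.inr (e b) * Coprod.inl m * (Coprod.inr (e b))⁻¹ := by
  have : thK e (lt b m) = cj M (e b) m := by
    unfold thK lt
    exact CoprodI.lift_of _ _
  rw [this, cj_apply]

lemma thK_shift (b : B) (u : FP B M) : thK id (shiftAut b u) =
    Coprod.inr b * thK id u * (Coprod.inr b)⁻¹ := by
  have h : (thK (M := M) (id : B → B)).comp (shiftAut b).toMonoidHom =
      (MulAut.conj (Coprod.inr b : Coprod M B)).toMonoidHom.comp (thK id) := by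
    apply FP_ext
    intro x m
    change thK id (shiftAut b (lt x m)) = Coprod.inr b * thK id (lt x m) * (Coprod.inr b)⁻¹
    rw [shiftAut_lt, thK_lt, thK_lt, id, id, map_mul]
    group
  exact DFunLike.congr_fun h u

lemma coprod_form (w : Coprod M B) : ∃ u b, w = thK id u * Coprod.inr b := by
  induction w using Coprod.induction_on with
  | inl m => exact ⟨lt 1 m, 1, by rw [thK_lt]; simp⟩
  | inr b => exact ⟨1, b, by simp⟩
  | mul x y ihx ihy =>
    obtain ⟨u, b, rfl⟩ := ihx
    obtain ⟨u', b', rfl⟩ := ihy
    refine ⟨u * shiftAut b u', b * b', ?_⟩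
    rw [map_mul, thK_shift, map_mul]
    group

theorem coprod_map_injective (f : B →* B') (hf : Injective f) :
    Injective (Coprod.map (MonoidHom.id M) f) := by
  rw [injective_iff_map_eq_one]
  intro w hw
  obtain ⟨u, b, rfl⟩ := coprod_form w
  have h1 : (Coprod.map (MonoidHom.id M) f).comp (thK id) = thK (M := M) f := by
    apply FP_ext
    intro x m
    rw [MonoidHom.comp_apply, thK_lt, thK_lt]
    simp
  have h2 : Coprod.map (MonoidHom.id M) f (thK id u) = thK f u := DFunLike.congr_fun h1 u
  rw [map_mul, h2, Coprod.map_apply_inr] at hw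
  have h3 : (Coprod.snd : Coprod M B' →* B').comp (thK f) = 1 := by
    apply FP_ext
    intro x m
    rw [MonoidHom.comp_apply, thK_lt]
    simp
  have h4 : f b = 1 := by
    have := congrArg (Coprod.snd : Coprod M B' →* B') hw
    rw [map_mul, map_one] at this
    have h5 : Coprod.snd (thK (M := M) f u) = (1 : B') := DFunLike.congr_fun h3 u
    rw [h5, Coprod.snd_apply_inr, one_mul] at this
    exact this
  have h6 : b = 1 := by
    rw [← map_one f] at h4
    exact hf h4
  rw [h4, map_one, mul_one] at hw
  have h7 : Injective (thK (M := M) f) := conj_injective f hf (thK f) (fun x m => thK_lt _ x m)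
  have h8 : u = 1 := by
    rw [← map_one (thK (M := M) f)] at hw
    exact h7 hw
  rw [h6, h8, map_one, map_one, mul_one]

end Map

/-- A free group of countable rank embeds in the free group of rank two. -/
theorem exists_free_embedding : ∃ ψ : FreeGroup ℕ →* FreeGroup (Fin 2), Injective ψ := by
  let ψ : FreeGroup ℕ →* FreeGroup (Fin 2) :=
    FreeGroup.lift fun n => FreeGroup.of 0 ^ n * FreeGroup.of 1 * (FreeGroup.of 0 ^ n)⁻¹
  let χ : FreeGroup (Fin 2) →* Coprod (FreeGroup Unit) (FreeGroup Unit) :=
    FreeGroup.lift ![Coprod.inr (FreeGroup.of ()), Coprod.inl (FreeGroup.of ())]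
  let κ : FreeGroup ℕ →* FP ℕ (FreeGroup Unit) := FreeGroup.lift fun n => lt n (FreeGroup.of ())
  let κ' : FP ℕ (FreeGroup Unit) →* FreeGroup ℕ :=
    CoprodI.lift fun n => FreeGroup.lift fun _ => FreeGroup.of n
  have hκ : Injective κ := by
    have h1 : κ'.comp κ = MonoidHom.id _ := by
      ext n
      have e : κ' (lt n (FreeGroup.of ())) = FreeGroup.of n := by
        have : κ' (lt n (FreeGroup.of ())) =
            (FreeGroup.lift fun _ : Unit => FreeGroup.of n) (FreeGroup.of ()) := by
          unfold lt
          exact CoprodI.lift_of _ _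
        rw [this, FreeGroup.lift_apply_of]
      simp only [MonoidHom.comp_apply, κ, FreeGroup.lift_apply_of, e, MonoidHom.id_apply]
    intro a b hab
    have h2 := congrArg κ' hab
    have h3 : ∀ x, κ' (κ x) = x := fun x => DFunLike.congr_fun h1 x
    rwa [h3, h3] at h2
  let θ : FP ℕ (FreeGroup Unit) →* Coprod (FreeGroup Unit) (FreeGroup Unit) :=
    CoprodI.lift fun n => cj (FreeGroup Unit) (FreeGroup.of () ^ n)
  have hθ : Injective θ := by
    apply conj_injective (fun n : ℕ => (FreeGroup.of () ^ n : FreeGroup Unit))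
    · intro n m h
      have h1 := congrArg (FreeGroup.lift fun _ : Unit => Multiplicative.ofAdd (1 : ℤ)) h
      simp only [map_pow, FreeGroup.lift_apply_of] at h1
      have h2 := congrArg Multiplicative.toAdd h1
      simp only [toAdd_pow, toAdd_ofAdd] at h2
      simpa using h2
    · intro n m
      have : θ (lt n m) = cj (FreeGroup Unit) (FreeGroup.of () ^ n) m := by
        unfold lt
        exact CoprodI.lift_of _ _
      rw [this, cj_apply]
  refine ⟨ψ, ?_⟩
  have h1 : χ.comp ψ = θ.comp κ := by
    ext n
    have e : θ (lt n (FreeGroup.of ())) = cj (FreeGroup Unit) (FreeGroup.of () ^ n)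
        (FreeGroup.of ()) := by
      unfold lt
      exact CoprodI.lift_of _ _
    simp only [MonoidHom.comp_apply, κ, ψ, χ, FreeGroup.lift_apply_of, e, cj_apply, map_mul,
      map_pow, map_inv]
    simp
  intro a b hab
  have h2 := congrArg χ hab
  have h3 : ∀ x, χ (ψ x) = θ (κ x) := fun x => DFunLike.congr_fun h1 x
  rw [h3, h3] at h2
  exact hκ (hθ h2)

/-- Adding a free factor of countable rank to the free product with a free group of rank two. -/
theorem exists_coprod_square (H : Type) [Group H] :
    ∃ f : Coprod (Coprod H (FreeGroup (Fin 2))) (FreeGroup ℕ) →* Coprod H (FreeGroup (Fin 2)),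
      Injective f := by
  obtain ⟨ψ, hψ⟩ := exists_free_embedding
  -- merge the two free factors
  let θ : Coprod (Coprod H (FreeGroup (Fin 2))) (FreeGroup ℕ) →* Coprod H (FreeGroup ℕ) :=
    Coprod.lift (Coprod.lift Coprod.inl (FreeGroup.lift fun i => Coprod.inr (FreeGroup.of i.1)))
      (FreeGroup.lift fun n => Coprod.inr (FreeGroup.of (n + 2)))
  let θ' : Coprod H (FreeGroup ℕ) →* Coprod (Coprod H (FreeGroup (Fin 2))) (FreeGroup ℕ) :=
    Coprod.lift (Coprod.inl.comp Coprod.inl) (FreeGroup.lift fun n =>
      if h : n < 2 then Coprod.inl (Coprod.inr (FreeGroup.of ⟨n, h⟩))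
      else Coprod.inr (FreeGroup.of (n - 2)))
  have h1 : θ'.comp θ = MonoidHom.id _ := by
    apply Coprod.hom_ext
    · apply Coprod.hom_ext
      · ext h
        simp [θ, θ']
      · ext i
        have hi : (i : ℕ) < 2 := i.2
        simp only [θ, θ', MonoidHom.comp_apply, Coprod.lift_apply_inl, Coprod.lift_apply_inr,
          FreeGroup.lift_apply_of, dif_pos hi, MonoidHom.id_apply]
    · ext n
      simp [θ, θ']
  have hθ : Injective θ := by
    intro a b hab
    have h2 := congrArg θ' hab
    have h3 : ∀ x, θ' (θ x) = x := fun x => DFunLike.congr_fun h1 x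
    rwa [h3, h3] at h2
  exact ⟨(Coprod.map (MonoidHom.id H) ψ).comp θ, (coprod_map_injective ψ hψ).comp hθ⟩

/-- A free factor of countable rank embeds in a free factor of rank two. -/
theorem exists_coprod_embedding (H : Type) [Group H] :
    ∃ f : Coprod H (FreeGroup ℕ) →* Coprod H (FreeGroup (Fin 2)), Injective f := by
  obtain ⟨ψ, hψ⟩ := exists_free_embedding
  exact ⟨_, coprod_map_injective ψ hψ⟩

end Pool.Agent.Helper13
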