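import Mathlib

set_option autoImplicit false

/-!
# Definitions for the problem on oligomorphic embeddings
-/

namespace Pool.Agent.Helper13

/-- The action of `G` on `X` is of type (A): `G` is finitely presented, the action is faithful,
`G` has finitely many orbits on `X × X`, and the stabilizer of every point is finitely
generated. -/
structure IsTypeA (G X : Type*) [Group G] [MulAction G X] : Prop where
  /-- `G` is finitely presented. -/
  finitelyPresented : Group.IsFinitelyPresented G
  /-- The action is faithful. -/
  faithful : FaithfulSMul G X
  /-- There are finitely many orbits of ordered pairs. -/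
  orbits : Finite (MulAction.orbitRel.Quotient G (X × X))
  /-- Point stabilizers are finitely generated. -/
  stabilizer : ∀ x : X, (MulAction.stabilizer G x).FG

/-- `H` is isomorphic to a subgroup of a group that admits an action of type (A). -/
def EmbedsInTypeA (H : Type*) [Group H] : Prop :=
  ∃ (G X : Type) (_ : Group G) (_ : MulAction G X),
    IsTypeA G X ∧ ∃ φ : H →* G, Function.Injective φ

/-- `H` is isomorphic to a subgroup of a finitely presented group that has a faithful action
on `ℕ` with finitely many orbits on `k`-tuples for every `k`, in which the pointwise stabilizer of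
every finite set is finitely generated. -/
def EmbedsInOligomorphic (H : Type*) [Group H] : Prop :=
  ∃ (m : ℕ) (rels : Finset (FreeGroup (Fin m)))
    (φ : H →* PresentedGroup (rels : Set (FreeGroup (Fin m))))
    (ρ : PresentedGroup (rels : Set (FreeGroup (Fin m))) →* Equiv.Perm ℕ),
    Function.Injective φ ∧ Function.Injective ρ ∧
    (∀ k : ℕ, (Set.range (fun x : Fin k → ℕ =>
        {y : Fin k → ℕ | ∃ h : PresentedGroup (rels : Set (FreeGroup (Fin m))),
          y = fun i => ρ h (x i)})).Finite) ∧
    ∀ F : Finset ℕ, ((⨅ a ∈ F, MulAction.stabilizer (Equiv.Perm ℕ) a).comap ρ).FG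

/-- `H` is isomorphic to a subgroup of a finitely presented group `K` that has a faithful and
highly transitive action on `ℕ` (any two injective `k`-tuples lie in the same orbit, for every
`k`), such that the image of `K` contains every finitary permutation of `ℕ`, and the pointwise
stabilizer of every finite set is isomorphic to `K` itself. -/
def EmbedsInHighlyTransitive (H : Type*) [Group H] : Prop :=
  ∃ (m : ℕ) (rels : Finset (FreeGroup (Fin m)))
    (φ : H →* PresentedGroup (rels : Set (FreeGroup (Fin m))))
    (ρ : PresentedGroup (rels : Set (FreeGroup (Fin m))) →* Equiv.Perm ℕ),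
    Function.Injective φ ∧ Function.Injective ρ ∧
    (∀ (k : ℕ) (x y : Fin k → ℕ), Function.Injective x → Function.Injective y →
      ∃ h : PresentedGroup (rels : Set (FreeGroup (Fin m))), ∀ i, ρ h (x i) = y i) ∧
    (∀ σ : Equiv.Perm ℕ, {n : ℕ | σ n ≠ n}.Finite → σ ∈ ρ.range) ∧
    ∀ F : Finset ℕ, Nonempty ((⨅ a ∈ F, MulAction.stabilizer (Equiv.Perm ℕ) a).comap ρ ≃*
      PresentedGroup (rels : Set (FreeGroup (Fin m))))

end Pool.Agent.Helper13
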