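import Mathlib

set_option autoImplicit false

/-!
# Finite presentability of a triply transitive group from a point stabilizer
-/

namespace Pool.Agent.Helper13

open Subgroup Monoid MulAction

section LemmaB

variable {G Z : Type*} [Group G] [MulAction G Z]

theorem two_transitive_form {z0 z1 : Z} {s : G} (h01 : s • z0 = z1)
    (h0t : ∀ z, z ≠ z0 → ∃ g ∈ stabilizer G z0, g • z1 = z) (g : G) :
    g ∈ stabilizer G z0 ∨ ∃ a ∈ stabilizer G z0, ∃ b ∈ stabilizer G z0, g = a * s * b := by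
  by_cases h : g • z0 = z0
  · exact Or.inl h
  · right
    obtain ⟨a, ha, hag⟩ := h0t _ h
    refine ⟨a, ha, s⁻¹ * a⁻¹ * g, ?_, by group⟩
    rw [mem_stabilizer_iff, mul_smul, mul_smul, ← hag, inv_smul_smul, ← h01, inv_smul_smul]

theorem fp_of_stabilizer {z0 z1 : Z} {s t : G} (h01 : s • z0 = z1) (h10 : s • z1 = z0)
    (hne : z1 ≠ z0) (hfp : Group.IsFinitelyPresented (stabilizer G z0))
    (hK : (stabilizer G z0 ⊓ stabilizer G z1).FG) (ht : t ∈ stabilizer G z0) (ht1 : t • z1 ≠ z1)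
    (hKt : ∀ z, z ≠ z0 → z ≠ z1 → ∃ k ∈ stabilizer G z0 ⊓ stabilizer G z1, k • z = t • z1)
    (h0t : ∀ z, z ≠ z0 → ∃ g ∈ stabilizer G z0, g • z1 = z) : Group.IsFinitelyPresented G := by
  classical
  obtain ⟨T, hT⟩ := hK
  have hform := two_transitive_form h01 h0t
  -- the element `s t s`
  have hsts : ∃ b ∈ stabilizer G z0, ∃ c ∈ stabilizer G z0, s * t * s = b * s * c := by
    rcases hform (s * t * s) with h | h
    · exfalso
      rw [mem_stabilizer_iff, mul_smul, mul_smul, h01] at h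
      have h2 : s • (t • z1) = s • z1 := by rw [h, h10]
      exact ht1 (smul_left_cancel s h2)
    · exact h
  obtain ⟨b, hb, c, hc, hbc⟩ := hsts
  have hss : s * s ∈ stabilizer G z0 := by
    rw [mem_stabilizer_iff, mul_smul, h01, h10]
  have hi01 : s⁻¹ • z0 = z1 := by rw [inv_smul_eq_iff, h10]
  have hi10 : s⁻¹ • z1 = z0 := by rw [inv_smul_eq_iff, h01]
  have hKs : ∀ k ∈ stabilizer G z0 ⊓ stabilizer G z1,
      s * k * s⁻¹ ∈ stabilizer G z0 ⊓ stabilizer G z1 := by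
    rintro k ⟨hk0, hk1⟩
    have hk0' : k • z0 = z0 := hk0
    have hk1' : k • z1 = z1 := hk1
    refine ⟨?_, ?_⟩
    · change (s * k * s⁻¹) • z0 = z0
      rw [mul_smul, mul_smul, hi01, hk1', h10]
    · change (s * k * s⁻¹) • z1 = z1
      rw [mul_smul, mul_smul, hi10, hk0', h01]
  have hKs' : ∀ k ∈ stabilizer G z0 ⊓ stabilizer G z1,
      s⁻¹ * k * s ∈ stabilizer G z0 ⊓ stabilizer G z1 := by
    rintro k ⟨hk0, hk1⟩
    have hk0' : k • z0 = z0 := hk0
    have hk1' : k • z1 = z1 := hk1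
    refine ⟨?_, ?_⟩
    · change (s⁻¹ * k * s) • z0 = z0
      rw [mul_smul, mul_smul, h01, hk1', hi10]
    · change (s⁻¹ * k * s) • z1 = z1
      rw [mul_smul, mul_smul, h10, hk0', hi01]
  let W := Coprod (stabilizer G z0) (FreeGroup Unit)
  let i : stabilizer G z0 →* W := Coprod.inl
  let τ : W := Coprod.inr (FreeGroup.of ())
  let f : W →* G := Coprod.lift (stabilizer G z0).subtype (FreeGroup.lift fun _ => s)
  have fi : ∀ g, f (i g) = (g : G) := fun g => Coprod.lift_apply_inl _ _ g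
  have fτ : f τ = s := by
    have h1 : f τ = (FreeGroup.lift fun _ : Unit => s) (FreeGroup.of ()) :=
      Coprod.lift_apply_inr _ _ _
    rw [h1, FreeGroup.lift_apply_of]
  have hWfp : Group.IsFinitelyPresented W := inferInstance
  have hsurj : Function.Surjective f := by
    intro g
    rcases hform g with h | ⟨a, ha, b', hb', rfl⟩
    · exact ⟨i ⟨g, h⟩, fi _⟩
    · exact ⟨i ⟨a, ha⟩ * τ * i ⟨b', hb'⟩, by rw [map_mul, map_mul, fi, fi, fτ]⟩
  have hTK : ∀ k ∈ (T : Set G), k ∈ stabilizer G z0 ⊓ stabilizer G z1 := fun k hk => by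
    rw [← hT]; exact Subgroup.subset_closure hk
  let R1 : Set W := (fun k : T => τ * i ⟨k.1, (hTK k.1 k.2).1⟩ * τ⁻¹ *
    (i ⟨s * k.1 * s⁻¹, (hKs k.1 (hTK k.1 k.2)).1⟩)⁻¹) '' Set.univ
  let R : Set W := R1 ∪ {τ * τ * (i ⟨s * s, hss⟩)⁻¹,
    τ * i ⟨t, ht⟩ * τ * (i ⟨b, hb⟩ * τ * i ⟨c, hc⟩)⁻¹}
  have hRfin : R.Finite := by
    apply Set.Finite.union
    · exact Set.Finite.image _ Set.finite_univ
    · exact Set.toFinite _
  refine Group.IsFinitelyPresented.of_surjective f hsurj ⟨R, hRfin, ?_⟩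
  have hle : normalClosure R ≤ f.ker := by
    apply normalClosure_le_normal
    rintro _ (⟨k, -, rfl⟩ | rfl | rfl)
    · change f _ = 1
      rw [map_mul, map_mul, map_mul, map_inv, map_inv, fi, fi, fτ]
      simp
    · change f _ = 1
      rw [map_mul, map_mul, map_inv, fi, fτ]
      simp
    · change f _ = 1
      rw [map_mul, map_mul, map_mul, map_inv, map_mul, map_mul, fi, fi, fi, fτ, mul_inv_eq_one]
      exact hbc
  apply le_antisymm hle
  set N := normalClosure R with hN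
  let π : W →* W ⧸ N := QuotientGroup.mk' N
  have hπ : ∀ x, x ∈ R → π x = 1 := fun x hx =>
    (QuotientGroup.eq_one_iff _).2 (subset_normalClosure hx)
  -- the relations
  have hrel1 : ∀ k (hk : k ∈ stabilizer G z0 ⊓ stabilizer G z1),
      π τ * π (i ⟨k, hk.1⟩) * (π τ)⁻¹ = π (i ⟨s * k * s⁻¹, (hKs k hk).1⟩) := by
    let L : Subgroup G :=
      { carrier := {k | ∃ hk : k ∈ stabilizer G z0 ⊓ stabilizer G z1,
          π τ * π (i ⟨k, hk.1⟩) * (π τ)⁻¹ = π (i ⟨s * k * s⁻¹, (hKs k hk).1⟩)}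
        one_mem' := by
          refine ⟨one_mem _, ?_⟩
          have e1 : (⟨1, (one_mem (stabilizer G z0 ⊓ stabilizer G z1)).1⟩ : stabilizer G z0) = 1 :=
            rfl
          have e2 : (⟨s * 1 * s⁻¹, (hKs 1 (one_mem _)).1⟩ : stabilizer G z0) = 1 :=
            Subtype.ext (by simp)
          rw [e1, e2, map_one, map_one]
          simp
        mul_mem' := by
          rintro k l ⟨hk, ek⟩ ⟨hl, el⟩
          refine ⟨mul_mem hk hl, ?_⟩
          have e1 : (⟨k * l, (mul_mem hk hl).1⟩ : stabilizer G z0) = ⟨k, hk.1⟩ * ⟨l, hl.1⟩ := rfl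
          have e2 : (⟨s * (k * l) * s⁻¹, (hKs _ (mul_mem hk hl)).1⟩ : stabilizer G z0) =
              ⟨s * k * s⁻¹, (hKs k hk).1⟩ * ⟨s * l * s⁻¹, (hKs l hl).1⟩ :=
            Subtype.ext (by change _ = _ * _; group)
          rw [e1, e2, map_mul, map_mul, map_mul, map_mul, ← ek, ← el]
          group
        inv_mem' := by
          rintro k ⟨hk, ek⟩
          refine ⟨inv_mem hk, ?_⟩
          have e1 : (⟨k⁻¹, (inv_mem hk).1⟩ : stabilizer G z0) = (⟨k, hk.1⟩)⁻¹ := rfl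
          have e2 : (⟨s * k⁻¹ * s⁻¹, (hKs _ (inv_mem hk)).1⟩ : stabilizer G z0) =
              (⟨s * k * s⁻¹, (hKs k hk).1⟩)⁻¹ :=
            Subtype.ext (by change _ = (_)⁻¹; group)
          rw [e1, e2, map_inv, map_inv, map_inv, map_inv, ← ek]
          group }
    have hL : stabilizer G z0 ⊓ stabilizer G z1 ≤ L := by
      rw [← hT, closure_le]
      intro k hk
      refine ⟨hTK k hk, ?_⟩
      have := hπ _ (Or.inl ⟨⟨k, hk⟩, trivial, rfl⟩)
      rw [map_mul, map_mul, map_mul, map_inv, map_inv, mul_inv_eq_one] at this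
      exact this
    intro k hk
    obtain ⟨_, h⟩ := hL hk
    exact h
  have hrel2 : π τ * π τ = π (i ⟨s * s, hss⟩) := by
    have := hπ _ (Or.inr (Or.inl rfl))
    rw [map_mul, map_mul, map_inv, mul_inv_eq_one] at this
    exact this
  have hrel3 : π τ * π (i ⟨t, ht⟩) * π τ = π (i ⟨b, hb⟩) * π τ * π (i ⟨c, hc⟩) := by
    have := hπ _ (Or.inr (Or.inr rfl))
    rw [map_mul, map_mul, map_mul, map_inv, map_mul, map_mul, mul_inv_eq_one] at this
    exact this
  -- the set `G*`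
  let Gs : Set (W ⧸ N) := {x | (∃ g, x = π (i g)) ∨ ∃ g h, x = π (i g) * π τ * π (i h)}
  have hleft : ∀ g x, x ∈ Gs → π (i g) * x ∈ Gs := by
    rintro g _ (⟨g', rfl⟩ | ⟨g', h', rfl⟩)
    · exact Or.inl ⟨g * g', by rw [map_mul, map_mul]⟩
    · exact Or.inr ⟨g * g', h', by rw [map_mul, map_mul]; group⟩
  have hright : ∀ g x, x ∈ Gs → x * π (i g) ∈ Gs := by
    rintro g _ (⟨g', rfl⟩ | ⟨g', h', rfl⟩)
    · exact Or.inl ⟨g' * g, by rw [map_mul, map_mul]⟩
    · exact Or.inr ⟨g', h' * g, by rw [map_mul, map_mul]; group⟩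
  have hmid : ∀ g : stabilizer G z0, π τ * π (i g) * π τ ∈ Gs := by
    rintro ⟨g, hg⟩
    by_cases h1 : g • z1 = z1
    · left
      have hgK : g ∈ stabilizer G z0 ⊓ stabilizer G z1 := ⟨hg, h1⟩
      refine ⟨⟨s * g * s⁻¹, (hKs g hgK).1⟩ * ⟨s * s, hss⟩, ?_⟩
      rw [map_mul, map_mul, ← hrel2, ← hrel1 g hgK]
      group
    · right
      have h2 : g • z1 ≠ z0 := by
        intro h
        apply hne
        have hg' : g • z0 = z0 := hg
        rw [← hg'] at h
        exact smul_left_cancel g h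
      obtain ⟨k, hk, hkg⟩ := hKt _ h2 h1
      -- `g = k⁻¹ t k'`
      have hk0 : k • z0 = z0 := hk.1
      have hg0 : g • z0 = z0 := hg
      have ht0 : t • z0 = z0 := ht
      have hk'K : t⁻¹ * k * g ∈ stabilizer G z0 ⊓ stabilizer G z1 := by
        refine ⟨?_, ?_⟩
        · change (t⁻¹ * k * g) • z0 = z0
          rw [mul_smul, mul_smul, hg0, hk0, inv_smul_eq_iff, ht0]
        · change (t⁻¹ * k * g) • z1 = z1
          rw [mul_smul, mul_smul, hkg, inv_smul_smul]
      have hki := inv_mem hk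
      have hk'' := hKs' _ hk'K
      have e1 : (⟨g, hg⟩ : stabilizer G z0) = ⟨k⁻¹, hki.1⟩ * ⟨t, ht⟩ * ⟨t⁻¹ * k * g, hk'K.1⟩ :=
        Subtype.ext (by change g = k⁻¹ * t * (t⁻¹ * k * g); group)
      have r1 := hrel1 k⁻¹ hki
      have r2 := hrel1 _ hk''
      have e3 : (⟨s * (s⁻¹ * (t⁻¹ * k * g) * s) * s⁻¹, (hKs _ hk'').1⟩ : stabilizer G z0) =
          ⟨t⁻¹ * k * g, hk'K.1⟩ := Subtype.ext (by
            change s * (s⁻¹ * (t⁻¹ * k * g) * s) * s⁻¹ = t⁻¹ * k * g
            group)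
      rw [e3] at r2
      refine ⟨⟨s * k⁻¹ * s⁻¹, (hKs _ hki).1⟩ * ⟨b, hb⟩,
        ⟨c, hc⟩ * ⟨s⁻¹ * (t⁻¹ * k * g) * s, hk''.1⟩, ?_⟩
      rw [e1]
      simp only [map_mul]
      rw [← r1, ← r2]
      calc π τ * (π (i ⟨k⁻¹, hki.1⟩) * π (i ⟨t, ht⟩) * (π τ * π (i ⟨s⁻¹ * (t⁻¹ * k * g) * s, hk''.1⟩) *
            (π τ)⁻¹)) * π τ
          = π τ * π (i ⟨k⁻¹, hki.1⟩) * (π τ)⁻¹ * (π τ * π (i ⟨t, ht⟩) * π τ) *
            π (i ⟨s⁻¹ * (t⁻¹ * k * g) * s, hk''.1⟩) := by group
        _ = _ := by rw [hrel3]; group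
  have hτ : ∀ x, x ∈ Gs → π τ * x ∈ Gs := by
    rintro _ (⟨g', rfl⟩ | ⟨g', h', rfl⟩)
    · exact Or.inr ⟨1, g', by rw [map_one, map_one, one_mul]⟩
    · have e : π τ * (π (i g') * π τ * π (i h')) = (π τ * π (i g') * π τ) * π (i h') := by group
      rw [e]
      exact hright _ _ (hmid g')
  have hτi : ∀ x, x ∈ Gs → (π τ)⁻¹ * x ∈ Gs := by
    intro x hx
    have e : (π τ)⁻¹ * x = π (i ⟨s * s, hss⟩⁻¹) * (π τ * x) := by
      rw [map_inv, map_inv, ← hrel2]
      group
    rw [e]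
    exact hleft _ _ (hτ x hx)
  have hall : ∀ w : W, ∀ x ∈ Gs, π w * x ∈ Gs := by
    intro w
    induction w using Coprod.induction_on with
    | inl g => exact fun x hx => hleft g x hx
    | inr y =>
      induction y using FreeGroup.induction_on with
      | C1 => intro x hx; rw [map_one, map_one, one_mul]; exact hx
      | of u => exact fun x hx => hτ x hx
      | inv_of u ih => intro x hx; rw [map_inv, map_inv]; exact hτi x hx
      | mul x y ihx ihy =>
        intro z hz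
        rw [map_mul, map_mul, mul_assoc]
        exact ihx _ (ihy _ hz)
    | mul x y ihx ihy =>
      intro z hz
      rw [map_mul, mul_assoc]
      exact ihx _ (ihy _ hz)
  intro w hw
  have hw1 : f w = 1 := hw
  have h1 : π w ∈ Gs := by
    have := hall w (π (i 1)) (Or.inl ⟨1, rfl⟩)
    rwa [map_one, map_one, mul_one] at this
  -- `f` factors through the quotient
  let fb : W ⧸ N →* G := QuotientGroup.lift N f hle
  have hfb : ∀ x, fb (π x) = f x := fun x => rfl
  rw [← QuotientGroup.eq_one_iff]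
  change π w = 1
  rcases h1 with ⟨g, hg⟩ | ⟨g, h, hgh⟩
  · have h2 := congrArg fb hg
    rw [hfb, hfb, hw1, fi] at h2
    have : g = 1 := Subtype.ext h2.symm
    rw [hg, this, map_one, map_one]
  · exfalso
    have h2 := congrArg fb hgh
    rw [map_mul, map_mul, hfb, hfb, hfb, hfb, hw1, fi, fi, fτ] at h2
    have h3 : s = (g : G)⁻¹ * (h : G)⁻¹ := by
      have : (g : G) * s * (h : G) = 1 := h2.symm
      calc s = (g : G)⁻¹ * ((g : G) * s * (h : G)) * (h : G)⁻¹ := by group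
        _ = _ := by rw [this, mul_one]
    have h4 : s ∈ stabilizer G z0 := by
      rw [h3]
      exact mul_mem (inv_mem g.2) (inv_mem h.2)
    have h5 : s • z0 = z0 := h4
    rw [h01] at h5
    exact hne h5

end LemmaB

end Pool.Agent.Helper13
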