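import Mathlib

set_option autoImplicit false

/-!
# The fraction lemma

`Γ` is a group generated by a subgroup `H` (the base group) and a set `L` of elementary splittings,
which is stable under left and right multiplication by `H` and satisfies a diamond property.
Then every element is a left fraction of positive elements, and under a visibility hypothesis a
homomorphism which is injective on `H` is injective.
-/

namespace Pool.Agent.Helper13

open Subgroup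

section Fraction

variable {Γ : Type*} [Group Γ]

/-- `Pos H L n m` : `m = h * l₁ * ⋯ * lₙ` with `h ∈ H` and `lᵢ ∈ L`. -/
inductive Pos (H : Subgroup Γ) (L : Set Γ) : ℕ → Γ → Prop
  | base (h : Γ) (hh : h ∈ H) : Pos H L 0 h
  | step (n : ℕ) (m l : Γ) (hm : Pos H L n m) (hl : l ∈ L) : Pos H L (n + 1) (m * l)

/-- The hypotheses on base group and splittings. -/
structure Frac (H : Subgroup Γ) (L : Set Γ) : Prop where
  mul_left : ∀ h ∈ H, ∀ l ∈ L, h * l ∈ L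
  mul_right : ∀ l ∈ L, ∀ h ∈ H, l * h ∈ L
  diamond : ∀ l₁ ∈ L, ∀ l₂ ∈ L, (∃ h ∈ H, l₂ = h * l₁) ∨
    ∃ l₁' ∈ L, ∃ l₂' ∈ L, l₂' * l₁ = l₁' * l₂

variable {H : Subgroup Γ} {L : Set Γ}

lemma Pos.one : Pos H L 0 1 := .base 1 H.one_mem

lemma Pos.of_mem {l : Γ} (hl : l ∈ L) : Pos H L 1 l := by
  have := Pos.step (H := H) (L := L) 0 1 l Pos.one hl
  simpa using this

lemma Pos.mul_H (F : Frac H L) {n : ℕ} {m : Γ} (hm : Pos H L n m) {h : Γ} (hh : h ∈ H) :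
    Pos H L n (m * h) := by
  cases hm with
  | base h' hh' => exact .base _ (H.mul_mem hh' hh)
  | step n m l hm hl =>
    rw [mul_assoc]
    exact .step n m _ hm (F.mul_right l hl h hh)

lemma Pos.H_mul {n : ℕ} {m : Γ} (hm : Pos H L n m) {h : Γ} (hh : h ∈ H) :
    Pos H L n (h * m) := by
  induction hm with
  | base h' hh' => exact .base _ (H.mul_mem hh hh')
  | step n m l hm hl ih =>
    rw [← mul_assoc]
    exact .step n _ l ih hl

lemma Pos.mul (F : Frac H L) {n k : ℕ} {m m' : Γ} (hm : Pos H L n m) (hm' : Pos H L k m') :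
    Pos H L (n + k) (m * m') := by
  induction hm' with
  | base h' hh' => exact hm.mul_H F hh'
  | step k m' l hm' hl ih =>
    rw [← mul_assoc]
    exact .step (n + k) _ l ih hl

/-- The Ore property. -/
lemma Pos.ore (F : Frac H L) {n : ℕ} {m : Γ} (hm : Pos H L n m) :
    ∀ l ∈ L, ∃ (k : ℕ) (m' l' : Γ), Pos H L k m' ∧ (l' ∈ L ∨ l' ∈ H) ∧ m' * l = l' * m := by
  induction hm with
  | base h hh =>
    intro l hl
    exact ⟨0, 1, l * h⁻¹, .one, Or.inl (F.mul_right l hl _ (H.inv_mem hh)), by group⟩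
  | step n m₀ l₁ hm₀ hl₁ ih =>
    intro l hl
    rcases F.diamond l₁ hl₁ l hl with ⟨h, hh, rfl⟩ | ⟨l₁', hl₁', l₂', hl₂', e⟩
    · exact ⟨n, m₀ * h⁻¹, 1, hm₀.mul_H F (H.inv_mem hh), Or.inr H.one_mem, by group⟩
    · obtain ⟨k, m₀', l'', hm₀', hl'', e'⟩ := ih l₂' hl₂'
      refine ⟨k + 1, m₀' * l₁', l'', .step k _ _ hm₀' hl₁', hl'', ?_⟩
      rw [mul_assoc, ← e, ← mul_assoc, e', mul_assoc]

/-- Every element is a left fraction. -/
lemma exists_fraction (F : Frac H L) (hgen : closure ((H : Set Γ) ∪ L) = ⊤) (γ : Γ) :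
    ∃ (n₁ n₂ : ℕ) (m₁ m₂ : Γ), Pos H L n₁ m₁ ∧ Pos H L n₂ m₂ ∧ γ = m₁⁻¹ * m₂ := by
  have hγ : γ ∈ closure ((H : Set Γ) ∪ L) := by rw [hgen]; trivial
  induction hγ using Subgroup.closure_induction_right with
  | one => exact ⟨0, 0, 1, 1, .one, .one, by simp⟩
  | mul_right x hx y hy ih =>
    obtain ⟨n₁, n₂, m₁, m₂, hm₁, hm₂, rfl⟩ := ih
    rcases hy with hy | hy
    · exact ⟨n₁, n₂, m₁, m₂ * y, hm₁, hm₂.mul_H F hy, by group⟩
    · exact ⟨n₁, n₂ + 1, m₁, m₂ * y, hm₁, .step _ _ _ hm₂ hy, by group⟩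
  | mul_inv_cancel x hx y hy ih =>
    obtain ⟨n₁, n₂, m₁, m₂, hm₁, hm₂, rfl⟩ := ih
    rcases hy with hy | hy
    · exact ⟨n₁, n₂, m₁, m₂ * y⁻¹, hm₁, hm₂.mul_H F (H.inv_mem hy), by group⟩
    · obtain ⟨k, m', l', hm', hl', e⟩ := hm₂.ore F y hy
      have e' : m₂ * y⁻¹ = l'⁻¹ * m' := by
        rw [mul_inv_eq_iff_eq_mul, mul_assoc, e, inv_mul_cancel_left]
      have e'' : m₁⁻¹ * m₂ * y⁻¹ = (l' * m₁)⁻¹ * m' := by
        rw [mul_assoc, e', mul_inv_rev, mul_assoc]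
      rcases hl' with hl' | hl'
      · exact ⟨1 + n₁, k, l' * m₁, m', (Pos.of_mem hl').mul F hm₁, hm', e''⟩
      · exact ⟨n₁, k, l' * m₁, m', hm₁.H_mul hl', hm', e''⟩

/-- **Fraction lemma.** -/
theorem frac_injective {P : Type*} [Group P] (F : Frac H L)
    (hgen : closure ((H : Set Γ) ∪ L) = ⊤) (ρ : Γ →* P)
    (Fac : P → Γ → Prop)
    (F1 : ∀ n m, Pos H L n m → ∀ l ∈ L, Fac (ρ (m * l)) l)
    (F2 : ∀ n m, Pos H L n m → ∀ l₁ ∈ L, ∀ l₂ ∈ L, (¬ ∃ h ∈ H, l₂ = h * l₁) →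
      Fac (ρ (m * l₁)) l₂ → ∃ l₁' ∈ L, ∃ l₂' ∈ L, l₂' * l₁ = l₁' * l₂ ∧ Fac (ρ m) l₂')
    (F3 : ∀ h ∈ H, ∀ l ∈ L, ¬ Fac (ρ h) l)
    (F4 : ∀ h ∈ H, ρ h = 1 → h = 1) : Function.Injective ρ := by
  have factor : ∀ n m, Pos H L n m → ∀ l ∈ L, Fac (ρ m) l → ∃ k m', Pos H L k m' ∧ n = k + 1 ∧
      m = m' * l := by
    intro n m hm
    induction hm with
    | base h hh => intro l hl hF; exact absurd hF (F3 h hh l hl)
    | step n m₀ l₁ hm₀ hl₁ ih =>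
      intro l hl hF
      by_cases hc : ∃ h ∈ H, l = h * l₁
      · obtain ⟨h, hh, rfl⟩ := hc
        exact ⟨n, m₀ * h⁻¹, hm₀.mul_H F (H.inv_mem hh), rfl, by group⟩
      · obtain ⟨l₁', hl₁', l₂', hl₂', e, hF'⟩ := F2 n m₀ hm₀ l₁ hl₁ l hl hc hF
        obtain ⟨k, m', hm', rfl, rfl⟩ := ih l₂' hl₂' hF'
        exact ⟨k + 1, m' * l₁', .step _ _ _ hm' hl₁', rfl, by rw [mul_assoc, e, ← mul_assoc]⟩
  have posinj : ∀ n₂ m₂, Pos H L n₂ m₂ → ∀ n₁ m₁, Pos H L n₁ m₁ → ρ m₁ = ρ m₂ → m₁ = m₂ := by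
    intro n₂ m₂ hm₂
    induction hm₂ with
    | base h hh =>
      intro n₁ m₁ hm₁ he
      cases hm₁ with
      | base h' hh' =>
        have := F4 (m₁ * h⁻¹) (H.mul_mem hh' (H.inv_mem hh)) (by
          rw [map_mul, map_inv, he, mul_inv_cancel])
        exact mul_inv_eq_one.1 this
      | step n m l hm hl =>
        exact absurd (he ▸ F1 n m hm l hl) (F3 h hh l hl)
    | step n m l hm hl ih =>
      intro n₁ m₁ hm₁ he
      have hF : Fac (ρ m₁) l := by rw [he]; exact F1 n m hm l hl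
      obtain ⟨k, m', hm', -, rfl⟩ := factor n₁ m₁ hm₁ l hl hF
      rw [ih k m' hm' (by
        rw [map_mul, map_mul] at he
        exact mul_right_cancel he)]
  rw [injective_iff_map_eq_one]
  intro γ hγ
  obtain ⟨n₁, n₂, m₁, m₂, hm₁, hm₂, rfl⟩ := exists_fraction F hgen γ
  rw [map_mul, map_inv, inv_mul_eq_one] at hγ
  rw [posinj n₂ m₂ hm₂ n₁ m₁ hm₁ hγ, inv_mul_cancel]

end Fraction

end Pool.Agent.Helper13
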