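import Mathlib

set_option autoImplicit false

/-!
# Relations of Coxeter type `A` present the finitary symmetric group
-/

namespace Pool.Agent.Helper13

open Subgroup Equiv

section Coxeter

variable {Γ : Type*} [Group Γ]

/-- descending products `A n * A (n-1) * ⋯`, with `m` factors -/
def desc (A : ℕ → Γ) (n : ℕ) : ℕ → Γ
  | 0 => 1
  | m + 1 => desc A n m * A (n - m)

/-- Coxeter relations of type `A_∞`. -/
structure CoxA (A : ℕ → Γ) : Prop where
  sq : ∀ i, A i * A i = 1
  braid : ∀ i, A i * A (i + 1) * A i = A (i + 1) * A i * A (i + 1)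
  comm : ∀ i j, i + 2 ≤ j → A i * A j = A j * A i

variable {A : ℕ → Γ}

lemma CoxA.comm' (h : CoxA A) {i j : ℕ} (hij : i + 2 ≤ j ∨ j + 2 ≤ i) : A i * A j = A j * A i := by
  rcases hij with hij | hij
  · exact h.comm i j hij
  · exact (h.comm j i hij).symm

lemma desc_comm (h : CoxA A) (n m j : ℕ) (hj : j + m < n) :
    desc A n m * A j = A j * desc A n m := by
  induction m with
  | zero => simp [desc]
  | succ m ih =>
    have e : A (n - m) * A j = A j * A (n - m) := h.comm' (Or.inr (by omega))
    rw [desc, mul_assoc, e, ← mul_assoc, ih (by omega), mul_assoc]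

lemma desc_shift (h : CoxA A) (n m j : ℕ) (hm : m ≤ n + 1) (hj : n + 1 < j + m) (hjn : j ≤ n) :
    desc A n m * A j = A (j - 1) * desc A n m := by
  induction m with
  | zero => omega
  | succ m ih =>
    rcases Nat.eq_or_lt_of_le (show n + 1 ≤ j + m by omega) with e | e
    · -- `j = n - m + 1`
      obtain ⟨m', rfl⟩ : ∃ m', m = m' + 1 := ⟨m - 1, by omega⟩
      have e1 : n - m' = j := by omega
      have e2 : n - (m' + 1) = j - 1 := by omega
      have hb := h.braid (j - 1)
      rw [show j - 1 + 1 = j by omega] at hb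
      have hc := desc_comm h n m' (j - 1) (by omega)
      rw [desc, desc, e1, e2]
      calc desc A n m' * A j * A (j - 1) * A j
          = desc A n m' * (A j * A (j - 1) * A j) := by group
        _ = desc A n m' * (A (j - 1) * A j * A (j - 1)) := by rw [hb]
        _ = (desc A n m' * A (j - 1)) * (A j * A (j - 1)) := by group
        _ = A (j - 1) * (desc A n m' * A j * A (j - 1)) := by rw [hc]; group
    · have e1 : A (n - m) * A j = A j * A (n - m) := h.comm' (Or.inl (by omega))
      rw [desc, mul_assoc, e1, ← mul_assoc, ih (by omega) e, mul_assoc]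

lemma mem_desc (h : CoxA A) (n : ℕ) (γ : Γ) (hγ : γ ∈ closure (A '' {i | i ≤ n})) :
    ∃ m ≤ n + 1, ∃ γ' ∈ closure (A '' {i | i < n}), γ = γ' * desc A n m := by
  induction hγ using Subgroup.closure_induction_right with
  | one => exact ⟨0, by omega, 1, one_mem _, by simp [desc]⟩
  | mul_right x hx y hy ih =>
    obtain ⟨j, hj, rfl⟩ := hy
    obtain ⟨m, hm, γ', hγ', rfl⟩ := ih
    simp only [Set.mem_ofPred_eq] at hj
    rcases Nat.lt_trichotomy (j + m) n with hlt | heq | hgt
    · refine ⟨m, hm, γ' * A j, mul_mem hγ' (subset_closure ⟨j, by simp only [Set.mem_ofPred_eq]; omega, rfl⟩), ?_⟩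
      rw [mul_assoc, desc_comm h n m j (by omega), mul_assoc]
    · refine ⟨m + 1, by omega, γ', hγ', ?_⟩
      rw [desc, mul_assoc, show n - m = j by omega]
    · rcases Nat.eq_or_lt_of_le (show n + 1 ≤ j + m by omega) with e | e
      · obtain ⟨m', rfl⟩ : ∃ m', m = m' + 1 := ⟨m - 1, by omega⟩
        refine ⟨m', by omega, γ', hγ', ?_⟩
        rw [desc, show n - m' = j by omega, mul_assoc, mul_assoc, h.sq, mul_one]
      · refine ⟨m, hm, γ' * A (j - 1), mul_mem hγ' (subset_closure ⟨j - 1, by simp only [Set.mem_ofPred_eq]; omega, rfl⟩), ?_⟩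
        rw [mul_assoc, desc_shift h n m j hm e hj, mul_assoc]
  | mul_inv_cancel x hx y hy ih =>
    obtain ⟨j, hj, rfl⟩ := hy
    have : (A j)⁻¹ = A j := inv_eq_of_mul_eq_one_left (h.sq j)
    rw [this]
    obtain ⟨m, hm, γ', hγ', rfl⟩ := ih
    simp only [Set.mem_ofPred_eq] at hj
    rcases Nat.lt_trichotomy (j + m) n with hlt | heq | hgt
    · refine ⟨m, hm, γ' * A j, mul_mem hγ' (subset_closure ⟨j, by simp only [Set.mem_ofPred_eq]; omega, rfl⟩), ?_⟩
      rw [mul_assoc, desc_comm h n m j (by omega), mul_assoc]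
    · refine ⟨m + 1, by omega, γ', hγ', ?_⟩
      rw [desc, mul_assoc, show n - m = j by omega]
    · rcases Nat.eq_or_lt_of_le (show n + 1 ≤ j + m by omega) with e | e
      · obtain ⟨m', rfl⟩ : ∃ m', m = m' + 1 := ⟨m - 1, by omega⟩
        refine ⟨m', by omega, γ', hγ', ?_⟩
        rw [desc, show n - m' = j by omega, mul_assoc, mul_assoc, h.sq, mul_one]
      · refine ⟨m, hm, γ' * A (j - 1), mul_mem hγ' (subset_closure ⟨j - 1, by simp only [Set.mem_ofPred_eq]; omega, rfl⟩), ?_⟩
        rw [mul_assoc, desc_shift h n m j hm e hj, mul_assoc]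

variable {Ω : Type*} [DecidableEq Ω]

/-- If the `A i` satisfy the Coxeter relations and act as the adjacent transpositions, then the
action is faithful on the subgroup they generate. -/
theorem coxA_injective (h : CoxA A) (ρ : Γ →* Perm Ω) (a : ℕ → Ω) (ha : Function.Injective a)
    (hρ : ∀ i, ρ (A i) = swap (a i) (a (i + 1))) (γ : Γ) (hγ : γ ∈ closure (Set.range A))
    (h1 : ρ γ = 1) : γ = 1 := by
  have fix : ∀ n, ∀ γ ∈ closure (A '' {i | i < n}), ∀ k, n < k → ρ γ (a k) = a k := by
    intro n γ hγ k hk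
    induction hγ using Subgroup.closure_induction with
    | mem x hx =>
      obtain ⟨i, hi, rfl⟩ := hx
      simp only [Set.mem_ofPred_eq] at hi
      rw [hρ, swap_apply_of_ne_of_ne]
      · exact fun h => by have := ha h; omega
      · exact fun h => by have := ha h; omega
    | one => simp
    | mul x y hx hy ihx ihy => rw [map_mul, Perm.mul_apply, ihy, ihx]
    | inv x hx ihx => rw [map_inv, Perm.inv_eq_iff_eq, ihx]
  have hdesc : ∀ n m, m ≤ n + 1 → ρ (desc A n m) (a (n + 1 - m)) = a (n + 1) := by
    intro n m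
    induction m with
    | zero => intro _; simp [desc]
    | succ m ih =>
      intro hm
      rw [desc, map_mul, Perm.mul_apply, hρ, show n + 1 - (m + 1) = n - m by omega,
        swap_apply_left, show n - m + 1 = n + 1 - m by omega]
      exact ih (by omega)
  have key : ∀ n, ∀ γ ∈ closure (A '' {i | i < n}), ρ γ = 1 → γ = 1 := by
    intro n
    induction n with
    | zero =>
      intro γ hγ _
      simpa using hγ
    | succ n ih =>
      intro γ hγ h1
      have hs : {i : ℕ | i < n + 1} = {i | i ≤ n} := by ext; simp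
      rw [hs] at hγ
      obtain ⟨m, hm, γ', hγ', rfl⟩ := mem_desc h n γ hγ
      have h2 : a (n + 1 - m) = a (n + 1) := by
        have := congrArg (fun f : Perm Ω => f (a (n + 1 - m))) h1
        simp only [map_mul, Perm.mul_apply, hdesc n m hm, Perm.one_apply] at this
        rw [fix n γ' hγ' (n + 1) (by omega)] at this
        exact this.symm
      have h3 := ha h2
      obtain rfl : m = 0 := by omega
      have h4 : γ' * desc A n 0 = γ' := by simp [desc]
      rw [h4] at h1 ⊢
      exact ih γ' hγ' h1
  -- every element of the closure lies in a finite stage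
  have stage : ∃ n, γ ∈ closure (A '' {i | i < n}) := by
    clear h1
    have mono : ∀ n m : ℕ, n ≤ m → closure (A '' {i | i < n}) ≤ closure (A '' {i | i < m}) :=
      fun n m hnm => closure_mono (Set.image_mono (fun i (hi : i < n) => lt_of_lt_of_le hi hnm))
    induction hγ using Subgroup.closure_induction with
    | mem x hx =>
      obtain ⟨i, rfl⟩ := hx
      exact ⟨i + 1, subset_closure ⟨i, Nat.lt_succ_self i, rfl⟩⟩
    | one => exact ⟨0, one_mem _⟩
    | mul x y hx hy ihx ihy =>
      obtain ⟨n, hn⟩ := ihx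
      obtain ⟨m, hm⟩ := ihy
      exact ⟨max n m, mul_mem (mono _ _ (le_max_left _ _) hn) (mono _ _ (le_max_right _ _) hm)⟩
    | inv x hx ihx =>
      obtain ⟨n, hn⟩ := ihx
      exact ⟨n, inv_mem hn⟩
  obtain ⟨n, hn⟩ := stage
  exact key n γ hn h1

end Coxeter

end Pool.Agent.Helper13
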