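import Pool.Agent.Helper13.FRRewrite

set_option autoImplicit false

/-!
# The register group acts faithfully on tuples over the free product
-/

namespace Pool.Agent.Helper13

open Relation FRW

section Tuples

variable {X : Type*} {M : Type*} [Group M]

/-- The norm of a tuple. -/
noncomputable def nrm (w : X → FP X M) : ℕ := ∑ᶠ x, ell x (w x)

/-- Finitely supported tuples. -/
def FinS (w : X → FP X M) : Prop := {x | w x ≠ 1}.Finite

variable [DecidableEq X]

lemma FinS.update {w : X → FP X M} (hw : FinS w) (x : X) (p : FP X M) :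
    FinS (Function.update w x p) := by
  refine (hw.union (Set.finite_singleton x)).subset ?_
  intro y hy
  by_cases h : y = x
  · exact Or.inr h
  · left
    have : Function.update w x p y ≠ 1 := hy
    rwa [Function.update_of_ne h] at this

lemma nrm_update {w : X → FP X M} (hw : FinS w) (x : X) (p : FP X M) :
    nrm (Function.update w x p) + ell x (w x) = nrm w + ell x p := by
  classical
  let s : Finset X := hw.toFinset.erase x
  have h1 : nrm w = ∑ y ∈ insert x s, ell y (w y) := by
    apply finsum_eq_sum_of_support_subset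
    intro y hy
    by_cases h : y = x
    · simp [h]
    · have : w y ≠ 1 := by
        intro hcon
        apply hy
        simp only [hcon, ell_one]
      simp only [Finset.coe_insert, Set.mem_insert_iff, Finset.mem_coe, s, Finset.mem_erase]
      exact Or.inr ⟨h, hw.mem_toFinset.2 this⟩
  have h2 : nrm (Function.update w x p) = ∑ y ∈ insert x s, ell y (Function.update w x p y) := by
    apply finsum_eq_sum_of_support_subset
    intro y hy
    by_cases h : y = x
    · simp [h]
    · have : w y ≠ 1 := by
        intro hcon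
        apply hy
        simp only [Function.update_of_ne h, hcon, ell_one]
      simp only [Finset.coe_insert, Set.mem_insert_iff, Finset.mem_coe, s, Finset.mem_erase]
      exact Or.inr ⟨h, hw.mem_toFinset.2 this⟩
  have hx : x ∉ s := by simp [s]
  have h3 : ∑ y ∈ s, ell y (Function.update w x p y) = ∑ y ∈ s, ell y (w y) := by
    apply Finset.sum_congr rfl
    intro y hy
    rw [Function.update_of_ne]
    rintro rfl
    exact hx hy
  rw [h1, h2, Finset.sum_insert hx, Finset.sum_insert hx, h3, Function.update_self]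
  omega

/-- The elementary move on tuples. -/
def mv (x y : X) (m : M) (w : X → FP X M) : X → FP X M :=
  Function.update w x (w y * lt y m * (w y)⁻¹ * w x)

lemma mv_form {x y : X} {m c n : M} {w : X → FP X M} {g u : FP X M} (hy : w y = g * lt y c)
    (hx : w x = g * lt y n * u) :
    mv x y m w = Function.update w x (g * lt y (c * m * c⁻¹ * n) * u) := by
  unfold mv
  rw [hy, hx]
  congr 1
  simp only [map_mul, map_inv]
  group

end Tuples

/-- The relations between the elementary generators of the register group. -/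
structure ARel {X : Type*} {M : Type*} {K : Type*} [Group M] [Group K] (α : X → X → M → K) :
    Prop where
  mul : ∀ x y, x ≠ y → ∀ m m', α x y (m * m') = α x y m * α x y m'
  comm : ∀ x y x' y', x ≠ y → x' ≠ y' → x ≠ x' → y ≠ x' → y' ≠ x → ∀ m m',
    α x y m * α x' y' m' = α x' y' m' * α x y m
  tri : ∀ x y z, x ≠ y → x ≠ z → y ≠ z → ∀ a c,
    α x y a * (α x z c * α y z c) = (α x z c * α y z c) * α x y a

section Main

variable {X : Type*} {M : Type*} {K : Type*} [Group M] [Group K] [DecidableEq X]
  {α : X → X → M → K}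

omit [DecidableEq X] in
lemma ARel.one (h : ARel α) {x y : X} (hxy : x ≠ y) : α x y 1 = 1 := by
  have := h.mul x y hxy 1 1
  rw [mul_one] at this
  exact (mul_eq_left.1 this.symm)

omit [DecidableEq X] in
lemma ARel.inv (h : ARel α) {x y : X} (hxy : x ≠ y) (m : M) : (α x y m)⁻¹ = α x y m⁻¹ := by
  rw [inv_eq_iff_mul_eq_one, ← h.mul x y hxy, mul_inv_cancel, h.one hxy]

variable (ρ : K →* Equiv.Perm (X → FP X M))

/-- The tuple of an element. -/
def tup (k : K) : X → FP X M := ρ k 1

/-- Edges. -/
def Edge (α : X → X → M → K) (k k' : K) : Prop :=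
  FinS (tup ρ k) ∧ ∃ x y m, x ≠ y ∧ k' = α x y m * k

variable {ρ}

lemma tup_mul (hρ : ∀ x y, x ≠ y → ∀ m w, ρ (α x y m) w = mv x y m w) {x y : X} (hxy : x ≠ y)
    (m : M) (k : K) : tup ρ (α x y m * k) = mv x y m (tup ρ k) := by
  unfold tup
  rw [map_mul, Equiv.Perm.mul_apply, hρ x y hxy]

lemma edge_symm (h : ARel α) (hρ : ∀ x y, x ≠ y → ∀ m w, ρ (α x y m) w = mv x y m w) (k k' : K)
    (he : Edge ρ α k k') : Edge ρ α k' k := by
  obtain ⟨hf, x, y, m, hxy, rfl⟩ := he
  refine ⟨?_, x, y, m⁻¹, hxy, ?_⟩
  · rw [tup_mul hρ hxy]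
    exact hf.update _ _
  · rw [← h.inv hxy, inv_mul_cancel_left]

/-- The data describing how the register `y` sits inside the register `x`. -/
structure Dat (w : X → FP X M) (x y : X) (g u : FP X M) (c n : M) : Prop where
  ne : NE y g
  ns : NS y u
  hy : w y = g * lt y c
  hx : w x = g * lt y n * u

omit [DecidableEq X] in
lemma exists_dat (w : X → FP X M) (x y : X) : ∃ g u c n, Dat w x y g u c n := by
  obtain ⟨g, c, hy, hg⟩ := exists_right y (w y)
  obtain ⟨n, u, hu, hns⟩ := exists_left y (g⁻¹ * w x)
  exact ⟨g, u, c, n, hg, hns, hy, by rw [mul_assoc, ← hu, mul_inv_cancel_left]⟩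

omit [DecidableEq X] in
lemma ell_dat {x y : X} (hxy : x ≠ y) {g u : FP X M} (hg : NE y g) (hu : NS y u) (n : M) :
    (n ≠ 1 → ell x (g * lt y n * u) = len g + 1 + ell x u) ∧
    (n = 1 → ell x (g * lt y n * u) ≤ len g + ell x u) := by
  constructor
  · intro hn
    exact ell_mid hxy hg hn hu
  · rintro rfl
    rw [map_one, mul_one]
    exact ell_mul_le x g u

/-- Classification of a move. -/
lemma Dat.down {w : X → FP X M} {x y : X} {g u : FP X M} {c n m : M} (hd : Dat w x y g u c n)
    (hxy : x ≠ y) (hw : FinS w) :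
    (nrm (mv x y m w) < nrm w → n ≠ 1 ∧ c * m * c⁻¹ * n = 1) ∧
    (nrm (mv x y m w) = nrm w → m = 1 ∨ (n ≠ 1 ∧ c * m * c⁻¹ * n ≠ 1)) ∧
    (n ≠ 1 → c * m * c⁻¹ * n = 1 → nrm (mv x y m w) < nrm w) := by
  have h1 := mv_form (m := m) hd.hy hd.hx
  have h2 := nrm_update hw x (g * lt y (c * m * c⁻¹ * n) * u)
  rw [← h1, hd.hx] at h2
  have h3 := ell_dat hxy hd.ne hd.ns n
  have h4 := ell_dat hxy hd.ne hd.ns (c * m * c⁻¹ * n)
  by_cases hn : n = 1
  · by_cases hk : c * m * c⁻¹ * n = 1
    · have hm : m = 1 := by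
        rw [hn, mul_one] at hk
        have : c * m * c⁻¹ = 1 := hk
        rw [mul_inv_eq_one] at this
        exact mul_eq_left.1 this
      have hk' : nrm (mv x y m w) = nrm w := by
        rw [hk, hn] at h2
        omega
      exact ⟨fun h => by omega, fun _ => Or.inl hm, fun h => absurd hn h⟩
    · have := h3.2 hn
      have := h4.1 hk
      exact ⟨fun h => by omega, fun h => by omega, fun h => absurd hn h⟩
  · by_cases hk : c * m * c⁻¹ * n = 1
    · have := h3.1 hn
      have := h4.2 hk
      exact ⟨fun _ => ⟨hn, hk⟩, fun h => by omega, fun _ _ => by omega⟩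
    · have := h3.1 hn
      have := h4.1 hk
      exact ⟨fun h => by omega, fun _ => Or.inr ⟨hn, hk⟩, fun _ h => absurd h hk⟩

lemma nrm_two {w : X → FP X M} (hw : FinS w) {x y : X} (hxy : x ≠ y) (p q : FP X M) :
    nrm (Function.update (Function.update w y q) x p) + ell y (w y) + ell x (w x) =
      nrm w + ell y q + ell x p := by
  have h1 := nrm_update (hw.update y q) x p
  have h2 := nrm_update hw y q
  rw [Function.update_of_ne hxy] at h1
  omega

/-- the paths below a given level -/
def Conn (ρ : K →* Equiv.Perm (X → FP X M)) (α : X → X → M → K) (n : ℕ) : K → K → Prop :=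
  ReflTransGen (fun p q => Edge ρ α p q ∧ nrm (tup ρ p) < n ∧ nrm (tup ρ q) < n)

lemma Conn.symm (h : ARel α) (hρ : ∀ x y, x ≠ y → ∀ m w, ρ (α x y m) w = mv x y m w) {n : ℕ}
    {a b : K} (hc : Conn ρ α n a b) : Conn ρ α n b a := by
  induction hc with
  | refl => exact .refl
  | tail _ h' ih => exact .head ⟨edge_symm h hρ _ _ h'.1, h'.2.2, h'.2.1⟩ ih

/-- The triple configuration. -/
lemma triple (h : ARel α) (hρ : ∀ x y, x ≠ y → ∀ m w, ρ (α x y m) w = mv x y m w)
    {x y z : X} (hxy : x ≠ y) (hxz : x ≠ z) (hyz : y ≠ z) {k : K} (hk : FinS (tup ρ k))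
    {g v u : FP X M} {c c' n n' a b : M} (hg : NE z g) (hv : NS z v)
    (hn' : n' ≠ 1) (hne : NE y (g * lt z n' * v))
    (hz : tup ρ k z = g * lt z c') (hy : tup ρ k y = g * lt z n' * v * lt y c)
    (hx : tup ρ k x = g * lt z n' * v * lt y n * u) (hn : n ≠ 1) (hu : NS y u)
    (ha : c * a * c⁻¹ * n = 1) (hb : c' * b * c'⁻¹ * n' = 1) :
    Conn ρ α (nrm (tup ρ k)) (α x y a * k) (α y z b * k) ∧
    Conn ρ α (nrm (tup ρ k)) (α x y a * k) (α x z b * k) ∧
    Conn ρ α (nrm (tup ρ k)) (α y z b * k) (α x z b * k) := by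
  set w := tup ρ k with hw
  -- lengths
  have hlen : len (g * lt z n' * v) = len g + 1 + len v := len_mid hg hn' hv
  have hly : ell y (w y) = len g + 1 + len v := by
    rw [hy]
    unfold ell
    rw [tr_mul, tr_eq hne (n := 1) (by simp), hlen]
  have hlx : ell x (w x) = len g + 1 + len v + 1 + ell x u := by
    rw [hx, ell_mid hxy hne hn hu, hlen]
  have hlu : ell x (lt y n * u) ≤ 1 + ell x u := by
    have := ell_mul_le x (lt y n) u
    have h2 := len_lt_mul_le y n (1 : FP X M)
    rw [mul_one, len_one] at h2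
    omega
  have hgv : len (g * v) ≤ len g + len v := len_mul_le g v
  have l1 : ell y (g * v * lt y c) ≤ len g + len v := by
    have : ell y (g * v * lt y c) = ell y (g * v) := by
      unfold ell; rw [tr_mul]
    rw [this]
    exact (ell_le _ _).trans hgv
  have l2 : ell x (g * v * lt y n * u) ≤ len g + len v + 1 + ell x u := by
    have := ell_mul_le x (g * v) (lt y n * u)
    rw [← mul_assoc] at this
    omega
  have l3 : ell x (g * lt z n' * v * u) ≤ len g + 1 + len v + ell x u := by
    have := ell_mul_le x (g * lt z n' * v) u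
    omega
  have l4 : ell x (g * v * u) ≤ len g + len v + ell x u := by
    have := ell_mul_le x (g * v) u
    omega
  -- moves
  have eb : lt z (c' * b * c'⁻¹) = (lt z n')⁻¹ := by
    rw [← map_inv]
    congr 1
    exact (mul_eq_one_iff_eq_inv.1 hb)
  have ea : lt y (c * a * c⁻¹) = (lt y n)⁻¹ := by
    rw [← map_inv]
    congr 1
    exact (mul_eq_one_iff_eq_inv.1 ha)
  have mz : ∀ (t : X) (w' : X → FP X M), w' z = g * lt z c' →
      mv t z b w' = Function.update w' t (g * (lt z n')⁻¹ * g⁻¹ * w' t) := by
    intro t w' h'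
    unfold mv
    rw [h', ← eb]
    congr 1
    simp only [map_mul, map_inv]
    group
  have my : ∀ (t : X) (w' : X → FP X M), w' y = g * lt z n' * v * lt y c →
      mv t y a w' = Function.update w' t
        (g * lt z n' * v * (lt y n)⁻¹ * (g * lt z n' * v)⁻¹ * w' t) := by
    intro t w' h'
    unfold mv
    rw [h', ← ea]
    congr 1
    simp only [map_mul, map_inv]
    group
  have hUid : ∀ (t : X), Function.update w t (w t) = w := fun t => Function.update_eq_self t w
  have t1 : tup ρ (α y z b * k) = Function.update (Function.update w y (g * v * lt y c)) x (w x) := by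
    rw [tup_mul hρ hyz, mz y _ hz, hy]
    rw [Function.update_comm hxy.symm, hUid]
    congr 1
    group
  have t2 : tup ρ (α x z b * k) = Function.update (Function.update w y (w y)) x
      (g * v * lt y n * u) := by
    rw [tup_mul hρ hxz, mz x _ hz, hx, hUid]
    congr 1
    group
  have t3 : tup ρ (α x y a * k) = Function.update (Function.update w y (w y)) x
      (g * lt z n' * v * u) := by
    rw [tup_mul hρ hxy, my x _ hy, hx, hUid]
    congr 1
    group
  have t4 : tup ρ (α x z b * (α y z b * k)) =
      Function.update (Function.update w y (g * v * lt y c)) x (g * v * lt y n * u) := by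
    rw [tup_mul hρ hxz, t1, mz x _ (by
      rw [Function.update_of_ne hxz.symm, Function.update_of_ne hyz.symm]; exact hz)]
    rw [Function.update_idem, Function.update_self, hx]
    congr 1
    group
  have t5 : tup ρ (α y z b * (α x y a * k)) =
      Function.update (Function.update w y (g * v * lt y c)) x (g * lt z n' * v * u) := by
    rw [tup_mul hρ hyz, t3, hUid, mz y _ (by
      rw [Function.update_of_ne hxz.symm]; exact hz)]
    have e : g * (lt z n')⁻¹ * g⁻¹ * (g * lt z n' * v * lt y c) = g * v * lt y c := by group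
    rw [Function.update_of_ne hxy.symm, hy, Function.update_comm hxy.symm, e]
  have t6 : tup ρ (α x z b * (α y z b * (α x y a * k))) =
      Function.update (Function.update w y (g * v * lt y c)) x (g * v * u) := by
    rw [tup_mul hρ hxz, t5, mz x _ (by
      rw [Function.update_of_ne hxz.symm, Function.update_of_ne hyz.symm]; exact hz)]
    rw [Function.update_idem, Function.update_self]
    congr 1
    group
  -- norms
  have n1 : nrm (tup ρ (α y z b * k)) < nrm w := by
    have := nrm_two hk hxy (w x) (g * v * lt y c)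
    rw [t1]; omega
  have n2 : nrm (tup ρ (α x z b * k)) < nrm w := by
    have := nrm_two hk hxy (g * v * lt y n * u) (w y)
    rw [t2]; omega
  have n3 : nrm (tup ρ (α x y a * k)) < nrm w := by
    have := nrm_two hk hxy (g * lt z n' * v * u) (w y)
    rw [t3]; omega
  have n4 : nrm (tup ρ (α x z b * (α y z b * k))) < nrm w := by
    have := nrm_two hk hxy (g * v * lt y n * u) (g * v * lt y c)
    rw [t4]; omega
  have n5 : nrm (tup ρ (α y z b * (α x y a * k))) < nrm w := by
    have := nrm_two hk hxy (g * lt z n' * v * u) (g * v * lt y c)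
    rw [t5]; omega
  have n6 : nrm (tup ρ (α x z b * (α y z b * (α x y a * k)))) < nrm w := by
    have := nrm_two hk hxy (g * v * u) (g * v * lt y c)
    rw [t6]; omega
  -- finiteness
  have f1 : FinS (tup ρ (α y z b * k)) := by rw [t1]; exact (hk.update _ _).update _ _
  have f2 : FinS (tup ρ (α x z b * k)) := by rw [t2]; exact (hk.update _ _).update _ _
  have f3 : FinS (tup ρ (α x y a * k)) := by rw [t3]; exact (hk.update _ _).update _ _
  have f4 : FinS (tup ρ (α x z b * (α y z b * k))) := by rw [t4]; exact (hk.update _ _).update _ _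
  have f5 : FinS (tup ρ (α y z b * (α x y a * k))) := by rw [t5]; exact (hk.update _ _).update _ _
  -- edges
  have e1 : Conn ρ α (nrm w) (α y z b * k) (α x z b * (α y z b * k)) :=
    .single ⟨⟨f1, x, z, b, hxz, rfl⟩, n1, n4⟩
  have e2 : Conn ρ α (nrm w) (α x z b * k) (α x z b * (α y z b * k)) := by
    refine .single ⟨⟨f2, y, z, b, hyz, ?_⟩, n2, n4⟩
    rw [← mul_assoc, ← mul_assoc, h.comm x z y z hxz hyz hxy hyz.symm hxz.symm]
  have e3 : Conn ρ α (nrm w) (α x y a * k) (α y z b * (α x y a * k)) :=
    .single ⟨⟨f3, y, z, b, hyz, rfl⟩, n3, n5⟩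
  have e4 : Conn ρ α (nrm w) (α y z b * (α x y a * k)) (α x z b * (α y z b * (α x y a * k))) :=
    .single ⟨⟨f5, x, z, b, hxz, rfl⟩, n5, n6⟩
  have e5 : Conn ρ α (nrm w) (α x z b * (α y z b * k)) (α x z b * (α y z b * (α x y a * k))) := by
    refine .single ⟨⟨f4, x, y, a, hxy, ?_⟩, n4, n6⟩
    have := h.tri x y z hxy hxz hyz a b
    calc α x z b * (α y z b * (α x y a * k)) = (α x z b * α y z b * α x y a) * k := by group
      _ = _ := by rw [← this]; group
  have c1 : Conn ρ α (nrm w) (α x y a * k) (α x z b * (α y z b * k)) :=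
    (e3.trans e4).trans (e5.symm h hρ)
  exact ⟨c1.trans (e1.symm h hρ), c1.trans (e2.symm h hρ), e1.trans (e2.symm h hρ)⟩

/-- **Faithfulness.** An element of the register group that fixes the trivial tuple over the free
product is trivial. -/
theorem register_faithful (h : ARel α)
    (hρ : ∀ x y, x ≠ y → ∀ m w, ρ (α x y m) w = mv x y m w) (k : K)
    (hk : k ∈ Subgroup.closure {a | ∃ x y m, x ≠ y ∧ a = α x y m}) (h1 : ρ k 1 = 1) : k = 1 := by
  classical
  have hF1 : FinS (tup ρ (1 : K)) := by
    simp [tup, FinS]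
  have hpath : FinS (tup ρ k) ∧ ReflTransGen (Edge ρ α) 1 k := by
    clear h1
    induction hk using Subgroup.closure_induction_left with
    | one => exact ⟨hF1, .refl⟩
    | mul_left a ha b hb ih =>
      obtain ⟨x, y, m, hxy, rfl⟩ := ha
      refine ⟨?_, ih.2.tail ⟨ih.1, x, y, m, hxy, rfl⟩⟩
      rw [tup_mul hρ hxy]
      exact ih.1.update _ _
    | inv_mul_cancel a ha b hb ih =>
      obtain ⟨x, y, m, hxy, rfl⟩ := ha
      rw [h.inv hxy]
      refine ⟨?_, ih.2.tail ⟨ih.1, x, y, m⁻¹, hxy, rfl⟩⟩
      rw [tup_mul hρ hxy]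
      exact ih.1.update _ _
  have hN1 : nrm (tup ρ (1 : K)) = 0 := by
    simp [nrm, tup]
  have hNk : nrm (tup ρ k) = 0 := by
    simp only [nrm, tup, h1, Pi.one_apply, ell_one, finsum_zero]
  refine (newman (Edge ρ α) (fun k => nrm (tup ρ k)) ?_ (edge_symm h hρ) ?_ 1 k hpath.2 hN1 hNk).symm
  · -- plateaus
    rintro a b ⟨hf, x, y, m, hxy, rfl⟩ heq
    obtain ⟨g, u, c, n, hd⟩ := exists_dat (tup ρ a) x y
    rw [tup_mul hρ hxy] at heq
    rcases (hd.down (m := m) hxy hf).2.1 heq.symm with rfl | ⟨hn, hk⟩
    · left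
      rw [h.one hxy, one_mul]
    · right
      have hd' := (hd.down (m := c⁻¹ * n⁻¹ * c) hxy hf).2.2 hn (by group)
      refine ⟨α x y (c⁻¹ * n⁻¹ * c) * a, ⟨hf, x, y, _, hxy, rfl⟩, ?_, ?_⟩
      · refine ⟨?_, x, y, c⁻¹ * n⁻¹ * c * m⁻¹, hxy, ?_⟩
        · rw [tup_mul hρ hxy]
          exact hf.update _ _
        · rw [← mul_assoc, ← h.mul x y hxy]
          congr 2
          group
      · rw [tup_mul hρ hxy]
        exact hd'
  · -- peaks
    rintro k _ _ ⟨hf, x, y, a, hxy, rfl⟩ ⟨-, x', y', b, hxy', rfl⟩ hlt hlt'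
    change Conn ρ α (nrm (tup ρ k)) _ _
    obtain ⟨g, u, c, n, hd⟩ := exists_dat (tup ρ k) x y
    obtain ⟨g', u', c', n', hd'⟩ := exists_dat (tup ρ k) x' y'
    rw [tup_mul hρ hxy] at hlt
    rw [tup_mul hρ hxy'] at hlt'
    obtain ⟨hn, ha⟩ := (hd.down hxy hf).1 hlt
    obtain ⟨hn', hb⟩ := (hd'.down hxy' hf).1 hlt'
    -- the key configuration: `(x, y)` and `(y, z)` are both reductions
    have config : ∀ {x y z : X} (hxy : x ≠ y) (hyz : y ≠ z) {a b : M} {g u g' u' : FP X M}
        {c n c' n' : M} (hd : Dat (tup ρ k) x y g u c n) (hd' : Dat (tup ρ k) y z g' u' c' n')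
        (hn : n ≠ 1) (hn' : n' ≠ 1) (ha : c * a * c⁻¹ * n = 1) (hb : c' * b * c'⁻¹ * n' = 1),
        Conn ρ α (nrm (tup ρ k)) (α x y a * k) (α y z b * k) := by
      intro x y z hxy hyz a b g u g' u' c n c' n' hd hd' hn hn' ha hb
      have hxz : x ≠ z := by
        rintro rfl
        have e1 : ell x (tup ρ k x) = len g + 1 + ell x u := by
          rw [hd.hx]; exact ell_mid hxy hd.ne hn hd.ns
        have e2 : ell y (tup ρ k y) = len g' + 1 + ell y u' := by
          rw [hd'.hx]; exact ell_mid hyz hd'.ne hn' hd'.ns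
        have e3 : ell y (tup ρ k y) = len g := by
          rw [hd.hy]; unfold ell; rw [tr_eq hd.ne rfl]
        have e4 : ell x (tup ρ k x) = len g' := by
          rw [hd'.hy]; unfold ell; rw [tr_eq hd'.ne rfl]
        omega
      have hg : g = g' * lt z n' * tr y u' := by
        have e1 : tr y (tup ρ k y) = g := tr_eq hd.ne hd.hy
        rw [← e1, hd'.hx, tr_mid hyz hd'.ne hn' hd'.ns]
      refine (triple h hρ hxy hxz hyz hf (g := g') (v := tr y u') (u := u) (c := c) (c' := c')
        (n := n) (n' := n') hd'.ne (NS_tr hd'.ns) hn' (hg ▸ hd.ne) hd'.hy (hg ▸ hd.hy) (hg ▸ hd.hx)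
        hn hd.ns ha hb).1
    have config2 : ∀ {x y z : X} (hxy : x ≠ y) (hxz : x ≠ z) (hyz : y ≠ z) {a b : M}
        {g u g' u' : FP X M} {c n c' n' : M} (hd : Dat (tup ρ k) x y g u c n)
        (hd' : Dat (tup ρ k) x z g' u' c' n')
        (hn : n ≠ 1) (hn' : n' ≠ 1) (ha : c * a * c⁻¹ * n = 1) (hb : c' * b * c'⁻¹ * n' = 1)
        (hle : len g' ≤ len g),
        Conn ρ α (nrm (tup ρ k)) (α x y a * k) (α x z b * k) := by
      intro x y z hxy hxz hyz a b g u g' u' c n c' n' hd hd' hn hn' ha hb hle
      obtain ⟨v, hv, hg⟩ := prefix_lemma hyz hd.ne hd'.ne hn hn' hd.ns hd'.ns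
        (hd.hx.symm.trans hd'.hx) hle
      exact (triple h hρ hxy hxz hyz hf (g := g') (v := v) (u := u) (c := c) (c' := c')
        (n := n) (n' := n') hd'.ne hv hn' (hg ▸ hd.ne) hd'.hy (hg ▸ hd.hy) (hg ▸ hd.hx)
        hn hd.ns ha hb).2.1
    by_cases hxx : x = x'
    · subst hxx
      by_cases hyy : y = y'
      · subst hyy
        have e1 : g = g' := by
          rw [← tr_eq hd.ne hd.hy, ← tr_eq hd'.ne hd'.hy]
        subst e1
        have e2 : c = c' := (right_unique hd.ne hd'.ne (hd.hy.symm.trans hd'.hy)).2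
        subst e2
        have e3 : n = n' := by
          have := hd.hx.symm.trans hd'.hx
          rw [mul_assoc, mul_assoc] at this
          exact (left_unique hd.ns hd'.ns (mul_left_cancel this)).1
        subst e3
        have e4 : a = b := by
          have := ha.trans hb.symm
          simpa using this
        subst e4
        exact .refl
      · rcases le_total (len g') (len g) with hle | hle
        · exact config2 hxy hxy' hyy hd hd' hn hn' ha hb hle
        · exact (config2 hxy' hxy (Ne.symm hyy) hd' hd hn' hn hb ha hle).symm h hρ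
    · by_cases hyx : y = x'
      · subst hyx
        exact config hxy hxy' hd hd' hn hn' ha hb
      · by_cases hyx' : y' = x
        · subst hyx'
          exact (config hxy' hxy hd' hd hn' hn hb ha).symm h hρ
        · -- commuting moves
          have hc := h.comm x y x' y' hxy hxy' hxx hyx hyx' a b
          have ek : tup ρ (α x' y' b * (α x y a * k)) =
              Function.update (tup ρ (α x y a * k)) x' (tup ρ (α x' y' b * k) x') := by
            rw [tup_mul hρ hxy', tup_mul hρ hxy', tup_mul hρ hxy]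
            unfold mv
            rw [Function.update_self, Function.update_of_ne hyx', Function.update_of_ne (Ne.symm hxx)]
          have hFa : FinS (tup ρ (α x y a * k)) := by
            rw [tup_mul hρ hxy]; exact hf.update _ _
          have hFb : FinS (tup ρ (α x' y' b * k)) := by
            rw [tup_mul hρ hxy']; exact hf.update _ _
          have hna : nrm (tup ρ (α x y a * k)) < nrm (tup ρ k) := by rw [tup_mul hρ hxy]; exact hlt
          have hnb : nrm (tup ρ (α x' y' b * k)) < nrm (tup ρ k) := by
            rw [tup_mul hρ hxy']; exact hlt'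
          have e1 := nrm_update hFa x' (tup ρ (α x' y' b * k) x')
          rw [← ek] at e1
          have e2 := nrm_update hf x' (tup ρ (α x' y' b * k) x')
          have e3 : Function.update (tup ρ k) x' (tup ρ (α x' y' b * k) x') =
              tup ρ (α x' y' b * k) := by
            rw [tup_mul hρ hxy']; unfold mv; rw [Function.update_self]
          rw [e3] at e2
          have e4 : tup ρ (α x y a * k) x' = tup ρ k x' := by
            rw [tup_mul hρ hxy]; unfold mv; rw [Function.update_of_ne (Ne.symm hxx)]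
          rw [e4] at e1
          have hlt3 : nrm (tup ρ (α x' y' b * (α x y a * k))) < nrm (tup ρ k) := by omega
          refine ReflTransGen.trans (b := α x' y' b * (α x y a * k)) ?_ ?_
          · exact .single ⟨⟨hFa, x', y', b, hxy', rfl⟩, hna, hlt3⟩
          · refine Conn.symm h hρ (.single ⟨⟨hFb, x, y, a, hxy, ?_⟩, hnb, hlt3⟩)
            rw [← mul_assoc, ← mul_assoc, hc]

end Main

end Pool.Agent.Helper13
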