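import Pool.Agent.Helper13.FRWords

set_option autoImplicit false

/-!
# Rewriting: the register group acts faithfully
-/

namespace Pool.Agent.Helper13

open Relation

section Newman

variable {V : Type*} (E : V → V → Prop) (N : V → ℕ)

/-- A graph with a norm in which peaks and plateaus can be bypassed from below: two vertices of
norm zero in the same component are equal. -/
theorem newman
    (level : ∀ a b, E a b → N a = N b → a = b ∨ ∃ c, E a c ∧ E b c ∧ N c < N a)
    (symm : ∀ a b, E a b → E b a)
    (loc : ∀ a b c, E a b → E a c → N b < N a → N c < N a →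
      ReflTransGen (fun p q => E p q ∧ N p < N a ∧ N q < N a) b c)
    (a b : V) (hab : ReflTransGen E a b) (ha : N a = 0) (hb : N b = 0) : a = b := by
  classical
  let R : V → V → Prop := fun a b => E a b ∧ N b < N a
  let Irr : V → Prop := fun a => ∀ b, ¬ R a b
  let Nf : V → V → Prop := fun a c => ReflTransGen R a c ∧ Irr c
  have hex : ∀ n a, N a = n → ∃ c, Nf a c := by
    intro n
    induction n using Nat.strong_induction_on with
    | _ n ih =>
      intro a han
      by_cases h : Irr a
      · exact ⟨a, .refl, h⟩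
      · obtain ⟨b, hb⟩ : ∃ b, R a b := by
          by_contra hcon
          exact h fun b hb => hcon ⟨b, hb⟩
        obtain ⟨c, hc⟩ := ih (N b) (han ▸ hb.2) b rfl
        exact ⟨c, .head hb hc.1, hc.2⟩
  have hedge : ∀ a b, E a b → ∃ c, Nf a c ∧ Nf b c := by
    intro a b hab
    rcases lt_trichotomy (N a) (N b) with h | h | h
    · obtain ⟨c, hc⟩ := hex _ a rfl
      exact ⟨c, hc, .head ⟨symm _ _ hab, h⟩ hc.1, hc.2⟩
    · rcases level a b hab h with rfl | ⟨c, hac, hbc, hlt⟩
      · obtain ⟨c, hc⟩ := hex _ a rfl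
        exact ⟨c, hc, hc⟩
      · obtain ⟨d, hd⟩ := hex _ c rfl
        exact ⟨d, ⟨.head ⟨hac, hlt⟩ hd.1, hd.2⟩, ⟨.head ⟨hbc, h ▸ hlt⟩ hd.1, hd.2⟩⟩
    · obtain ⟨c, hc⟩ := hex _ b rfl
      exact ⟨c, ⟨.head ⟨hab, h⟩ hc.1, hc.2⟩, hc⟩
  have huniq : ∀ n a, N a = n → ∀ c c', Nf a c → Nf a c' → c = c' := by
    intro n
    induction n using Nat.strong_induction_on with
    | _ n ih =>
      intro a han c c' hc hc'
      have conn : ∀ b c, ReflTransGen (fun p q => E p q ∧ N p < N a ∧ N q < N a) b c →
          ∀ d, Nf b d → Nf c d := by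
        intro b c h d hd
        induction h with
        | refl => exact hd
        | tail _ h ih' =>
          obtain ⟨hE, hp, hq⟩ := h
          obtain ⟨e, he1, he2⟩ := hedge _ _ hE
          rw [ih _ (han ▸ hp) _ rfl d e ih' he1]
          exact he2
      rcases ReflTransGen.cases_head hc.1 with rfl | ⟨b, hab, hbc⟩
      · rcases ReflTransGen.cases_head hc'.1 with rfl | ⟨b', hab', hbc'⟩
        · rfl
        · exact absurd hab' (hc.2 b')
      · rcases ReflTransGen.cases_head hc'.1 with rfl | ⟨b', hab', hbc'⟩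
        · exact absurd hab (hc'.2 b)
        · have h := loc a b b' hab.1 hab'.1 hab.2 hab'.2
          have h1 : Nf b' c := conn b b' h c ⟨hbc, hc.2⟩
          exact ih _ (han ▸ hab'.2) b' rfl c c' h1 ⟨hbc', hc'.2⟩
  have hirr : ∀ a, N a = 0 → Irr a := fun a ha b hb => by
    have := hb.2
    omega
  have hNf' : ∀ p, ReflTransGen E a p → Nf p a := by
    intro p hp
    induction hp with
    | refl => exact ⟨.refl, hirr a ha⟩
    | tail _ h ih =>
      obtain ⟨c, hc1, hc2⟩ := hedge _ _ h
      rw [huniq _ _ rfl _ _ ih hc1]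
      exact hc2
  have hNf := hNf' b hab
  rcases ReflTransGen.cases_head hNf.1 with h | ⟨c, hc, -⟩
  · exact h.symm
  · exact absurd hc (hirr b hb c)

end Newman

end Pool.Agent.Helper13
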