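import Mathlib

set_option autoImplicit false

/-!
# Reduced words in a free product of copies of one group
-/

namespace Pool.Agent.Helper13

open Monoid Monoid.CoprodI

/-- The free product of copies of `M` indexed by `X`. -/
abbrev FP (X : Type*) (M : Type*) [Group M] := Monoid.CoprodI (fun _ : X => M)

namespace FRW

variable {X : Type*} {M : Type*} [Group M]

/-- The letter `m` in the copy of index `x`. -/
def lt (x : X) : M →* FP X M := CoprodI.of (M := fun _ : X => M) (i := x)

/-- A reduced list of letters. -/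
def Rd (l : List (Σ _ : X, M)) : Prop :=
  (∀ s ∈ l, s.2 ≠ 1) ∧ l.IsChain (fun a b => a.1 ≠ b.1)

/-- The product of a list of letters. -/
def pr (l : List (Σ _ : X, M)) : FP X M := (l.map fun s => lt s.1 s.2).prod

open Classical in
/-- The reduced word of an element. -/
noncomputable def wd (p : FP X M) : List (Σ _ : X, M) := (Word.equiv p).toList

lemma pr_wd (p : FP X M) : pr (wd p) = p := by
  classical
  exact Word.equiv.left_inv p

lemma rd_wd (p : FP X M) : Rd (wd p) := by
  classical
  exact ⟨(Word.equiv p).ne_one, (Word.equiv p).chain_ne⟩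

lemma wd_pr {l : List (Σ _ : X, M)} (h : Rd l) : wd (pr l) = l := by
  classical
  have := Word.equiv.right_inv (⟨l, h.1, h.2⟩ : Word (fun _ : X => M))
  have h2 : Word.equiv (pr l) = (⟨l, h.1, h.2⟩ : Word (fun _ : X => M)) := this
  unfold wd
  convert congrArg Word.toList h2

lemma wd_inj {p q : FP X M} (h : wd p = wd q) : p = q := by
  rw [← pr_wd p, h, pr_wd]

lemma pr_append (l l' : List (Σ _ : X, M)) : pr (l ++ l') = pr l * pr l' := by
  simp [pr]

@[simp] lemma pr_nil : pr ([] : List (Σ _ : X, M)) = 1 := rfl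

@[simp] lemma pr_cons (s : Σ _ : X, M) (l : List (Σ _ : X, M)) : pr (s :: l) = lt s.1 s.2 * pr l := by
  simp [pr]

lemma rd_nil : Rd ([] : List (Σ _ : X, M)) := ⟨by simp, List.isChain_nil⟩

@[simp] lemma wd_one : wd (1 : FP X M) = [] := by
  rw [← pr_nil, wd_pr rd_nil]

lemma rd_append {l l' : List (Σ _ : X, M)} :
    Rd (l ++ l') ↔ Rd l ∧ Rd l' ∧ ∀ a ∈ l.getLast?, ∀ b ∈ l'.head?, a.1 ≠ b.1 := by
  unfold Rd
  rw [List.isChain_append]
  simp only [List.mem_append]
  constructor
  · rintro ⟨h1, h2, h3, h4⟩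
    exact ⟨⟨fun s hs => h1 s (Or.inl hs), h2⟩, ⟨fun s hs => h1 s (Or.inr hs), h3⟩, h4⟩
  · rintro ⟨⟨h1, h2⟩, ⟨h3, h4⟩, h5⟩
    exact ⟨fun s hs => hs.elim (h1 s) (h3 s), h2, h4, h5⟩

lemma rd_cons {s : Σ _ : X, M} {l : List (Σ _ : X, M)} :
    Rd (s :: l) ↔ s.2 ≠ 1 ∧ Rd l ∧ ∀ b ∈ l.head?, s.1 ≠ b.1 := by
  have := rd_append (l := [s]) (l' := l)
  simp only [List.singleton_append] at this
  rw [this]
  constructor
  · rintro ⟨h1, h2, h3⟩
    exact ⟨h1.1 s (by simp), h2, h3 s (by simp)⟩
  · rintro ⟨h1, h2, h3⟩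
    refine ⟨⟨by simpa using h1, List.isChain_singleton _⟩, h2, ?_⟩
    intro a ha
    simp only [List.getLast?_singleton, Option.mem_def, Option.some.injEq] at ha
    subst ha
    exact h3

/-- `u` does not start with a letter of index `y`. -/
def NS (y : X) (u : FP X M) : Prop := ∀ s ∈ (wd u).head?, y ≠ s.1

/-- `u` does not end with a letter of index `y`. -/
def NE (y : X) (u : FP X M) : Prop := ∀ s ∈ (wd u).getLast?, s.1 ≠ y

/-- Length of the reduced word. -/
noncomputable def len (p : FP X M) : ℕ := (wd p).length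

@[simp] lemma len_one : len (1 : FP X M) = 0 := by simp [len]

lemma NS_one (y : X) : NS y (1 : FP X M) := by simp [NS]

lemma NE_one (y : X) : NE y (1 : FP X M) := by simp [NE]

lemma len_eq_zero {p : FP X M} (h : len p = 0) : p = 1 := by
  apply wd_inj
  rw [wd_one]
  exact List.length_eq_zero_iff.1 h

/-- Concatenation without cancellation, with a letter in the middle. -/
lemma wd_mid {g u : FP X M} {y : X} {n : M} (hg : NE y g) (hn : n ≠ 1) (hu : NS y u) :
    wd (g * lt y n * u) = wd g ++ ⟨y, n⟩ :: wd u := by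
  have h : Rd (wd g ++ ⟨y, n⟩ :: wd u) := by
    rw [rd_append, rd_cons]
    refine ⟨rd_wd g, ⟨hn, rd_wd u, hu⟩, ?_⟩
    intro a ha b hb
    simp only [List.head?_cons, Option.mem_def, Option.some.injEq] at hb
    subst hb
    exact hg a ha
  rw [← wd_pr h, pr_append, pr_cons, pr_wd, pr_wd, mul_assoc]

lemma wd_left {u : FP X M} {y : X} {n : M} (hn : n ≠ 1) (hu : NS y u) :
    wd (lt y n * u) = ⟨y, n⟩ :: wd u := by
  have := wd_mid (NE_one y) hn hu
  simpa using this

lemma wd_right {g : FP X M} {y : X} {n : M} (hg : NE y g) (hn : n ≠ 1) :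
    wd (g * lt y n) = wd g ++ [⟨y, n⟩] := by
  have := wd_mid hg hn (NS_one y)
  simpa using this

lemma len_mid {g u : FP X M} {y : X} {n : M} (hg : NE y g) (hn : n ≠ 1) (hu : NS y u) :
    len (g * lt y n * u) = len g + 1 + len u := by
  unfold len
  rw [wd_mid hg hn hu]
  simp; omega

/-- Left decomposition. -/
lemma exists_left (y : X) (p : FP X M) : ∃ (n : M) (u : FP X M), p = lt y n * u ∧ NS y u := by
  classical
  rcases h : wd p with _ | ⟨s, l⟩
  · refine ⟨1, p, by simp, ?_⟩
    unfold NS
    rw [h]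
    simp
  · by_cases hs : y = s.1
    · have hrd := rd_wd p
      rw [h, rd_cons] at hrd
      refine ⟨s.2, pr l, ?_, ?_⟩
      · rw [← pr_wd p, h, pr_cons, hs]
      · unfold NS
        rw [wd_pr hrd.2.1, hs]
        exact hrd.2.2
    · refine ⟨1, p, by simp, ?_⟩
      unfold NS
      rw [h]
      simpa using hs

/-- Right decomposition. -/
lemma exists_right (y : X) (p : FP X M) : ∃ (g : FP X M) (n : M), p = g * lt y n ∧ NE y g := by
  classical
  rcases List.eq_nil_or_concat (wd p) with h | ⟨l, s, h⟩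
  · refine ⟨p, 1, by simp, ?_⟩
    unfold NE
    rw [h]
    simp
  · rw [List.concat_eq_append] at h
    by_cases hs : s.1 = y
    · have hrd := rd_wd p
      rw [h, rd_append] at hrd
      refine ⟨pr l, s.2, ?_, ?_⟩
      · rw [← pr_wd p, h, pr_append, pr_cons, hs]; simp
      · unfold NE
        rw [wd_pr hrd.1, ← hs]
        intro a ha
        exact hrd.2.2 a ha s (by simp)
    · refine ⟨p, 1, by simp, ?_⟩
      unfold NE
      rw [h]
      simpa using hs

lemma left_unique {y : X} {n n' : M} {u u' : FP X M} (hu : NS y u) (hu' : NS y u')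
    (h : lt y n * u = lt y n' * u') : n = n' ∧ u = u' := by
  have key : n = n' := by
    by_contra hne
    have h1 : lt y (n'⁻¹ * n) * u = u' := by
      rw [map_mul, map_inv, mul_assoc, h, inv_mul_cancel_left]
    have h2 : n'⁻¹ * n ≠ 1 := fun h => hne (inv_mul_eq_one.1 h).symm
    have h3 := wd_left h2 hu
    rw [h1] at h3
    unfold NS at hu'
    rw [h3] at hu'
    exact hu' ⟨y, n'⁻¹ * n⟩ (by simp) rfl
  subst key
  exact ⟨rfl, mul_left_cancel h⟩

lemma right_unique {y : X} {n n' : M} {g g' : FP X M} (hg : NE y g) (hg' : NE y g')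
    (h : g * lt y n = g' * lt y n') : g = g' ∧ n = n' := by
  have key : n = n' := by
    by_contra hne
    have h1 : g * lt y (n * n'⁻¹) = g' := by
      rw [map_mul, map_inv, ← mul_assoc, h, mul_inv_cancel_right]
    have h2 : n * n'⁻¹ ≠ 1 := fun h => hne (mul_inv_eq_one.1 h)
    have h3 := wd_right hg h2
    rw [h1] at h3
    unfold NE at hg'
    rw [h3] at hg'
    exact hg' ⟨y, n * n'⁻¹⟩ (by simp) rfl
  subst key
  exact ⟨mul_right_cancel h, rfl⟩

lemma len_lt_mul_le (y : X) (n : M) (p : FP X M) : len (lt y n * p) ≤ 1 + len p := by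
  obtain ⟨n', u, rfl, hu⟩ := exists_left y p
  have h0 : len u ≤ len (lt y n' * u) := by
    by_cases h : n' = 1
    · simp [h]
    · unfold len; rw [wd_left h hu]; simp
  rw [← mul_assoc, ← map_mul]
  by_cases h : n * n' = 1
  · rw [h, map_one, one_mul]; omega
  · have : len (lt y (n * n') * u) = len u + 1 := by
      unfold len; rw [wd_left h hu]; simp
    omega

lemma len_pr_mul_le (l : List (Σ _ : X, M)) (p : FP X M) : len (pr l * p) ≤ l.length + len p := by
  induction l with
  | nil => simp
  | cons s l ih =>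
    rw [pr_cons, mul_assoc]
    have := len_lt_mul_le s.1 s.2 (pr l * p)
    simp only [List.length_cons]
    omega

lemma len_mul_le (p q : FP X M) : len (p * q) ≤ len p + len q := by
  have := len_pr_mul_le (wd p) q
  rwa [pr_wd] at this

/-- The element with the final letter of index `x` removed. -/
noncomputable def tr (x : X) (p : FP X M) : FP X M := (exists_right x p).choose

/-- The removed letter. -/
noncomputable def lst (x : X) (p : FP X M) : M := (exists_right x p).choose_spec.choose

lemma tr_mul_lst (x : X) (p : FP X M) : p = tr x p * lt x (lst x p) :=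
  (exists_right x p).choose_spec.choose_spec.1

lemma NE_tr (x : X) (p : FP X M) : NE x (tr x p) := (exists_right x p).choose_spec.choose_spec.2

lemma tr_eq {x : X} {p g : FP X M} {n : M} (hg : NE x g) (h : p = g * lt x n) : tr x p = g := by
  have := tr_mul_lst x p
  rw [h] at this
  have := (right_unique hg (NE_tr x _) this).1
  rw [h]
  exact this.symm

lemma tr_mul (x : X) (p : FP X M) (m : M) : tr x (p * lt x m) = tr x p := by
  apply tr_eq (NE_tr x p) (n := lst x p * m)
  rw [map_mul, ← mul_assoc, ← tr_mul_lst]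

/-- Trimmed length. -/
noncomputable def ell (x : X) (p : FP X M) : ℕ := len (tr x p)

@[simp] lemma ell_one (x : X) : ell x (1 : FP X M) = 0 := by
  unfold ell
  rw [tr_eq (NE_one x) (n := 1) (by simp)]
  simp

lemma ell_le (x : X) (p : FP X M) : ell x p ≤ len p := by
  unfold ell
  obtain ⟨g, n, h, hg⟩ := exists_right x p
  rw [tr_eq hg h, h]
  by_cases hn : n = 1
  · simp [hn]
  · unfold len; rw [wd_right hg hn]; simp

lemma ell_mul_le (x : X) (g u : FP X M) : ell x (g * u) ≤ len g + ell x u := by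
  have h1 : ell x (g * u) = ell x (g * tr x u) := by
    unfold ell
    conv_lhs => rw [tr_mul_lst x u, ← mul_assoc, tr_mul]
  rw [h1]
  exact (ell_le _ _).trans (len_mul_le _ _)

/-- A nonempty reduced concatenation ends where its last factor ends. -/
lemma NE_mid {g u : FP X M} {x y : X} {n : M} (hxy : x ≠ y) (hg : NE y g) (hn : n ≠ 1)
    (hu : NS y u) (hu' : NE x u) : NE x (g * lt y n * u) := by
  unfold NE
  rw [wd_mid hg hn hu]
  intro s hs
  rw [List.getLast?_append, List.getLast?_cons] at hs
  simp only [Option.some_or, Option.mem_def, Option.some.injEq] at hs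
  rcases h : (wd u).getLast? with _ | t
  · rw [h] at hs
    simp only [Option.getD_none] at hs
    subst hs
    exact hxy.symm
  · rw [h] at hs
    simp only [Option.getD_some] at hs
    subst hs
    exact hu' t h

lemma NS_mid {g u : FP X M} {x y : X} {n : M} (hxy : x ≠ y) (hg : NE y g) (hn : n ≠ 1)
    (hu : NS y u) (hg' : NS x g) : NS x (g * lt y n * u) := by
  unfold NS
  rw [wd_mid hg hn hu]
  intro s hs
  rcases h : (wd g) with _ | ⟨t, l⟩
  · rw [h] at hs
    simp only [List.nil_append, List.head?_cons, Option.mem_def, Option.some.injEq] at hs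
    subst hs
    exact hxy
  · rw [h] at hs
    simp only [List.cons_append, List.head?_cons, Option.mem_def, Option.some.injEq] at hs
    subst hs
    exact hg' t (by rw [h]; simp)

lemma NS_tr {x y : X} {u : FP X M} (hu : NS y u) : NS y (tr x u) := by
  have h := tr_mul_lst x u
  by_cases hn : lst x u = 1
  · rw [hn, map_one, mul_one] at h
    rwa [← h]
  · have h2 := wd_right (NE_tr x u) hn
    rw [← h] at h2
    unfold NS at hu ⊢
    rw [h2] at hu
    intro s hs
    apply hu s
    rcases h3 : wd (tr x u) with _ | ⟨t, l⟩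
    · rw [h3] at hs; simp at hs
    · rw [h3] at hs; simpa using hs

/-- Trimmed length of a reduced concatenation. -/
lemma tr_mid {g u : FP X M} {x y : X} {n : M} (hxy : x ≠ y) (hg : NE y g) (hn : n ≠ 1)
    (hu : NS y u) : tr x (g * lt y n * u) = g * lt y n * tr x u := by
  apply tr_eq (n := lst x u)
  · exact NE_mid hxy hg hn (NS_tr hu) (NE_tr x u)
  · conv_lhs => rw [tr_mul_lst x u, ← mul_assoc]

lemma ell_mid {g u : FP X M} {x y : X} {n : M} (hxy : x ≠ y) (hg : NE y g) (hn : n ≠ 1)
    (hu : NS y u) : ell x (g * lt y n * u) = len g + 1 + ell x u := by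
  unfold ell
  rw [tr_mid hxy hg hn hu, len_mid hg hn (NS_tr hu)]

/-- **Prefix lemma.** -/
lemma prefix_lemma {y z : X} (hyz : y ≠ z) {g g' u u' : FP X M} {n n' : M}
    (hg : NE y g) (hg' : NE z g') (hn : n ≠ 1) (hn' : n' ≠ 1) (hu : NS y u) (hu' : NS z u')
    (h : g * lt y n * u = g' * lt z n' * u') (hle : len g' ≤ len g) :
    ∃ v, NS z v ∧ g = g' * lt z n' * v := by
  have h1 := congrArg wd h
  rw [wd_mid hg hn hu, wd_mid hg' hn' hu'] at h1
  obtain ⟨r, hr⟩ : wd g' <+: wd g :=
    List.prefix_of_prefix_length_le (l₃ := wd g ++ ⟨y, n⟩ :: wd u)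
      (by rw [h1]; exact List.prefix_append _ _) (List.prefix_append _ _) hle
  rw [← hr, List.append_assoc, List.append_cancel_left_eq] at h1
  rcases r with _ | ⟨s, r⟩
  · simp only [List.nil_append, List.cons.injEq] at h1
    exact absurd (congrArg Sigma.fst h1.1) hyz
  · simp only [List.cons_append, List.cons.injEq] at h1
    obtain ⟨rfl, -⟩ := h1
    have hrd := rd_wd g
    rw [← hr, rd_append, rd_cons] at hrd
    refine ⟨pr r, ?_, ?_⟩
    · unfold NS
      rw [wd_pr hrd.2.1.2.1]
      exact hrd.2.1.2.2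
    · rw [← pr_wd g, ← hr, pr_append, pr_wd, pr_cons, mul_assoc]

end FRW

end Pool.Agent.Helper13
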