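import Mathlib

set_option autoImplicit false

/-!
# Permutation groups containing all finitary permutations
-/

namespace Pool.Agent.Helper13

open Subgroup Equiv

section Near

variable {Ω : Type*}

/-- Two permutations agree outside a finite set. -/
def Near (f g : Perm Ω) : Prop := {x | f x ≠ g x}.Finite

lemma Near.refl (f : Perm Ω) : Near f f := by simp [Near]

lemma Near.symm {f g : Perm Ω} (h : Near f g) : Near g f := by
  refine h.subset ?_
  intro x hx
  exact fun e => hx e.symm

lemma Near.trans {f g k : Perm Ω} (h : Near f g) (h' : Near g k) : Near f k := by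
  refine (h.union h').subset ?_
  intro x hx
  by_contra hcon
  simp only [Set.mem_union, Set.mem_ofPred_eq, not_or, not_not] at hcon
  exact hx (hcon.1.trans hcon.2)

lemma Near.mul {f g f' g' : Perm Ω} (h : Near f g) (h' : Near f' g') : Near (f * f') (g * g') := by
  have h1 : (f' ⁻¹' {x | f x ≠ g x}).Finite := h.preimage (f'.injective.injOn)
  refine (h1.union h').subset ?_
  intro x hx
  by_contra hcon
  simp only [Set.mem_union, Set.mem_ofPred_eq, not_or, not_not, Set.mem_preimage] at hcon
  apply hx
  rw [Perm.mul_apply, Perm.mul_apply, ← hcon.2, hcon.1]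

lemma Near.inv {f g : Perm Ω} (h : Near f g) : Near f⁻¹ g⁻¹ := by
  refine (h.image f).subset ?_
  intro x hx
  refine ⟨f⁻¹ x, ?_, by simp⟩
  intro hcon
  apply hx
  have : f (f⁻¹ x) = x := by simp
  rw [this] at hcon
  rw [eq_comm, Perm.inv_eq_iff_eq]
  exact hcon

lemma near_one_iff {f : Perm Ω} : Near f 1 ↔ {x | f x ≠ x}.Finite := Iff.rfl

/-- The subgroup contains all finitary permutations. -/
def ContainsFin (K : Subgroup (Perm Ω)) : Prop := ∀ f : Perm Ω, Near f 1 → f ∈ K

lemma containsFin_of_swap [DecidableEq Ω] (K : Subgroup (Perm Ω)) (a : Ω) (h : ∀ b, swap a b ∈ K) :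
    ContainsFin K := by
  intro f hf
  have h1 : f ∈ closure {σ : Perm Ω | σ.IsSwap} := by
    rw [mem_closure_isSwap']
    exact hf
  have h2 : closure {σ : Perm Ω | σ.IsSwap} ≤ K := by
    rw [closure_le]
    rintro σ ⟨x, y, -, rfl⟩
    have := SubmonoidClass.swap_mem_trans K (a := x) (b := a) (c := y)
      (by rw [swap_comm]; exact h x) (h y)
    exact this
  exact h2 h1

lemma ContainsFin.near {K : Subgroup (Perm Ω)} (hK : ContainsFin K) {f g : Perm Ω} (hg : g ∈ K)
    (h : Near f g) : f ∈ K := by
  have h1 : Near (f * g⁻¹) 1 := by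
    have := h.mul (Near.refl g⁻¹)
    rwa [mul_inv_cancel] at this
  have := K.mul_mem (hK _ h1) hg
  rwa [inv_mul_cancel_right] at this

/-- High transitivity: finite partial bijections extend to finitary permutations. -/
lemma exists_finitary (F : Set Ω) (hF : F.Finite) (f : Ω → Ω) (hf : Set.InjOn f F) :
    ∃ σ : Perm Ω, Near σ 1 ∧ ∀ x ∈ F, σ x = f x := by
  classical
  induction F, hF using Set.Finite.induction_on with
  | empty => exact ⟨1, Near.refl 1, by simp⟩
  | @insert a F ha hF ih =>
    obtain ⟨σ, hσ, h⟩ := ih (hf.mono (Set.subset_insert _ _))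
    refine ⟨swap (σ a) (f a) * σ, ?_, ?_⟩
    · have h1 : Near (swap (σ a) (f a)) 1 := by
        refine (Set.toFinite {σ a, f a}).subset ?_
        intro x hx
        by_contra hcon
        simp only [Set.mem_insert_iff, Set.mem_singleton_iff, not_or] at hcon
        exact hx (swap_apply_of_ne_of_ne hcon.1 hcon.2)
      have := h1.mul hσ
      rwa [mul_one] at this
    · intro x hx
      rcases hx with rfl | hx
      · simp
      · rw [Perm.mul_apply, swap_apply_of_ne_of_ne, h x hx]
        · intro e
          have := σ.injective e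
          exact ha (this ▸ hx)
        · rw [h x hx]
          intro e
          have := hf (Set.mem_insert_of_mem _ hx) (Set.mem_insert _ _) e
          exact ha (this ▸ hx)

lemma ContainsFin.highly {K : Subgroup (Perm Ω)} (hK : ContainsFin K) {k : ℕ} (x y : Fin k → Ω)
    (hx : Function.Injective x) (hy : Function.Injective y) : ∃ σ ∈ K, ∀ i, σ (x i) = y i := by
  classical
  let f : Ω → Ω := fun w => if h : ∃ i, x i = w then y h.choose else w
  have hfx : ∀ i, f (x i) = y i := by
    intro i
    have h : ∃ j, x j = x i := ⟨i, rfl⟩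
    simp only [f, dif_pos h]
    congr 1
    exact hx h.choose_spec
  obtain ⟨σ, hσ, h⟩ := exists_finitary (Set.range x) (Set.finite_range x) f (by
    rintro _ ⟨i, rfl⟩ _ ⟨j, rfl⟩ e
    rw [hfx, hfx] at e
    rw [hy e])
  exact ⟨σ, hK σ hσ, fun i => by rw [h _ ⟨i, rfl⟩, hfx]⟩

/-- The pointwise stabilizer of a set. -/
def fixer (K : Subgroup (Perm Ω)) (F : Set Ω) : Subgroup (Perm Ω) :=
  K ⊓ ⨅ a ∈ F, MulAction.stabilizer (Perm Ω) a

lemma mem_fixer {K : Subgroup (Perm Ω)} {F : Set Ω} {f : Perm Ω} :
    f ∈ fixer K F ↔ f ∈ K ∧ ∀ a ∈ F, f a = a := by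
  simp [fixer, Subgroup.mem_inf, Subgroup.mem_iInf]

/-- A permutation fixing the complement of the range of an embedding comes from a permutation of
the source. -/
lemma exists_viaEmbedding {α : Type*} (r : α ↪ Ω) (φ : Perm Ω) (h : ∀ x ∉ Set.range r, φ x = x) :
    ∃ φ' : Perm α, Perm.viaEmbeddingHom r φ' = φ := by
  classical
  have hφ : ∀ x, φ x ∈ Set.range r ↔ x ∈ Set.range r := by
    intro x
    constructor
    · intro h1
      by_contra h2
      rw [h x h2] at h1
      exact h2 h1
    · intro h1
      by_contra h2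
      have := h _ h2
      have := φ.injective this
      rw [this] at h2
      exact h2 h1
  let e : α ≃ Set.range r := Equiv.ofInjective r r.injective
  refine ⟨e.permCongr.symm (φ.subtypePerm (p := (· ∈ Set.range r)) hφ), ?_⟩
  ext1 x
  by_cases hx : x ∈ Set.range r
  · obtain ⟨a, rfl⟩ := hx
    rw [Perm.viaEmbeddingHom_apply, Perm.viaEmbedding_apply]
    have : ∀ y : Set.range r, r (e.symm y) = y := by
      intro y
      have := Equiv.apply_ofInjective_symm r.injective y
      exact this
    simp only [Equiv.permCongr_symm_apply]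
    rw [this]
    rfl
  · rw [Perm.viaEmbeddingHom_apply, Perm.viaEmbedding_apply_of_notMem _ _ _ hx, h x hx]

/-- If relabelling along an embedding changes the generators of `K` only at finitely many points,
then the pointwise stabilizer of the complement of the range is isomorphic to `K`. -/
lemma fixer_eq_map {S : Set (Perm Ω)} {K : Subgroup (Perm Ω)} (hK : ContainsFin K)
    (hS : closure S = K) (r : Ω ↪ Ω) (hr : ∀ s ∈ S, Near (Perm.viaEmbeddingHom r s) s) :
    fixer K (Set.range r)ᶜ = K.map (Perm.viaEmbeddingHom r) := by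
  have hnear : ∀ k ∈ K, Near (Perm.viaEmbeddingHom r k) k := by
    intro k hk
    rw [← hS] at hk
    induction hk using Subgroup.closure_induction with
    | mem x hx => exact hr x hx
    | one => rw [map_one]; exact Near.refl 1
    | mul x y _ _ hx hy => rw [map_mul]; exact hx.mul hy
    | inv x _ hx => rw [map_inv]; exact hx.inv
  ext k
  rw [mem_fixer]
  constructor
  · rintro ⟨hk, hfix⟩
    have h1 : Near (k * (Perm.viaEmbeddingHom r k)⁻¹) 1 := by
      have := (Near.refl k).mul (hnear k hk).inv
      rwa [mul_inv_cancel] at this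
    obtain ⟨φ', hφ'⟩ := exists_viaEmbedding r (k * (Perm.viaEmbeddingHom r k)⁻¹) (by
      intro x hx
      rw [Perm.mul_apply]
      have : (Perm.viaEmbeddingHom r k)⁻¹ x = x := by
        rw [Perm.inv_eq_iff_eq, Perm.viaEmbeddingHom_apply,
          Perm.viaEmbedding_apply_of_notMem _ _ _ hx]
      rw [this]
      exact hfix x hx)
    have h2 : Near φ' 1 := by
      have h3 : (r ⁻¹' {x | (k * (Perm.viaEmbeddingHom r k)⁻¹) x ≠ x}).Finite :=
        Set.Finite.preimage (r.injective.injOn) h1
      refine h3.subset ?_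
      intro x hx
      simp only [Set.mem_preimage, Set.mem_ofPred_eq]
      rw [← hφ', Perm.viaEmbeddingHom_apply, Perm.viaEmbedding_apply]
      exact fun e => hx (r.injective e)
    refine ⟨φ' * k, K.mul_mem (hK _ h2) hk, ?_⟩
    rw [map_mul, hφ', inv_mul_cancel_right]
  · rintro ⟨k', hk', rfl⟩
    refine ⟨hK.near hk' (hnear k' hk'), fun x hx => ?_⟩
    rw [Perm.viaEmbeddingHom_apply, Perm.viaEmbedding_apply_of_notMem _ _ _ hx]

/-- Stabilizers of sets in the same orbit are conjugate. -/
lemma fixer_conj {K : Subgroup (Perm Ω)} (F : Set Ω) {k : Perm Ω} (hk : k ∈ K) :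
    fixer K (k '' F) = (fixer K F).map (MulAut.conj k).toMonoidHom := by
  ext f
  rw [mem_fixer]
  constructor
  · rintro ⟨hf, hfix⟩
    refine ⟨k⁻¹ * f * k, mem_fixer.2 ⟨K.mul_mem (K.mul_mem (K.inv_mem hk) hf) hk, ?_⟩, ?_⟩
    · intro a ha
      rw [Perm.mul_apply, Perm.mul_apply, hfix _ ⟨a, ha, rfl⟩]
      simp
    · simp [MulAut.conj_apply, mul_assoc]
  · rintro ⟨g, hg, rfl⟩
    rw [SetLike.mem_coe, mem_fixer] at hg
    refine ⟨K.mul_mem (K.mul_mem hk hg.1) (K.inv_mem hk), ?_⟩
    rintro _ ⟨a, ha, rfl⟩
    simp [MulAut.conj_apply, hg.2 a ha]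

end Near

end Pool.Agent.Helper13
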