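import Pool.Agent.Helper13.Fraction
import Pool.Agent.Helper13.Coxeter

set_option autoImplicit false

/-!
# Twisted Houghton groups

Rays are indexed by `Option X`; `u x` shifts the ray `some x` inwards and the ray `none` outwards.
-/

namespace Pool.Agent.Helper13

open Subgroup Equiv

section Concrete

variable {X : Type*}

/-- The set on which everything acts: one ray for each element of `X` and an extra ray. -/
abbrev Ray (X : Type*) : Type _ := Option X × ℕ

open Classical in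
/-- The shift: `(none, n) ↦ (none, n + 1)`, `(some x, 0) ↦ (none, 0)`,
`(some x, n + 1) ↦ (some x, n)`, all other points fixed. -/
noncomputable def shiftFun (x : X) : Ray X → Ray X
  | (none, n) => (none, n + 1)
  | (some y, n) => if y = x then (if n = 0 then (none, 0) else (some y, n - 1)) else (some y, n)

open Classical in
/-- The inverse shift. -/
noncomputable def shiftInv (x : X) : Ray X → Ray X
  | (none, n) => if n = 0 then (some x, 0) else (none, n - 1)
  | (some y, n) => if y = x then (some y, n + 1) else (some y, n)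

/-- The shift as a permutation. -/
noncomputable def shift (x : X) : Perm (Ray X) where
  toFun := shiftFun x
  invFun := shiftInv x
  left_inv := by
    rintro ⟨_ | y, n⟩
    · simp [shiftFun, shiftInv]
    · by_cases hy : y = x
      · subst hy
        rcases n with _ | n
        · simp [shiftFun, shiftInv]
        · simp [shiftFun, shiftInv]
      · simp [shiftFun, shiftInv, hy]
  right_inv := by
    rintro ⟨_ | y, n⟩
    · rcases n with _ | n
      · simp [shiftFun, shiftInv]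
      · simp [shiftFun, shiftInv]
    · by_cases hy : y = x
      · subst hy
        simp [shiftFun, shiftInv]
      · simp [shiftFun, shiftInv, hy]

@[simp] lemma shift_none (x : X) (n : ℕ) : shift x (none, n) = (none, n + 1) := rfl

@[simp] lemma shift_zero (x : X) : shift x (some x, 0) = (none, 0) := by
  simp [shift, shiftFun]

@[simp] lemma shift_succ (x : X) (n : ℕ) : shift x (some x, n + 1) = (some x, n) := by
  simp [shift, shiftFun]

lemma shift_ne {x y : X} (h : y ≠ x) (n : ℕ) : shift x (some y, n) = (some y, n) := by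
  simp [shift, shiftFun, h]

variable {G : Type*} [Group G] [MulAction G X]

/-- The action of `G` on the rays. -/
def rayAct : G →* Perm (Ray X) where
  toFun g := Equiv.prodCongr (Equiv.optionCongr (MulAction.toPerm g)) (Equiv.refl ℕ)
  map_one' := by
    ext1 ⟨o, n⟩
    cases o <;> simp
  map_mul' g h := by
    ext1 ⟨o, n⟩
    cases o <;> simp [mul_smul]

@[simp] lemma rayAct_none (g : G) (n : ℕ) : (rayAct g : Perm (Ray X)) (none, n) = (none, n) := rfl

@[simp] lemma rayAct_some (g : G) (x : X) (n : ℕ) :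
    (rayAct g : Perm (Ray X)) (some x, n) = (some (g • x), n) := rfl

lemma rayAct_shift (g : G) (x : X) :
    (rayAct g : Perm (Ray X)) * shift x = shift (g • x) * rayAct g := by
  ext1 ⟨o, n⟩
  rcases o with _ | y
  · simp
  · by_cases hy : y = x
    · subst hy
      rcases n with _ | n <;> simp
    · have : g • y ≠ g • x := fun h => hy ((MulAction.injective g) h)
      simp [shift_ne hy, shift_ne this]

open Classical in
lemma shift_mul_shift {x y : X} (h : x ≠ y) :
    shift y * shift x = swap ((none, 0) : Ray X) (none, 1) * (shift x * shift y) := by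
  ext1 ⟨o, n⟩
  rcases o with _ | z
  · simp only [Perm.mul_apply, shift_none]
    rw [swap_apply_of_ne_of_ne] <;> simp
  · by_cases hx : z = x
    · subst hx
      rcases n with _ | n
      · simp [shift_ne h]
      · simp only [Perm.mul_apply, shift_succ, shift_ne h]
        rw [swap_apply_of_ne_of_ne] <;> simp
    · by_cases hy : z = y
      · subst hy
        rcases n with _ | n
        · simp [shift_ne hx]
        · simp only [Perm.mul_apply, shift_succ, shift_ne hx]
          rw [swap_apply_of_ne_of_ne] <;> simp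
      · simp only [Perm.mul_apply, shift_ne hx, shift_ne hy]
        rw [swap_apply_of_ne_of_ne] <;> simp

open Classical in
lemma shift_swap (x : X) (n : ℕ) :
    shift x * swap ((none, n) : Ray X) (none, n + 1) * (shift x)⁻¹ =
      swap ((none, n + 1) : Ray X) (none, n + 2) := by
  have := Equiv.swap_apply_apply (shift x) ((none, n) : Ray X) (none, n + 1)
  rw [shift_none, shift_none] at this
  exact this.symm

open Classical in
lemma rayAct_swap (g : G) (n m : ℕ) :
    rayAct g * swap ((none, n) : Ray X) (none, m) * (rayAct g)⁻¹ =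
      swap ((none, n) : Ray X) (none, m) := by
  have := Equiv.swap_apply_apply (rayAct g) ((none, n) : Ray X) (none, m)
  rw [rayAct_none, rayAct_none] at this
  exact this.symm

end Concrete

/-! ### The abstract relations -/

section Abstract

variable {X : Type*} {G : Type*} [Group G] [MulAction G X] {Γ : Type*} [Group Γ]

/-- The relations of the twisted Houghton group. -/
structure HRel (ι : G →* Γ) (u : X → Γ) (a : Γ) : Prop where
  act : ∀ g x, ι g * u x * (ι g)⁻¹ = u (g • x)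
  actA : ∀ g, ι g * a = a * ι g
  sq : a * a = 1
  uu : ∀ x y, x ≠ y → u y * u x = a * (u x * u y)
  ua : ∀ x y, x ≠ y → u x * a * (u x)⁻¹ = u y * a * (u y)⁻¹
  braid : ∀ x, a * (u x * a * (u x)⁻¹) * a = (u x * a * (u x)⁻¹) * a * (u x * a * (u x)⁻¹)
  gen : closure (Set.range ι ∪ Set.range u ∪ {a}) = ⊤

variable {ι : G →* Γ} {u : X → Γ} {a : Γ}

/-- The transposition of the `n`-th and `n+1`-st points of the extra ray. -/
def AA (u : X → Γ) (a : Γ) (x : X) (n : ℕ) : Γ := u x ^ n * a * (u x ^ n)⁻¹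

lemma AA_zero (x : X) : AA u a x 0 = a := by simp [AA]

lemma AA_succ (x : X) (n : ℕ) : AA u a x (n + 1) = u x * AA u a x n * (u x)⁻¹ := by
  simp [AA, pow_succ', mul_assoc]

lemma HRel.inv_a (h : HRel ι u a) : a⁻¹ = a := inv_eq_of_mul_eq_one_left h.sq

/-- Existence of at least three rays. -/
def Three (X : Type*) : Prop := ∃ x y z : X, x ≠ y ∧ x ≠ z ∧ y ≠ z

lemma Three.third (h3 : Three X) (x y : X) : ∃ z, z ≠ x ∧ z ≠ y := by
  obtain ⟨p, q, r, h1, h2, h3⟩ := h3
  by_cases hp : p ≠ x ∧ p ≠ y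
  · exact ⟨p, hp⟩
  by_cases hq : q ≠ x ∧ q ≠ y
  · exact ⟨q, hq⟩
  by_cases hr : r ≠ x ∧ r ≠ y
  · exact ⟨r, hr⟩
  exfalso
  simp only [not_and_or, not_not] at hp hq hr
  rcases hp with rfl | rfl <;> rcases hq with rfl | rfl <;> rcases hr with rfl | rfl <;>
    simp_all

/-- Independence of the ray, and far commutation. -/
lemma HRel.key (h : HRel ι u a) (h3 : Three X) (n : ℕ) :
    (∀ x y, AA u a x n = AA u a y n) ∧ (∀ x y, AA u a x (n + 1) = AA u a y (n + 1)) ∧
      (∀ x, 2 ≤ n + 1 → a * AA u a x (n + 1) = AA u a x (n + 1) * a) := by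
  induction n with
  | zero =>
    refine ⟨fun x y => by simp [AA_zero], fun x y => ?_, fun x hx => by omega⟩
    by_cases hxy : x = y
    · rw [hxy]
    · simpa [AA] using h.ua x y hxy
  | succ n ih =>
    obtain ⟨ih0, ih1, -⟩ := ih
    -- conjugation by `a` relates two different rays
    have conj : ∀ x y, x ≠ y → AA u a x (n + 2) = a * AA u a y (n + 2) * a := by
      intro x y hxy
      have e1 : u x * u y = a * (u y * u x) := h.uu y x (Ne.symm hxy)
      calc AA u a x (n + 2) = u x * AA u a x (n + 1) * (u x)⁻¹ := AA_succ x (n + 1)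
        _ = u x * AA u a y (n + 1) * (u x)⁻¹ := by rw [ih1 x y]
        _ = u x * (u y * AA u a y n * (u y)⁻¹) * (u x)⁻¹ := by rw [AA_succ y n]
        _ = (u x * u y) * AA u a x n * (u x * u y)⁻¹ := by rw [ih0 x y]; group
        _ = a * (u y * (u x * AA u a x n * (u x)⁻¹) * (u y)⁻¹) * a⁻¹ := by rw [e1]; group
        _ = a * (u y * AA u a x (n + 1) * (u y)⁻¹) * a := by rw [← AA_succ, h.inv_a]
        _ = a * (u y * AA u a y (n + 1) * (u y)⁻¹) * a := by rw [ih1 x y]
        _ = a * AA u a y (n + 2) * a := by rw [← AA_succ y (n + 1)]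
    have eq : ∀ x y, AA u a x (n + 2) = AA u a y (n + 2) := by
      intro x y
      obtain ⟨z, hzx, hzy⟩ := h3.third x y
      rw [conj x z (Ne.symm hzx), conj z y hzy]
      calc a * (a * AA u a y (n + 2) * a) * a
          = (a * a) * AA u a y (n + 2) * (a * a) := by group
        _ = AA u a y (n + 2) := by rw [h.sq]; group
    have com : ∀ x, a * AA u a x (n + 2) = AA u a x (n + 2) * a := by
      intro x
      obtain ⟨z, hz, -⟩ := h3.third x x
      have := conj x z (Ne.symm hz)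
      rw [eq z x] at this
      calc a * AA u a x (n + 2) = a * (a * AA u a x (n + 2) * a) := by rw [← this]
        _ = (a * a) * AA u a x (n + 2) * a := by group
        _ = AA u a x (n + 2) * a := by rw [h.sq, one_mul]
    exact ⟨ih1, eq, fun x _ => com x⟩

/-- The elements `AA x n` for a fixed `x` satisfy the Coxeter relations. -/
lemma HRel.coxA (h : HRel ι u a) (h3 : Three X) (x : X) : CoxA (AA u a x) where
  sq i := by
    simp only [AA]
    calc u x ^ i * a * (u x ^ i)⁻¹ * (u x ^ i * a * (u x ^ i)⁻¹)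
        = u x ^ i * (a * a) * (u x ^ i)⁻¹ := by group
      _ = 1 := by rw [h.sq]; group
  braid i := by
    have hb := h.braid x
    have e0 : AA u a x i = u x ^ i * a * (u x ^ i)⁻¹ := rfl
    have e1 : AA u a x (i + 1) = u x ^ i * (u x * a * (u x)⁻¹) * (u x ^ i)⁻¹ := by
      simp only [AA, pow_succ]; group
    rw [e0, e1]
    calc u x ^ i * a * (u x ^ i)⁻¹ * (u x ^ i * (u x * a * (u x)⁻¹) * (u x ^ i)⁻¹) *
          (u x ^ i * a * (u x ^ i)⁻¹)
        = u x ^ i * (a * (u x * a * (u x)⁻¹) * a) * (u x ^ i)⁻¹ := by group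
      _ = u x ^ i * ((u x * a * (u x)⁻¹) * a * (u x * a * (u x)⁻¹)) * (u x ^ i)⁻¹ := by rw [hb]
      _ = _ := by group
  comm i j hij := by
    obtain ⟨k, rfl⟩ : ∃ k, j = i + (k + 1 + 1) := ⟨j - i - 2, by omega⟩
    have hc := (h.key h3 (k + 1)).2.2 x (by omega)
    have e0 : AA u a x i = u x ^ i * a * (u x ^ i)⁻¹ := rfl
    have e1 : AA u a x (i + (k + 1 + 1)) = u x ^ i * AA u a x (k + 1 + 1) * (u x ^ i)⁻¹ := by
      simp only [AA, pow_add]; group
    rw [e0, e1]
    calc u x ^ i * a * (u x ^ i)⁻¹ * (u x ^ i * AA u a x (k + 1 + 1) * (u x ^ i)⁻¹)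
        = u x ^ i * (a * AA u a x (k + 1 + 1)) * (u x ^ i)⁻¹ := by group
      _ = u x ^ i * (AA u a x (k + 1 + 1) * a) * (u x ^ i)⁻¹ := by rw [hc]
      _ = _ := by group

/-- The finitary part of the base group. -/
def SS (u : X → Γ) (a : Γ) (x₀ : X) : Subgroup Γ := closure (Set.range (AA u a x₀))

lemma HRel.AA_eq (h : HRel ι u a) (h3 : Three X) (x y : X) (n : ℕ) :
    AA u a x n = AA u a y n := (h.key h3 n).1 x y

lemma HRel.u_conj_AA (h : HRel ι u a) (h3 : Three X) (x y : X) (n : ℕ) :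
    u y * AA u a x n * (u y)⁻¹ = AA u a x (n + 1) := by
  rw [h.AA_eq h3 x y n, h.AA_eq h3 x y (n + 1), AA_succ]

lemma HRel.ι_conj_AA (h : HRel ι u a) (h3 : Three X) (x : X) (g : G) (n : ℕ) :
    ι g * AA u a x n * (ι g)⁻¹ = AA u a x n := by
  induction n with
  | zero => rw [AA_zero, h.actA]; group
  | succ n ih =>
    calc ι g * AA u a x (n + 1) * (ι g)⁻¹
        = ι g * (u x * AA u a x n * (u x)⁻¹) * (ι g)⁻¹ := by rw [AA_succ]
      _ = (ι g * u x * (ι g)⁻¹) * (ι g * AA u a x n * (ι g)⁻¹) * (ι g * u x * (ι g)⁻¹)⁻¹ := by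
          group
      _ = u (g • x) * AA u a x n * (u (g • x))⁻¹ := by rw [h.act, ih]
      _ = AA u a x (n + 1) := h.u_conj_AA h3 x (g • x) n

lemma HRel.ι_comm_SS (h : HRel ι u a) (h3 : Three X) (x₀ : X) (g : G) (σ : Γ)
    (hσ : σ ∈ SS u a x₀) : ι g * σ = σ * ι g := by
  induction hσ using Subgroup.closure_induction with
  | mem x hx =>
    obtain ⟨n, rfl⟩ := hx
    rw [← mul_inv_eq_iff_eq_mul]
    exact h.ι_conj_AA h3 x₀ g n
  | one => simp
  | mul x y hx hy ihx ihy => rw [← mul_assoc, ihx, mul_assoc, ihy, mul_assoc]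
  | inv x hx ihx => rw [eq_inv_mul_iff_mul_eq, ← mul_assoc, ← ihx, mul_inv_cancel_right]

lemma HRel.u_conj_SS (h : HRel ι u a) (h3 : Three X) (x₀ y : X) (σ : Γ)
    (hσ : σ ∈ SS u a x₀) : u y * σ * (u y)⁻¹ ∈ SS u a x₀ := by
  induction hσ using Subgroup.closure_induction with
  | mem x hx =>
    obtain ⟨n, rfl⟩ := hx
    rw [h.u_conj_AA h3]
    exact subset_closure ⟨n + 1, rfl⟩
  | one => simp [one_mem]
  | mul x z hx hz ihx ihz =>
    have : u y * (x * z) * (u y)⁻¹ = (u y * x * (u y)⁻¹) * (u y * z * (u y)⁻¹) := by group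
    rw [this]
    exact mul_mem ihx ihz
  | inv x hx ihx =>
    have : u y * x⁻¹ * (u y)⁻¹ = (u y * x * (u y)⁻¹)⁻¹ := by group
    rw [this]
    exact inv_mem ihx

/-- The base group: finitary permutations of the extra ray, and `G`. -/
def BB (h : HRel ι u a) (h3 : Three X) (x₀ : X) : Subgroup Γ where
  carrier := {γ | ∃ σ ∈ SS u a x₀, ∃ g, γ = σ * ι g}
  mul_mem' := by
    rintro _ _ ⟨σ, hσ, g, rfl⟩ ⟨τ, hτ, k, rfl⟩
    refine ⟨σ * τ, mul_mem hσ hτ, g * k, ?_⟩
    rw [map_mul, mul_assoc, ← mul_assoc (ι g), h.ι_comm_SS h3 x₀ g τ hτ]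
    group
  one_mem' := ⟨1, one_mem _, 1, by simp⟩
  inv_mem' := by
    rintro _ ⟨σ, hσ, g, rfl⟩
    refine ⟨σ⁻¹, inv_mem hσ, g⁻¹, ?_⟩
    rw [mul_inv_rev, ← map_inv, h.ι_comm_SS h3 x₀ _ _ (inv_mem hσ)]

/-- The elementary splittings. -/
def LL (h : HRel ι u a) (h3 : Three X) (x₀ : X) : Set Γ :=
  {l | ∃ b ∈ BB h h3 x₀, ∃ x, l = b * u x}

lemma HRel.u_mul_base (h : HRel ι u a) (x : X) (σ : Γ) (g : G) : u x * (σ * ι g) = ((u x * σ * (u x)⁻¹) * ι g) * u (g⁻¹ • x) := by
  rw [← h.act, map_inv]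
  group

lemma HRel.frac (h : HRel ι u a) (h3 : Three X) (x₀ : X) : Frac (BB h h3 x₀) (LL h h3 x₀) where
  mul_left := by
    rintro b hb _ ⟨c, hc, x, rfl⟩
    exact ⟨b * c, mul_mem hb hc, x, by group⟩
  mul_right := by
    rintro _ ⟨c, hc, x, rfl⟩ _ ⟨σ, hσ, g, rfl⟩
    refine ⟨c * ((u x * σ * (u x)⁻¹) * ι g), mul_mem hc
      ⟨_, h.u_conj_SS h3 x₀ x σ hσ, g, rfl⟩, g⁻¹ • x, ?_⟩
    rw [mul_assoc, h.u_mul_base x σ g]
    group
  diamond := by
    rintro _ ⟨b, hb, x, rfl⟩ _ ⟨c, hc, y, rfl⟩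
    by_cases hxy : x = y
    · subst hxy
      left
      exact ⟨c * b⁻¹, mul_mem hc (inv_mem hb), by group⟩
    · right
      have memR : ∀ z, ∀ d ∈ BB h h3 x₀, u z * d ∈ LL h h3 x₀ := by
        rintro z _ ⟨σ, hσ, g, rfl⟩
        exact ⟨_, ⟨_, h.u_conj_SS h3 x₀ z σ hσ, g, rfl⟩, _, h.u_mul_base z σ g⟩
      have ha : a ∈ BB h h3 x₀ :=
        ⟨a, subset_closure ⟨0, AA_zero x₀⟩, 1, by simp⟩
      have e := h.uu x y hxy
      refine ⟨a * (u x * c⁻¹), ?_, u y * b⁻¹, memR y _ (inv_mem hb), ?_⟩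
      · obtain ⟨d, hd, z, hz⟩ := memR x _ (inv_mem hc)
        exact ⟨a * d, mul_mem ha hd, z, by rw [hz]; group⟩
      · calc u y * b⁻¹ * (b * u x) = u y * u x := by group
          _ = a * (u x * u y) := e
          _ = _ := by group

/-! ### Faithfulness of the action -/

/-- `f` maps the ray `some x` to the ray `some y`, moving it inwards by `k`, far out. -/
def Dis (f : Perm (Ray X)) (x y : X) (k : ℕ) : Prop :=
  ∃ N, ∀ n ≥ N, f (some x, n + k) = (some y, n)

lemma Dis.comp {f f' : Perm (Ray X)} {x y z : X} {k j : ℕ} (h : Dis f y z k) (h' : Dis f' x y j) :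
    Dis (f * f') x z (k + j) := by
  obtain ⟨N, hN⟩ := h
  obtain ⟨N', hN'⟩ := h'
  refine ⟨max N N', fun n hn => ?_⟩
  have h1 := hN' (n + k) (by have := le_max_right N N'; omega)
  have h2 := hN n (by have := le_max_left N N'; omega)
  rw [Perm.mul_apply, show n + (k + j) = n + k + j by omega, h1, h2]

lemma Dis.unique {f : Perm (Ray X)} {x y z : X} {k j : ℕ} (h : Dis f x y k) (h' : Dis f x z j) :
    y = z ∧ k = j := by
  obtain ⟨N, hN⟩ := h
  obtain ⟨N', hN'⟩ := h'
  have h1 := hN (N + N' + j) (by omega)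
  have h2 := hN' (N + N' + k) (by omega)
  rw [show N + N' + k + j = N + N' + j + k by omega, h1] at h2
  simp only [Prod.mk.injEq, Option.some.injEq] at h2
  exact ⟨h2.1, by omega⟩

open Classical in
/-- A homomorphism to permutations of the rays that is the standard one on the generators. -/
structure Std (ι : G →* Γ) (u : X → Γ) (a : Γ) (ρ : Γ →* Perm (Ray X)) : Prop where
  act : ∀ g, ρ (ι g) = rayAct g
  shift : ∀ x, ρ (u x) = shift x
  a : ρ a = swap (none, 0) (none, 1)

variable {ρ : Γ →* Perm (Ray X)}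

open Classical in
lemma Std.AA (s : Std ι u a ρ) (x : X) (n : ℕ) :
    ρ (AA u a x n) = swap (none, n) (none, n + 1) := by
  induction n with
  | zero => rw [AA_zero, s.a]
  | succ n ih => rw [AA_succ, map_mul, map_mul, map_inv, ih, s.shift, shift_swap]

lemma Std.SS_fix (s : Std ι u a ρ) (x₀ : X) (σ : Γ) (hσ : σ ∈ SS u a x₀) (y : X) (n : ℕ) :
    ρ σ (some y, n) = (some y, n) := by
  classical
  induction hσ using Subgroup.closure_induction with
  | mem x hx =>
    obtain ⟨n, rfl⟩ := hx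
    rw [s.AA, swap_apply_of_ne_of_ne] <;> simp
  | one => simp
  | mul x y hx hy ihx ihy => rw [map_mul, Perm.mul_apply, ihy, ihx]
  | inv x hx ihx => rw [map_inv, Perm.inv_eq_iff_eq, ihx]

lemma Std.base_apply (s : Std ι u a ρ) (x₀ : X) (σ : Γ) (hσ : σ ∈ SS u a x₀) (g : G) (y : X)
    (n : ℕ) : ρ (σ * ι g) (some y, n) = (some (g • y), n) := by
  rw [map_mul, Perm.mul_apply, s.act, rayAct_some, s.SS_fix x₀ σ hσ]

lemma Std.dis_base (s : Std ι u a ρ) (h : HRel ι u a) (h3 : Three X) (x₀ : X) {b : Γ}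
    (hb : b ∈ BB h h3 x₀) (y : X) : ∃ z, Dis (ρ b) y z 0 := by
  obtain ⟨σ, hσ, g, rfl⟩ := hb
  exact ⟨g • y, 0, fun n _ => s.base_apply x₀ σ hσ g y n⟩

lemma Std.dis_u_ne (s : Std ι u a ρ) {x y : X} (hxy : y ≠ x) : Dis (ρ (u x)) y y 0 :=
  ⟨0, fun n _ => by rw [s.shift, add_zero, shift_ne hxy]⟩

lemma Std.dis_u_self (s : Std ι u a ρ) (x : X) : Dis (ρ (u x)) x x 1 :=
  ⟨0, fun n _ => by rw [s.shift, shift_succ]⟩

lemma Std.dis_pos (s : Std ι u a ρ) (h : HRel ι u a) (h3 : Three X) (x₀ : X) {n : ℕ} {m : Γ}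
    (hm : Pos (BB h h3 x₀) (LL h h3 x₀) n m) : ∀ y, ∃ z k, Dis (ρ m) y z k := by
  induction hm with
  | base b hb =>
    intro y
    obtain ⟨z, hz⟩ := s.dis_base h h3 x₀ hb y
    exact ⟨z, 0, hz⟩
  | step n m l hm hl ih =>
    intro y
    obtain ⟨b, hb, x, rfl⟩ := hl
    obtain ⟨z, hz⟩ := s.dis_base h h3 x₀ hb y
    obtain ⟨w, k, hw⟩ := ih z
    by_cases hxy : y = x
    · subst hxy
      exact ⟨w, _, by rw [map_mul, map_mul]; exact hw.comp (hz.comp (s.dis_u_self y))⟩
    · exact ⟨w, _, by rw [map_mul, map_mul]; exact hw.comp (hz.comp (s.dis_u_ne hxy))⟩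

/-- **The standard action of the abstract twisted Houghton group is faithful.** -/
theorem Std.injective [FaithfulSMul G X] (s : Std ι u a ρ) (h : HRel ι u a) (h3 : Three X) :
    Function.Injective ρ := by
  classical
  have x₀ : X := Classical.choose h3
  refine frac_injective (h.frac h3 x₀) ?_ ρ
    (fun f l => ∃ b ∈ BB h h3 x₀, ∃ x, l = b * u x ∧ ∃ y k, 0 < k ∧ Dis f x y k) ?_ ?_ ?_ ?_
  · -- generation
    rw [eq_top_iff, ← h.gen, closure_le]
    rintro z ((⟨g, rfl⟩ | ⟨x, rfl⟩) | rfl)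
    · exact subset_closure (Or.inl ⟨1, one_mem _, g, by simp⟩)
    · exact subset_closure (Or.inr ⟨1, one_mem _, x, by simp⟩)
    · exact subset_closure (Or.inl ⟨z, subset_closure ⟨0, AA_zero x₀⟩, 1, by simp⟩)
  · rintro n m hm _ ⟨b, hb, x, rfl⟩
    obtain ⟨z, hz⟩ := s.dis_base h h3 x₀ hb x
    obtain ⟨w, k, hw⟩ := s.dis_pos h h3 x₀ hm z
    refine ⟨b, hb, x, rfl, w, k + (0 + 1), by omega, ?_⟩
    rw [map_mul, map_mul]
    exact hw.comp (hz.comp (s.dis_u_self x))
  · rintro n m hm _ ⟨b, hb, x, rfl⟩ _ hl₂ hne ⟨c, hc, y, rfl, w, k, hk, hD⟩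
    have hxy : y ≠ x := by
      rintro rfl
      exact hne ⟨c * b⁻¹, mul_mem hc (inv_mem hb), by group⟩
    have ha : a ∈ BB h h3 x₀ := ⟨a, subset_closure ⟨0, AA_zero x₀⟩, 1, by simp⟩
    have e := h.uu x y (Ne.symm hxy)
    obtain ⟨σ, hσ, g, hb'⟩ := hb
    -- the transported splitting
    have hsub : u y * b⁻¹ = ((ι g)⁻¹ * (u (g • y) * σ⁻¹ * (u (g • y))⁻¹)) * u (g • y) := by
      rw [hb', ← h.act]
      group
    have hmem : (ι g)⁻¹ * (u (g • y) * σ⁻¹ * (u (g • y))⁻¹) ∈ BB h h3 x₀ := by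
      refine mul_mem (inv_mem ⟨1, one_mem _, g, by simp⟩) ?_
      exact ⟨_, h.u_conj_SS h3 x₀ (g • y) _ (inv_mem hσ), 1, by simp⟩
    have hbB : b ∈ BB h h3 x₀ := ⟨σ, hσ, g, hb'⟩
    refine ⟨a * (u x * c⁻¹), ?_, u y * b⁻¹, ⟨_, hmem, g • y, hsub⟩, ?_, ?_⟩
    · obtain ⟨d, hd, z, hz⟩ := (h.frac h3 x₀).mul_right _ ⟨1, one_mem _, x, rfl⟩ _ (inv_mem hc)
      refine ⟨a * d, mul_mem ha hd, z, ?_⟩
      rw [one_mul] at hz
      rw [hz]; group
    · calc u y * b⁻¹ * (b * u x) = u y * u x := by group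
        _ = a * (u x * u y) := e
        _ = _ := by group
    · refine ⟨_, hmem, g • y, hsub, w, k, hk, ?_⟩
      -- `ρ (m * (b * u x))` moves the ray `y` inwards by `k`
      obtain ⟨N, hN⟩ := hD
      refine ⟨N, fun n hn => ?_⟩
      have h1 := hN n hn
      rw [map_mul, Perm.mul_apply, map_mul, Perm.mul_apply, s.shift, shift_ne hxy, hb',
        s.base_apply x₀ σ hσ] at h1
      exact h1
  · rintro b hb l hl ⟨c, hc, x, rfl, y, k, hk, hD⟩
    obtain ⟨z, hz⟩ := s.dis_base h h3 x₀ hb x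
    have := (hz.unique hD).2
    omega
  · rintro _ ⟨σ, hσ, g, rfl⟩ h1
    have hg : g = 1 := by
      apply FaithfulSMul.eq_of_smul_eq_smul (α := X)
      intro x
      have := s.base_apply x₀ σ hσ g x 0
      rw [h1] at this
      simp only [Perm.one_apply, Prod.mk.injEq, Option.some.injEq, and_true] at this
      rw [one_smul, ← this]
    subst hg
    rw [map_one, mul_one] at h1 ⊢
    refine coxA_injective (h.coxA h3 x₀) ρ (fun n => (none, n)) ?_ (fun i => s.AA x₀ i) σ hσ h1
    intro n m hnm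
    simpa using hnm

end Abstract

end Pool.Agent.Helper13
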