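import Pool.Agent.Helper13.Houghton

set_option autoImplicit false

/-!
# Finite presentability of twisted Houghton groups
-/

namespace Pool.Agent.Helper13

open Subgroup Equiv Monoid

universe v w z

/-- The free product of a finitely presented group and a finitely generated free group, with its
universal property. -/
theorem exists_free_extension (G : Type v) [Group G] [Group.IsFinitelyPresented G] (Q : Type w)
    [Finite Q] : ∃ (W : Type (max v w)) (_ : Group W), Group.IsFinitelyPresented W ∧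
      ∃ (i : G →* W) (t : Q → W), closure (Set.range i ∪ Set.range t) = ⊤ ∧
        ∀ (P : Type z) (_ : Group P) (f : G →* P) (s : Q → P),
          ∃ F : W →* P, (∀ g, F (i g) = f g) ∧ ∀ q, F (t q) = s q := by
  refine ⟨Coprod G (FreeGroup Q), inferInstance, inferInstance, Coprod.inl,
    fun q => Coprod.inr (FreeGroup.of q), ?_, ?_⟩
  · rw [eq_top_iff, ← Coprod.range_inl_sup_range_inr, sup_le_iff]
    constructor
    · rintro _ ⟨g, rfl⟩
      exact subset_closure (Or.inl ⟨g, rfl⟩)
    · rintro _ ⟨f, rfl⟩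
      induction f using FreeGroup.induction_on with
      | C1 => simp [one_mem]
      | of q => exact subset_closure (Or.inr ⟨q, rfl⟩)
      | inv_of q ih => rw [map_inv]; exact inv_mem ih
      | mul x y hx hy => rw [map_mul]; exact mul_mem hx hy
  · intro P _ f s
    refine ⟨Coprod.lift f (FreeGroup.lift s), fun g => by simp, fun q => by simp⟩

/-- Finitely many orbits. -/
def FinOrb (G : Type*) (X : Type*) [Group G] [MulAction G X] : Prop :=
  ∃ R : Set X, R.Finite ∧ ∀ x : X, ∃ r ∈ R, ∃ g : G, g • r = x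

/-- Type (A) actions: finitely many orbits on pairs, finitely generated point stabilizers. -/
structure TypeA (G : Type*) (X : Type*) [Group G] [MulAction G X] : Prop where
  pairs : FinOrb G (X × X)
  stab : ∀ x : X, (MulAction.stabilizer G x).FG

lemma fg_of_fp (G : Type*) [Group G] [h : Group.IsFinitelyPresented G] : Group.FG G := by
  obtain ⟨n, φ, hφ, -⟩ := h.out
  exact Group.fg_of_surjective hφ

lemma FinOrb.of_pairs {G : Type*} {X : Type*} [Group G] [MulAction G X]
    (h : FinOrb G (X × X)) : FinOrb G X := by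
  obtain ⟨R, hR, h⟩ := h
  refine ⟨Prod.fst '' R, hR.image _, fun x => ?_⟩
  obtain ⟨r, hr, g, hg⟩ := h (x, x)
  exact ⟨r.1, ⟨r, hr, rfl⟩, g, congrArg Prod.fst hg⟩

section Construction

variable {G : Type v} {X : Type w} [Group G] [MulAction G X]

lemma swap_braid {Ω : Type*} [DecidableEq Ω] {x y z : Ω} (hxy : x ≠ y) (hxz : x ≠ z) (hyz : y ≠ z) :
    swap x y * swap y z * swap x y = swap y z * swap x y * swap y z := by
  have h1 := Equiv.swap_mul_swap_mul_swap (x := x) (y := y) (z := z) hxy hxz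
  have h2 := Equiv.swap_mul_swap_mul_swap (x := z) (y := y) (z := x) (Ne.symm hyz) (Ne.symm hxz)
  rw [h1]
  rw [Equiv.swap_comm y x, Equiv.swap_comm z y, Equiv.swap_comm x z] at h2
  exact h2

theorem exists_fp_houghton [Group.IsFinitelyPresented G] (hA : TypeA G X) :
    ∃ (Γ : Type (max v w)) (_ : Group Γ) (ι : G →* Γ) (u : X → Γ) (a : Γ)
      (ρ : Γ →* Perm (Ray X)), Group.IsFinitelyPresented Γ ∧ HRel ι u a ∧ Std ι u a ρ := by
  classical
  -- orbits
  have hfinX : Finite (MulAction.orbitRel.Quotient G X) := by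
    obtain ⟨R, hR, h⟩ := hA.pairs.of_pairs
    have := hR.to_subtype
    refine Finite.of_surjective (fun r : R => (Quotient.mk'' (r : X) :
      MulAction.orbitRel.Quotient G X)) ?_
    intro q
    induction q using Quotient.inductionOn' with
    | h x =>
      obtain ⟨r, hr, g, rfl⟩ := h x
      refine ⟨⟨r, hr⟩, ?_⟩
      apply Quotient.sound'
      rw [MulAction.orbitRel_apply]
      exact ⟨g⁻¹, by simp⟩
  let Q := MulAction.orbitRel.Quotient G X
  let cl : X → Q := fun x => Quotient.mk'' x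
  let rep : Q → X := fun q => Quotient.out q
  have htr : ∀ x, ∃ g : G, g • rep (cl x) = x := by
    intro x
    have : MulAction.orbitRel G X x (rep (cl x)) := by
      apply Quotient.exact'
      exact (Quotient.out_eq' (cl x)).symm
    rw [MulAction.orbitRel_apply] at this
    exact this
  choose tr htr using htr
  have hcl : ∀ (g : G) x, cl (g • x) = cl x := by
    intro g x
    apply Quotient.sound'
    rw [MulAction.orbitRel_apply]
    exact ⟨g, rfl⟩
  have hclrep : ∀ q, cl (rep q) = q := fun q => Quotient.out_eq' q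
  choose S hS using fun q : Q => hA.stab (rep q)
  obtain ⟨T, hT⟩ := (fg_of_fp G).out
  obtain ⟨PR, hPR, hpair⟩ := hA.pairs
  obtain ⟨W, instW, hWfp, iW, tW, hWgen, hWlift⟩ := exists_free_extension G (Option Q)
  let tt : Q → W := fun q => tW (some q)
  let AW : W := tW none
  let UW : X → W := fun x => iW (tr x) * tt (cl x) * (iW (tr x))⁻¹
  let R1 : Set W := ⋃ q : Q, (fun s => iW s * tt q * (iW s)⁻¹ * (tt q)⁻¹) '' (S q : Set G)
  let R2 : Set W := (fun s => iW s * AW * (iW s)⁻¹ * AW⁻¹) '' (T : Set G)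
  let R3 : Set W := {AW * AW}
  let R4 : Set W := (fun p : X × X => (UW p.2 * UW p.1) * (AW * (UW p.1 * UW p.2))⁻¹) ''
    (PR ∩ {p | p.1 ≠ p.2})
  let R5 : Set W := (fun p : X × X => (UW p.1 * AW * (UW p.1)⁻¹) * (UW p.2 * AW * (UW p.2)⁻¹)⁻¹) ''
    (PR ∩ {p | p.1 ≠ p.2})
  let R6 : Set W := Set.range (fun q : Q => (AW * (tt q * AW * (tt q)⁻¹) * AW) *
    ((tt q * AW * (tt q)⁻¹) * AW * (tt q * AW * (tt q)⁻¹))⁻¹)
  let R : Set W := R1 ∪ R2 ∪ R3 ∪ R4 ∪ R5 ∪ R6
  have hRfin : R.Finite := by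
    refine Set.Finite.union (Set.Finite.union (Set.Finite.union (Set.Finite.union
      (Set.Finite.union ?_ ?_) ?_) ?_) ?_) ?_
    · exact Set.finite_iUnion (fun q => (S q).finite_toSet.image _)
    · exact T.finite_toSet.image _
    · exact Set.finite_singleton _
    · exact (hPR.inter_of_left _).image _
    · exact (hPR.inter_of_left _).image _
    · exact Set.finite_range _
  let N : Subgroup W := normalClosure R
  let π : W →* W ⧸ N := QuotientGroup.mk' N
  have hker : ∀ r ∈ R, π r = 1 := fun r hr =>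
    (QuotientGroup.eq_one_iff r).2 (subset_normalClosure hr)
  have hfp : Group.IsFinitelyPresented (W ⧸ N) :=
    Group.IsFinitelyPresented.quotient N ⟨R, hRfin, rfl⟩
  -- the abstract relations
  let ι : G →* W ⧸ N := π.comp iW
  let u : X → W ⧸ N := fun x => π (UW x)
  let a : W ⧸ N := π AW
  have hu : ∀ x, u x = ι (tr x) * π (tt (cl x)) * (ι (tr x))⁻¹ := fun x => by
    simp [u, UW, ι]
  have hcomm : ∀ q, ∀ s ∈ MulAction.stabilizer G (rep q), ι s * π (tt q) = π (tt q) * ι s := by
    intro q s hs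
    rw [← hS q] at hs
    have hle : closure (S q : Set G) ≤ (Subgroup.centralizer {π (tt q)}).comap ι := by
      rw [closure_le]
      intro s hs
      have h1 := hker _ (Or.inl (Or.inl (Or.inl (Or.inl (Or.inl
        (Set.mem_iUnion.2 ⟨q, ⟨s, hs, rfl⟩⟩))))))
      simp only [map_mul, map_inv] at h1
      change ι s ∈ Subgroup.centralizer {π (tt q)}
      rw [Subgroup.mem_centralizer_singleton_iff]
      exact (mul_inv_eq_iff_eq_mul.1 (mul_inv_eq_one.1 h1))
    have := hle hs
    rw [Subgroup.mem_comap, Subgroup.mem_centralizer_singleton_iff] at this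
    exact this
  have hact : ∀ g x, ι g * u x * (ι g)⁻¹ = u (g • x) := by
    intro g x
    have hst : (tr (g • x))⁻¹ * g * tr x ∈ MulAction.stabilizer G (rep (cl x)) := by
      rw [MulAction.mem_stabilizer_iff, mul_smul, mul_smul, htr x, inv_smul_eq_iff]
      have := htr (g • x)
      rw [hcl] at this
      exact this.symm
    have hc := hcomm (cl x) _ hst
    simp only [map_mul, map_inv] at hc
    rw [hu, hu, hcl]
    have hc' : ι g * ι (tr x) * π (tt (cl x)) =
        ι (tr (g • x)) * (π (tt (cl x)) * ((ι (tr (g • x)))⁻¹ * ι g * ι (tr x))) := by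
      rw [← hc]; group
    calc ι g * (ι (tr x) * π (tt (cl x)) * (ι (tr x))⁻¹) * (ι g)⁻¹
        = (ι g * ι (tr x) * π (tt (cl x))) * (ι (tr x))⁻¹ * (ι g)⁻¹ := by group
      _ = _ := by rw [hc']; group
  have hactA : ∀ g, ι g * a = a * ι g := by
    intro g
    have hle : closure (T : Set G) ≤ (Subgroup.centralizer {a}).comap ι := by
      rw [closure_le]
      intro s hs
      have h1 := hker _ (Or.inl (Or.inl (Or.inl (Or.inl (Or.inr ⟨s, hs, rfl⟩)))))
      simp only [map_mul, map_inv] at h1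
      change ι s ∈ Subgroup.centralizer {a}
      rw [Subgroup.mem_centralizer_singleton_iff]
      exact (mul_inv_eq_iff_eq_mul.1 (mul_inv_eq_one.1 h1))
    have hg : g ∈ closure (T : Set G) := by rw [hT]; trivial
    have := hle hg
    rw [Subgroup.mem_comap, Subgroup.mem_centralizer_singleton_iff] at this
    exact this
  have hsq : a * a = 1 := by
    have h1 := hker _ (Or.inl (Or.inl (Or.inl (Or.inr rfl))))
    simpa using h1
  have huu : ∀ x y, x ≠ y → u y * u x = a * (u x * u y) := by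
    intro x y hxy
    obtain ⟨p, hp, g, hg⟩ := hpair (x, y)
    have hx : g • p.1 = x := congrArg Prod.fst hg
    have hy : g • p.2 = y := congrArg Prod.snd hg
    have hne : p.1 ≠ p.2 := by
      intro h
      apply hxy
      rw [← hx, ← hy, h]
    have h1 := hker _ (Or.inl (Or.inl (Or.inr ⟨p, ⟨hp, hne⟩, rfl⟩)))
    simp only [map_mul, map_inv] at h1
    have h2 : u p.2 * u p.1 = a * (u p.1 * u p.2) := mul_inv_eq_one.1 h1
    rw [← hx, ← hy, ← hact, ← hact]
    calc ι g * u p.2 * (ι g)⁻¹ * (ι g * u p.1 * (ι g)⁻¹)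
        = ι g * (u p.2 * u p.1) * (ι g)⁻¹ := by group
      _ = (ι g * a) * (u p.1 * u p.2) * (ι g)⁻¹ := by rw [h2]; group
      _ = _ := by rw [hactA]; group
  have hua : ∀ x y, x ≠ y → u x * a * (u x)⁻¹ = u y * a * (u y)⁻¹ := by
    intro x y hxy
    obtain ⟨p, hp, g, hg⟩ := hpair (x, y)
    have hx : g • p.1 = x := congrArg Prod.fst hg
    have hy : g • p.2 = y := congrArg Prod.snd hg
    have hne : p.1 ≠ p.2 := by
      intro h
      apply hxy
      rw [← hx, ← hy, h]
    have h1 := hker _ (Or.inl (Or.inr ⟨p, ⟨hp, hne⟩, rfl⟩))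
    simp only [map_mul, map_inv] at h1
    have h2 : u p.1 * a * (u p.1)⁻¹ = u p.2 * a * (u p.2)⁻¹ := mul_inv_eq_one.1 h1
    have hga : (ι g)⁻¹ * a * ι g = a := by rw [mul_assoc, ← hactA]; group
    rw [← hx, ← hy, ← hact, ← hact]
    calc ι g * u p.1 * (ι g)⁻¹ * a * (ι g * u p.1 * (ι g)⁻¹)⁻¹
        = ι g * (u p.1 * ((ι g)⁻¹ * a * ι g) * (u p.1)⁻¹) * (ι g)⁻¹ := by group
      _ = ι g * (u p.2 * ((ι g)⁻¹ * a * ι g) * (u p.2)⁻¹) * (ι g)⁻¹ := by rw [hga, h2]
      _ = _ := by group
  have hbraid : ∀ x, a * (u x * a * (u x)⁻¹) * a =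
      (u x * a * (u x)⁻¹) * a * (u x * a * (u x)⁻¹) := by
    intro x
    have h1 := hker _ (Or.inr ⟨cl x, rfl⟩)
    simp only [map_mul, map_inv] at h1
    have h2 : a * (π (tt (cl x)) * a * (π (tt (cl x)))⁻¹) * a =
      (π (tt (cl x)) * a * (π (tt (cl x)))⁻¹) * a * (π (tt (cl x)) * a * (π (tt (cl x)))⁻¹) := by
      exact mul_inv_eq_one.1 h1
    obtain ⟨g, hgdef⟩ : ∃ g, g = tr x := ⟨_, rfl⟩
    have hga : (ι g)⁻¹ * a * ι g = a := by rw [mul_assoc, ← hactA]; group
    have hga' : ι g * a * (ι g)⁻¹ = a := by rw [hactA]; group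
    have e : u x * a * (u x)⁻¹ = ι g * (π (tt (cl x)) * a * (π (tt (cl x)))⁻¹) * (ι g)⁻¹ := by
      rw [hu, ← hgdef]
      calc ι g * π (tt (cl x)) * (ι g)⁻¹ * a * (ι g * π (tt (cl x)) * (ι g)⁻¹)⁻¹
          = ι g * (π (tt (cl x)) * ((ι g)⁻¹ * a * ι g) * (π (tt (cl x)))⁻¹) * (ι g)⁻¹ := by
            group
        _ = _ := by rw [hga]
    rw [e]
    set b := π (tt (cl x)) * a * (π (tt (cl x)))⁻¹
    calc a * (ι g * b * (ι g)⁻¹) * a
        = (ι g * a * (ι g)⁻¹) * (ι g * b * (ι g)⁻¹) * (ι g * a * (ι g)⁻¹) := by rw [hga']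
      _ = ι g * (a * b * a) * (ι g)⁻¹ := by group
      _ = ι g * (b * a * b) * (ι g)⁻¹ := by rw [h2]
      _ = (ι g * b * (ι g)⁻¹) * (ι g * a * (ι g)⁻¹) * (ι g * b * (ι g)⁻¹) := by group
      _ = _ := by rw [hga']
  have hgen : closure (Set.range ι ∪ Set.range u ∪ {a}) = ⊤ := by
    rw [eq_top_iff]
    have hW : (⊤ : Subgroup W) ≤ (closure (Set.range ι ∪ Set.range u ∪ {a})).comap π := by
      rw [← hWgen, closure_le]
      rintro _ (⟨g, rfl⟩ | ⟨o, rfl⟩)
      · exact subset_closure (Or.inl (Or.inl ⟨g, rfl⟩))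
      · rcases o with _ | q
        · exact subset_closure (Or.inr rfl)
        · change π (tt q) ∈ closure (Set.range ι ∪ Set.range u ∪ {a})
          have : π (tt q) = (ι (tr (rep q)))⁻¹ * u (rep q) * ι (tr (rep q)) := by
            rw [hu, hclrep]; group
          rw [this]
          exact mul_mem (mul_mem (inv_mem (subset_closure (Or.inl (Or.inl ⟨_, rfl⟩))))
            (subset_closure (Or.inl (Or.inr ⟨_, rfl⟩)))) (subset_closure (Or.inl (Or.inl ⟨_, rfl⟩)))
    intro γ _
    obtain ⟨w, rfl⟩ := QuotientGroup.mk'_surjective N γ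
    exact hW trivial
  -- the standard action
  obtain ⟨ρW, hρi, hρo⟩ := hWlift (Perm (Ray X)) inferInstance rayAct
    (fun o : Option Q => o.elim (swap ((none, 0) : Ray X) (none, 1)) (fun q => shift (rep q)))
  have hρA : ρW AW = swap ((none, 0) : Ray X) (none, 1) := hρo none
  have hρt : ∀ q, ρW (tt q) = shift (rep q) := fun q => hρo (some q)
  have hρu : ∀ x, ρW (UW x) = shift x := by
    intro x
    simp only [UW, map_mul, map_inv, hρi, hρt]
    rw [mul_inv_eq_iff_eq_mul, rayAct_shift, htr]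
  have hρR : ∀ r ∈ R, ρW r = 1 := by
    rintro r (((((hr | hr) | hr) | hr) | hr) | hr)
    · obtain ⟨q, s, hs, rfl⟩ := Set.mem_iUnion.1 hr
      have hs' : s ∈ MulAction.stabilizer G (rep q) := by
        rw [← hS q]; exact subset_closure hs
      simp only [map_mul, map_inv, hρi, hρt]
      rw [mul_inv_eq_one, mul_inv_eq_iff_eq_mul, rayAct_shift, MulAction.mem_stabilizer_iff.1 hs']
    · obtain ⟨s, hs, rfl⟩ := hr
      simp only [map_mul, map_inv, hρi, hρA]
      rw [mul_inv_eq_one]
      exact rayAct_swap s 0 1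
    · rw [Set.mem_singleton_iff.1 hr, map_mul, hρA, swap_mul_self]
    · obtain ⟨p, ⟨-, hp⟩, rfl⟩ := hr
      simp only [map_mul, map_inv, hρu, hρA]
      rw [mul_inv_eq_one]
      exact shift_mul_shift hp
    · obtain ⟨p, ⟨-, hp⟩, rfl⟩ := hr
      simp only [map_mul, map_inv, hρu, hρA]
      rw [mul_inv_eq_one]
      exact (shift_swap p.1 0).trans (shift_swap p.2 0).symm
    · obtain ⟨q, rfl⟩ := hr
      simp only [map_mul, map_inv, hρt, hρA]
      rw [mul_inv_eq_one]
      have e : shift (rep q) * swap ((none, 0) : Ray X) (none, 1) * (shift (rep q))⁻¹ =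
        swap ((none, 1) : Ray X) (none, 2) := shift_swap (rep q) 0
      rw [e]
      exact swap_braid (by simp) (by simp) (by simp)
  have hNle : N ≤ ρW.ker := normalClosure_le_normal (fun r hr => hρR r hr)
  let ρ : W ⧸ N →* Perm (Ray X) := QuotientGroup.lift N ρW hNle
  refine ⟨W ⧸ N, inferInstance, ι, u, a, ρ, hfp, ⟨hact, hactA, hsq, huu, hua, hbraid, hgen⟩,
    ⟨hρi, hρu, hρA⟩⟩

end Construction

end Pool.Agent.Helper13
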