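import Pool.Agent.Helper13.HoughtonFP
import Pool.Agent.Helper13.Highly

set_option autoImplicit false

/-!
# The twisted Houghton group is highly transitive, with all finite stabilizers isomorphic to it
-/

namespace Pool.Agent.Helper13

open Subgroup Equiv

section Stab

variable {X : Type*} {G : Type*} [Group G] [MulAction G X] {Γ : Type*} [Group Γ]
variable {ι : G →* Γ} {u : X → Γ} {a : Γ} {ρ : Γ →* Perm (Ray X)}

open Classical in
/-- The standard generators, as permutations. -/
def stdGen (G : Type*) (X : Type*) [Group G] [MulAction G X] : Set (Perm (Ray X)) :=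
  Set.range (rayAct : G →* Perm (Ray X)) ∪ Set.range (shift : X → Perm (Ray X)) ∪
    {swap ((none, 0) : Ray X) (none, 1)}

/-- The twisted Houghton group as a permutation group. -/
def HoughtonGroup (G : Type*) (X : Type*) [Group G] [MulAction G X] : Subgroup (Perm (Ray X)) :=
  closure (stdGen G X)

lemma Std.range_eq (s : Std ι u a ρ) (h : HRel ι u a) : ρ.range = HoughtonGroup G X := by
  classical
  rw [MonoidHom.range_eq_map, ← h.gen, MonoidHom.map_closure, HoughtonGroup, stdGen]
  congr 1
  rw [Set.image_union, Set.image_union, Set.image_singleton, ← Set.range_comp, ← Set.range_comp]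
  congr 1
  · congr 1
    · congr 1
      ext1 g
      exact s.act g
    · congr 1
      ext1 x
      exact s.shift x
  · rw [s.a]

lemma containsFin_houghton (x₀ : X) : ContainsFin (HoughtonGroup G X) := by
  classical
  have hsh : ∀ x, shift x ∈ HoughtonGroup G X := fun x =>
    subset_closure (Or.inl (Or.inr ⟨x, rfl⟩))
  have hsw : swap ((none, 0) : Ray X) (none, 1) ∈ HoughtonGroup G X :=
    subset_closure (Or.inr rfl)
  -- conjugation
  have conj : ∀ (f : Perm (Ray X)), f ∈ HoughtonGroup G X → ∀ p q, swap p q ∈ HoughtonGroup G X →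
      swap (f p) (f q) ∈ HoughtonGroup G X := by
    intro f hf p q h
    rw [Equiv.swap_apply_apply]
    exact mul_mem (mul_mem hf h) (inv_mem hf)
  have hnone : ∀ n, swap ((none, n) : Ray X) (none, n + 1) ∈ HoughtonGroup G X := by
    intro n
    induction n with
    | zero => exact hsw
    | succ n ih =>
      have := conj _ (hsh x₀) _ _ ih
      simpa using this
  have hsome0 : ∀ x, swap ((none, 0) : Ray X) (some x, 0) ∈ HoughtonGroup G X := by
    intro x
    have := conj _ (inv_mem (hsh x)) _ _ hsw
    have e0 : (shift x)⁻¹ ((none, 0) : Ray X) = (some x, 0) := by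
      rw [Perm.inv_eq_iff_eq, shift_zero]
    have e1 : (shift x)⁻¹ ((none, 1) : Ray X) = (none, 0) := by
      rw [Perm.inv_eq_iff_eq, shift_none]
    rw [e0, e1, swap_comm] at this
    exact this
  have hsome : ∀ x n, swap ((some x, n) : Ray X) (some x, n + 1) ∈ HoughtonGroup G X := by
    intro x n
    induction n with
    | zero =>
      have := conj _ (inv_mem (hsh x)) _ _ (hsome0 x)
      have e0 : (shift x)⁻¹ ((none, 0) : Ray X) = (some x, 0) := by
        rw [Perm.inv_eq_iff_eq, shift_zero]
      have e1 : (shift x)⁻¹ ((some x, 0) : Ray X) = (some x, 1) := by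
        rw [Perm.inv_eq_iff_eq, shift_succ]
      rw [e0, e1] at this
      exact this
    | succ n ih =>
      have := conj _ (inv_mem (hsh x)) _ _ ih
      have e0 : (shift x)⁻¹ ((some x, n) : Ray X) = (some x, n + 1) := by
        rw [Perm.inv_eq_iff_eq, shift_succ]
      have e1 : (shift x)⁻¹ ((some x, n + 1) : Ray X) = (some x, n + 1 + 1) := by
        rw [Perm.inv_eq_iff_eq, shift_succ]
      rw [e0, e1] at this
      exact this
  refine containsFin_of_swap _ ((none, 0) : Ray X) ?_
  rintro ⟨_ | x, n⟩
  · induction n with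
    | zero => rw [swap_self]; exact one_mem _
    | succ n ih => exact SubmonoidClass.swap_mem_trans _ ih (hnone n)
  · induction n with
    | zero => exact hsome0 x
    | succ n ih => exact SubmonoidClass.swap_mem_trans _ ih (hsome x n)

/-- Relabelling the extra ray. -/
def pushFun (n : ℕ) : Ray X → Ray X
  | (none, i) => (none, i + n)
  | (some x, i) => (some x, i)

/-- Relabelling the extra ray, as an embedding. -/
def push (X : Type*) (n : ℕ) : Ray X ↪ Ray X where
  toFun := pushFun n
  inj' := by
    rintro ⟨_ | x, i⟩ ⟨_ | y, j⟩ h <;> simp_all [pushFun]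

@[simp] lemma push_none (n i : ℕ) : push X n (none, i) = (none, i + n) := rfl

@[simp] lemma push_some (n i : ℕ) (x : X) : push X n (some x, i) = (some x, i) := rfl

lemma notMem_range_push {n : ℕ} {p : Ray X} : p ∉ Set.range (push X n) ↔ ∃ i < n, p = (none, i) := by
  rcases p with ⟨_ | x, i⟩
  · constructor
    · intro h
      refine ⟨i, ?_, rfl⟩
      by_contra hc
      exact h ⟨(none, i - n), by simp; omega⟩
    · rintro ⟨j, hj, h⟩ ⟨⟨_ | y, k⟩, hk⟩
      · simp at h hk
        omega
      · simp at hk
  · constructor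
    · intro h
      exact absurd ⟨(some x, i), rfl⟩ h
    · rintro ⟨j, hj, h⟩
      simp at h

lemma near_push (n : ℕ) : ∀ s ∈ stdGen G X, Near (Perm.viaEmbeddingHom (push X n) s) s := by
  classical
  have key : ∀ (f : Perm (Ray X)) (E : Set (Ray X)), E.Finite →
      (∀ p ∉ E, f (push X n p) = push X n (f p)) → Near (Perm.viaEmbeddingHom (push X n) f) f := by
    intro f E hE h
    have hfin : ((push X n) '' E ∪ {p | ∃ i < n, p = ((none, i) : Ray X)}).Finite := by
      refine (hE.image _).union ?_
      refine ((Set.finite_lt_nat n).image (fun i => ((none, i) : Ray X))).subset ?_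
      rintro p ⟨i, hi, rfl⟩
      exact ⟨i, hi, rfl⟩
    refine hfin.subset ?_
    intro p hp
    by_contra hcon
    simp only [Set.mem_union, not_or] at hcon
    obtain ⟨h1, h2⟩ := hcon
    by_cases hr : p ∈ Set.range (push X n)
    · obtain ⟨q, rfl⟩ := hr
      apply hp
      rw [Perm.viaEmbeddingHom_apply, Perm.viaEmbedding_apply]
      refine (h q (fun hq => h1 ⟨q, hq, rfl⟩)).symm
    · exact h2 (notMem_range_push.1 hr)
  rintro s ((⟨g, rfl⟩ | ⟨x, rfl⟩) | rfl)
  · refine key _ ∅ Set.finite_empty ?_
    rintro ⟨_ | y, i⟩ - <;> simp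
  · refine key _ {(some x, 0)} (Set.finite_singleton _) ?_
    rintro ⟨_ | y, i⟩ hp
    · simp; omega
    · by_cases hy : y = x
      · subst hy
        rcases i with _ | i
        · simp at hp
        · simp
      · simp [shift_ne hy]
  · refine key _ ({(none, 0), (none, 1)} ∪ {p | ∃ i < 2, p = ((none, i) : Ray X)}) ?_ ?_
    · refine (Set.toFinite _).union ?_
      refine ((Set.finite_lt_nat 2).image (fun i => ((none, i) : Ray X))).subset ?_
      rintro p ⟨i, hi, rfl⟩
      exact ⟨i, hi, rfl⟩
    · rintro ⟨_ | y, i⟩ hp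
      · simp only [Set.mem_union, Set.mem_insert_iff, Set.mem_singleton_iff, Prod.mk.injEq,
          true_and, Set.mem_ofPred_eq, not_or] at hp
        rw [swap_apply_of_ne_of_ne, swap_apply_of_ne_of_ne]
        · simp; omega
        · simp; omega
        · simp; omega
        · simp; omega
      · rw [swap_apply_of_ne_of_ne, swap_apply_of_ne_of_ne] <;> simp

/-- All pointwise stabilizers of finite sets are isomorphic to the whole group. -/
theorem fixer_houghton (x₀ : X) (F : Set (Ray X)) (hF : F.Finite) :
    Nonempty (fixer (HoughtonGroup G X) F ≃* HoughtonGroup G X) := by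
  classical
  have hK := containsFin_houghton (G := G) x₀
  obtain ⟨n, y, hy, rfl⟩ : ∃ (n : ℕ) (y : Fin n → Ray X), Function.Injective y ∧ Set.range y = F := by
    have := hF.fintype
    refine ⟨Fintype.card F, fun i => ((Fintype.equivFin F).symm i : Ray X), ?_, ?_⟩
    · exact Subtype.val_injective.comp (Fintype.equivFin F).symm.injective
    · ext p
      constructor
      · rintro ⟨i, rfl⟩
        exact Subtype.property _
      · intro hp
        exact ⟨Fintype.equivFin F ⟨p, hp⟩, by simp⟩
  obtain ⟨σ, hσ, hσy⟩ := hK.highly (fun i : Fin n => ((none, (i : ℕ)) : Ray X)) y (by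
    intro i j h
    simpa [Fin.ext_iff] using h) hy
  have hset : σ '' (Set.range (push X n))ᶜ = Set.range y := by
    ext p
    constructor
    · rintro ⟨q, hq, rfl⟩
      obtain ⟨i, hi, rfl⟩ := notMem_range_push.1 hq
      exact ⟨⟨i, hi⟩, (hσy ⟨i, hi⟩).symm⟩
    · rintro ⟨i, rfl⟩
      exact ⟨(none, (i : ℕ)), notMem_range_push.2 ⟨i, i.2, rfl⟩, hσy i⟩
  rw [← hset, fixer_conj _ hσ, fixer_eq_map hK rfl (push X n) (near_push n)]
  refine ⟨?_⟩
  exact (((HoughtonGroup G X).equivMapOfInjective _
    (Perm.viaEmbeddingHom_injective (push X n))).trans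
    (((HoughtonGroup G X).map (Perm.viaEmbeddingHom (push X n))).equivMapOfInjective
      (MulAut.conj σ).toMonoidHom (MulAut.conj σ).injective)).symm

end Stab

end Pool.Agent.Helper13
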