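import Pool.Agent.Helper13.OneRayFrac
import Pool.Agent.Helper13.FPTools

set_option autoImplicit false

/-!
# The one-ray labelled Thompson group is finitely presented
-/

namespace Pool.Agent.Helper13

open Subgroup Equiv

section FP

lemma comm_gen {S Γ : Type*} [Group S] [Group Γ] {T : Set S} (hT : closure T = ⊤) (f : S →* Γ)
    (y : Γ) (h : ∀ a ∈ T, f a * y = y * f a) (a : S) : f a * y = y * f a := by
  have ha : a ∈ closure T := by rw [hT]; trivial
  have hle : closure T ≤ (centralizer {y}).comap f := by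
    rw [closure_le]
    intro m hm
    rw [SetLike.mem_coe, Subgroup.mem_comap, mem_centralizer_singleton_iff]
    exact h m hm
  have := hle ha
  rw [mem_comap, mem_centralizer_singleton_iff] at this
  exact this

lemma hom_gen {S Γ : Type*} [Group S] [Group Γ] {T : Set S} (hT : closure T = ⊤) (f g : S →* Γ)
    (h : ∀ a ∈ T, f a = g a) (a : S) : f a = g a :=
  DFunLike.congr_fun (MonoidHom.eq_of_eqOn_dense hT (fun x hx => h x hx)) a

/-- The relations for labels in a generating set. -/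
structure ORelT {Γ S : Type*} [Group Γ] [Group S] (x0 x1 t : Γ) (s c : S →* Γ) (T : Set S) :
    Prop where
  sq0 : x0 * x0 = 1
  sq1 : x1 * x1 = 1
  br01 : x0 * x1 * x0 = x1 * x0 * x1
  br12 : x1 * oA x0 x1 t 2 * x1 = oA x0 x1 t 2 * x1 * oA x0 x1 t 2
  c02 : x0 * oA x0 x1 t 2 = oA x0 x1 t 2 * x0
  c03 : x0 * oA x0 x1 t 3 = oA x0 x1 t 3 * x0
  c13 : x1 * oA x0 x1 t 3 = oA x0 x1 t 3 * x1
  c14 : x1 * oA x0 x1 t 4 = oA x0 x1 t 4 * x1
  t12 : oT x0 x1 t 0 * oA x0 x1 t 2 = oA x0 x1 t 3 * oT x0 x1 t 0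
  t13 : oT x0 x1 t 0 * oA x0 x1 t 3 = oA x0 x1 t 4 * oT x0 x1 t 0
  t2 : oT x0 x1 t 1 = x1 * oA x0 x1 t 2 * oT x0 x1 t 0 * x1
  t3 : oT x0 x1 t 0 * oT x0 x1 t 1 = oT x0 x1 t 2 * oT x0 x1 t 0
  ct2 : oT x0 x1 t 1 * x0 = x0 * oT x0 x1 t 1
  ct3 : oT x0 x1 t 2 * x1 = x1 * oT x0 x1 t 2
  s1 : ∀ a ∈ T, s a * x1 = x1 * s a
  s2 : ∀ a ∈ T, s a * oA x0 x1 t 2 = oA x0 x1 t 2 * s a
  s3 : ∀ a ∈ T, s a * oA x0 x1 t 3 = oA x0 x1 t 3 * s a
  st2 : ∀ a ∈ T, oT x0 x1 t 1 * s a = s a * oT x0 x1 t 1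
  ss : ∀ a ∈ T, ∀ b ∈ T, s a * (x0 * s b * x0) = (x0 * s b * x0) * s a
  ts0 : ∀ a ∈ T, t * s a * t⁻¹ = s a * (x0 * s a * x0)
  ts1 : ∀ a ∈ T, t * (x0 * s a * x0) * t⁻¹ = x1 * (x0 * s a * x0) * x1
  cx0 : ∀ a ∈ T, c a * x0 = x0 * c a
  cx1 : ∀ a ∈ T, c a * x1 = x1 * c a
  ct : ∀ a ∈ T, c a * t = t * c a
  cs : ∀ a ∈ T, ∀ b ∈ T, c a * s b * (c a)⁻¹ = s (a * b * a⁻¹)

theorem ORelT.toORel {Γ S : Type*} [Group Γ] [Group S] {x0 x1 t : Γ} {s c : S →* Γ} {T : Set S}
    (hT : closure T = ⊤) (R : ORelT x0 x1 t s c T) : ORel x0 x1 t s c := by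
  -- the label on the cone `1` as a homomorphism
  let s' : S →* Γ :=
    { toFun := fun a => x0 * s a * x0
      map_one' := by rw [map_one, mul_one, R.sq0]
      map_mul' := by
        intro a b
        rw [map_mul]
        calc x0 * (s a * s b) * x0 = x0 * s a * 1 * s b * x0 := by group
          _ = x0 * s a * (x0 * x0) * s b * x0 := by rw [R.sq0]
          _ = _ := by group }
  let s2 : S →* Γ :=
    { toFun := fun a => x1 * (x0 * s a * x0) * x1
      map_one' := by rw [map_one, mul_one, R.sq0, mul_one, R.sq1]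
      map_mul' := by
        intro a b
        have := map_mul s' a b
        have e : x0 * s (a * b) * x0 = (x0 * s a * x0) * (x0 * s b * x0) := this
        rw [e]
        calc x1 * (x0 * s a * x0 * (x0 * s b * x0)) * x1
            = x1 * (x0 * s a * x0) * 1 * (x0 * s b * x0) * x1 := by group
          _ = x1 * (x0 * s a * x0) * (x1 * x1) * (x0 * s b * x0) * x1 := by rw [R.sq1]
          _ = _ := by group }
  have hss : ∀ a b, s a * (x0 * s b * x0) = (x0 * s b * x0) * s a := by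
    intro a b
    have h1 : ∀ b ∈ T, ∀ a, s a * (x0 * s b * x0) = (x0 * s b * x0) * s a := fun b hb =>
      comm_gen hT s _ (fun a ha => R.ss a ha b hb)
    exact (comm_gen hT s' (s a) (fun b hb => (h1 b hb a).symm) b).symm
  let s01 : S →* Γ :=
    { toFun := fun a => s a * (x0 * s a * x0)
      map_one' := by rw [map_one, mul_one, one_mul, R.sq0]
      map_mul' := by
        intro a b
        have e : x0 * s (a * b) * x0 = (x0 * s a * x0) * (x0 * s b * x0) := map_mul s' a b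
        rw [e, map_mul]
        calc s a * s b * (x0 * s a * x0 * (x0 * s b * x0))
            = s a * (s b * (x0 * s a * x0)) * (x0 * s b * x0) := by group
          _ = _ := by rw [hss]; group }
  refine ⟨R.sq0, R.sq1, R.br01, R.br12, R.c02, R.c03, R.c13, R.c14, R.t12, R.t13, R.t2, R.t3,
    R.ct2, R.ct3, ?_, ?_, ?_, ?_, hss, ?_, ?_, ?_, ?_, ?_, ?_⟩
  · exact comm_gen hT s _ R.s1
  · exact comm_gen hT s _ R.s2
  · exact comm_gen hT s _ R.s3
  · intro a
    exact (comm_gen hT s _ (fun a ha => (R.st2 a ha).symm) a).symm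
  · exact hom_gen hT ((MulAut.conj t).toMonoidHom.comp s) s01 (fun a ha => R.ts0 a ha)
  · exact hom_gen hT ((MulAut.conj t).toMonoidHom.comp s') s2 (fun a ha => R.ts1 a ha)
  · exact comm_gen hT c _ R.cx0
  · exact comm_gen hT c _ R.cx1
  · exact comm_gen hT c _ R.ct
  · have h1 : ∀ a ∈ T, ∀ b, c a * s b * (c a)⁻¹ = s (a * b * a⁻¹) := fun a ha =>
      hom_gen hT ((MulAut.conj (c a)).toMonoidHom.comp s) (s.comp (MulAut.conj a).toMonoidHom)
        (fun b hb => R.cs a ha b hb)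
    intro a
    have ha : a ∈ closure T := by rw [hT]; trivial
    induction ha using closure_induction with
    | mem a ha => exact h1 a ha
    | one => intro b; simp
    | mul a a' _ _ ih ih' =>
      intro b
      rw [map_mul]
      calc c a * c a' * s b * (c a * c a')⁻¹ = c a * (c a' * s b * (c a')⁻¹) * (c a)⁻¹ := by group
        _ = _ := by rw [ih', ih]; congr 1; group
    | inv a _ ih =>
      intro b
      have := ih (a⁻¹ * b * a)
      rw [show a * (a⁻¹ * b * a) * a⁻¹ = b by group] at this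
      rw [← this, map_inv, show a⁻¹ * b * a⁻¹⁻¹ = a⁻¹ * b * a by group]
      group

theorem ORel.toORelT {Γ S : Type*} [Group Γ] [Group S] {x0 x1 t : Γ} {s c : S →* Γ} {T : Set S}
    (R : ORel x0 x1 t s c) : ORelT x0 x1 t s c T :=
  ⟨R.sq0, R.sq1, R.br01, R.br12, R.c02, R.c03, R.c13, R.c14, R.t12, R.t13, R.t2, R.t3,
    R.ct2, R.ct3, fun a _ => R.s1 a, fun a _ => R.s2 a, fun a _ => R.s3 a, fun a _ => R.st2 a,
    fun a _ b _ => R.ss a b, fun a _ => R.ts0 a, fun a _ => R.ts1 a, fun a _ => R.cx0 a,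
    fun a _ => R.cx1 a, fun a _ => R.ct a, fun a _ b _ => R.cs a b⟩

/-- The relators without labels, as pairs. -/
def relL {Γ : Type*} [Group Γ] (x0 x1 t : Γ) : List (Γ × Γ) :=
  [(x0 * x0, 1), (x1 * x1, 1), (x0 * x1 * x0, x1 * x0 * x1),
   (x1 * oA x0 x1 t 2 * x1, oA x0 x1 t 2 * x1 * oA x0 x1 t 2),
   (x0 * oA x0 x1 t 2, oA x0 x1 t 2 * x0),
   (x0 * oA x0 x1 t 3, oA x0 x1 t 3 * x0),
   (x1 * oA x0 x1 t 3, oA x0 x1 t 3 * x1),
   (x1 * oA x0 x1 t 4, oA x0 x1 t 4 * x1),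
   (oT x0 x1 t 0 * oA x0 x1 t 2, oA x0 x1 t 3 * oT x0 x1 t 0),
   (oT x0 x1 t 0 * oA x0 x1 t 3, oA x0 x1 t 4 * oT x0 x1 t 0),
   (oT x0 x1 t 1, x1 * oA x0 x1 t 2 * oT x0 x1 t 0 * x1),
   (oT x0 x1 t 0 * oT x0 x1 t 1, oT x0 x1 t 2 * oT x0 x1 t 0),
   (oT x0 x1 t 1 * x0, x0 * oT x0 x1 t 1),
   (oT x0 x1 t 2 * x1, x1 * oT x0 x1 t 2)]

/-- The relators with labels, as pairs. -/
def relM {Γ S : Type*} [Group Γ] [Group S] (x0 x1 t : Γ) (s c : S →* Γ) (a b : S) :
    List (Γ × Γ) :=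
  [(s a * x1, x1 * s a),
   (s a * oA x0 x1 t 2, oA x0 x1 t 2 * s a),
   (s a * oA x0 x1 t 3, oA x0 x1 t 3 * s a),
   (oT x0 x1 t 1 * s a, s a * oT x0 x1 t 1),
   (s a * (x0 * s b * x0), (x0 * s b * x0) * s a),
   (t * s a * t⁻¹, s a * (x0 * s a * x0)),
   (t * (x0 * s a * x0) * t⁻¹, x1 * (x0 * s a * x0) * x1),
   (c a * x0, x0 * c a),
   (c a * x1, x1 * c a),
   (c a * t, t * c a),
   (c a * s b * (c a)⁻¹, s (a * b * a⁻¹))]

lemma ORelT_iff {Γ S : Type*} [Group Γ] [Group S] (x0 x1 t : Γ) (s c : S →* Γ) (T : Set S) :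
    ORelT x0 x1 t s c T ↔ (∀ p ∈ relL x0 x1 t, p.1 = p.2) ∧
      ∀ a ∈ T, ∀ b ∈ T, ∀ p ∈ relM x0 x1 t s c a b, p.1 = p.2 := by
  constructor
  · intro R
    constructor
    · simp only [relL, List.mem_cons, List.not_mem_nil, or_false, forall_eq_or_imp, forall_eq]
      exact ⟨R.sq0, R.sq1, R.br01, R.br12, R.c02, R.c03, R.c13, R.c14, R.t12, R.t13, R.t2, R.t3,
        R.ct2, R.ct3⟩
    · intro a ha b hb
      simp only [relM, List.mem_cons, List.not_mem_nil, or_false, forall_eq_or_imp, forall_eq]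
      exact ⟨R.s1 a ha, R.s2 a ha, R.s3 a ha, R.st2 a ha, R.ss a ha b hb, R.ts0 a ha, R.ts1 a ha,
        R.cx0 a ha, R.cx1 a ha, R.ct a ha, R.cs a ha b hb⟩
  · rintro ⟨h1, h2⟩
    simp only [relL, List.mem_cons, List.not_mem_nil, or_false, forall_eq_or_imp, forall_eq] at h1
    simp only [relM, List.mem_cons, List.not_mem_nil, or_false, forall_eq_or_imp, forall_eq] at h2
    obtain ⟨a1, a2, a3, a4, a5, a6, a7, a8, a9, a10, a11, a12, a13, a14⟩ := h1
    refine ⟨a1, a2, a3, a4, a5, a6, a7, a8, a9, a10, a11, a12, a13, a14, ?_, ?_, ?_, ?_, ?_, ?_,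
      ?_, ?_, ?_, ?_, ?_⟩
    · exact fun a ha => (h2 a ha a ha).1
    · exact fun a ha => (h2 a ha a ha).2.1
    · exact fun a ha => (h2 a ha a ha).2.2.1
    · exact fun a ha => (h2 a ha a ha).2.2.2.1
    · exact fun a ha b hb => (h2 a ha b hb).2.2.2.2.1
    · exact fun a ha => (h2 a ha a ha).2.2.2.2.2.1
    · exact fun a ha => (h2 a ha a ha).2.2.2.2.2.2.1
    · exact fun a ha => (h2 a ha a ha).2.2.2.2.2.2.2.1
    · exact fun a ha => (h2 a ha a ha).2.2.2.2.2.2.2.2.1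
    · exact fun a ha => (h2 a ha a ha).2.2.2.2.2.2.2.2.2.1
    · exact fun a ha b hb => (h2 a ha b hb).2.2.2.2.2.2.2.2.2.2

lemma map_oA {Γ P : Type*} [Group Γ] [Group P] (F : Γ →* P) (x0 x1 t : Γ) (n : ℕ) :
    F (oA x0 x1 t n) = oA (F x0) (F x1) (F t) n := by
  rcases n with _ | n
  · rfl
  · simp [oA]

lemma map_oT {Γ P : Type*} [Group Γ] [Group P] (F : Γ →* P) (x0 x1 t : Γ) (n : ℕ) :
    F (oT x0 x1 t n) = oT (F x0) (F x1) (F t) n := by
  induction n with
  | zero => simp [oT]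
  | succ n ih => simp [oT, ih]

lemma relL_map {Γ P : Type*} [Group Γ] [Group P] (F : Γ →* P) (x0 x1 t : Γ) :
    relL (F x0) (F x1) (F t) = (relL x0 x1 t).map (Prod.map F F) := by
  simp [relL, map_oA, map_oT]

lemma relM_map {Γ P S : Type*} [Group Γ] [Group P] [Group S] (F : Γ →* P) (x0 x1 t : Γ)
    (s c : S →* Γ) (a b : S) :
    relM (F x0) (F x1) (F t) (F.comp s) (F.comp c) a b =
      (relM x0 x1 t s c a b).map (Prod.map F F) := by
  simp [relM, map_oA, map_oT]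

theorem exists_oneRay (S : Type) [Group S] [hS : Group.IsFinitelyPresented S] :
    ∃ (Γ : Type) (_ : Group Γ) (x0 x1 t : Γ) (s c : S →* Γ) (ρ : Γ →* Perm (Dy × S)),
      Group.IsFinitelyPresented Γ ∧ ORel x0 x1 t s c ∧ StdRep x0 x1 t s c ρ ∧
      closure ({x0, x1, t} ∪ Set.range s ∪ Set.range c) = ⊤ ∧ Function.Injective ρ := by
  classical
  obtain ⟨T, hT⟩ : ∃ T : Finset S, closure (T : Set S) = ⊤ := by
    obtain ⟨n, φ, hφ, -⟩ := hS.out
    exact (Group.fg_of_surjective hφ).out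
  obtain ⟨W, instW, hWfp, iW, tW, hWgen, hWlift⟩ :=
    exists_copies_extension.{0, 0, 0} (FreeGroup (Fin 3)) S 2
  let X0 : W := iW (FreeGroup.of 0)
  let X1 : W := iW (FreeGroup.of 1)
  let TT : W := iW (FreeGroup.of 2)
  let sW : S →* W := tW 0
  let cW : S →* W := tW 1
  let R1 : Set W := {w | ∃ p ∈ relL X0 X1 TT, w = p.1 * p.2⁻¹}
  let R2 : Set W := ⋃ q ∈ (T ×ˢ T : Finset (S × S)),
    {w | ∃ p ∈ relM X0 X1 TT sW cW q.1 q.2, w = p.1 * p.2⁻¹}
  let R : Set W := R1 ∪ R2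
  have hfinL : ∀ l : List (W × W), {w | ∃ p ∈ l, w = p.1 * p.2⁻¹}.Finite := by
    intro l
    have : {w | ∃ p ∈ l, w = p.1 * p.2⁻¹} = (fun p : W × W => p.1 * p.2⁻¹) '' {p | p ∈ l} := by
      ext w
      constructor
      · rintro ⟨p, hp, rfl⟩; exact ⟨p, hp, rfl⟩
      · rintro ⟨p, hp, rfl⟩; exact ⟨p, hp, rfl⟩
    rw [this]
    exact (List.finite_toSet l).image _
  have hRfin : R.Finite := by
    refine (hfinL _).union ?_
    exact Set.Finite.biUnion (T ×ˢ T : Finset (S × S)).finite_toSet (fun q _ => hfinL _)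
  let N : Subgroup W := normalClosure R
  let π : W →* W ⧸ N := QuotientGroup.mk' N
  have hker : ∀ r ∈ R, π r = 1 := fun r hr =>
    (QuotientGroup.eq_one_iff r).2 (subset_normalClosure hr)
  have hfpK : Group.IsFinitelyPresented (W ⧸ N) :=
    Group.IsFinitelyPresented.quotient N ⟨R, hRfin, rfl⟩
  have hRel : ORel (π X0) (π X1) (π TT) (π.comp sW) (π.comp cW) := by
    apply ORelT.toORel hT
    rw [ORelT_iff]
    constructor
    · intro p hp
      rw [relL_map] at hp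
      obtain ⟨q, hq, rfl⟩ := List.mem_map.1 hp
      have := hker (q.1 * q.2⁻¹) (Or.inl ⟨q, hq, rfl⟩)
      rw [map_mul, map_inv, mul_inv_eq_one] at this
      exact this
    · intro a ha b hb p hp
      rw [relM_map] at hp
      obtain ⟨q, hq, rfl⟩ := List.mem_map.1 hp
      have := hker (q.1 * q.2⁻¹) (Or.inr (Set.mem_biUnion (x := (a, b)) (by simpa using ⟨ha, hb⟩)
        ⟨q, hq, rfl⟩))
      rw [map_mul, map_inv, mul_inv_eq_one] at this
      exact this
  -- the standard representation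
  obtain ⟨ρW, hρi, hρt⟩ := hWlift (Perm (Dy × S)) inferInstance
    (FreeGroup.lift ![hp (swap 0 1), hp (swap 1 2), tsp 0]) ![sH, cH]
  have e0 : ρW X0 = hp (swap 0 1) := by simp [X0, hρi]
  have e1 : ρW X1 = hp (swap 1 2) := by simp [X1, hρi]
  have e2 : ρW TT = tsp 0 := by simp [TT, hρi]
  have es : ρW.comp sW = sH := by
    ext1 a
    exact hρt 0 a
  have ec : ρW.comp cW = cH := by
    ext1 a
    exact hρt 1 a
  have hstd : ORelT (ρW X0) (ρW X1) (ρW TT) (ρW.comp sW) (ρW.comp cW) (T : Set S) := by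
    rw [e0, e1, e2, es, ec]
    exact std_ORel.toORelT
  rw [ORelT_iff] at hstd
  have hNle : N ≤ ρW.ker := by
    apply normalClosure_le_normal
    rintro r (⟨p, hp, rfl⟩ | hr)
    · have := hstd.1 (Prod.map ρW ρW p) (by rw [relL_map]; exact List.mem_map.2 ⟨p, hp, rfl⟩)
      change ρW (p.1 * p.2⁻¹) = 1
      rw [map_mul, map_inv, mul_inv_eq_one]
      exact this
    · obtain ⟨q, hq, p, hp, rfl⟩ := Set.mem_iUnion₂.1 hr
      have hq' := Finset.mem_product.1 hq
      have := hstd.2 q.1 hq'.1 q.2 hq'.2 (Prod.map ρW ρW p)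
        (by rw [relM_map]; exact List.mem_map.2 ⟨p, hp, rfl⟩)
      change ρW (p.1 * p.2⁻¹) = 1
      rw [map_mul, map_inv, mul_inv_eq_one]
      exact this
  let ρ : W ⧸ N →* Perm (Dy × S) := QuotientGroup.lift N ρW hNle
  have hSR : StdRep (π X0) (π X1) (π TT) (π.comp sW) (π.comp cW) ρ :=
    ⟨e0, e1, e2, fun a => DFunLike.congr_fun es a, fun a => DFunLike.congr_fun ec a⟩
  have hgen : closure ({π X0, π X1, π TT} ∪ Set.range (π.comp sW) ∪ Set.range (π.comp cW)) = ⊤ := by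
    rw [eq_top_iff]
    have hW : (⊤ : Subgroup W) ≤ (closure ({π X0, π X1, π TT} ∪ Set.range (π.comp sW) ∪
        Set.range (π.comp cW))).comap π := by
      rw [← hWgen, closure_le]
      rintro _ (⟨g, rfl⟩ | hm)
      · change π (iW g) ∈ closure ({π X0, π X1, π TT} ∪ Set.range (π.comp sW) ∪
          Set.range (π.comp cW))
        induction g using FreeGroup.induction_on with
        | C1 => rw [map_one, map_one]; exact one_mem _
        | of q =>
          apply Subgroup.subset_closure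
          left; left
          fin_cases q
          · exact Or.inl rfl
          · exact Or.inr (Or.inl rfl)
          · exact Or.inr (Or.inr rfl)
        | inv_of q ih => rw [map_inv, map_inv]; exact inv_mem ih
        | mul x y hx hy => rw [map_mul, map_mul]; exact mul_mem hx hy
      · obtain ⟨j, m, rfl⟩ := Set.mem_iUnion.1 hm
        fin_cases j
        · exact Subgroup.subset_closure (Or.inl (Or.inr ⟨m, rfl⟩))
        · exact Subgroup.subset_closure (Or.inr ⟨m, rfl⟩)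
    intro γ _
    obtain ⟨w, rfl⟩ := QuotientGroup.mk'_surjective N γ
    exact hW trivial
  exact ⟨W ⧸ N, inferInstance, π X0, π X1, π TT, π.comp sW, π.comp cW, ρ, hfpK, hRel, hSR, hgen,
    oneRay_injective hRel hSR hgen⟩

end FP

end Pool.Agent.Helper13
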