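import Pool.Agent.Helper13.OneRayInj

set_option autoImplicit false

/-!
# Injectivity of the standard representation
-/

namespace Pool.Agent.Helper13

open Subgroup Equiv

section Frac

variable {Γ S : Type*} [Group Γ] [Group S] {x0 x1 t : Γ} {s c : S →* Γ}
  {ρ : Γ →* Perm (Dy × S)}

lemma StdRep.actA (hρ : StdRep x0 x1 t s c ρ) :
    ActA ρ (oA x0 x1 t) (fun i => (([i], 1) : Dy × S)) where
  inj := by
    intro i j h
    simpa using h
  left i := by rw [hρ.rA, hp_cons, swap_apply_left]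
  right i := by rw [hρ.rA, hp_cons, swap_apply_right]
  fix i j h1 h2 := by rw [hρ.rA, hp_cons, swap_apply_of_ne_of_ne h1 h2]

lemma Sg_rep (hρ : StdRep x0 x1 t s c ρ) (σ : Γ) (hσ : σ ∈ closure (Set.range (oA x0 x1 t))) :
    ∃ p, ρ σ = hp p := by
  have hle : closure (Set.range (oA x0 x1 t)) ≤ (hp (S := S)).range.comap ρ := by
    rw [closure_le]
    rintro _ ⟨i, rfl⟩
    exact ⟨_, (hρ.rA i).symm⟩
  obtain ⟨p, hp⟩ := hle hσ
  exact ⟨p, hp.symm⟩

lemma exists_up (hρ : StdRep x0 x1 t s c ρ) (j : ℕ) (hj : 1 ≤ j) :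
    ∃ k ∈ closure (oA x0 x1 t '' {i | 1 ≤ i}), ρ k (([1], 1) : Dy × S) = ([j], 1) := by
  induction j, hj using Nat.le_induction with
  | base => exact ⟨1, one_mem _, by simp⟩
  | succ j hj ih =>
    obtain ⟨k, hk, hk'⟩ := ih
    refine ⟨oA x0 x1 t j * k, mul_mem (subset_closure ⟨j, hj, rfl⟩) hk, ?_⟩
    rw [map_mul, Perm.mul_apply, hk', hρ.rA, hp_cons, swap_apply_left]

/-- The double coset decomposition of the base group. -/
lemma double_coset (R : ORel x0 x1 t s c) (hρ : StdRep x0 x1 t s c ρ) (h : Γ)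
    (hh : h ∈ Hb x0 x1 t s c) :
    h ∈ H0 x0 x1 t s c ∨ ∃ k ∈ H0 x0 x1 t s c, ∃ k' ∈ H0 x0 x1 t s c, h = k * x0 * k' := by
  obtain ⟨a, l, hl, σ, hσ, rfl⟩ := Hb_form R h hh
  obtain ⟨p, hp'⟩ := Sg_rep hρ σ hσ
  have hc : c a ∈ H0 x0 x1 t s c := subset_closure (Or.inr ⟨a, rfl⟩)
  have hl' : l ∈ H0 x0 x1 t s c := by
    have : closure {g | ∃ i a, g = oS x0 t s i a} ≤ H0 x0 x1 t s c :=
      Subgroup.closure_mono (fun g hg => Or.inl (Or.inr hg))
    exact this hl
  have hA : closure (oA x0 x1 t '' {i | 1 ≤ i}) ≤ H0 x0 x1 t s c :=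
    Subgroup.closure_mono (fun g hg => Or.inl (Or.inl hg))
  rcases Nat.eq_zero_or_pos (p 0) with h0 | h0
  · left
    refine mul_mem (mul_mem hc hl') (hA ?_)
    apply hρ.actA.fix_zero R.cox σ hσ
    rw [hp', hp_cons, h0]
  · right
    obtain ⟨k, hk, hk'⟩ := exists_up hρ (p 0) h0
    have hkS : k ∈ closure (Set.range (oA x0 x1 t)) := by
      have : closure (oA x0 x1 t '' {i | 1 ≤ i}) ≤ closure (Set.range (oA x0 x1 t)) :=
        Subgroup.closure_mono (Set.image_subset_range _ _)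
      exact this hk
    have hσ' : x0 * k⁻¹ * σ ∈ closure (oA x0 x1 t '' {i | 1 ≤ i}) := by
      apply hρ.actA.fix_zero R.cox
      · exact mul_mem (mul_mem (subset_closure ⟨0, rfl⟩) (inv_mem hkS)) hσ
      · rw [map_mul, map_mul, Perm.mul_apply, Perm.mul_apply, hp', hp_cons, ← hk', map_inv,
          show (ρ k)⁻¹ (ρ k (([1], 1) : Dy × S)) = ([1], 1) by
            rw [Perm.inv_eq_iff_eq], hρ.r0, hp_cons, swap_apply_right]
    refine ⟨c a * l * k, mul_mem (mul_mem hc hl') (hA hk), x0 * k⁻¹ * σ, hA hσ', ?_⟩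
    have := R.sq0
    calc c a * l * σ = c a * l * k * (1 * k⁻¹ * σ) := by group
      _ = c a * l * k * (x0 * x0 * k⁻¹ * σ) := by rw [this]
      _ = _ := by group

/-- The representation is faithful on the base group. -/
lemma Hb_injective (R : ORel x0 x1 t s c) (hρ : StdRep x0 x1 t s c ρ) (h : Γ)
    (hh : h ∈ Hb x0 x1 t s c) (h1 : ρ h = 1) : h = 1 := by
  obtain ⟨a, l, hl, σ, hσ, rfl⟩ := Hb_form R h hh
  obtain ⟨p, hp'⟩ := Sg_rep hρ σ hσ
  obtain ⟨f, n, rfl⟩ := mem_lab R l hl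
  have h2 : ∀ i, ((p i :: [], a * (if p i < n then f (p i) else 1)) : Dy × S) = ([i], 1) := by
    intro i
    have := DFunLike.congr_fun h1 (([i], 1) : Dy × S)
    rw [map_mul, map_mul, Perm.mul_apply, Perm.mul_apply, hp', hp_cons, rho_lprod hρ, lb_cons,
      hρ.rcc, cH_apply, Perm.one_apply, mul_one] at this
    exact this
  have hpi : ∀ i, p i = i := fun i => by
    have := congrArg Prod.fst (h2 i)
    simpa using this
  have hlab : ∀ i, a * (if i < n then f i else 1) = 1 := fun i => by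
    have := congrArg Prod.snd (h2 i)
    rwa [hpi] at this
  have ha : a = 1 := by
    have := hlab n
    simpa using this
  have hf : ∀ i < n, f i = 1 := by
    intro i hi
    have := hlab i
    rw [ha, if_pos hi, one_mul] at this
    exact this
  have hσ1 : σ = 1 := by
    apply hρ.actA.injective R.cox σ hσ
    intro k
    rw [hp', hp_cons, hpi]
  have hl1 : lprod x0 t s f n = 1 := by
    rw [lprod_congr (g := fun _ => 1) hf]
    exact lprod_extend R (f := fun _ => (1 : S)) (n := 0) (m := n) (by omega) (fun _ _ => rfl)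
  rw [ha, hσ1, hl1, map_one, one_mul, one_mul]

/-- `f` maps the ray cone `i` into the ray cone `j`. -/
def InR (f : Perm (Dy × S)) (i j : ℕ) : Prop := ∀ z s, ∃ z' s', f (i :: z, s) = (j :: z', s')

lemma InR.mul {f g : Perm (Dy × S)} {i j k : ℕ} (hf : InR f j k) (hg : InR g i j) :
    InR (f * g) i k := by
  intro z s
  obtain ⟨z', s', h⟩ := hg z s
  rw [Perm.mul_apply, h]
  exact hf z' s'

/-- `f` is an isomorphism from the ray cone `i` to the ray cone `j`. -/
def OnR (f : Perm (Dy × S)) (i j : ℕ) : Prop := InR f i j ∧ InR f⁻¹ j i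

lemma OnR.mul {f g : Perm (Dy × S)} {i j k : ℕ} (hf : OnR f j k) (hg : OnR g i j) :
    OnR (f * g) i k := ⟨hf.1.mul hg.1, by rw [mul_inv_rev]; exact hg.2.mul hf.2⟩

lemma OnR.inv {f : Perm (Dy × S)} {i j : ℕ} (hf : OnR f i j) : OnR f⁻¹ j i :=
  ⟨hf.2, by rw [inv_inv]; exact hf.1⟩

lemma mono_OnR (F : (ℕ → S) × S) (p : Perm ℕ) (i : ℕ) :
    OnR (lb F * hp p : Perm (Dy × S)) i (p i) := by
  constructor
  · intro z s
    exact ⟨z, _, mono_apply F p i z s⟩
  · intro z s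
    refine ⟨z, (F.1 (p i))⁻¹ * s, ?_⟩
    rw [Perm.inv_eq_iff_eq, mono_apply, mul_inv_cancel_left]

lemma Hb_OnR (hρ : StdRep x0 x1 t s c ρ) (h : Γ) (hh : h ∈ Hb x0 x1 t s c) :
    ∃ p : Perm ℕ, ∀ i, OnR (ρ h) i (p i) := by
  obtain ⟨F, p, h1⟩ := Hb_mono hρ h hh
  exact ⟨p, fun i => by rw [h1]; exact mono_OnR F p i⟩

lemma InR.unique {f : Perm (Dy × S)} {i j j' : ℕ} (h : InR f i j) (h' : InR f i j') : j = j' := by
  obtain ⟨z, s, e⟩ := h [] 1
  obtain ⟨z', s', e'⟩ := h' [] 1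
  rw [e] at e'
  simp only [Prod.mk.injEq, List.cons.injEq] at e'
  exact e'.1.1

lemma tsp_OnR (n i : ℕ) (h : n < i) : OnR (tsp n : Perm (Dy × S)) i (i + 1) := by
  have e : ∀ z s, tsp n ((i :: z, s) : Dy × S) = ((i + 1) :: z, s) := by
    intro z s
    simp only [tsp_apply, spl]
    rw [if_neg (by omega), if_neg (by omega)]
  constructor
  · intro z s
    exact ⟨z, s, e z s⟩
  · intro z s
    refine ⟨z, s, ?_⟩
    rw [Perm.inv_eq_iff_eq, e]

lemma tsp_OnR_lt (n i : ℕ) (h : i < n) : OnR (tsp n : Perm (Dy × S)) i i := by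
  have e : ∀ z s, tsp n ((i :: z, s) : Dy × S) = (i :: z, s) := by
    intro z s
    simp only [tsp_apply, spl]
    rw [if_pos h]
  constructor
  · intro z s
    exact ⟨z, s, e z s⟩
  · intro z s
    refine ⟨z, s, ?_⟩
    rw [Perm.inv_eq_iff_eq, e]

lemma tsp_inv_InR (j : ℕ) : ∃ j', InR (tsp 0 : Perm (Dy × S))⁻¹ j j' := by
  rcases j with _ | _ | j
  · refine ⟨0, fun z s => ?_⟩
    rcases z with _ | ⟨i, z⟩
    · exact ⟨[], s, by rw [Perm.inv_eq_iff_eq]; rfl⟩
    · exact ⟨(i + 1) :: z, s, by rw [Perm.inv_eq_iff_eq]; rfl⟩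
  · exact ⟨0, fun z s => ⟨0 :: z, s, by rw [Perm.inv_eq_iff_eq]; rfl⟩⟩
  · exact ⟨j + 1, (tsp_OnR 0 (j + 1) (by omega)).2⟩

lemma not_InR_tsp (j : ℕ) : ¬ InR (tsp 0 : Perm (Dy × S)) 0 j := by
  intro h
  obtain ⟨z, s, e⟩ := h [] 1
  obtain ⟨z', s', e'⟩ := h [0] 1
  have e1 : tsp 0 (([0], 1) : Dy × S) = ([0], 1) := rfl
  have e2 : tsp 0 (([0, 0], 1) : Dy × S) = ([1], 1) := rfl
  rw [e1] at e
  rw [e2] at e'
  simp only [Prod.mk.injEq, List.cons.injEq] at e e'
  omega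

/-- The splittings. -/
def Spl (x0 x1 t : Γ) (s c : S →* Γ) : Set Γ :=
  {l | ∃ h₁ ∈ Hb x0 x1 t s c, ∃ h₂ ∈ Hb x0 x1 t s c, l = h₁ * t * h₂}

/-- Visibility of a splitting. -/
def FacR (ρ : Γ →* Perm (Dy × S)) (f : Perm (Dy × S)) (l : Γ) : Prop :=
  ∀ i, (∀ j, ¬ InR (ρ l) i j) → ∀ j, ¬ InR f i j

/-- The data of the diamond. -/
lemma diamond_data (R : ORel x0 x1 t s c) (hρ : StdRep x0 x1 t s c ρ) (l₁ l₂ : Γ)
    (h₁ : l₁ ∈ Spl x0 x1 t s c) (h₂ : l₂ ∈ Spl x0 x1 t s c) :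
    (∃ h ∈ Hb x0 x1 t s c, l₂ = h * l₁) ∨ ∃ h ∈ Hb x0 x1 t s c, ∃ h' ∈ Hb x0 x1 t s c,
      ∃ r ∈ Hb x0 x1 t s c, l₁ = h⁻¹ * t * r ∧ l₂ = h'⁻¹ * t * x0 * r ∧
      ∀ i, InR (ρ l₂) i = InR (ρ l₂) i := by
  obtain ⟨a, ha, b, hb, rfl⟩ := h₁
  obtain ⟨a', ha', b', hb', rfl⟩ := h₂
  rcases double_coset R hρ (b' * b⁻¹) (mul_mem hb' (inv_mem hb)) with h | ⟨k, hk, k', hk', e⟩
  · left
    refine ⟨a' * (t * (b' * b⁻¹) * t⁻¹) * a⁻¹,
      mul_mem (mul_mem ha' (conj_H0 R _ h)) (inv_mem ha), by group⟩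
  · right
    refine ⟨(t * k' * t⁻¹) * a⁻¹, mul_mem (conj_H0 R _ hk') (inv_mem ha),
      (t * k * t⁻¹)⁻¹ * a'⁻¹, mul_mem (inv_mem (conj_H0 R _ hk)) (inv_mem ha'),
      k' * b, mul_mem (H0_le hk') hb, by group, ?_, fun _ => rfl⟩
    have : b' = k * x0 * k' * b := by rw [← e]; group
    rw [this]
    group

lemma t1_mem (R : ORel x0 x1 t s c) :
    x1 * oA x0 x1 t 2 * oT x0 x1 t 0 * x1 ∈ Spl x0 x1 t s c := by
  refine ⟨x1 * oA x0 x1 t 2 * (x0 * x1), ?_, x0 * x1, ?_, ?_⟩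
  · have h0 := oA_mem (x0 := x0) (x1 := x1) (t := t) (s := s) (c := c) 0
    have h1 := oA_mem (x0 := x0) (x1 := x1) (t := t) (s := s) (c := c) 1
    rw [oA_one] at h1
    exact mul_mem (mul_mem h1 (oA_mem 2)) (mul_mem h0 h1)
  · have h0 := oA_mem (x0 := x0) (x1 := x1) (t := t) (s := s) (c := c) 0
    have h1 := oA_mem (x0 := x0) (x1 := x1) (t := t) (s := s) (c := c) 1
    rw [oA_one] at h1
    exact mul_mem h0 h1
  · simp only [oT]
    group

lemma t0_mem : t * x0 * x1 ∈ Spl x0 x1 t s c := by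
  refine ⟨1, one_mem _, x0 * x1, ?_, by group⟩
  have h0 := oA_mem (x0 := x0) (x1 := x1) (t := t) (s := s) (c := c) 0
  have h1 := oA_mem (x0 := x0) (x1 := x1) (t := t) (s := s) (c := c) 1
  rw [oA_one] at h1
  exact mul_mem h0 h1

/-- The basic diamond. -/
lemma basic_diamond (R : ORel x0 x1 t s c) :
    (x1 * oA x0 x1 t 2 * oT x0 x1 t 0 * x1) * t = (t * x0 * x1) * (t * x0) := by
  rw [← R.t2]
  simp only [oT]
  group

theorem oneRay_injective (R : ORel x0 x1 t s c) (hρ : StdRep x0 x1 t s c ρ)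
    (hgen : closure ({x0, x1, t} ∪ Set.range s ∪ Set.range c) = ⊤) : Function.Injective ρ := by
  have hL_left : ∀ h ∈ Hb x0 x1 t s c, ∀ l ∈ Spl x0 x1 t s c, h * l ∈ Spl x0 x1 t s c := by
    rintro h hh _ ⟨a, ha, b, hb, rfl⟩
    exact ⟨h * a, mul_mem hh ha, b, hb, by group⟩
  have hL_right : ∀ l ∈ Spl x0 x1 t s c, ∀ h ∈ Hb x0 x1 t s c, l * h ∈ Spl x0 x1 t s c := by
    rintro _ ⟨a, ha, b, hb, rfl⟩ h hh
    exact ⟨a, ha, b * h, mul_mem hb hh, by group⟩
  have hF : Frac (Hb x0 x1 t s c) (Spl x0 x1 t s c) := by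
    refine ⟨hL_left, hL_right, ?_⟩
    intro l₁ h₁ l₂ h₂
    rcases diamond_data R hρ l₁ l₂ h₁ h₂ with h | ⟨h, hh, h', hh', r, hr, e1, e2, -⟩
    · exact Or.inl h
    · right
      refine ⟨t * x0 * x1 * h', hL_right _ t0_mem _ hh',
        x1 * oA x0 x1 t 2 * oT x0 x1 t 0 * x1 * h, hL_right _ (t1_mem R) _ hh, ?_⟩
      rw [e1, e2]
      calc x1 * oA x0 x1 t 2 * oT x0 x1 t 0 * x1 * h * (h⁻¹ * t * r)
          = (x1 * oA x0 x1 t 2 * oT x0 x1 t 0 * x1) * t * r := by group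
        _ = _ := by rw [basic_diamond R]; group
  have hgen' : closure ((Hb x0 x1 t s c : Set Γ) ∪ Spl x0 x1 t s c) = ⊤ := by
    rw [eq_top_iff, ← hgen, closure_le]
    rintro g ((hg | ⟨a, rfl⟩) | ⟨a, rfl⟩)
    · simp only [Set.mem_insert_iff, Set.mem_singleton_iff] at hg
      rcases hg with rfl | rfl | rfl
      · exact subset_closure (Or.inl (oA_mem (x1 := x1) (t := t) (s := s) (c := c) 0))
      · have h1 := oA_mem (x0 := x0) (x1 := g) (t := t) (s := s) (c := c) 1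
        rw [oA_one] at h1
        exact subset_closure (Or.inl h1)
      · exact subset_closure (Or.inr ⟨1, one_mem _, 1, one_mem _, by group⟩)
    · exact subset_closure (Or.inl (oS_mem (x0 := x0) (x1 := x1) (t := t) (c := c) 0 a))
    · exact subset_closure (Or.inl (c_mem a))
  -- inverses of positive elements do not split
  have hpos : ∀ n m, Pos (Hb x0 x1 t s c) (Spl x0 x1 t s c) n m → ∀ j, ∃ j', InR (ρ m)⁻¹ j j' := by
    intro n m hm
    induction hm with
    | base h hh =>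
      intro j
      obtain ⟨p, hp'⟩ := Hb_OnR hρ h hh
      refine ⟨p.symm j, ?_⟩
      have := (hp' (p.symm j)).2
      rwa [p.apply_symm_apply] at this
    | step n m l hm hl ih =>
      intro j
      obtain ⟨j1, h1⟩ := ih j
      obtain ⟨a, ha, b, hb, rfl⟩ := hl
      obtain ⟨p, hp'⟩ := Hb_OnR hρ a ha
      obtain ⟨q, hq'⟩ := Hb_OnR hρ b hb
      have h2 := (hp' (p.symm j1)).2
      rw [p.apply_symm_apply] at h2
      obtain ⟨j3, h3⟩ := tsp_inv_InR (S := S) (p.symm j1)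
      have h4 := (hq' (q.symm j3)).2
      rw [q.apply_symm_apply] at h4
      refine ⟨q.symm j3, ?_⟩
      have e : (ρ (m * (a * t * b)))⁻¹ = (ρ b)⁻¹ * ((tsp 0)⁻¹ * ((ρ a)⁻¹ * (ρ m)⁻¹)) := by
        rw [map_mul, map_mul, map_mul, hρ.rt]; group
      rw [e]
      exact h4.mul (h3.mul (h2.mul h1))
  refine frac_injective hF hgen' ρ (FacR ρ) ?_ ?_ ?_ (Hb_injective R hρ)
  · -- F1
    intro n m hm l hl i hi j hj
    obtain ⟨j', hj'⟩ := hpos n m hm j
    apply hi j'
    have := hj'.mul hj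
    rw [map_mul, inv_mul_cancel_left] at this
    exact this
  · -- F2
    intro n m hm l₁ h₁ l₂ h₂ hne hFac
    rcases diamond_data R hρ l₁ l₂ h₁ h₂ with h | ⟨h, hh, h', hh', r, hr, e1, e2, -⟩
    · exact absurd h hne
    · refine ⟨t * x0 * x1 * h', hL_right _ t0_mem _ hh',
        x1 * oA x0 x1 t 2 * oT x0 x1 t 0 * x1 * h, hL_right _ (t1_mem R) _ hh, ?_, ?_⟩
      · rw [e1, e2]
        calc x1 * oA x0 x1 t 2 * oT x0 x1 t 0 * x1 * h * (h⁻¹ * t * r)
            = (x1 * oA x0 x1 t 2 * oT x0 x1 t 0 * x1) * t * r := by group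
          _ = _ := by rw [basic_diamond R]; group
      · intro i hi j hj
        obtain ⟨p, hp'⟩ := Hb_OnR hρ h hh
        obtain ⟨q, hq'⟩ := Hb_OnR hρ r hr
        obtain ⟨q', hq''⟩ := Hb_OnR hρ h' hh'
        -- the splitting `T₁` only splits the cone `1`
        have hx1 : ∀ i, OnR (ρ x1) i (swap 1 2 i) := by
          intro i
          rw [hρ.r1]
          have := mono_OnR (1 : (ℕ → S) × S) (swap 1 2) i
          rwa [map_one, one_mul] at this
        have hx0 : ∀ i, OnR (ρ x0) i (swap 0 1 i) := by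
          intro i
          rw [hρ.r0]
          have := mono_OnR (1 : (ℕ → S) × S) (swap 0 1) i
          rwa [map_one, one_mul] at this
        have hA2 : ∀ i, OnR (ρ (oA x0 x1 t 2)) i (swap 2 3 i) := by
          intro i
          rw [hρ.rA]
          have := mono_OnR (1 : (ℕ → S) × S) (swap 2 3) i
          rwa [map_one, one_mul] at this
        have hT1 : ρ (oT x0 x1 t 0) = tsp 1 := by
          simp only [oT, map_mul, hρ.r0, hρ.r1, hρ.rt]
          exact std_T0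
        have hp2 : p i = 2 := by
          by_contra hcon
          have e3 : swap 1 2 (p i) ≠ 1 := by
            intro h1
            rw [swap_apply_eq_iff, swap_apply_left] at h1
            exact hcon h1
          rcases Nat.lt_or_ge (swap 1 2 (p i)) 1 with hlt | hge
          · exact hi _ (by
              rw [map_mul, map_mul, map_mul, map_mul, hT1]
              exact ((((hx1 _).mul (hA2 _)).mul (tsp_OnR_lt 1 _ hlt)).mul (hx1 _)).1.mul
                (hp' i).1)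
          · exact hi _ (by
              rw [map_mul, map_mul, map_mul, map_mul, hT1]
              exact ((((hx1 _).mul (hA2 _)).mul (tsp_OnR 1 _ (by omega))).mul (hx1 _)).1.mul
                (hp' i).1)
        -- the cone split by `l₂`
        have hi2 : ∀ j, ¬ InR (ρ l₂) (q.symm 1) j := by
          intro j hj
          have e3 : tsp 0 = ρ h' * ρ l₂ * (ρ r)⁻¹ * ρ x0 := by
            rw [e2]
            simp only [map_mul, map_inv, ← hρ.rt]
            have := congrArg ρ R.sq0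
            rw [map_mul, map_one] at this
            calc ρ t = ρ t * (ρ x0 * ρ x0) := by rw [this, mul_one]
              _ = _ := by group
          apply not_InR_tsp (S := S) (q' j)
          rw [e3]
          have h3 := (hx0 0).1
          rw [swap_apply_left] at h3
          have h4 := (hq' (q.symm 1)).2
          rw [q.apply_symm_apply] at h4
          exact (((hq'' j).1.mul hj).mul h4).mul h3
        -- `l₁` maps it to the cone `i`
        have hl₁ : OnR (ρ l₁) (q.symm 1) i := by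
          rw [e1, map_mul, map_mul, map_inv, hρ.rt]
          have h3 := (hp' i).inv
          rw [hp2] at h3
          have h4 := hq' (q.symm 1)
          rw [q.apply_symm_apply] at h4
          exact (h3.mul (tsp_OnR 0 1 (by omega))).mul h4
        exact hFac (q.symm 1) hi2 j (by rw [map_mul]; exact hj.mul hl₁.1)
  · -- F3
    intro h hh l hl hFac
    obtain ⟨a, ha, b, hb, rfl⟩ := hl
    obtain ⟨p, hp'⟩ := Hb_OnR hρ h hh
    obtain ⟨q, hq'⟩ := Hb_OnR hρ b hb
    obtain ⟨q', hq''⟩ := Hb_OnR hρ a ha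
    refine hFac (q.symm 0) ?_ _ (hp' _).1
    intro j hj
    apply not_InR_tsp (S := S) (q'.symm j)
    have h1 := (hq'' (q'.symm j)).2
    rw [q'.apply_symm_apply] at h1
    have h2 := (hq' (q.symm 0)).2
    rw [q.apply_symm_apply] at h2
    have := (h1.mul hj).mul h2
    have e : (ρ a)⁻¹ * ρ (a * t * b) * (ρ b)⁻¹ = tsp 0 := by
      rw [map_mul, map_mul, hρ.rt]; group
    rwa [e] at this

end Frac

end Pool.Agent.Helper13
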