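import Pool.Agent.Helper13.OneRayStd
import Pool.Agent.Helper13.Fraction

set_option autoImplicit false

/-!
# The one-ray labelled Thompson group is presented by its relations
-/

namespace Pool.Agent.Helper13

open Subgroup Equiv

section Cox

variable {Γ : Type*} [Group Γ] {A : ℕ → Γ} {Ω : Type*}

/-- The `A i` act as adjacent transpositions on a sequence of points. -/
structure ActA (ρ : Γ →* Perm Ω) (A : ℕ → Γ) (a : ℕ → Ω) : Prop where
  inj : Function.Injective a
  left : ∀ i, ρ (A i) (a i) = a (i + 1)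
  right : ∀ i, ρ (A i) (a (i + 1)) = a i
  fix : ∀ i j, j ≠ i → j ≠ i + 1 → ρ (A i) (a j) = a j

variable {ρ : Γ →* Perm Ω} {a : ℕ → Ω}

lemma ActA.fixes (hA : ActA ρ A a) (n : ℕ) (γ : Γ) (hγ : γ ∈ closure (A '' {i | i < n})) (k : ℕ)
    (hk : n < k) : ρ γ (a k) = a k := by
  induction hγ using Subgroup.closure_induction with
  | mem x hx =>
    obtain ⟨i, hi, rfl⟩ := hx
    simp only [Set.mem_ofPred_eq] at hi
    exact hA.fix i k (by omega) (by omega)
  | one => simp
  | mul x y hx hy ihx ihy => rw [map_mul, Perm.mul_apply, ihy, ihx]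
  | inv x hx ihx => rw [map_inv, Perm.inv_eq_iff_eq, ihx]

lemma ActA.desc_apply (hA : ActA ρ A a) (n m : ℕ) (hm : m ≤ n + 1) :
    ρ (desc A n m) (a (n + 1 - m)) = a (n + 1) := by
  induction m with
  | zero => simp [desc]
  | succ m ih =>
    rw [desc, map_mul, Perm.mul_apply, show n + 1 - (m + 1) = n - m by omega, hA.left,
      show n - m + 1 = n + 1 - m by omega]
    exact ih (by omega)

lemma closure_stage {γ : Γ} (hγ : γ ∈ closure (Set.range A)) :
    ∃ n, γ ∈ closure (A '' {i | i < n}) := by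
  have mono : ∀ n m : ℕ, n ≤ m → closure (A '' {i | i < n}) ≤ closure (A '' {i | i < m}) :=
    fun n m hnm => Subgroup.closure_mono (Set.image_mono (fun i (hi : i < n) => lt_of_lt_of_le hi hnm))
  induction hγ using Subgroup.closure_induction with
  | mem x hx =>
    obtain ⟨i, rfl⟩ := hx
    exact ⟨i + 1, subset_closure ⟨i, Nat.lt_succ_self i, rfl⟩⟩
  | one => exact ⟨0, one_mem _⟩
  | mul x y hx hy ihx ihy =>
    obtain ⟨n, hn⟩ := ihx
    obtain ⟨m, hm⟩ := ihy
    exact ⟨max n m, mul_mem (mono _ _ (le_max_left _ _) hn) (mono _ _ (le_max_right _ _) hm)⟩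
  | inv x hx ihx =>
    obtain ⟨n, hn⟩ := ihx
    exact ⟨n, inv_mem hn⟩

theorem ActA.injective (h : CoxA A) (hA : ActA ρ A a) (γ : Γ) (hγ : γ ∈ closure (Set.range A))
    (h1 : ∀ k, ρ γ (a k) = a k) : γ = 1 := by
  have key : ∀ n, ∀ γ ∈ closure (A '' {i | i < n}), (∀ k, ρ γ (a k) = a k) → γ = 1 := by
    intro n
    induction n with
    | zero =>
      intro γ hγ _
      simpa using hγ
    | succ n ih =>
      intro γ hγ h1
      have hs : {i : ℕ | i < n + 1} = {i | i ≤ n} := by ext; simp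
      rw [hs] at hγ
      obtain ⟨m, hm, γ', hγ', rfl⟩ := mem_desc h n γ hγ
      have h2 : a (n + 1 - m) = a (n + 1) := by
        have := h1 (n + 1 - m)
        rw [map_mul, Perm.mul_apply, hA.desc_apply n m hm, hA.fixes n γ' hγ' (n + 1) (by omega)]
          at this
        exact this.symm
      have h3 := hA.inj h2
      obtain rfl : m = 0 := by omega
      have h4 : γ' * desc A n 0 = γ' := by simp [desc]
      rw [h4] at h1 ⊢
      exact ih γ' hγ' h1
  obtain ⟨n, hn⟩ := closure_stage hγ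
  exact key n γ hn h1

theorem ActA.fix_zero (h : CoxA A) (hA : ActA ρ A a) (γ : Γ) (hγ : γ ∈ closure (Set.range A))
    (h1 : ρ γ (a 0) = a 0) : γ ∈ closure (A '' {i | 1 ≤ i}) := by
  have key : ∀ n, ∀ γ ∈ closure (A '' {i | i < n}), ρ γ (a 0) = a 0 →
      γ ∈ closure (A '' {i | 1 ≤ i}) := by
    intro n
    induction n with
    | zero =>
      intro γ hγ _
      have : γ = 1 := by simpa using hγ
      rw [this]; exact one_mem _
    | succ n ih =>
      intro γ hγ h1
      have hs : {i : ℕ | i < n + 1} = {i | i ≤ n} := by ext; simp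
      rw [hs] at hγ
      obtain ⟨m, hm, γ', hγ', rfl⟩ := mem_desc h n γ hγ
      rcases Nat.eq_or_lt_of_le hm with rfl | hlt
      · exfalso
        have := hA.desc_apply n (n + 1) le_rfl
        rw [Nat.sub_self] at this
        rw [map_mul, Perm.mul_apply, this, hA.fixes n γ' hγ' (n + 1) (by omega)] at h1
        have := hA.inj h1
        omega
      · have hd : ∀ m', m' ≤ m → desc A n m' ∈ closure (A '' {i | 1 ≤ i}) ∧
            ρ (desc A n m') (a 0) = a 0 := by
          intro m'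
          induction m' with
          | zero => intro _; exact ⟨by simp [desc, one_mem], by simp [desc]⟩
          | succ m' ih' =>
            intro hm'
            obtain ⟨e1, e2⟩ := ih' (by omega)
            refine ⟨mul_mem e1 (subset_closure ⟨n - m', ?_, rfl⟩), ?_⟩
            · simp only [Set.mem_ofPred_eq]; omega
            · rw [desc, map_mul, Perm.mul_apply, hA.fix _ _ (by omega) (by omega), e2]
        obtain ⟨e1, e2⟩ := hd m le_rfl
        refine mul_mem (ih γ' hγ' ?_) e1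
        rw [map_mul, Perm.mul_apply, e2] at h1
        exact h1
  obtain ⟨n, hn⟩ := closure_stage hγ
  exact key n γ hn h1

end Cox

section Mono

variable {S : Type*} [Group S]

lemma hp_lb (p : Perm ℕ) (F : (ℕ → S) × S) :
    hp p * lb F = lb (F.1 ∘ p.symm, F.2) * hp p := by
  ext1 ⟨z, s⟩
  rcases z with _ | ⟨i, z⟩ <;> simp

/-- The monomial permutations of the ray cones. -/
def MonoG (S : Type*) [Group S] : Subgroup (Perm (Dy × S)) where
  carrier := {g | ∃ F p, g = lb F * hp p}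
  one_mem' := ⟨1, 1, by simp⟩
  mul_mem' := by
    rintro _ _ ⟨F, p, rfl⟩ ⟨F', p', rfl⟩
    refine ⟨F * (F'.1 ∘ p.symm, F'.2), p * p', ?_⟩
    rw [map_mul, map_mul]
    calc lb F * hp p * (lb F' * hp p') = lb F * (hp p * lb F') * hp p' := by group
      _ = _ := by rw [hp_lb]; group
  inv_mem' := by
    rintro _ ⟨F, p, rfl⟩
    refine ⟨((F⁻¹).1 ∘ (p⁻¹).symm, (F⁻¹).2), p⁻¹, ?_⟩
    rw [← hp_lb, mul_inv_rev, map_inv, map_inv]

lemma mono_apply (F : (ℕ → S) × S) (p : Perm ℕ) (i : ℕ) (z : Dy) (s : S) :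
    (lb F * hp p : Perm (Dy × S)) (i :: z, s) = (p i :: z, F.1 (p i) * s) := by
  rw [Perm.mul_apply, hp_cons, lb_cons]

lemma std_oS (i : ℕ) (a : S) : oS (hp (swap 0 1)) (tsp 0 : Perm (Dy × S)) sH i a =
    lb (Pi.mulSingle i a, 1) := by
  induction i with
  | zero => rfl
  | succ i ih =>
    have h := (std_ORel (S := S)).AS_self i a
    rw [← h, std_oA, ih, hp_lb, mul_assoc, ← map_mul, swap_mul_self, map_one, mul_one]
    congr 2
    funext j
    simp only [Function.comp, symm_swap]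
    by_cases hj : j = i + 1
    · subst hj; simp
    · by_cases hj' : j = i
      · subst hj'; simp [Pi.mulSingle_eq_of_ne]
      · rw [swap_apply_of_ne_of_ne hj' hj, Pi.mulSingle_eq_of_ne hj', Pi.mulSingle_eq_of_ne hj]

end Mono

section Inj

variable {Γ S : Type*} [Group Γ] [Group S] {x0 x1 t : Γ} {s c : S →* Γ}

/-- The standard representation. -/
structure StdRep (x0 x1 t : Γ) (s c : S →* Γ) (ρ : Γ →* Perm (Dy × S)) : Prop where
  r0 : ρ x0 = hp (swap 0 1)
  r1 : ρ x1 = hp (swap 1 2)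
  rt : ρ t = tsp 0
  rs : ∀ a, ρ (s a) = sH a
  rcc : ∀ a, ρ (c a) = cH a

variable {ρ : Γ →* Perm (Dy × S)}

lemma StdRep.rA (h : StdRep x0 x1 t s c ρ) (n : ℕ) : ρ (oA x0 x1 t n) = hp (swap n (n + 1)) := by
  rw [← std_oA]
  rcases n with _ | n
  · exact h.r0
  · simp only [Helper13.oA, map_mul, map_inv, map_pow, h.r1, h.rt]

lemma StdRep.rS (h : StdRep x0 x1 t s c ρ) (n : ℕ) (a : S) :
    ρ (oS x0 t s n a) = lb (Pi.mulSingle n a, 1) := by
  rw [← std_oS]
  rcases n with _ | n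
  · exact h.rs a
  · simp only [Helper13.oS, map_mul, map_inv, map_pow, h.r0, h.rt, h.rs]

/-- The base group. -/
def Hb (x0 x1 t : Γ) (s c : S →* Γ) : Subgroup Γ :=
  closure (Set.range (oA x0 x1 t) ∪ {g | ∃ i a, g = oS x0 t s i a} ∪ Set.range c)

/-- The stabilizer of the ray cone `0` in the base group. -/
def H0 (x0 x1 t : Γ) (s c : S →* Γ) : Subgroup Γ :=
  closure (oA x0 x1 t '' {i | 1 ≤ i} ∪ {g | ∃ i a, g = oS x0 t s i a} ∪ Set.range c)

lemma oA_mem (n : ℕ) : oA x0 x1 t n ∈ Hb x0 x1 t s c := subset_closure (Or.inl (Or.inl ⟨n, rfl⟩))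
lemma oS_mem (n : ℕ) (a : S) : oS x0 t s n a ∈ Hb x0 x1 t s c :=
  subset_closure (Or.inl (Or.inr ⟨n, a, rfl⟩))
lemma c_mem (a : S) : c a ∈ Hb x0 x1 t s c := subset_closure (Or.inr ⟨a, rfl⟩)

lemma H0_le : H0 x0 x1 t s c ≤ Hb x0 x1 t s c := by
  unfold H0 Hb
  apply Subgroup.closure_mono
  rintro _ ((⟨i, -, rfl⟩ | h) | h)
  · exact Or.inl (Or.inl ⟨i, rfl⟩)
  · exact Or.inl (Or.inr h)
  · exact Or.inr h

lemma conj_H0 (R : ORel x0 x1 t s c) (h : Γ) (hh : h ∈ H0 x0 x1 t s c) :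
    t * h * t⁻¹ ∈ Hb x0 x1 t s c := by
  have hle : H0 x0 x1 t s c ≤ (Hb x0 x1 t s c).comap (MulAut.conj t).toMonoidHom := by
    unfold H0
    rw [closure_le]
    rintro _ ((⟨i, hi, rfl⟩ | ⟨i, a, rfl⟩) | ⟨a, rfl⟩)
    · change t * oA x0 x1 t i * t⁻¹ ∈ Hb x0 x1 t s c
      rw [oA_shift i hi]
      exact oA_mem _
    · change t * oS x0 t s i a * t⁻¹ ∈ Hb x0 x1 t s c
      rcases i with _ | i
      · rw [oS_zero, R.ts0]
        refine mul_mem (oS_mem 0 a) ?_
        have := oS_mem (x0 := x0) (x1 := x1) (t := t) (s := s) (c := c) 1 a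
        rwa [oS_one] at this
      · rw [oS_shift _ (by omega)]
        exact oS_mem _ _
    · change t * c a * t⁻¹ ∈ Hb x0 x1 t s c
      rw [← R.ct, mul_inv_cancel_right]
      exact c_mem a
  exact hle hh

/-- Products of labels. -/
def lprod (x0 t : Γ) (s : S →* Γ) (f : ℕ → S) : ℕ → Γ
  | 0 => 1
  | n + 1 => lprod x0 t s f n * oS x0 t s n (f n)

lemma lprod_congr {f g : ℕ → S} {n : ℕ} (h : ∀ i < n, f i = g i) :
    lprod x0 t s f n = lprod x0 t s g n := by
  induction n with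
  | zero => rfl
  | succ n ih => rw [lprod, lprod, ih (fun i hi => h i (by omega)), h n (by omega)]

lemma lprod_extend (R : ORel x0 x1 t s c) {f : ℕ → S} {n m : ℕ} (hnm : n ≤ m)
    (h : ∀ i, n ≤ i → f i = 1) : lprod x0 t s f m = lprod x0 t s f n := by
  induction m, hnm using Nat.le_induction with
  | base => rfl
  | succ m hm ih => rw [lprod, h m hm, R.oS_one', mul_one, ih]

lemma lprod_mul (R : ORel x0 x1 t s c) (f : ℕ → S) (n j : ℕ) (hj : j < n) (b : S) :
    lprod x0 t s f n * oS x0 t s j b = lprod x0 t s (Function.update f j (f j * b)) n := by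
  induction n with
  | zero => omega
  | succ n ih =>
    rcases Nat.lt_succ_iff_lt_or_eq.1 hj with h | rfl
    · rw [lprod, lprod, ← ih h, Function.update_of_ne (by omega), mul_assoc, mul_assoc,
        R.SS_ne n j (by omega)]
    · rw [lprod, lprod, Function.update_self, ORel.oS_mul R.sq0, mul_assoc]
      congr 1
      exact lprod_congr (fun i hi => by rw [Function.update_of_ne (by omega)])

lemma mem_lab (R : ORel x0 x1 t s c) (g : Γ) (hg : g ∈ closure {g | ∃ i a, g = oS x0 t s i a}) :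
    ∃ f n, g = lprod x0 t s f n := by
  have step : ∀ (f : ℕ → S) (n j : ℕ) (b : S), ∃ f' n',
      lprod x0 t s f n * oS x0 t s j b = lprod x0 t s f' n' := by
    intro f n j b
    let f1 : ℕ → S := fun i => if i < n then f i else 1
    have e1 : lprod x0 t s f n = lprod x0 t s f1 n := lprod_congr (fun i hi => by simp [f1, hi])
    have e2 : lprod x0 t s f1 (n + (j + 1)) = lprod x0 t s f1 n :=
      lprod_extend R (by omega) (fun i hi => by simp [f1, show ¬ i < n by omega])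
    rw [e1, ← e2, lprod_mul R f1 _ j (by omega)]
    exact ⟨_, _, rfl⟩
  induction hg using closure_induction_right with
  | one => exact ⟨1, 0, rfl⟩
  | mul_right x _ y hy ih =>
    obtain ⟨f, n, rfl⟩ := ih
    obtain ⟨i, a, rfl⟩ := hy
    exact step f n i a
  | mul_inv_cancel x _ y hy ih =>
    obtain ⟨f, n, rfl⟩ := ih
    obtain ⟨i, a, rfl⟩ := hy
    have : (oS x0 t s i a)⁻¹ = oS x0 t s i a⁻¹ := by
      rw [inv_eq_iff_mul_eq_one, ← ORel.oS_mul R.sq0, mul_inv_cancel, R.oS_one']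
    rw [this]
    exact step f n i a⁻¹

lemma rho_lprod (hρ : StdRep x0 x1 t s c ρ) (f : ℕ → S) (n : ℕ) :
    ρ (lprod x0 t s f n) = lb (fun i => if i < n then f i else 1, 1) := by
  induction n with
  | zero =>
    simp only [lprod, map_one]
    exact (map_one lb).symm
  | succ n ih =>
    rw [lprod, map_mul, ih, hρ.rS, ← map_mul]
    congr 1
    refine Prod.ext ?_ (by simp)
    funext i
    simp only [Prod.mk_mul_mk, Pi.mul_apply]
    rcases lt_trichotomy i n with h | h | h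
    · rw [Pi.mulSingle_eq_of_ne (by omega), if_pos h, if_pos (by omega), mul_one]
    · subst h; simp
    · rw [Pi.mulSingle_eq_of_ne (by omega), if_neg (by omega), if_neg (by omega), mul_one]

/-- Normal form of the elements of the base group. -/
lemma Hb_form (R : ORel x0 x1 t s c) (h : Γ) (hh : h ∈ Hb x0 x1 t s c) :
    ∃ a, ∃ l ∈ closure {g | ∃ i a, g = oS x0 t s i a}, ∃ σ ∈ closure (Set.range (oA x0 x1 t)),
      h = c a * l * σ := by
  set Lab := closure {g | ∃ i a, g = oS x0 t s i a} with hLab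
  set Sg := closure (Set.range (oA x0 x1 t)) with hSg
  -- the transpositions normalise the labels
  have h1 : ∀ i, ∀ l ∈ Lab, oA x0 x1 t i * l * (oA x0 x1 t i)⁻¹ ∈ Lab := by
    intro i l hl
    have hle : Lab ≤ Lab.comap (MulAut.conj (oA x0 x1 t i)).toMonoidHom := by
      conv_lhs => rw [hLab]
      rw [closure_le]
      rintro _ ⟨j, a, rfl⟩
      change oA x0 x1 t i * oS x0 t s j a * (oA x0 x1 t i)⁻¹ ∈ Lab
      have hinv : (oA x0 x1 t i)⁻¹ = oA x0 x1 t i := inv_eq_of_mul_eq_one_left (R.cox.sq i)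
      by_cases hj : i = j
      · subst hj
        rw [hinv, R.AS_self]
        exact subset_closure ⟨_, _, rfl⟩
      · by_cases hj' : i + 1 = j
        · subst hj'
          rw [hinv, ← R.AS_self i a]
          have := R.cox.sq i
          have e : oA x0 x1 t i * (oA x0 x1 t i * oS x0 t s i a * oA x0 x1 t i) * oA x0 x1 t i =
              (oA x0 x1 t i * oA x0 x1 t i) * oS x0 t s i a * (oA x0 x1 t i * oA x0 x1 t i) := by
            group
          rw [e, this, one_mul, mul_one]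
          exact subset_closure ⟨_, _, rfl⟩
        · rw [R.AS_ne i j hj hj', mul_inv_cancel_right]
          exact subset_closure ⟨_, _, rfl⟩
    exact hle hl
  have h2 : ∀ σ ∈ Sg, ∀ l ∈ Lab, σ * l * σ⁻¹ ∈ Lab := by
    intro σ hσ
    rw [hSg] at hσ
    induction hσ using closure_induction_left with
    | one => intro l hl; simpa using hl
    | mul_left x hx y _ ih =>
      obtain ⟨i, rfl⟩ := hx
      intro l hl
      have e : oA x0 x1 t i * y * l * (oA x0 x1 t i * y)⁻¹ =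
          oA x0 x1 t i * (y * l * y⁻¹) * (oA x0 x1 t i)⁻¹ := by group
      rw [e]
      exact h1 i _ (ih l hl)
    | inv_mul_cancel x hx y _ ih =>
      obtain ⟨i, rfl⟩ := hx
      intro l hl
      have hinv : (oA x0 x1 t i)⁻¹ = oA x0 x1 t i := inv_eq_of_mul_eq_one_left (R.cox.sq i)
      rw [hinv]
      have e : oA x0 x1 t i * y * l * (oA x0 x1 t i * y)⁻¹ =
          oA x0 x1 t i * (y * l * y⁻¹) * (oA x0 x1 t i)⁻¹ := by group
      rw [e]
      exact h1 i _ (ih l hl)
  have h3 : ∀ b, ∀ l ∈ Lab, c b * l * (c b)⁻¹ ∈ Lab := by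
    intro b l hl
    have hle : Lab ≤ Lab.comap (MulAut.conj (c b)).toMonoidHom := by
      conv_lhs => rw [hLab]
      rw [closure_le]
      rintro _ ⟨j, a, rfl⟩
      change c b * oS x0 t s j a * (c b)⁻¹ ∈ Lab
      rw [R.cS]
      exact subset_closure ⟨_, _, rfl⟩
    exact hle hl
  have h4 : ∀ b, ∀ σ ∈ Sg, σ * c b = c b * σ := by
    intro b σ hσ
    have hle : Sg ≤ centralizer {c b} := by
      rw [hSg, closure_le]
      rintro _ ⟨i, rfl⟩
      rw [SetLike.mem_coe, mem_centralizer_singleton_iff]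
      exact (R.cA i b).symm
    have := hle hσ
    rw [mem_centralizer_singleton_iff] at this
    exact this
  have stepA : ∀ i a l σ, l ∈ Lab → σ ∈ Sg → ∃ a', ∃ l' ∈ Lab, ∃ σ' ∈ Sg,
      c a * l * σ * oA x0 x1 t i = c a' * l' * σ' := by
    intro i a l σ hl hσ
    exact ⟨a, l, hl, σ * oA x0 x1 t i, mul_mem hσ (subset_closure ⟨i, rfl⟩), by group⟩
  have stepS : ∀ i b a l σ, l ∈ Lab → σ ∈ Sg → ∃ a', ∃ l' ∈ Lab, ∃ σ' ∈ Sg,
      c a * l * σ * oS x0 t s i b = c a' * l' * σ' := by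
    intro i b a l σ hl hσ
    refine ⟨a, l * (σ * oS x0 t s i b * σ⁻¹), mul_mem hl (h2 σ hσ _ (subset_closure ⟨i, b, rfl⟩)),
      σ, hσ, by group⟩
  have stepC : ∀ b a l σ, l ∈ Lab → σ ∈ Sg → ∃ a', ∃ l' ∈ Lab, ∃ σ' ∈ Sg,
      c a * l * σ * c b = c a' * l' * σ' := by
    intro b a l σ hl hσ
    refine ⟨a * b, c b⁻¹ * l * (c b⁻¹)⁻¹, h3 b⁻¹ l hl, σ, hσ, ?_⟩
    rw [mul_assoc _ σ, h4 b σ hσ, map_mul, map_inv]
    group
  unfold Hb at hh
  induction hh using closure_induction_right with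
  | one => exact ⟨1, 1, one_mem _, 1, one_mem _, by simp⟩
  | mul_right x _ y hy ih =>
    obtain ⟨a, l, hl, σ, hσ, rfl⟩ := ih
    rcases hy with (⟨i, rfl⟩ | ⟨i, b, rfl⟩) | ⟨b, rfl⟩
    · exact stepA i a l σ hl hσ
    · exact stepS i b a l σ hl hσ
    · exact stepC b a l σ hl hσ
  | mul_inv_cancel x _ y hy ih =>
    obtain ⟨a, l, hl, σ, hσ, rfl⟩ := ih
    rcases hy with (⟨i, rfl⟩ | ⟨i, b, rfl⟩) | ⟨b, rfl⟩
    · rw [show (oA x0 x1 t i)⁻¹ = oA x0 x1 t i from inv_eq_of_mul_eq_one_left (R.cox.sq i)]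
      exact stepA i a l σ hl hσ
    · have : (oS x0 t s i b)⁻¹ = oS x0 t s i b⁻¹ := by
        rw [inv_eq_iff_mul_eq_one, ← ORel.oS_mul R.sq0, mul_inv_cancel, R.oS_one']
      rw [this]
      exact stepS i b⁻¹ a l σ hl hσ
    · rw [← map_inv]
      exact stepC b⁻¹ a l σ hl hσ

lemma Hb_mono (hρ : StdRep x0 x1 t s c ρ) (h : Γ) (hh : h ∈ Hb x0 x1 t s c) : ρ h ∈ MonoG S := by
  have hle : Hb x0 x1 t s c ≤ (MonoG S).comap ρ := by
    unfold Hb
    rw [closure_le]
    rintro _ ((⟨i, rfl⟩ | ⟨i, a, rfl⟩) | ⟨a, rfl⟩)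
    · exact ⟨1, swap i (i + 1), by rw [hρ.rA]; simp⟩
    · exact ⟨(Pi.mulSingle i a, 1), 1, by rw [hρ.rS]; simp⟩
    · exact ⟨(fun _ => a, a), 1, by rw [hρ.rcc]; simp; rfl⟩
  exact hle hh

lemma H0_zero (hρ : StdRep x0 x1 t s c ρ) (h : Γ) (hh : h ∈ H0 x0 x1 t s c) :
    ∀ z s', ∃ s'', ρ h ((0 :: z, s') : Dy × S) = (0 :: z, s'') := by
  unfold H0 at hh
  have key : ∀ y ∈ oA x0 x1 t '' {i | 1 ≤ i} ∪ {g | ∃ i a, g = oS x0 t s i a} ∪ Set.range c,
      ∀ z s', ∃ s'', ρ y ((0 :: z, s') : Dy × S) = (0 :: z, s'') := by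
    rintro _ ((⟨i, hi, rfl⟩ | ⟨i, a, rfl⟩) | ⟨a, rfl⟩) z s'
    · have hi' : 1 ≤ i := hi
      rw [hρ.rA, hp_cons, swap_apply_of_ne_of_ne (by omega) (by omega)]
      exact ⟨s', rfl⟩
    · rw [hρ.rS, lb_cons]
      exact ⟨_, rfl⟩
    · rw [hρ.rcc, cH_apply]
      exact ⟨_, rfl⟩
  induction hh using closure_induction_left with
  | one => intro z s'; exact ⟨s', by simp⟩
  | mul_left x hx y _ ih =>
    intro z s'
    obtain ⟨s1, h1⟩ := ih z s'
    obtain ⟨s2, h2⟩ := key x hx z s1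
    exact ⟨s2, by rw [map_mul, Perm.mul_apply, h1, h2]⟩
  | inv_mul_cancel x hx y _ ih =>
    intro z s'
    obtain ⟨s1, h1⟩ := ih z s'
    rcases hx with (⟨i, hi, rfl⟩ | ⟨i, a, rfl⟩) | ⟨a, rfl⟩
    · have hi' : 1 ≤ i := hi
      refine ⟨s1, ?_⟩
      rw [map_mul, Perm.mul_apply, h1, map_inv, Perm.inv_eq_iff_eq, hρ.rA, hp_cons,
        swap_apply_of_ne_of_ne (by omega) (by omega)]
    · refine ⟨((Pi.mulSingle i a : ℕ → S) 0)⁻¹ * s1, ?_⟩
      rw [map_mul, Perm.mul_apply, h1, map_inv, Perm.inv_eq_iff_eq, hρ.rS, lb_cons]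
      simp
    · refine ⟨a⁻¹ * s1, ?_⟩
      rw [map_mul, Perm.mul_apply, h1, map_inv, Perm.inv_eq_iff_eq, hρ.rcc, cH_apply,
        mul_inv_cancel_left]

end Inj

end Pool.Agent.Helper13
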