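import Pool.Agent.Helper13.OneRayFP

set_option autoImplicit false

/-!
# The one-ray group is the stabilizer of the base point
-/

namespace Pool.Agent.Helper13

open Equiv Subgroup

section Range

variable {S : Type*} [Group S]

lemma hp_cone (p : Perm ℕ) (i : ℕ) (w : List Bool) :
    IsCone (hp p : Perm (Dy × S)) (rc i ++ w) (rc (p i) ++ w) 1 := fun z s => by
  rw [app_rc_append, app_rc_append, hp_cons, one_mul]

lemma hp_cone_zw (p : Perm ℕ) (k : ℕ) (h : ∀ i, k ≤ i → p i = i) :
    IsCone (hp p : Perm (Dy × S)) (zw k) (zw k) 1 := fun z s => by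
  rcases z with _ | ⟨i, z⟩
  · simp
  · rw [app_zw_cons, hp_cons, h _ (by omega), one_mul]

lemma lb_cone (f : (ℕ → S) × S) (i : ℕ) (w : List Bool) :
    IsCone (lb f : Perm (Dy × S)) (rc i ++ w) (rc i ++ w) (f.1 i) := fun z s => by
  rw [app_rc_append, lb_cons]

lemma lb_cone_zw (f : (ℕ → S) × S) (k : ℕ) (h : ∀ i, k ≤ i → f.1 i = f.2) :
    IsCone (lb f : Perm (Dy × S)) (zw k) (zw k) f.2 := fun z s => by
  rcases z with _ | ⟨i, z⟩
  · simp
  · rw [app_zw_cons, lb_cons, h _ (by omega)]

lemma tsp_cone_zw : IsCone (tsp 0 : Perm (Dy × S)) (zw 1) (zw 2) 1 := fun z s => by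
  rcases z with _ | ⟨i, z⟩
  · simp [spl]
  · simp [spl]

lemma tsp_cone_false : IsCone (tsp 0 : Perm (Dy × S)) (rc 0 ++ [false]) (rc 0) 1 := fun z s => by
  rw [app_rc_append]
  rcases z with _ | ⟨i, z⟩
  · simp [spl]
  · simp [spl]

lemma tsp_cone_true : IsCone (tsp 0 : Perm (Dy × S)) (rc 0 ++ [true]) (rc 1) 1 := fun z s => by
  rw [app_rc_append]
  simp [spl]

lemma tsp_cone_succ (i : ℕ) : IsCone (tsp 0 : Perm (Dy × S)) (rc (i + 1)) (rc (i + 2)) 1 :=
  fun z s => by simp [spl]

/-- Membership criterion. -/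
lemma mem_VG_of {g : Perm (Dy × S)} (k : ℕ) (hz : CL g (zw k))
    (hr : ∀ i w, i + 1 + w.length = k → CL g (rc i ++ w)) : g ∈ VG S := by
  refine ⟨k, fun u hu => ?_⟩
  rcases word_cases u with ⟨l, rfl⟩ | ⟨i, w, rfl⟩
  · rw [zw_length] at hu
    subst hu
    exact hz
  · exact hr i w (by simpa using hu)

lemma hp_mem (p : Perm ℕ) (k : ℕ) (h : ∀ i, k ≤ i → p i = i) : (hp p : Perm (Dy × S)) ∈ VG S :=
  mem_VG_of k ⟨_, _, hp_cone_zw p k h⟩ (fun i w _ => ⟨_, _, hp_cone p i w⟩)

lemma lb_mem (f : (ℕ → S) × S) (k : ℕ) (h : ∀ i, k ≤ i → f.1 i = f.2) :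
    (lb f : Perm (Dy × S)) ∈ VG S :=
  mem_VG_of k ⟨_, _, lb_cone_zw f k h⟩ (fun i w _ => ⟨_, _, lb_cone f i w⟩)

lemma tsp_cl (i : ℕ) (w : List Bool) (h : i = 0 → w ≠ []) :
    CL (tsp 0 : Perm (Dy × S)) (rc i ++ w) := by
  rcases i with _ | i
  · rcases w with _ | ⟨b, w⟩
    · exact absurd rfl (h rfl)
    · rw [show rc 0 ++ b :: w = (rc 0 ++ [b]) ++ w by simp]
      apply CL.append
      cases b
      · exact ⟨_, _, tsp_cone_false⟩
      · exact ⟨_, _, tsp_cone_true⟩
  · exact CL.append ⟨_, _, tsp_cone_succ i⟩ w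

lemma tsp_mem : (tsp 0 : Perm (Dy × S)) ∈ VG S := by
  refine mem_VG_of 2 ?_ (fun i w h => ?_)
  · exact CL.append (u := zw 1) ⟨_, _, tsp_cone_zw⟩ [false]
  · apply tsp_cl
    rintro rfl rfl
    simp at h

lemma sH_mem (a : S) : (sH a : Perm (Dy × S)) ∈ VG S :=
  lb_mem _ 1 (fun i hi => by
    change Pi.mulSingle (M := fun _ : ℕ => S) 0 a i = 1
    rw [Pi.mulSingle_eq_of_ne (by omega)])

lemma cH_mem (a : S) : (cH a : Perm (Dy × S)) ∈ VG S := lb_mem _ 0 (fun i hi => rfl)

variable (S) in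
/-- The subgroup generated by the standard elements. -/
def Gb : Subgroup (Perm (Dy × S)) :=
  closure ({hp (swap 0 1), hp (swap 1 2), tsp 0} ∪ Set.range sH ∪ Set.range cH)

lemma Gb_x0 : (hp (swap 0 1) : Perm (Dy × S)) ∈ Gb S :=
  Subgroup.subset_closure (Or.inl (Or.inl (Or.inl rfl)))
lemma Gb_x1 : (hp (swap 1 2) : Perm (Dy × S)) ∈ Gb S :=
  Subgroup.subset_closure (Or.inl (Or.inl (Or.inr (Or.inl rfl))))
lemma Gb_t : (tsp 0 : Perm (Dy × S)) ∈ Gb S :=
  Subgroup.subset_closure (Or.inl (Or.inl (Or.inr (Or.inr rfl))))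
lemma Gb_s (a : S) : (sH a : Perm (Dy × S)) ∈ Gb S :=
  Subgroup.subset_closure (Or.inl (Or.inr ⟨a, rfl⟩))
lemma Gb_c (a : S) : (cH a : Perm (Dy × S)) ∈ Gb S :=
  Subgroup.subset_closure (Or.inr ⟨a, rfl⟩)

lemma Gb_adj (n : ℕ) : (hp (swap n (n + 1)) : Perm (Dy × S)) ∈ Gb S := by
  rw [← std_oA]
  rcases n with _ | n
  · exact Gb_x0
  · exact mul_mem (mul_mem (pow_mem Gb_t n) Gb_x1) (inv_mem (pow_mem Gb_t n))

lemma Gb_swap (m d : ℕ) : (hp (swap m (m + d)) : Perm (Dy × S)) ∈ Gb S := by
  induction d with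
  | zero =>
    rw [Nat.add_zero, swap_self]
    change hp (1 : Perm ℕ) ∈ _
    rw [map_one]
    exact one_mem _
  | succ d ih =>
    rcases Nat.eq_zero_or_pos d with rfl | hd
    · exact Gb_adj m
    · have e : swap m (m + (d + 1)) = swap (m + d) (m + d + 1) * swap m (m + d) *
          swap (m + d) (m + d + 1) := by
        rw [swap_mul_swap_mul_swap (x := m) (y := m + d) (z := m + d + 1) (by omega) (by omega),
          swap_comm, show m + (d + 1) = m + d + 1 by omega]
      rw [e, map_mul, map_mul]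
      exact mul_mem (mul_mem (Gb_adj _) ih) (Gb_adj _)

lemma Gb_swap' (i j : ℕ) : (hp (swap i j) : Perm (Dy × S)) ∈ Gb S := by
  rcases le_total i j with h | h
  · obtain ⟨d, rfl⟩ := Nat.exists_eq_add_of_le h
    exact Gb_swap i d
  · obtain ⟨d, rfl⟩ := Nat.exists_eq_add_of_le h
    rw [swap_comm]
    exact Gb_swap j d

lemma Gb_hp (k : ℕ) : ∀ p : Perm ℕ, (∀ i, k ≤ i → p i = i) → (hp p : Perm (Dy × S)) ∈ Gb S := by
  induction k with
  | zero =>
    intro p hp'
    have : p = 1 := by
      ext i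
      simpa using hp' i (Nat.zero_le _)
    rw [this, map_one]
    exact one_mem _
  | succ k ih =>
    intro p hp'
    have h1 : hp (swap (p k) k * p) ∈ Gb S := by
      apply ih
      intro i hi
      rw [Perm.mul_apply]
      rcases eq_or_lt_of_le hi with rfl | hi
      · exact swap_apply_left _ _
      · rw [hp' i hi, swap_apply_of_ne_of_ne]
        · intro h
          rw [← hp' i hi] at h
          have := p.injective h
          omega
        · omega
    rw [map_mul] at h1
    have := mul_mem (inv_mem (Gb_swap' (S := S) (p k) k)) h1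
    rwa [inv_mul_cancel_left] at this

lemma Gb_lb (k : ℕ) : ∀ f : ℕ → S, (∀ i, k ≤ i → f i = 1) →
    (lb (f, 1) : Perm (Dy × S)) ∈ Gb S := by
  induction k with
  | zero =>
    intro f hf
    have : f = 1 := by
      ext i
      exact hf i (Nat.zero_le _)
    subst this
    have : lb ((1 : ℕ → S), (1 : S)) = 1 := map_one lb
    rw [this]
    exact one_mem _
  | succ k ih =>
    intro f hf
    have e : (lb (f, 1) : Perm (Dy × S)) = lb (Function.update f k 1, 1) *
        (hp (swap 0 k) * sH (f k) * hp (swap 0 k)) := by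
      ext1 ⟨z, s⟩
      rcases z with _ | ⟨i, z⟩
      · simp
      · simp only [Perm.mul_apply, hp_cons, lb_cons]
        by_cases hi : i = k
        · subst hi
          simp only [swap_apply_right, sH_zero, hp_cons, swap_apply_left, lb_cons,
            Function.update_self, one_mul]
        · have h0 : swap 0 k i ≠ 0 := by
            intro h
            apply hi
            have := congrArg (swap 0 k) h
            rwa [swap_apply_self, swap_apply_left] at this
          obtain ⟨j, hj⟩ := Nat.exists_eq_succ_of_ne_zero h0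
          rw [hj, Nat.succ_eq_add_one, sH_succ, hp_cons, ← Nat.succ_eq_add_one, ← hj,
            swap_apply_self, lb_cons]
          simp only
          rw [Function.update_of_ne hi]
    rw [e]
    apply mul_mem
    · apply ih
      intro i hi
      by_cases h : i = k
      · subst h; simp
      · rw [Function.update_of_ne h]
        exact hf i (by omega)
    · exact mul_mem (mul_mem (Gb_swap' _ _) (Gb_s _)) (Gb_swap' _ _)

lemma Gb_lb' (k : ℕ) (f : (ℕ → S) × S) (h : ∀ i, k ≤ i → f.1 i = f.2) :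
    (lb f : Perm (Dy × S)) ∈ Gb S := by
  have e : lb f = cH f.2 * lb ((fun i => f.2⁻¹ * f.1 i), 1) := by
    change _ = lb _ * _
    rw [← map_mul]
    congr 1
    ext
    · simp
    · simp
  rw [e]
  exact mul_mem (Gb_c _) (Gb_lb k _ (fun i hi => by rw [h i hi, inv_mul_cancel]))

lemma Gb_le_VG : Gb S ≤ VG S := by
  unfold Gb
  rw [closure_le]
  rintro _ (((rfl | rfl | rfl) | ⟨a, rfl⟩) | ⟨a, rfl⟩)
  · exact hp_mem _ 2 (fun i hi => swap_apply_of_ne_of_ne (by omega) (by omega))
  · exact hp_mem _ 3 (fun i hi => swap_apply_of_ne_of_ne (by omega) (by omega))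
  · exact tsp_mem
  · exact sH_mem a
  · exact cH_mem a

/-- The permutations fixing the fibre over the base point. -/
def fixNil : Subgroup (Perm (Dy × S)) where
  carrier := {g | ∀ s, (g ([], s)).1 = [] ∧ (g⁻¹ ([], s)).1 = []}
  one_mem' := fun s => ⟨rfl, rfl⟩
  mul_mem' := by
    intro g h hg hh s
    constructor
    · have h1 := (hh s).1
      rw [Perm.mul_apply]
      have : h ([], s) = ([], (h ([], s)).2) := Prod.ext h1 rfl
      rw [this]
      exact (hg _).1
    · have h1 := (hg s).2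
      rw [mul_inv_rev, Perm.mul_apply]
      have : g⁻¹ ([], s) = ([], (g⁻¹ ([], s)).2) := Prod.ext h1 rfl
      rw [this]
      exact (hh _).2
  inv_mem' := fun {g} hg s => ⟨(hg s).2, by rw [inv_inv]; exact (hg s).1⟩

lemma Gb_le_fixNil : Gb S ≤ fixNil := by
  unfold Gb
  rw [closure_le]
  rintro _ (((rfl | rfl | rfl) | ⟨a, rfl⟩) | ⟨a, rfl⟩) s
  · refine ⟨rfl, rfl⟩
  · refine ⟨rfl, rfl⟩
  · refine ⟨rfl, rfl⟩
  · refine ⟨rfl, rfl⟩
  · refine ⟨rfl, rfl⟩

/-- The set of bad cones. -/
def bad (g : Perm (Dy × S)) : Set (ℕ × List Bool) := {p | ¬ CL g (rc p.1 ++ p.2)}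

lemma bad_finite {g : Perm (Dy × S)} (hg : g ∈ VG S) : (bad g).Finite := by
  obtain ⟨k, hk⟩ := hg
  apply Set.Finite.subset ((Set.finite_Iio k).prod (List.finite_length_lt Bool k))
  rintro ⟨i, w⟩ h
  by_contra hcon
  apply h
  apply CL.of_length hk
  simp only [List.length_append, rc_length]
  by_contra h2
  apply hcon
  refine ⟨?_, ?_⟩
  · change i < k
    omega
  · change w.length < k
    omega

lemma CL.mul_of_cone {g h : Perm (Dy × S)} {u v : List Bool} {a : S} (hh : IsCone h u v a)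
    (hg : CL g v) : CL (g * h) u := by
  obtain ⟨w, b, hw⟩ := hg
  exact ⟨w, _, hw.mul hh⟩

lemma CL.of_mul_cone {g h : Perm (Dy × S)} {u v : List Bool} {a : S} (hh : IsCone h u v a)
    (hg : CL (g * h) u) : CL g v := by
  obtain ⟨w, b, hw⟩ := hg
  refine ⟨w, b * a⁻¹, ?_⟩
  have := hw.mul hh.inv
  rwa [mul_inv_cancel_right] at this

lemma CL.mul_iff {g h : Perm (Dy × S)} {u v : List Bool} {a : S} (hh : IsCone h u v a) :
    CL (g * h) u ↔ CL g v := ⟨CL.of_mul_cone hh, CL.mul_of_cone hh⟩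

/-- The basic reduction step on the right. -/
lemma bad_step {g : Perm (Dy × S)} (hg : g ∈ VG S) {j : ℕ} (hj : ¬ CL g (rc j)) :
    (bad (g * (hp (swap 0 j) * (tsp 0)⁻¹))).ncard < (bad g).ncard := by
  let φ : ℕ × List Bool → ℕ × List Bool := fun p => match p with
    | (0, w) => (j, false :: w)
    | (1, w) => (j, true :: w)
    | (i + 2, w) => (swap 0 j (i + 1), w)
  have key : ∀ p : ℕ × List Bool, CL (g * (hp (swap 0 j) * (tsp 0)⁻¹)) (rc p.1 ++ p.2) ↔
      CL g (rc (φ p).1 ++ (φ p).2) := by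
    rintro ⟨_ | _ | i, w⟩
    · have h1 := (hp_cone (S := S) (swap 0 j) 0 [false]).mul tsp_cone_false.inv
      have h2 := h1.append w
      rw [swap_apply_left, List.append_assoc] at h2
      exact CL.mul_iff h2
    · have h1 := (hp_cone (S := S) (swap 0 j) 0 [true]).mul tsp_cone_true.inv
      have h2 := h1.append w
      rw [swap_apply_left, List.append_assoc] at h2
      exact CL.mul_iff h2
    · have h0 := hp_cone (S := S) (swap 0 j) (i + 1) []
      rw [List.append_nil, List.append_nil] at h0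
      have h1 := h0.mul (tsp_cone_succ i).inv
      exact CL.mul_iff (h1.append w)
  have hsw : ∀ i, swap 0 j (i + 1) ≠ j := by
    intro i h
    have := congrArg (swap 0 j) h
    rw [swap_apply_self, swap_apply_right] at this
    omega
  have hφ : Function.Injective φ := by
    rintro ⟨_ | _ | i, w⟩ ⟨_ | _ | i', w'⟩ h
    · simp only [φ, Prod.mk.injEq, List.cons.injEq] at h
      simp [h.2.2]
    · simp [φ] at h
    · simp only [φ, Prod.mk.injEq] at h
      exact absurd h.1.symm (hsw i')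
    · simp [φ] at h
    · simp only [φ, Prod.mk.injEq, List.cons.injEq] at h
      simp [h.2.2]
    · simp only [φ, Prod.mk.injEq] at h
      exact absurd h.1.symm (hsw i')
    · simp only [φ, Prod.mk.injEq] at h
      exact absurd h.1 (hsw i)
    · simp only [φ, Prod.mk.injEq] at h
      exact absurd h.1 (hsw i)
    · simp only [φ, Prod.mk.injEq] at h
      have := (swap 0 j).injective h.1
      simp only [Prod.mk.injEq]
      exact ⟨by omega, h.2⟩
  have hmiss : ∀ p, φ p ≠ (j, []) := by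
    rintro ⟨_ | _ | i, w⟩ h
    · simp [φ] at h
    · simp [φ] at h
    · simp only [φ, Prod.mk.injEq] at h
      exact hsw i h.1
  have hbj : ((j, []) : ℕ × List Bool) ∈ bad g := by
    change ¬ CL g (rc j ++ [])
    rwa [List.append_nil]
  rw [← Set.ncard_image_of_injective _ hφ]
  apply Set.ncard_lt_ncard _ (bad_finite hg)
  rw [Set.ssubset_iff_of_subset]
  · exact ⟨_, hbj, by rintro ⟨p, -, hp⟩; exact hmiss p hp⟩
  · rintro _ ⟨p, hp, rfl⟩
    intro h
    exact hp ((key p).2 h)

lemma bad_empty {g : Perm (Dy × S)} (hg : g ∈ VG S) (h : (bad g).ncard = 0) (i : ℕ) :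
    CL g (rc i) := by
  by_contra hcon
  have : ((i, []) : ℕ × List Bool) ∈ bad g := by
    change ¬ CL g (rc i ++ [])
    rwa [List.append_nil]
  rw [Set.ncard_eq_zero (bad_finite hg)] at h
  rw [h] at this
  exact this

lemma reduce_right (n : ℕ) : ∀ g : Perm (Dy × S), g ∈ VG S → (bad g).ncard = n →
    ∃ h ∈ Gb S, ∀ i, CL (g * h) (rc i) := by
  induction n using Nat.strong_induction_on with
  | _ n ih =>
    intro g hg hn
    by_cases hall : ∀ i, CL g (rc i)
    · exact ⟨1, one_mem _, by simpa using hall⟩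
    · push Not at hall
      obtain ⟨j, hj⟩ := hall
      have h1 : (hp (swap 0 j) * (tsp 0)⁻¹ : Perm (Dy × S)) ∈ Gb S :=
        mul_mem (Gb_swap' _ _) (inv_mem Gb_t)
      have h2 := bad_step hg hj
      obtain ⟨h, hh, hc⟩ := ih _ (hn ▸ h2) (g * (hp (swap 0 j) * (tsp 0)⁻¹))
        (mul_mem hg (Gb_le_VG h1)) rfl
      exact ⟨_, mul_mem h1 hh, fun i => by rw [← mul_assoc]; exact hc i⟩

lemma reduce_left (n : ℕ) : ∀ g : Perm (Dy × S), g ∈ VG S → g ∈ fixNil → (∀ i, CL g (rc i)) →
    (bad g⁻¹).ncard = n →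
    ∃ h ∈ Gb S, (∀ i, CL (h * g) (rc i)) ∧ ∀ i, CL (h * g)⁻¹ (rc i) := by
  induction n using Nat.strong_induction_on with
  | _ n ih =>
    intro g hg h0 hc hn
    by_cases hall : ∀ i, CL g⁻¹ (rc i)
    · exact ⟨1, one_mem _, by simpa using hc, by simpa using hall⟩
    · push Not at hall
      obtain ⟨j, hj⟩ := hall
      have h1 : (hp (swap 0 j) * (tsp 0)⁻¹ : Perm (Dy × S)) ∈ Gb S :=
        mul_mem (Gb_swap' _ _) (inv_mem Gb_t)
      have h2 := bad_step (inv_mem hg) hj
      have e : g⁻¹ * (hp (swap 0 j) * (tsp 0)⁻¹) =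
          ((hp (swap 0 j) * (tsp 0)⁻¹)⁻¹ * g)⁻¹ := by group
      have h3 := inv_mem h1
      have hc0 : ∀ i, CL ((hp (swap 0 j) * (tsp 0)⁻¹)⁻¹ * g) (rc i) := by
        intro i
        obtain ⟨v, a, hv⟩ := hc i
        apply CL.mul_of_cone hv
        rcases word_cases v with ⟨k, rfl⟩ | ⟨m, w, rfl⟩
        · exfalso
          have h4 := hv.inv [] 1
          rw [app_zw_nil] at h4
          have h5 := (h0 1).2
          rw [h4] at h5
          simp at h5
        · have e2 : (hp (swap 0 j) * (tsp 0)⁻¹)⁻¹ = tsp 0 * (hp (swap 0 j) : Perm (Dy × S)) := by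
            rw [mul_inv_rev, inv_inv, ← map_inv, swap_inv]
          rw [e2]
          apply CL.mul_of_cone (hp_cone (swap 0 j) m w)
          apply tsp_cl
          rintro h6 rfl
          apply hj
          have : m = j := by
            have := congrArg (swap 0 j) h6
            rwa [swap_apply_self, swap_apply_left] at this
          subst this
          rw [List.append_nil] at hv
          exact ⟨_, _, hv.inv⟩
      obtain ⟨h, hh, hc1, hc2⟩ := ih _ (hn ▸ h2) ((hp (swap 0 j) * (tsp 0)⁻¹)⁻¹ * g)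
        (mul_mem (Gb_le_VG h3) hg) (mul_mem (Gb_le_fixNil h3) h0) hc0 (by rw [e])
      exact ⟨h * (hp (swap 0 j) * (tsp 0)⁻¹)⁻¹, mul_mem hh h3,
        fun i => by rw [mul_assoc]; exact hc1 i, fun i => by rw [mul_assoc]; exact hc2 i⟩

theorem Gb_of_good {g : Perm (Dy × S)} (hg : g ∈ VG S) (h0 : g ∈ fixNil)
    (hc : ∀ i, CL g (rc i)) (hc' : ∀ i, CL g⁻¹ (rc i)) : g ∈ Gb S := by
  choose v a hv using hc
  choose v' a' hv' using hc'
  have hnz : ∀ i k, v i ≠ zw k := by
    intro i k h
    have h4 := (hv i).inv [] 1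
    rw [h, app_zw_nil] at h4
    have h5 := (h0 1).2
    rw [h4] at h5
    simp at h5
  have hnz' : ∀ i k, v' i ≠ zw k := by
    intro i k h
    have h4 := (hv' i).inv [] 1
    rw [h, app_zw_nil, inv_inv] at h4
    have h5 := (h0 1).1
    have h6 : g ([], 1) = (app (rc i) [], (a' i)⁻¹ * 1) := h4
    rw [h6] at h5
    simp at h5
  have hf : ∀ i, ∃ j, v i = rc j := by
    intro i
    rcases word_cases (v i) with ⟨k, hk⟩ | ⟨m, w, hm⟩
    · exact absurd hk (hnz i k)
    · rcases word_cases (v' m) with ⟨k, hk⟩ | ⟨m', w', hm'⟩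
      · exact absurd hk (hnz' m k)
      · have h1 := (hv' m).append w
        have h2 := (hv i).inv
        rw [hm] at h2
        have h3 := (h1.unique h2).1
        rw [hm', List.append_assoc] at h3
        have h4 : rc m' ++ (w' ++ w) = rc i ++ [] := by rw [h3, List.append_nil]
        have h5 := (rc_append_inj h4).2
        have h6 : w = [] := (List.append_eq_nil_iff.1 h5).2
        exact ⟨m, by rw [hm, h6, List.append_nil]⟩
  have hf' : ∀ i, ∃ j, v' i = rc j := by
    intro i
    rcases word_cases (v' i) with ⟨k, hk⟩ | ⟨m, w, hm⟩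
    · exact absurd hk (hnz' i k)
    · rcases word_cases (v m) with ⟨k, hk⟩ | ⟨m', w', hm'⟩
      · exact absurd hk (hnz m k)
      · have h1 := (hv m).append w
        have h2 := (hv' i).inv
        rw [hm, inv_inv] at h2
        have h3 := (h1.unique h2).1
        rw [hm', List.append_assoc] at h3
        have h4 : rc m' ++ (w' ++ w) = rc i ++ [] := by rw [h3, List.append_nil]
        have h5 := (rc_append_inj h4).2
        have h6 : w = [] := (List.append_eq_nil_iff.1 h5).2
        exact ⟨m, by rw [hm, h6, List.append_nil]⟩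
  choose f hf using hf
  choose f' hf' using hf'
  have hl : ∀ i, f' (f i) = i := by
    intro i
    have h1 := hv' (f i)
    have h2 := (hv i).inv
    rw [hf i] at h2
    have h3 := (h1.unique h2).1
    rw [hf'] at h3
    have h4 : rc (f' (f i)) ++ [] = rc i ++ [] := by rw [h3]
    exact (rc_append_inj h4).1
  have hr : ∀ i, f (f' i) = i := by
    intro i
    have h1 := hv (f' i)
    have h2 := (hv' i).inv
    rw [hf' i, inv_inv] at h2
    have h3 := (h1.unique h2).1
    rw [hf] at h3
    have h4 : rc (f (f' i)) ++ [] = rc i ++ [] := by rw [h3]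
    exact (rc_append_inj h4).1
  let p : Perm ℕ := ⟨f, f', hl, hr⟩
  -- behaviour near the base point
  obtain ⟨k, hk⟩ := hg
  obtain ⟨w, b, hw⟩ := hk (zw k) (zw_length k)
  obtain ⟨l, rfl⟩ : ∃ l, w = zw l := by
    rcases word_cases w with h | ⟨m, w', rfl⟩
    · exact h
    · exfalso
      have h1 := hw [] 1
      rw [app_zw_nil, app_rc_append] at h1
      have h2 := (h0 1).1
      rw [h1] at h2
      simp at h2
  have hfs : ∀ i, f (i + k) = i + l ∧ a (i + k) = b := by
    intro i
    have h1 := hw.append (rc i)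
    have e : ∀ m, zw m ++ rc i = rc (i + m) := by
      intro m
      rw [rc, rc, ← List.append_assoc, ← zw_add, Nat.add_comm]
    rw [e, e] at h1
    have h2 := (hv (i + k)).unique h1
    rw [hf] at h2
    have h3 : rc (f (i + k)) ++ [] = rc (i + l) ++ [] := by rw [h2.1]
    exact ⟨(rc_append_inj h3).1, h2.2⟩
  have hkl : k = l := by
    -- `f` maps `{i < k}` onto `{i < l}`
    have h1 : (Finset.range k).image f = Finset.range l := by
      ext j
      simp only [Finset.mem_image, Finset.mem_range]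
      constructor
      · rintro ⟨i, hi, rfl⟩
        by_contra hcon
        obtain ⟨d, hd⟩ := Nat.exists_eq_add_of_le (not_lt.1 hcon)
        have h2 := (hfs d).1
        have h3 : f i = f (d + k) := by rw [h2, hd, Nat.add_comm]
        have h4 := p.injective h3
        omega
      · intro hj
        refine ⟨f' j, ?_, hr j⟩
        by_contra hcon
        obtain ⟨d, hd⟩ := Nat.exists_eq_add_of_le (not_lt.1 hcon)
        have h2 := (hfs d).1
        rw [Nat.add_comm, ← hd, hr] at h2
        omega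
    have h2 := congrArg Finset.card h1
    rwa [Finset.card_image_of_injective _ (show Function.Injective f from p.injective),
      Finset.card_range, Finset.card_range] at h2
  subst hkl
  have hfk : ∀ i, k ≤ i → f i = i ∧ a i = b := by
    intro i hi
    obtain ⟨d, rfl⟩ := Nat.exists_eq_add_of_le hi
    have := hfs d
    rwa [Nat.add_comm d k] at this
  have e : g = hp p * lb (a, b) := by
    ext1 ⟨z, s⟩
    rcases z with _ | ⟨i, z⟩
    · rw [Perm.mul_apply, lb_nil, hp_nil]
      have := hw [] s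
      rwa [app_zw_nil] at this
    · rw [Perm.mul_apply, lb_cons, hp_cons]
      have := hv i z s
      rw [hf, app_rc, app_rc] at this
      exact this
  rw [e]
  exact mul_mem (Gb_hp k p (fun i hi => (hfk i hi).1)) (Gb_lb' k _ (fun i hi => (hfk i hi).2))

/-- The stabilizer of the base point is generated by the standard elements. -/
theorem mem_Gb_iff {g : Perm (Dy × S)} : g ∈ Gb S ↔ g ∈ VG S ∧ g ∈ fixNil := by
  refine ⟨fun h => ⟨Gb_le_VG h, Gb_le_fixNil h⟩, fun ⟨hg, h0⟩ => ?_⟩
  obtain ⟨h, hh, hc⟩ := reduce_right _ g hg rfl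
  obtain ⟨h', hh', hc1, hc2⟩ := reduce_left _ (g * h) (mul_mem hg (Gb_le_VG hh))
    (mul_mem h0 (Gb_le_fixNil hh)) hc rfl
  have h1 := Gb_of_good (mul_mem (Gb_le_VG hh') (mul_mem hg (Gb_le_VG hh)))
    (mul_mem (Gb_le_fixNil hh') (mul_mem h0 (Gb_le_fixNil hh))) hc1 hc2
  have h2 := mul_mem (inv_mem hh') (mul_mem h1 (inv_mem hh))
  have e : h'⁻¹ * (h' * (g * h) * h⁻¹) = g := by group
  rwa [e] at h2

end Range

end Pool.Agent.Helper13
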