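import Pool.Agent.Helper13.Coxeter

set_option autoImplicit false

/-!
# Relations of the one-ray labelled Thompson group
-/

namespace Pool.Agent.Helper13

open Subgroup

section OneRay

variable {Γ S : Type*} [Group Γ] [Group S]

/-- The adjacent transpositions. -/
def oA (x0 x1 t : Γ) : ℕ → Γ
  | 0 => x0
  | n + 1 => t ^ n * x1 * (t ^ n)⁻¹

/-- The labels on the ray cones. -/
def oS (x0 t : Γ) (s : S →* Γ) : ℕ → S → Γ
  | 0, a => s a
  | n + 1, a => t ^ n * (x0 * s a * x0) * (t ^ n)⁻¹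

/-- The splitting of the cone number one, and its shifts. -/
def oT (x0 x1 t : Γ) : ℕ → Γ
  | 0 => x0 * x1 * t * x0
  | n + 1 => t * oT x0 x1 t n * t⁻¹

/-- The defining relations. -/
structure ORel (x0 x1 t : Γ) (s c : S →* Γ) : Prop where
  sq0 : x0 * x0 = 1
  sq1 : x1 * x1 = 1
  br01 : x0 * x1 * x0 = x1 * x0 * x1
  br12 : x1 * oA x0 x1 t 2 * x1 = oA x0 x1 t 2 * x1 * oA x0 x1 t 2
  c02 : x0 * oA x0 x1 t 2 = oA x0 x1 t 2 * x0
  c03 : x0 * oA x0 x1 t 3 = oA x0 x1 t 3 * x0
  c13 : x1 * oA x0 x1 t 3 = oA x0 x1 t 3 * x1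
  c14 : x1 * oA x0 x1 t 4 = oA x0 x1 t 4 * x1
  t12 : oT x0 x1 t 0 * oA x0 x1 t 2 = oA x0 x1 t 3 * oT x0 x1 t 0
  t13 : oT x0 x1 t 0 * oA x0 x1 t 3 = oA x0 x1 t 4 * oT x0 x1 t 0
  t2 : oT x0 x1 t 1 = x1 * oA x0 x1 t 2 * oT x0 x1 t 0 * x1
  t3 : oT x0 x1 t 0 * oT x0 x1 t 1 = oT x0 x1 t 2 * oT x0 x1 t 0
  ct2 : oT x0 x1 t 1 * x0 = x0 * oT x0 x1 t 1
  ct3 : oT x0 x1 t 2 * x1 = x1 * oT x0 x1 t 2
  s1 : ∀ a, s a * x1 = x1 * s a
  s2 : ∀ a, s a * oA x0 x1 t 2 = oA x0 x1 t 2 * s a
  s3 : ∀ a, s a * oA x0 x1 t 3 = oA x0 x1 t 3 * s a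
  st2 : ∀ a, oT x0 x1 t 1 * s a = s a * oT x0 x1 t 1
  ss : ∀ a b, s a * (x0 * s b * x0) = (x0 * s b * x0) * s a
  ts0 : ∀ a, t * s a * t⁻¹ = s a * (x0 * s a * x0)
  ts1 : ∀ a, t * (x0 * s a * x0) * t⁻¹ = x1 * (x0 * s a * x0) * x1
  cx0 : ∀ a, c a * x0 = x0 * c a
  cx1 : ∀ a, c a * x1 = x1 * c a
  ct : ∀ a, c a * t = t * c a
  cs : ∀ a b, c a * s b * (c a)⁻¹ = s (a * b * a⁻¹)

variable {x0 x1 t : Γ} {s c : S →* Γ}

lemma oA_zero : oA x0 x1 t 0 = x0 := rfl
lemma oA_one : oA x0 x1 t 1 = x1 := by simp [oA]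
lemma oS_zero (a : S) : oS x0 t s 0 a = s a := rfl
lemma oS_one (a : S) : oS x0 t s 1 a = x0 * s a * x0 := by simp [oS]

lemma oA_shift (n : ℕ) (hn : 1 ≤ n) : t * oA x0 x1 t n * t⁻¹ = oA x0 x1 t (n + 1) := by
  obtain ⟨k, rfl⟩ : ∃ k, n = k + 1 := ⟨n - 1, by omega⟩
  simp only [oA, pow_succ']
  group

lemma oS_shift (n : ℕ) (hn : 1 ≤ n) (a : S) : t * oS x0 t s n a * t⁻¹ = oS x0 t s (n + 1) a := by
  obtain ⟨k, rfl⟩ : ∃ k, n = k + 1 := ⟨n - 1, by omega⟩
  simp only [oS, pow_succ']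
  group

/-- conjugation helper -/
lemma conj_rel {g a b c d : Γ} (h : a * b = c * d) :
    (g * a * g⁻¹) * (g * b * g⁻¹) = (g * c * g⁻¹) * (g * d * g⁻¹) := by
  calc (g * a * g⁻¹) * (g * b * g⁻¹) = g * (a * b) * g⁻¹ := by group
    _ = g * (c * d) * g⁻¹ := by rw [h]
    _ = _ := by group

namespace ORel

variable (R : ORel x0 x1 t s c)

include R

/-- `T₁ Aₙ T₁⁻¹ = Aₙ₊₁` for `n ≥ 2`. -/
lemma star : ∀ n, 2 ≤ n → oT x0 x1 t 0 * oA x0 x1 t n = oA x0 x1 t (n + 1) * oT x0 x1 t 0 := by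
  intro n
  induction n using Nat.strong_induction_on with
  | _ n ih =>
    intro hn
    rcases Nat.lt_or_ge n 4 with h | h
    · interval_cases n
      · exact R.t12
      · exact R.t13
    · obtain ⟨m, rfl⟩ : ∃ m, n = m + 1 := ⟨n - 1, by omega⟩
      -- `T₂ A_m T₂⁻¹ = A_{m+1}` and `T₃ A_{m+1} T₃⁻¹ = A_{m+2}`
      have h1 := ih (m - 1) (by omega) (by omega)
      have h2 : oT x0 x1 t 1 * oA x0 x1 t m = oA x0 x1 t (m + 1) * oT x0 x1 t 1 := by
        have := conj_rel (g := t) h1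
        rw [oA_shift _ (by omega), oA_shift _ (by omega)] at this
        rw [show m - 1 + 1 = m by omega] at this
        exact this
      have h3 : oT x0 x1 t 2 * oA x0 x1 t (m + 1) = oA x0 x1 t (m + 2) * oT x0 x1 t 2 := by
        have := conj_rel (g := t) h2
        rw [oA_shift _ (by omega), oA_shift _ (by omega)] at this
        exact this
      have h4 := ih m (by omega) (by omega)
      have h5 := R.t3
      have e1 : oA x0 x1 t (m + 1) = oT x0 x1 t 1 * oA x0 x1 t m * (oT x0 x1 t 1)⁻¹ := by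
        rw [h2]; group
      calc oT x0 x1 t 0 * oA x0 x1 t (m + 1)
          = (oT x0 x1 t 0 * oT x0 x1 t 1) * oA x0 x1 t m * (oT x0 x1 t 1)⁻¹ := by rw [e1]; group
        _ = oT x0 x1 t 2 * (oT x0 x1 t 0 * oA x0 x1 t m) * (oT x0 x1 t 1)⁻¹ := by rw [h5]; group
        _ = (oT x0 x1 t 2 * oA x0 x1 t (m + 1)) * oT x0 x1 t 0 * (oT x0 x1 t 1)⁻¹ := by
            rw [h4]; group
        _ = oA x0 x1 t (m + 2) * (oT x0 x1 t 2 * oT x0 x1 t 0) * (oT x0 x1 t 1)⁻¹ := by
            rw [h3]; group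
        _ = oA x0 x1 t (m + 2) * oT x0 x1 t 0 := by rw [← h5]; group

lemma star2 (n : ℕ) (hn : 3 ≤ n) :
    oT x0 x1 t 1 * oA x0 x1 t n = oA x0 x1 t (n + 1) * oT x0 x1 t 1 := by
  have h1 := R.star (n - 1) (by omega)
  have := conj_rel (g := t) h1
  rw [oA_shift _ (by omega), oA_shift _ (by omega)] at this
  rw [show n - 1 + 1 = n by omega] at this
  exact this

lemma star3 (n : ℕ) (hn : 4 ≤ n) :
    oT x0 x1 t 2 * oA x0 x1 t n = oA x0 x1 t (n + 1) * oT x0 x1 t 2 := by
  have h1 := R.star2 (n - 1) (by omega)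
  have := conj_rel (g := t) h1
  rw [oA_shift _ (by omega), oA_shift _ (by omega)] at this
  rw [show n - 1 + 1 = n by omega] at this
  exact this

omit R in
/-- transport a commutation along a conjugation -/
lemma comm_step {g x y y' : Γ} (h : x * y = y * x) (hg : g * x = x * g) (hy : g * y = y' * g) :
    x * y' = y' * x := by
  have e : y' = g * y * g⁻¹ := by rw [hy]; group
  have hgi : x * g⁻¹ = g⁻¹ * x := by
    rw [mul_inv_eq_iff_eq_mul, mul_assoc, ← hg, inv_mul_cancel_left]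
  rw [e]
  calc x * (g * y * g⁻¹) = (x * g) * y * g⁻¹ := by group
    _ = g * (x * y) * g⁻¹ := by rw [← hg]; group
    _ = g * y * (x * g⁻¹) := by rw [h]; group
    _ = _ := by rw [hgi]; group

lemma comm0 (n : ℕ) (hn : 2 ≤ n) : x0 * oA x0 x1 t n = oA x0 x1 t n * x0 := by
  induction n, hn using Nat.le_induction with
  | base => exact R.c02
  | succ n hn ih =>
    rcases Nat.eq_or_lt_of_le hn with rfl | h
    · exact R.c03
    · exact comm_step ih R.ct2 (R.star2 n (by omega))

lemma comm1 (n : ℕ) (hn : 3 ≤ n) : x1 * oA x0 x1 t n = oA x0 x1 t n * x1 := by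
  induction n, hn using Nat.le_induction with
  | base => exact R.c13
  | succ n hn ih =>
    rcases Nat.eq_or_lt_of_le hn with rfl | h
    · exact R.c14
    · exact comm_step ih R.ct3 (R.star3 n (by omega))

lemma sA (n : ℕ) (hn : 1 ≤ n) (a : S) : s a * oA x0 x1 t n = oA x0 x1 t n * s a := by
  induction n, hn using Nat.le_induction with
  | base => rw [oA_one]; exact R.s1 a
  | succ n hn ih =>
    rcases Nat.lt_or_ge n 3 with h | h
    · interval_cases n
      · exact R.s2 a
      · exact R.s3 a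
    · exact comm_step ih (R.st2 a) (R.star2 n h)

/-- The transpositions satisfy the Coxeter relations. -/
lemma cox : CoxA (oA x0 x1 t) := by
  have hpow : ∀ (k : ℕ) (n : ℕ), 1 ≤ n → t ^ k * oA x0 x1 t n * (t ^ k)⁻¹ = oA x0 x1 t (n + k) := by
    intro k
    induction k with
    | zero => intro n _; simp
    | succ k ih =>
      intro n hn
      rw [pow_succ']
      have e : t * t ^ k * oA x0 x1 t n * (t * t ^ k)⁻¹ =
          t * (t ^ k * oA x0 x1 t n * (t ^ k)⁻¹) * t⁻¹ := by group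
      rw [e, ih n hn, oA_shift _ (by omega)]
      rfl
  refine ⟨?_, ?_, ?_⟩
  · intro i
    rcases i with _ | i
    · exact R.sq0
    · simp only [oA]
      calc t ^ i * x1 * (t ^ i)⁻¹ * (t ^ i * x1 * (t ^ i)⁻¹) = t ^ i * (x1 * x1) * (t ^ i)⁻¹ := by
            group
        _ = 1 := by rw [R.sq1]; group
  · intro i
    rcases i with _ | i
    · rw [oA_zero]
      simp only [Nat.zero_add]
      rw [oA_one]
      exact R.br01
    · have h1 := R.br12
      have e1 := hpow i 1 le_rfl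
      have e2 := hpow i 2 (by omega)
      rw [show i + 1 = 1 + i by omega, show 1 + i + 1 = 2 + i by omega, ← e1, ← e2]
      rw [oA_one]
      calc t ^ i * x1 * (t ^ i)⁻¹ * (t ^ i * oA x0 x1 t 2 * (t ^ i)⁻¹) * (t ^ i * x1 * (t ^ i)⁻¹)
          = t ^ i * (x1 * oA x0 x1 t 2 * x1) * (t ^ i)⁻¹ := by group
        _ = t ^ i * (oA x0 x1 t 2 * x1 * oA x0 x1 t 2) * (t ^ i)⁻¹ := by rw [h1]
        _ = _ := by group
  · intro i j hij
    rcases i with _ | i
    · exact R.comm0 j hij
    · have h1 := R.comm1 (j - i) (by omega)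
      have e1 := hpow i 1 le_rfl
      have e2 := hpow i (j - i) (by omega)
      rw [show j - i + i = j by omega] at e2
      rw [show i + 1 = 1 + i by omega, ← e1, ← e2, oA_one]
      exact conj_rel h1

lemma AS_self (i : ℕ) (a : S) :
    oA x0 x1 t i * oS x0 t s i a * oA x0 x1 t i = oS x0 t s (i + 1) a := by
  rcases i with _ | i
  · rw [oA_zero, oS_zero, oS_one]
  · induction i with
    | zero =>
      simp only [Nat.zero_add]
      rw [oA_one, oS_one, ← R.ts1 a, ← oS_one (x0 := x0) (t := t) (s := s), oS_shift _ le_rfl]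
    | succ i ih =>
      rw [← oA_shift (i + 1) (by omega), ← oS_shift (i + 1) (by omega),
        ← oS_shift (i + 1 + 1) (by omega), ← ih]
      group

/-- `x0` commutes with the labels of index at least two. -/
lemma AS_zero (j : ℕ) (hj : 2 ≤ j) (a : S) : x0 * oS x0 t s j a = oS x0 t s j a * x0 := by
  induction j, hj using Nat.le_induction with
  | base =>
    have h1 := R.AS_self 1 a
    rw [oA_one, oS_one] at h1
    rw [← h1]
    have hb := R.br01
    have hs := R.s1 a
    calc x0 * (x1 * (x0 * s a * x0) * x1)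
        = (x0 * x1 * x0) * s a * x0 * x1 := by group
      _ = x1 * x0 * (x1 * s a) * x0 * x1 := by rw [hb]; group
      _ = x1 * x0 * s a * (x1 * x0 * x1) := by rw [← hs]; group
      _ = _ := by rw [← hb]; group
  | succ n hn ih =>
    rw [← R.AS_self n a]
    have h1 := R.comm0 n hn
    calc x0 * (oA x0 x1 t n * oS x0 t s n a * oA x0 x1 t n)
        = (x0 * oA x0 x1 t n) * oS x0 t s n a * oA x0 x1 t n := by group
      _ = oA x0 x1 t n * (x0 * oS x0 t s n a) * oA x0 x1 t n := by rw [h1]; group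
      _ = oA x0 x1 t n * oS x0 t s n a * (x0 * oA x0 x1 t n) := by rw [ih]; group
      _ = _ := by rw [h1]; group

/-- `s_1` commutes with the transpositions of index at least two. -/
lemma s1A (n : ℕ) (hn : 2 ≤ n) (a : S) :
    (x0 * s a * x0) * oA x0 x1 t n = oA x0 x1 t n * (x0 * s a * x0) := by
  have h1 := R.comm0 n hn
  have h2 := R.sA n (by omega) a
  calc (x0 * s a * x0) * oA x0 x1 t n = x0 * s a * (x0 * oA x0 x1 t n) := by group
    _ = x0 * (s a * oA x0 x1 t n) * x0 := by rw [h1]; group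
    _ = (x0 * oA x0 x1 t n) * s a * x0 := by rw [h2]; group
    _ = _ := by rw [h1]; group

lemma AS_one (j : ℕ) (hj : 3 ≤ j) (a : S) : x1 * oS x0 t s j a = oS x0 t s j a * x1 := by
  induction j, hj using Nat.le_induction with
  | base =>
    have h1 := R.AS_self 1 a
    rw [oA_one, oS_one] at h1
    have h2 := R.AS_self 2 a
    rw [← h2, ← h1]
    have hb := R.br12
    have hs := R.s1A 2 le_rfl a
    set y := oA x0 x1 t 2
    set p := x0 * s a * x0
    calc x1 * (y * (x1 * p * x1) * y)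
        = (x1 * y * x1) * p * x1 * y := by group
      _ = y * x1 * (y * p) * x1 * y := by rw [hb]; group
      _ = y * x1 * p * (y * x1 * y) := by rw [← hs]; group
      _ = _ := by rw [← hb]; group
  | succ n hn ih =>
    rw [← R.AS_self n a]
    have h1 := R.comm1 n hn
    calc x1 * (oA x0 x1 t n * oS x0 t s n a * oA x0 x1 t n)
        = (x1 * oA x0 x1 t n) * oS x0 t s n a * oA x0 x1 t n := by group
      _ = oA x0 x1 t n * (x1 * oS x0 t s n a) * oA x0 x1 t n := by rw [h1]; group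
      _ = oA x0 x1 t n * oS x0 t s n a * (x1 * oA x0 x1 t n) := by rw [ih]; group
      _ = _ := by rw [h1]; group

/-- Transpositions commute with the labels they do not move. -/
lemma AS_ne (i j : ℕ) (hij : i ≠ j) (hij' : i + 1 ≠ j) (a : S) :
    oA x0 x1 t i * oS x0 t s j a = oS x0 t s j a * oA x0 x1 t i := by
  induction i generalizing j with
  | zero => exact R.AS_zero j (by omega) a
  | succ i ih =>
    rcases j with _ | j
    · rw [oS_zero]
      exact (R.sA (i + 1) (by omega) a).symm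
    · rcases i with _ | i
      · simp only [Nat.zero_add] at *
        rw [oA_one]
        exact R.AS_one (j + 1) (by omega) a
      · rcases j with _ | j
        · simp only [Nat.zero_add]
          rw [oS_one]
          exact (R.s1A (i + 1 + 1) (by omega) a).symm
        · rw [← oA_shift (i + 1) (by omega), ← oS_shift (j + 1) (by omega)]
          exact conj_rel (ih (j + 1) (by omega) (by omega))

lemma SS_zero (j : ℕ) (hj : 1 ≤ j) (a b : S) : s a * oS x0 t s j b = oS x0 t s j b * s a := by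
  induction j, hj using Nat.le_induction with
  | base => rw [oS_one]; exact R.ss a b
  | succ n hn ih =>
    rw [← R.AS_self n b]
    have h1 := R.sA n hn a
    calc s a * (oA x0 x1 t n * oS x0 t s n b * oA x0 x1 t n)
        = (s a * oA x0 x1 t n) * oS x0 t s n b * oA x0 x1 t n := by group
      _ = oA x0 x1 t n * (s a * oS x0 t s n b) * oA x0 x1 t n := by rw [h1]; group
      _ = oA x0 x1 t n * oS x0 t s n b * (s a * oA x0 x1 t n) := by rw [ih]; group
      _ = _ := by rw [h1]; group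

lemma SS_one (j : ℕ) (hj : 2 ≤ j) (a b : S) :
    oS x0 t s 1 a * oS x0 t s j b = oS x0 t s j b * oS x0 t s 1 a := by
  rw [oS_one]
  have h1 := R.SS_zero j (by omega) a b
  have h2 := R.AS_zero j hj b
  calc (x0 * s a * x0) * oS x0 t s j b = x0 * s a * (x0 * oS x0 t s j b) := by group
    _ = x0 * (s a * oS x0 t s j b) * x0 := by rw [h2]; group
    _ = (x0 * oS x0 t s j b) * s a * x0 := by rw [h1]; group
    _ = _ := by rw [h2]; group

lemma SS_lt (i j : ℕ) (hij : i < j) (a b : S) :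
    oS x0 t s i a * oS x0 t s j b = oS x0 t s j b * oS x0 t s i a := by
  induction i generalizing j with
  | zero => exact R.SS_zero j (by omega) a b
  | succ i ih =>
    rcases i with _ | i
    · exact R.SS_one j (by omega) a b
    · rw [← oS_shift (i + 1) (by omega), show j = j - 1 + 1 by omega, ← oS_shift (j - 1) (by omega)]
      exact conj_rel (ih (j - 1) (by omega))

/-- Labels on distinct cones commute. -/
lemma SS_ne (i j : ℕ) (hij : i ≠ j) (a b : S) :
    oS x0 t s i a * oS x0 t s j b = oS x0 t s j b * oS x0 t s i a := by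
  rcases lt_or_gt_of_ne hij with h | h
  · exact R.SS_lt i j h a b
  · exact (R.SS_lt j i h b a).symm

omit R in
lemma oS_mul (hsq : x0 * x0 = 1) (i : ℕ) (a b : S) :
    oS x0 t s i (a * b) = oS x0 t s i a * oS x0 t s i b := by
  rcases i with _ | i
  · simp [oS]
  · simp only [oS, map_mul]
    calc t ^ i * (x0 * (s a * s b) * x0) * (t ^ i)⁻¹
        = t ^ i * (x0 * s a * (x0 * x0) * s b * x0) * (t ^ i)⁻¹ := by rw [hsq]; group
      _ = _ := by group

lemma oS_one' (i : ℕ) : oS x0 t s i (1 : S) = 1 := by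
  have := oS_mul (s := s) (t := t) R.sq0 i 1 1
  rw [mul_one] at this
  exact mul_eq_left.1 this.symm

lemma cA (n : ℕ) (a : S) : c a * oA x0 x1 t n = oA x0 x1 t n * c a := by
  rcases n with _ | n
  · exact R.cx0 a
  · induction n with
    | zero => simp only [Nat.zero_add]; rw [oA_one]; exact R.cx1 a
    | succ n ih =>
      rw [← oA_shift (n + 1) (by omega)]
      have h1 := R.ct a
      have h2 : c a * t⁻¹ = t⁻¹ * c a := by
        rw [mul_inv_eq_iff_eq_mul, mul_assoc, h1, inv_mul_cancel_left]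
      calc c a * (t * oA x0 x1 t (n + 1) * t⁻¹) = (c a * t) * oA x0 x1 t (n + 1) * t⁻¹ := by group
        _ = t * (c a * oA x0 x1 t (n + 1)) * t⁻¹ := by rw [h1]; group
        _ = t * oA x0 x1 t (n + 1) * (c a * t⁻¹) := by rw [ih]; group
        _ = _ := by rw [h2]; group

lemma cS (n : ℕ) (a b : S) :
    c a * oS x0 t s n b * (c a)⁻¹ = oS x0 t s n (a * b * a⁻¹) := by
  rcases n with _ | n
  · exact R.cs a b
  · induction n with
    | zero =>
      simp only [Nat.zero_add]
      rw [oS_one, oS_one, ← R.cs a b]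
      have h0 := R.cx0 a
      have h0' : x0 * (c a)⁻¹ = (c a)⁻¹ * x0 := by
        rw [mul_inv_eq_iff_eq_mul, mul_assoc, ← h0, inv_mul_cancel_left]
      calc c a * (x0 * s b * x0) * (c a)⁻¹ = (c a * x0) * s b * (x0 * (c a)⁻¹) := by group
        _ = _ := by rw [h0, h0']; group
    | succ n ih =>
      rw [← oS_shift (n + 1) (by omega), ← oS_shift (n + 1) (by omega), ← ih]
      have h0 := R.ct a
      have h0' : t⁻¹ * (c a)⁻¹ = (c a)⁻¹ * t⁻¹ := by
        rw [← mul_inv_rev, h0, mul_inv_rev]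
      calc c a * (t * oS x0 t s (n + 1) b * t⁻¹) * (c a)⁻¹
          = (c a * t) * oS x0 t s (n + 1) b * (t⁻¹ * (c a)⁻¹) := by group
        _ = _ := by rw [h0, h0']; group

end ORel

end OneRay

end Pool.Agent.Helper13
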