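import Pool.Agent.Helper13.VGroup
import Pool.Agent.Helper13.OneRayRel

set_option autoImplicit false

/-!
# The standard one-ray labelled Thompson group
-/

namespace Pool.Agent.Helper13

open Equiv

section Std

variable {S : Type*} [Group S]

/-- Permutations of the ray cones. -/
def hp : Perm ℕ →* Perm (Dy × S) where
  toFun p :=
    { toFun := fun x => match x with
        | ([], s) => ([], s)
        | (i :: z, s) => (p i :: z, s)
      invFun := fun x => match x with
        | ([], s) => ([], s)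
        | (i :: z, s) => (p.symm i :: z, s)
      left_inv := by
        rintro ⟨_ | ⟨i, z⟩, s⟩ <;> simp
      right_inv := by
        rintro ⟨_ | ⟨i, z⟩, s⟩ <;> simp }
  map_one' := by
    ext1 ⟨z, s⟩
    rcases z with _ | ⟨i, z⟩ <;> rfl
  map_mul' p q := by
    ext1 ⟨z, s⟩
    rcases z with _ | ⟨i, z⟩ <;> rfl

@[simp] lemma hp_nil (p : Perm ℕ) (s : S) : hp p (([], s) : Dy × S) = ([], s) := rfl
@[simp] lemma hp_cons (p : Perm ℕ) (i : ℕ) (z : Dy) (s : S) :
    hp p ((i :: z, s) : Dy × S) = (p i :: z, s) := rfl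

/-- Labels that are constant on the ray cones. -/
def lb : (ℕ → S) × S →* Perm (Dy × S) where
  toFun f :=
    { toFun := fun x => match x with
        | ([], s) => ([], f.2 * s)
        | (i :: z, s) => (i :: z, f.1 i * s)
      invFun := fun x => match x with
        | ([], s) => ([], f.2⁻¹ * s)
        | (i :: z, s) => (i :: z, (f.1 i)⁻¹ * s)
      left_inv := by
        rintro ⟨_ | ⟨i, z⟩, s⟩ <;> simp
      right_inv := by
        rintro ⟨_ | ⟨i, z⟩, s⟩ <;> simp }
  map_one' := by
    ext1 ⟨z, s⟩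
    rcases z with _ | ⟨i, z⟩ <;> simp
  map_mul' p q := by
    ext1 ⟨z, s⟩
    rcases z with _ | ⟨i, z⟩ <;> simp [mul_assoc]

@[simp] lemma lb_nil (f : (ℕ → S) × S) (s : S) : lb f (([], s) : Dy × S) = ([], f.2 * s) := rfl
@[simp] lemma lb_cons (f : (ℕ → S) × S) (i : ℕ) (z : Dy) (s : S) :
    lb f ((i :: z, s) : Dy × S) = (i :: z, f.1 i * s) := rfl

/-- The splitting of the ray cone number `n`, on points. -/
def spl (n : ℕ) : Dy → Dy
  | [] => []
  | i :: z => if i < n then i :: z else if i = n then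
      (match z with
        | [] => [n]
        | 0 :: z' => (n + 1) :: z'
        | (j + 1) :: z' => n :: j :: z')
      else (i + 1) :: z

/-- The inverse of the splitting. -/
def spi (n : ℕ) : Dy → Dy
  | [] => []
  | i :: z => if i < n then i :: z else if i = n then
      (match z with
        | [] => [n]
        | j :: z' => n :: (j + 1) :: z')
      else if i = n + 1 then n :: 0 :: z else (i - 1) :: z

lemma spi_spl (n : ℕ) (z : Dy) : spi n (spl n z) = z := by
  rcases z with _ | ⟨i, z⟩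
  · rfl
  · rcases lt_trichotomy i n with h | h | h
    · simp [spl, spi, h]
    · subst h
      rcases z with _ | ⟨_ | j, z⟩ <;> simp [spl, spi]
    · simp only [spl, spi]
      rw [if_neg (by omega), if_neg (by omega)]
      simp only
      rw [if_neg (by omega), if_neg (by omega), if_neg (by omega)]
      simp

lemma spl_spi (n : ℕ) (z : Dy) : spl n (spi n z) = z := by
  rcases z with _ | ⟨i, z⟩
  · rfl
  · rcases lt_trichotomy i n with h | h | h
    · simp [spl, spi, h]
    · subst h
      rcases z with _ | ⟨j, z⟩ <;> simp [spl, spi]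
    · by_cases h' : i = n + 1
      · subst h'
        simp [spl, spi]
      · simp only [spl, spi]
        rw [if_neg (by omega), if_neg (by omega), if_neg h']
        simp only
        rw [if_neg (by omega), if_neg (by omega)]
        congr 1
        omega

/-- The splitting of the ray cone number `n`. -/
def tsp (n : ℕ) : Perm (Dy × S) where
  toFun x := (spl n x.1, x.2)
  invFun x := (spi n x.1, x.2)
  left_inv := by
    rintro ⟨z, s⟩
    simp [spi_spl]
  right_inv := by
    rintro ⟨z, s⟩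
    simp [spl_spi]

@[simp] lemma tsp_apply (n : ℕ) (z : Dy) (s : S) : tsp n ((z, s) : Dy × S) = (spl n z, s) := rfl

/-- The label homomorphism on the ray cone `0`. -/
def sH : S →* Perm (Dy × S) where
  toFun a := lb (Pi.mulSingle 0 a, 1)
  map_one' := by
    rw [Pi.mulSingle_one]
    exact map_one lb
  map_mul' a b := by
    rw [← map_mul, Pi.mulSingle_mul]
    simp

/-- The constant labels. -/
def cH : S →* Perm (Dy × S) where
  toFun a := lb (fun _ => a, a)
  map_one' := map_one lb
  map_mul' a b := by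
    rw [← map_mul]
    rfl

@[simp] lemma sH_nil (a s : S) : sH a (([], s) : Dy × S) = ([], s) := by
  change lb _ _ = _
  simp
@[simp] lemma sH_zero (a : S) (z : Dy) (s : S) : sH a ((0 :: z, s) : Dy × S) = (0 :: z, a * s) := by
  change lb _ _ = _
  simp
@[simp] lemma sH_succ (a : S) (i : ℕ) (z : Dy) (s : S) :
    sH a (((i + 1) :: z, s) : Dy × S) = ((i + 1) :: z, s) := by
  change lb _ _ = _
  simp
@[simp] lemma cH_apply (a : S) (z : Dy) (s : S) : cH a ((z, s) : Dy × S) = (z, a * s) := by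
  change lb _ _ = _
  rcases z with _ | ⟨i, z⟩ <;> simp

lemma tsp_hp (m n : ℕ) (h : m < n) :
    (tsp m * hp (swap n (n + 1)) : Perm (Dy × S)) = hp (swap (n + 1) (n + 2)) * tsp m := by
  ext1 ⟨z, s⟩
  rcases z with _ | ⟨i, z⟩
  · rfl
  · rw [Perm.mul_apply, Perm.mul_apply, hp_cons, tsp_apply, tsp_apply]
    rcases lt_trichotomy i m with h1 | h1 | h1
    · have e1 : swap n (n + 1) i = i := swap_apply_of_ne_of_ne (by omega) (by omega)
      have e2 : swap (n + 1) (n + 2) i = i := swap_apply_of_ne_of_ne (by omega) (by omega)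
      simp [e1, spl, h1, e2]
    · subst h1
      have e1 : swap n (n + 1) i = i := swap_apply_of_ne_of_ne (by omega) (by omega)
      have e2 : swap (n + 1) (n + 2) i = i := swap_apply_of_ne_of_ne (by omega) (by omega)
      have e3 : swap (n + 1) (n + 2) (i + 1) = i + 1 :=
        swap_apply_of_ne_of_ne (by omega) (by omega)
      rcases z with _ | ⟨_ | j, z⟩ <;> simp [e1, spl, e2, e3]
    · have e1 : spl m (i :: z) = (i + 1) :: z := by
        simp only [spl]
        rw [if_neg (by omega), if_neg (by omega)]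
      rw [e1, hp_cons]
      have e2 : swap (n + 1) (n + 2) (i + 1) = swap n (n + 1) i + 1 := by
        simp only [swap_apply_def]
        split_ifs <;> omega
      have e3 : m < swap n (n + 1) i := by
        simp only [swap_apply_def]
        split_ifs <;> omega
      rw [e2]
      simp only [spl]
      rw [if_neg (by omega), if_neg (by omega)]

lemma tsp_tsp (m n : ℕ) (h : m < n) : (tsp m * tsp n : Perm (Dy × S)) = tsp (n + 1) * tsp m := by
  ext1 ⟨z, s⟩
  rcases z with _ | ⟨i, z⟩
  · rfl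
  · rw [Perm.mul_apply, Perm.mul_apply, tsp_apply, tsp_apply, tsp_apply, tsp_apply]
    congr 1
    rcases lt_trichotomy i m with h1 | h1 | h1
    · simp [spl, h1, show i < n by omega, show i < n + 1 by omega]
    · subst h1
      rcases z with _ | ⟨_ | j, z⟩ <;>
        simp [spl, h, show i < n + 1 by omega]
    · rcases lt_trichotomy i n with h2 | h2 | h2
      · simp [spl, h2, show ¬ i < m by omega, show ¬ i = m by omega]
      · subst h2
        rcases z with _ | ⟨_ | j, z⟩ <;>
          simp [spl, show ¬ i < m by omega, show ¬ i = m by omega, show ¬ i + 1 < m by omega,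
            show ¬ i + 1 = m by omega]
      · simp [spl, show ¬ i < m by omega, show ¬ i = m by omega, show ¬ i < n by omega,
          show ¬ i = n by omega, show ¬ i + 1 < m by omega, show ¬ i + 1 = m by omega]

lemma std_oA (n : ℕ) : oA (hp (swap 0 1)) (hp (swap 1 2)) (tsp 0 : Perm (Dy × S)) n =
    hp (swap n (n + 1)) := by
  rcases n with _ | n
  · rfl
  · induction n with
    | zero => rw [Nat.zero_add, oA_one]
    | succ n ih =>
      rw [← oA_shift (n + 1) (by omega), ih, tsp_hp 0 (n + 1) (by omega), mul_inv_cancel_right]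

lemma std_T0 : (hp (swap 0 1) * hp (swap 1 2) * tsp 0 * hp (swap 0 1) : Perm (Dy × S)) =
    tsp 1 := by
  ext1 ⟨z, s⟩
  rcases z with _ | ⟨_ | _ | i, _ | ⟨_ | j, z⟩⟩ <;>
    simp [spl, swap_apply_def]

lemma std_oT (n : ℕ) : oT (hp (swap 0 1)) (hp (swap 1 2)) (tsp 0 : Perm (Dy × S)) n =
    tsp (n + 1) := by
  induction n with
  | zero => exact std_T0
  | succ n ih =>
    rw [oT, ih, tsp_tsp 0 (n + 1) (by omega), mul_inv_cancel_right]

/-- The standard elements satisfy the relations. -/
theorem std_ORel : ORel (hp (swap 0 1)) (hp (swap 1 2)) (tsp 0 : Perm (Dy × S)) sH cH where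
  sq0 := by rw [← map_mul, swap_mul_self, map_one]
  sq1 := by rw [← map_mul, swap_mul_self, map_one]
  br01 := by
    ext1 ⟨z, s⟩
    rcases z with _ | ⟨_ | _ | _ | i, z⟩ <;> simp [swap_apply_def]
  br12 := by
    rw [std_oA]
    ext1 ⟨z, s⟩
    rcases z with _ | ⟨_ | _ | _ | _ | i, z⟩ <;> simp [swap_apply_def]
  c02 := by
    rw [std_oA]
    ext1 ⟨z, s⟩
    rcases z with _ | ⟨_ | _ | _ | _ | i, z⟩ <;> simp [swap_apply_def]
  c03 := by
    rw [std_oA]
    ext1 ⟨z, s⟩
    rcases z with _ | ⟨_ | _ | _ | _ | _ | i, z⟩ <;> simp [swap_apply_def]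
  c13 := by
    rw [std_oA]
    ext1 ⟨z, s⟩
    rcases z with _ | ⟨_ | _ | _ | _ | _ | i, z⟩ <;> simp [swap_apply_def]
  c14 := by
    rw [std_oA]
    ext1 ⟨z, s⟩
    rcases z with _ | ⟨_ | _ | _ | _ | _ | _ | i, z⟩ <;> simp [swap_apply_def]
  t12 := by
    rw [std_oA, std_oA, std_oT]
    exact tsp_hp 1 2 (by omega)
  t13 := by
    rw [std_oA, std_oA, std_oT]
    exact tsp_hp 1 3 (by omega)
  t2 := by
    rw [std_oA, std_oT, std_oT]
    ext1 ⟨z, s⟩
    rcases z with _ | ⟨_ | _ | _ | _ | i, _ | ⟨_ | j, z⟩⟩ <;>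
      simp [spl, swap_apply_def]
  t3 := by
    rw [std_oT, std_oT, std_oT]
    exact tsp_tsp 1 2 (by omega)
  ct2 := by
    rw [std_oT]
    ext1 ⟨z, s⟩
    rcases z with _ | ⟨_ | _ | _ | _ | i, _ | ⟨_ | j, z⟩⟩ <;>
      simp [spl, swap_apply_def]
  ct3 := by
    rw [std_oT]
    ext1 ⟨z, s⟩
    rcases z with _ | ⟨_ | _ | _ | _ | _ | i, _ | ⟨_ | j, z⟩⟩ <;>
      simp [spl, swap_apply_def, show ∀ i : ℕ, ¬ (i + 1 + 1 + 1 + 1 + 1 < 3) by omega]
  s1 := by
    intro a
    ext1 ⟨z, s⟩
    rcases z with _ | ⟨_ | _ | _ | i, z⟩ <;> simp [swap_apply_def]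
  s2 := by
    intro a
    rw [std_oA]
    ext1 ⟨z, s⟩
    rcases z with _ | ⟨_ | _ | _ | _ | i, z⟩ <;> simp [swap_apply_def]
  s3 := by
    intro a
    rw [std_oA]
    ext1 ⟨z, s⟩
    rcases z with _ | ⟨_ | _ | _ | _ | _ | i, z⟩ <;> simp [swap_apply_def]
  st2 := by
    intro a
    rw [std_oT]
    ext1 ⟨z, s⟩
    rcases z with _ | ⟨_ | _ | _ | _ | i, _ | ⟨_ | j, z⟩⟩ <;>
      simp [spl]
  ss := by
    intro a b
    ext1 ⟨z, s⟩
    rcases z with _ | ⟨_ | _ | _ | i, z⟩ <;> simp [swap_apply_def]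
  ts0 := by
    intro a
    rw [mul_inv_eq_iff_eq_mul]
    ext1 ⟨z, s⟩
    rcases z with _ | ⟨_ | _ | _ | i, _ | ⟨_ | j, z⟩⟩ <;>
      simp [spl, swap_apply_def]
  ts1 := by
    intro a
    rw [mul_inv_eq_iff_eq_mul]
    ext1 ⟨z, s⟩
    rcases z with _ | ⟨_ | _ | _ | i, _ | ⟨_ | j, z⟩⟩ <;>
      simp [spl, swap_apply_def]
  cx0 := by
    intro a
    ext1 ⟨z, s⟩
    rcases z with _ | ⟨i, z⟩ <;> simp
  cx1 := by
    intro a
    ext1 ⟨z, s⟩
    rcases z with _ | ⟨i, z⟩ <;> simp
  ct := by
    intro a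
    ext1 ⟨z, s⟩
    simp
  cs := by
    intro a b
    rw [mul_inv_eq_iff_eq_mul]
    ext1 ⟨z, s⟩
    rcases z with _ | ⟨_ | i, z⟩
    · simp only [Perm.mul_apply, cH_apply, sH_nil]
    · simp only [Perm.mul_apply, cH_apply, sH_zero, mul_assoc, inv_mul_cancel_left]
    · simp only [Perm.mul_apply, cH_apply, sH_succ]

end Std

end Pool.Agent.Helper13
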