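import Pool.Agent.Helper13.RegisterGroup

set_option autoImplicit false

/-!
# The action of the register group on registers with values in a group
-/

namespace Pool.Agent.Helper13

open Subgroup Monoid Equiv FRW

section Moves

variable {H X M Q : Type} [Group H] [MulAction H X] [Group M] [Group Q] [DecidableEq X]

/-- The elementary move on registers with values in `Q`. -/
def regMove (j : X → M →* Q) (x y : X) (m : M) : Perm (X → Q) :=
  if h : x = y then 1 else
  { toFun := fun a => Function.update a x (a y * j y m * (a y)⁻¹ * a x)
    invFun := fun a => Function.update a x (a y * j y m⁻¹ * (a y)⁻¹ * a x)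
    left_inv := by
      intro a
      simp only [Function.update_idem, Function.update_self, Function.update_of_ne (Ne.symm h)]
      have : a y * j y m⁻¹ * (a y)⁻¹ * (a y * j y m * (a y)⁻¹ * a x) = a x := by
        rw [map_inv]; group
      rw [this, Function.update_eq_self]
    right_inv := by
      intro a
      simp only [Function.update_idem, Function.update_self, Function.update_of_ne (Ne.symm h)]
      have : a y * j y m * (a y)⁻¹ * (a y * j y m⁻¹ * (a y)⁻¹ * a x) = a x := by
        rw [map_inv]; group
      rw [this, Function.update_eq_self] }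

lemma regMove_apply (j : X → M →* Q) {x y : X} (hxy : x ≠ y) (m : M) (a : X → Q) :
    regMove j x y m a = Function.update a x (a y * j y m * (a y)⁻¹ * a x) := by
  unfold regMove
  rw [dif_neg hxy]
  rfl

/-- The action of the index group on registers. -/
def regAct (θ : H → Q →* Q) (h1 : θ 1 = MonoidHom.id Q)
    (h2 : ∀ h h', θ (h * h') = (θ h).comp (θ h')) : H →* Perm (X → Q) where
  toFun h :=
    { toFun := fun a x => θ h (a (h⁻¹ • x))
      invFun := fun a x => θ h⁻¹ (a (h • x))
      left_inv := by
        intro a
        funext x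
        have := DFunLike.congr_fun (h2 h⁻¹ h) (a x)
        rw [inv_mul_cancel, h1] at this
        simp only [inv_smul_smul]
        exact this.symm
      right_inv := by
        intro a
        funext x
        have := DFunLike.congr_fun (h2 h h⁻¹) (a x)
        rw [mul_inv_cancel, h1] at this
        simp only [smul_inv_smul]
        exact this.symm }
  map_one' := by
    ext a x
    simp [h1]
  map_mul' := by
    intro h h'
    ext a x
    change θ (h * h') (a ((h * h')⁻¹ • x)) = θ h (θ h' (a (h'⁻¹ • h⁻¹ • x)))
    rw [h2, mul_inv_rev, mul_smul]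
    rfl

omit [DecidableEq X] in
lemma regAct_apply (θ : H → Q →* Q) (h1 : θ 1 = MonoidHom.id Q)
    (h2 : ∀ h h', θ (h * h') = (θ h).comp (θ h')) (h : H) (a : X → Q) (x : X) :
    regAct θ h1 h2 h a x = θ h (a (h⁻¹ • x)) := rfl

theorem regSys_act (j : X → M →* Q) (θ : H → Q →* Q) (h1 : θ 1 = MonoidHom.id Q)
    (h2 : ∀ h h', θ (h * h') = (θ h).comp (θ h'))
    (hj : ∀ h x m, θ h (j x m) = j (h • x) m) :
    RegSys (regAct θ h1 h2) (regMove j) := by
  refine ⟨⟨?_, ?_, ?_⟩, ?_, ?_⟩
  · intro x y hxy m m'
    ext1 a
    rw [Perm.mul_apply, regMove_apply j hxy, regMove_apply j hxy, regMove_apply j hxy,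
      Function.update_idem, Function.update_self, Function.update_of_ne hxy.symm]
    congr 1
    rw [map_mul]
    group
  · intro x y x' y' hxy hxy' hxx hyx hyx' m m'
    ext1 a
    rw [Perm.mul_apply, Perm.mul_apply, regMove_apply j hxy, regMove_apply j hxy',
      regMove_apply j hxy, regMove_apply j hxy', Function.update_of_ne hyx,
      Function.update_of_ne hxx, Function.update_of_ne hyx',
      Function.update_of_ne hxx.symm, Function.update_comm hxx]
  · intro x y z hxy hxz hyz a c
    ext1 w
    rw [Perm.mul_apply, Perm.mul_apply, Perm.mul_apply, Perm.mul_apply, regMove_apply j hxy,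
      regMove_apply j hxz, regMove_apply j hyz, regMove_apply j hxz, regMove_apply j hyz,
      regMove_apply j hxy]
    simp only [Function.update_self, Function.update_of_ne hxy, Function.update_of_ne hxz.symm,
      Function.update_of_ne hyz.symm, Function.update_of_ne hxy.symm, Function.update_idem]
    funext t
    by_cases htx : t = x
    · subst htx
      rw [Function.update_self, Function.update_self]
      group
    · by_cases hty : t = y
      · subst hty
        rw [Function.update_of_ne htx, Function.update_self, Function.update_of_ne htx,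
          Function.update_self]
      · rw [Function.update_of_ne htx, Function.update_of_ne hty, Function.update_of_ne htx,
          Function.update_of_ne hty, Function.update_of_ne htx]
  · intro x m
    unfold regMove
    rw [dif_pos rfl]
  · intro h x y m
    by_cases hxy : x = y
    · subst hxy
      simp [regMove]
    · have hxy' : h • x ≠ h • y := fun hh => hxy (MulAction.injective h hh)
      rw [mul_inv_eq_iff_eq_mul]
      ext1 a
      rw [Perm.mul_apply, Perm.mul_apply, regMove_apply j hxy, regMove_apply j hxy']
      funext z
      rw [regAct_apply]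
      by_cases hz : z = h • x
      · subst hz
        rw [inv_smul_smul, Function.update_self, Function.update_self, regAct_apply,
          regAct_apply, inv_smul_smul, inv_smul_smul, map_mul, map_mul, map_mul, map_inv, hj]
      · have hz' : h⁻¹ • z ≠ x := by
          rintro rfl
          exact hz (smul_inv_smul h z).symm
        rw [Function.update_of_ne hz', Function.update_of_ne hz, regAct_apply]

end Moves

section Pm

variable {H X M : Type} [Group H] [MulAction H X] [Group M]

/-- The action of the index group on the free product. -/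
def pm (h : H) : FP X M →* FP X M := CoprodI.lift (fun y => lt (h • y))

@[simp] lemma pm_lt (h : H) (y : X) (m : M) : pm h (lt y m) = lt (h • y) m := by
  unfold pm lt
  exact CoprodI.lift_of _ _

lemma FP_ext {P : Type*} [Monoid P] {f g : FP X M →* P} (h : ∀ x m, f (lt x m) = g (lt x m)) :
    f = g := by
  apply CoprodI.ext_hom
  intro x
  ext m
  exact h x m

lemma pm_one : pm (1 : H) = MonoidHom.id (FP X M) := by
  apply FP_ext
  intro x m
  simp

lemma pm_mul (h h' : H) : (pm (h * h') : FP X M →* FP X M) = (pm h).comp (pm h') := by
  apply FP_ext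
  intro x m
  simp [mul_smul]

variable {G : Type} [Group G]

/-- Evaluation of a word at a tuple of registers. -/
def ev (ι : M →* G) (a : X → G) : FP X M →* G :=
  CoprodI.lift (fun y => (MulAut.conj (a y)).toMonoidHom.comp ι)

@[simp] lemma ev_lt (ι : M →* G) (a : X → G) (y : X) (m : M) :
    ev ι a (lt y m) = a y * ι m * (a y)⁻¹ := by
  unfold ev lt
  exact CoprodI.lift_of _ _

/-- Words in the letters with index in `V`. -/
def Lv (V : Set X) : Subgroup (FP X M) := closure {u | ∃ y ∈ V, ∃ m, u = lt y m}

lemma lt_mem_Lv {V : Set X} {y : X} (hy : y ∈ V) (m : M) : lt y m ∈ Lv (M := M) V :=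
  subset_closure ⟨y, hy, m, rfl⟩

lemma Lv_mono {V W : Set X} (h : V ⊆ W) : Lv (M := M) V ≤ Lv W :=
  closure_mono (fun _ ⟨y, hy, m, e⟩ => ⟨y, h hy, m, e⟩)

lemma Lv_univ : Lv (M := M) (Set.univ : Set X) = ⊤ := by
  rw [eq_top_iff]
  intro u _
  induction u using CoprodI.induction_on with
  | one => exact one_mem _
  | of x m => exact lt_mem_Lv (Set.mem_univ x) m
  | mul u v hu hv => exact mul_mem (hu trivial) (hv trivial)

/-- left induction on words with letters in `V` -/
lemma Lv_induction {V : Set X} {p : FP X M → Prop} (one : p 1)
    (mul : ∀ y ∈ V, ∀ m, ∀ u ∈ Lv (M := M) V, p u → p (lt y m * u)) (u : FP X M) (hu : u ∈ Lv V) :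
    p u := by
  induction hu using closure_induction_left with
  | one => exact one
  | mul_left a ha b hb ih =>
    obtain ⟨y, hy, m, rfl⟩ := ha
    exact mul y hy m b hb ih
  | inv_mul_cancel a ha b hb ih =>
    obtain ⟨y, hy, m, rfl⟩ := ha
    rw [← map_inv]
    exact mul y hy m⁻¹ b hb ih

lemma Lv_finite {V : Set X} (u : FP X M) (hu : u ∈ Lv V) : ∃ F : Finset X, (F : Set X) ⊆ V ∧
    u ∈ Lv (F : Set X) := by
  classical
  refine Lv_induction (p := fun u => ∃ F : Finset X, (F : Set X) ⊆ V ∧ u ∈ Lv (F : Set X))
    ⟨∅, by simp, one_mem _⟩ ?_ u hu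
  rintro y hy m u - ⟨F, hF, hu⟩
  refine ⟨insert y F, ?_, mul_mem (lt_mem_Lv (by simp) m) (Lv_mono (by simp) hu)⟩
  intro z hz
  simp only [Finset.coe_insert, Set.mem_insert_iff] at hz
  rcases hz with rfl | hz
  · exact hy
  · exact hF hz

lemma ev_congr (ι : M →* G) {a b : X → G} {V : Set X} (h : ∀ x ∈ V, a x = b x) (u : FP X M)
    (hu : u ∈ Lv V) : ev ι a u = ev ι b u := by
  refine Lv_induction (p := fun u => ev ι a u = ev ι b u) (by simp) ?_ u hu
  intro y hy m u _ ih
  simp only [map_mul, ev_lt, ih, h y hy]

lemma pm_mem_Lv (h : H) {V : Set X} {u : FP X M} (hu : u ∈ Lv V) :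
    pm h u ∈ Lv ((fun x => h • x) '' V) := by
  refine Lv_induction (p := fun u => pm h u ∈ Lv ((fun x => h • x) '' V)) (by simp [one_mem]) ?_ u hu
  intro y hy m u _ ih
  rw [map_mul, pm_lt]
  exact mul_mem (lt_mem_Lv (Set.mem_image_of_mem _ hy) m) ih

lemma ev_pm (ι : M →* G) (h : H) (a : X → G) (u : FP X M) :
    ev ι a (pm h u) = ev ι (fun x => a (h • x)) u := by
  have : (ev ι a).comp (pm h) = ev ι (fun x => a (h • x)) := by
    apply FP_ext
    intro x m
    simp
  exact DFunLike.congr_fun this u

end Pm

section Free

variable {X M : Type} [Group M] {F : Type} [Group F]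

/-- The shift of the factors of a free product indexed by a group. -/
def shiftF (f : F) : FP F M →* FP F M := CoprodI.lift (fun g => lt (f * g))

@[simp] lemma shiftF_lt (f g : F) (m : M) : shiftF f (lt g m) = lt (f * g) m := by
  unfold shiftF lt
  exact CoprodI.lift_of _ _

/-- The shift as an action. -/
def shiftAut : F →* MulAut (FP F M) where
  toFun f :=
    { toFun := shiftF f
      invFun := shiftF f⁻¹
      left_inv := fun u => by
        have : (shiftF f⁻¹).comp (shiftF f) = MonoidHom.id (FP F M) := by
          apply FP_ext; intro x m; simp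
        exact DFunLike.congr_fun this u
      right_inv := fun u => by
        have : (shiftF f).comp (shiftF f⁻¹) = MonoidHom.id (FP F M) := by
          apply FP_ext; intro x m; simp
        exact DFunLike.congr_fun this u
      map_mul' := (shiftF f).map_mul }
  map_one' := by
    ext u
    have : (shiftF (1 : F)) = MonoidHom.id (FP F M) := by
      apply FP_ext; intro x m; simp
    exact DFunLike.congr_fun this u
  map_mul' f g := by
    ext u
    have : (shiftF (f * g)) = (shiftF f).comp (shiftF g : FP F M →* FP F M) := by
      apply FP_ext; intro x m; simp [mul_assoc]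
    exact DFunLike.congr_fun this u

lemma shiftAut_lt (f g : F) (m : M) : shiftAut f (lt g m : FP F M) = lt (f * g) m :=
  shiftF_lt f g m

/-- Conjugates of a free factor by distinct elements of the other factor are independent. -/
theorem conj_injective (e : X → F) (he : Function.Injective e) (θ : FP X M →* Coprod M F)
    (hθ : ∀ x m, θ (lt x m) = Coprod.inr (e x) * Coprod.inl m * (Coprod.inr (e x))⁻¹) :
    Function.Injective θ := by
  classical
  let Φ : Coprod M F →* FP F M ⋊[shiftAut] F :=
    Coprod.lift (SemidirectProduct.inl.comp (lt 1)) SemidirectProduct.inr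
  have h1 : ∀ u, Φ (θ u) = SemidirectProduct.inl ((CoprodI.lift (fun x => lt (e x)) :
      FP X M →* FP F M) u) := by
    intro u
    have : Φ.comp θ = SemidirectProduct.inl.comp (CoprodI.lift (fun x => lt (e x)) :
      FP X M →* FP F M) := by
      apply FP_ext
      intro x m
      have e1 : (CoprodI.lift (fun x => lt (e x)) : FP X M →* FP F M) (lt x m) = lt (e x) m := by
        unfold lt; exact CoprodI.lift_of _ _
      simp only [MonoidHom.comp_apply, hθ, map_mul, map_inv, Φ, Coprod.lift_apply_inr,
        Coprod.lift_apply_inl, e1]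
      rw [← map_inv, ← SemidirectProduct.inl_aut, shiftAut_lt, mul_one]
    exact DFunLike.congr_fun this u
  rw [injective_iff_map_eq_one]
  intro u hu
  have h2 := h1 u
  rw [hu, map_one] at h2
  have h3 := SemidirectProduct.inl_injective (h2.symm.trans (map_one _).symm)
  -- retraction
  let r : FP F M →* FP X M := CoprodI.lift (fun f =>
    if h : ∃ x, e x = f then lt h.choose else 1)
  have h4 : r.comp (CoprodI.lift (fun x => lt (e x)) : FP X M →* FP F M) = MonoidHom.id _ := by
    apply FP_ext
    intro x m
    have e1 : (CoprodI.lift (fun x => lt (e x)) : FP X M →* FP F M) (lt x m) = lt (e x) m := by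
      unfold lt; exact CoprodI.lift_of _ _
    have hx : ∃ x', e x' = e x := ⟨x, rfl⟩
    have hc : hx.choose = x := he hx.choose_spec
    have e2 : r (lt (e x) m) = (if h : ∃ x', e x' = e x then lt h.choose else 1 : M →* FP X M) m := by
      unfold lt; exact CoprodI.lift_of _ _
    rw [MonoidHom.comp_apply, e1, e2, dif_pos hx, hc]
    rfl
  have h5 := DFunLike.congr_fun h4 u
  rw [MonoidHom.comp_apply, h3, map_one] at h5
  exact h5.symm

end Free

end Pool.Agent.Helper13
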