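import Pool.Agent.Helper13.RegisterAct

set_option autoImplicit false

/-!
# Conjugation rules in the register group
-/

namespace Pool.Agent.Helper13

open Subgroup Monoid Equiv FRW

section Conj

variable {H X M K : Type} [Group H] [MulAction H X] [Group M] [Group K]
  {i : H →* K} {α : X → X → M → K}

/-- The elementary moves as homomorphisms. -/
def αh (hR : RegSys i α) (x y : X) : M →* K where
  toFun := α x y
  map_one' := by
    by_cases hxy : x = y
    · subst hxy; exact hR.diag _ _
    · exact hR.rel.one hxy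
  map_mul' m m' := by
    by_cases hxy : x = y
    · subst hxy; simp [hR.diag]
    · exact hR.rel.mul x y hxy m m'

/-- The move that multiplies the register `x` by the value of a word. -/
def Ax (hR : RegSys i α) (x : X) : FP X M →* K := CoprodI.lift (fun y => αh hR x y)

@[simp] lemma Ax_lt (hR : RegSys i α) (x y : X) (m : M) : Ax hR x (lt y m) = α x y m := by
  unfold Ax lt
  exact CoprodI.lift_of _ _

lemma conj_Ax (hR : RegSys i α) (h : H) (x : X) (u : FP X M) :
    i h * Ax hR x u * (i h)⁻¹ = Ax hR (h • x) (pm h u) := by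
  have : (MulAut.conj (i h)).toMonoidHom.comp (Ax hR x) = (Ax hR (h • x)).comp (pm h) := by
    apply FP_ext
    intro y m
    simp [hR.conj]
  exact DFunLike.congr_fun this u

/-- Moves with disjoint targets and sources commute. -/
lemma comm_Ax (hR : RegSys i α) {x z : X} (hxz : x ≠ z) {V W : Set X} (hzV : z ∉ V) (hxW : x ∉ W)
    {κ u : FP X M} (hκ : κ ∈ Lv V) (hu : u ∈ Lv W) :
    Ax hR x κ * Ax hR z u = Ax hR z u * Ax hR x κ := by
  refine Lv_induction (V := V) (p := fun κ => Ax hR x κ * Ax hR z u = Ax hR z u * Ax hR x κ)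
    (by simp) ?_ κ hκ
  intro v hv m κ' _ ih
  have h1 : Ax hR x (lt v m) * Ax hR z u = Ax hR z u * Ax hR x (lt v m) := by
    refine Lv_induction (V := W) (p := fun u => Ax hR x (lt v m) * Ax hR z u =
      Ax hR z u * Ax hR x (lt v m)) (by simp) ?_ u hu
    intro w hw m' u' _ ih'
    have h2 : Ax hR x (lt v m) * Ax hR z (lt w m') = Ax hR z (lt w m') * Ax hR x (lt v m) := by
      rw [Ax_lt, Ax_lt]
      by_cases hxv : x = v
      · subst hxv; simp [hR.diag]
      by_cases hzw : z = w
      · subst hzw; simp [hR.diag]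
      exact hR.rel.comm x v z w hxv hzw hxz (fun h => hzV (h ▸ hv)) (fun h => hxW (h ▸ hw)) m m'
    rw [map_mul (Ax hR z), ← mul_assoc, h2, mul_assoc, ih', ← mul_assoc]
  rw [map_mul (Ax hR x), mul_assoc, ih, ← mul_assoc, h1, mul_assoc]

/-- Conjugate the letters of index `y` by `u`. -/
noncomputable def sb (y : X) (u : FP X M) : FP X M →* FP X M := by
  classical
  exact CoprodI.lift (fun z => if z = y then (MulAut.conj u).toMonoidHom.comp (lt y) else lt z)

lemma sb_self (y : X) (u : FP X M) (m : M) : sb y u (lt y m) = u * lt y m * u⁻¹ := by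
  classical
  have : sb y u (lt y m) = (if y = y then (MulAut.conj u).toMonoidHom.comp (lt y) else lt y :
      M →* FP X M) m := by
    unfold sb lt
    exact CoprodI.lift_of _ _
  rw [this, if_pos rfl]
  rfl

lemma sb_ne {y z : X} (h : z ≠ y) (u : FP X M) (m : M) : sb y u (lt z m) = lt z m := by
  classical
  have : sb y u (lt z m) = (if z = y then (MulAut.conj u).toMonoidHom.comp (lt y) else lt z :
      M →* FP X M) m := by
    unfold sb lt
    exact CoprodI.lift_of _ _
  rw [this, if_neg h]

lemma sb_fix {y : X} {V : Set X} (hy : y ∉ V) (u : FP X M) {κ : FP X M} (hκ : κ ∈ Lv V) :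
    sb y u κ = κ := by
  refine Lv_induction (V := V) (p := fun κ => sb y u κ = κ) (by simp) ?_ κ hκ
  intro v hv m κ' _ ih
  have hvy : v ≠ y := fun h => hy (h ▸ hv)
  rw [map_mul, ih, sb_ne hvy]

/-- Conjugation by a move on the register `y` of a move that reads the register `y`. -/
lemma conj_sb (hR : RegSys i α) {x y : X} (hxy : x ≠ y) {u : FP X M}
    (hu : u ∈ Lv ({x, y} : Set X)ᶜ) (κ : FP X M) :
    (Ax hR y u)⁻¹ * Ax hR x κ * Ax hR y u = Ax hR x (sb y u κ) := by
  revert κ
  refine Lv_induction (V := ({x, y} : Set X)ᶜ) (p := fun u => ∀ κ,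
    (Ax hR y u)⁻¹ * Ax hR x κ * Ax hR y u = Ax hR x (sb y u κ)) ?_ ?_ u hu
  · intro κ
    have : sb y (1 : FP X M) = MonoidHom.id _ := by
      apply FP_ext
      intro z m
      by_cases hz : z = y
      · subst hz; rw [sb_self]; simp
      · rw [sb_ne hz]; rfl
    rw [this]
    simp
  · intro z hz c u' hu' ih κ
    simp only [Set.mem_compl_iff, Set.mem_insert_iff, Set.mem_singleton_iff, not_or] at hz
    have hy' : y ∉ (({x, y} : Set X)ᶜ) := by simp
    -- a single letter
    have h1 : (Ax hR y (lt z c))⁻¹ * Ax hR x κ * Ax hR y (lt z c) = Ax hR x (sb y (lt z c) κ) := by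
      have : (MulAut.conj (Ax hR y (lt z c))⁻¹).toMonoidHom.comp (Ax hR x) =
          (Ax hR x).comp (sb y (lt z c)) := by
        apply FP_ext
        intro w m
        simp only [MonoidHom.comp_apply, MulEquiv.toMonoidHom_eq_coe, MonoidHom.coe_coe,
          MulAut.conj_apply, inv_inv, Ax_lt]
        by_cases hw : w = y
        · subst hw
          rw [sb_self, map_mul, map_mul, map_inv, Ax_lt, Ax_lt]
          have e1 := hR.rel.tri x w z hxy (Ne.symm hz.1) (Ne.symm hz.2) m c
          have e2 := hR.rel.comm x z w z (Ne.symm hz.1) (Ne.symm hz.2) hxy hz.2 hz.1 c c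
          have e3 : α x w m * α w z c * α x z c = α w z c * α x z c * α x w m := by
            rw [mul_assoc, ← e2, e1]
          calc (α w z c)⁻¹ * α x w m * α w z c
              = (α w z c)⁻¹ * (α x w m * α w z c * α x z c) * (α x z c)⁻¹ := by group
            _ = _ := by rw [e3]; group
        · rw [sb_ne hw, Ax_lt]
          by_cases hxw : x = w
          · subst hxw; simp [hR.diag]
          · have e1 := hR.rel.comm x w y z hxw (Ne.symm hz.2) hxy hw hz.1 m c
            rw [mul_assoc, e1]; group
      have := DFunLike.congr_fun this κ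
      simpa using this
    have h2 : sb y (lt z c * u') κ = sb y u' (sb y (lt z c) κ) := by
      have : sb y (lt z c * u') = (sb y u').comp (sb y (lt z c)) := by
        apply FP_ext
        intro w m
        rw [MonoidHom.comp_apply]
        by_cases hw : w = y
        · subst hw
          rw [sb_self, sb_self, map_mul, map_mul, map_inv, sb_ne hz.2, sb_self]
          group
        · rw [sb_ne hw, sb_ne hw, sb_ne hw]
      rw [this]; rfl
    rw [h2, ← ih, ← h1, map_mul (Ax hR y)]
    group

end Conj

section Eval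

variable {H X M K G : Type} [Group H] [MulAction H X] [Group M] [Group K] [Group G]
  [DecidableEq X] {i : H →* K} {α : X → X → M → K}

lemma rho_Ax (hR : RegSys i α) (ι : M →* G) (ρ : K →* Perm (X → G))
    (hρ : ∀ x y, x ≠ y → ∀ m a, ρ (α x y m) a = Function.update a x (a y * ι m * (a y)⁻¹ * a x))
    (x : X) (κ : FP X M) (hκ : κ ∈ Lv ({x} : Set X)ᶜ) (a : X → G) :
    ρ (Ax hR x κ) a = Function.update a x (ev ι a κ * a x) := by
  refine Lv_induction (V := ({x} : Set X)ᶜ) (p := fun κ => ρ (Ax hR x κ) a =
    Function.update a x (ev ι a κ * a x)) (by simp) ?_ κ hκ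
  intro y hy m u _ ih
  have hy' : y ≠ x := hy
  rw [map_mul, map_mul, Perm.mul_apply, ih, Ax_lt, hρ x y hy'.symm, Function.update_idem,
    Function.update_self, Function.update_of_ne hy', map_mul, ev_lt]
  congr 1
  simp only [mul_assoc]

end Eval

end Pool.Agent.Helper13
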