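import Pool.Agent.Helper13.TypedHT
import Pool.Agent.Helper13.FRFaithful

set_option autoImplicit false

/-!
# The finitely presented register group
-/

namespace Pool.Agent.Helper13

open Subgroup

/-- The defining relations of the register group. -/
structure RegSys {H X M K : Type} [Group H] [MulAction H X] [Group M] [Group K] (i : H →* K)
    (α : X → X → M → K) : Prop where
  rel : ARel α
  diag : ∀ x m, α x x m = 1
  conj : ∀ (h : H) x y m, i h * α x y m * (i h)⁻¹ = α (h • x) (h • y) m

lemma TypedHT.finOrb {H X : Type} {n : ℕ} [Group H] [MulAction H X] {t : X → Fin n}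
    (HT : TypedHT H X (Fin n) t) (k : ℕ) : ∃ R : Set (Fin k → X), R.Finite ∧
      ∀ x : Fin k → X, ∃ r ∈ R, ∃ h : H, ∀ j, h • r j = x j := by
  classical
  have he : ∀ i : Fin n, ∃ e : ℕ → X, Function.Injective e ∧ ∀ l, t (e l) = i := by
    intro i
    let f := (HT.inf i).natEmbedding
    exact ⟨fun l => (f l : X), Subtype.val_injective.comp f.injective, fun l => (f l).2⟩
  choose e he1 he2 using he
  let V : Set X := Set.range (fun p : Fin n × Fin k => e p.1 p.2)
  refine ⟨Set.pi Set.univ (fun _ => V), Set.Finite.pi' (fun _ => Set.finite_range _) |>.subset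
    (fun f hf j => hf j trivial), fun x => ?_⟩
  let c : X → ℕ := fun z => if h : ∃ j, x j = z then (h.choose : ℕ) else 0
  have hc : ∀ j, ∃ j' : Fin k, c (x j) = j' ∧ x j' = x j := by
    intro j
    have h : ∃ j', x j' = x j := ⟨j, rfl⟩
    refine ⟨h.choose, ?_, h.choose_spec⟩
    simp only [c, dif_pos h]
  let r : Fin k → X := fun j => e (t (x j)) (c (x j))
  have hr : ∀ j j', r j = r j' → x j = x j' := by
    intro j j' h
    have h1 : t (x j) = t (x j') := by
      have := congrArg t h
      simpa [r, he2] using this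
    have h2 : c (x j) = c (x j') := by
      simp only [r] at h
      rw [h1] at h
      exact he1 _ h
    obtain ⟨l, hl, hl'⟩ := hc j
    obtain ⟨l', hm, hm'⟩ := hc j'
    have : l = l' := Fin.ext (by rw [← hl, ← hm, h2])
    rw [← hl', ← hm', this]
  let φ : X → X := fun z => if h : ∃ j, r j = z then x h.choose else z
  have hφ : ∀ j, φ (r j) = x j := by
    intro j
    have h : ∃ j', r j' = r j := ⟨j, rfl⟩
    simp only [φ, dif_pos h]
    exact hr _ _ h.choose_spec
  obtain ⟨h, hh⟩ := HT.ht (Finset.univ.image r) φ (by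
    intro y hy z hz hyz
    simp only [Finset.coe_image, Finset.coe_univ, Set.image_univ, Set.mem_range] at hy hz
    obtain ⟨j, rfl⟩ := hy
    obtain ⟨j', rfl⟩ := hz
    rw [hφ, hφ] at hyz
    simp only [r, hyz]) (by
    intro y hy
    simp only [Finset.mem_image, Finset.mem_univ, true_and] at hy
    obtain ⟨j, rfl⟩ := hy
    rw [hφ]
    simp only [r, he2])
  refine ⟨r, ?_, h, ?_⟩
  · intro j _
    obtain ⟨l, hl, -⟩ := hc j
    exact ⟨(t (x j), l), by simp only [r, hl]⟩
  · intro j
    rw [hh (r j) (by simp), hφ]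

theorem exists_register {H X M : Type} {n : ℕ} [Group H] [MulAction H X] {t : X → Fin n}
    (HT : TypedHT H X (Fin n) t) [Group M] [hM : Group.IsFinitelyPresented M] :
    ∃ (K : Type) (_ : Group K) (i : H →* K) (α : X → X → M → K),
      Group.IsFinitelyPresented K ∧ RegSys i α ∧
      closure (Set.range i ∪ {a | ∃ x y m, x ≠ y ∧ a = α x y m}) = ⊤ ∧
      ∀ (P : Type) (_ : Group P) (f : H →* P) (β : X → X → M → P), RegSys f β →
        ∃ F : K →* P, (∀ h, F (i h) = f h) ∧ ∀ x y m, F (α x y m) = β x y m := by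
  classical
  have hfp := HT.fp
  obtain ⟨W, instW, hWfp, iW, tW', hWgen, hWlift⟩ := exists_copies_extension.{0, 0, 0} H M (n * n)
  let tW : Fin n × Fin n → M →* W := fun p => tW' (finProdFinEquiv p)
  have he : ∀ i : Fin n, ∃ e : ℕ → X, Function.Injective e ∧ ∀ l, t (e l) = i := by
    intro i
    let f := (HT.inf i).natEmbedding
    exact ⟨fun l => (f l : X), Subtype.val_injective.comp f.injective, fun l => (f l).2⟩
  choose e he1 he2 using he
  let p : Fin n × Fin n → X := fun j => e j.1 0
  let q : Fin n × Fin n → X := fun j => e j.2 1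
  have hpq : ∀ j, p j ≠ q j := by
    intro j h
    have h1 : j.1 = j.2 := by
      have := congrArg t h
      simpa [p, q, he2] using this
    simp only [p, q, h1] at h
    exact absurd (he1 _ h) (by simp)
  have htr : ∀ x y : X, x ≠ y → ∃ h : H, h • p (t x, t y) = x ∧ h • q (t x, t y) = y := by
    intro x y hxy
    obtain ⟨h, hh⟩ := HT.ht {p (t x, t y), q (t x, t y)}
      (fun z => if z = p (t x, t y) then x else y) (by
        intro a ha b hb hab
        simp only [Finset.coe_insert, Finset.coe_singleton, Set.mem_insert_iff,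
          Set.mem_singleton_iff] at ha hb
        rcases ha with rfl | rfl <;> rcases hb with rfl | rfl
        · rfl
        · simp [(hpq _).symm] at hab; exact absurd hab hxy
        · simp [(hpq _).symm] at hab; exact absurd hab.symm hxy
        · rfl) (by
        intro a ha
        simp only [Finset.mem_insert, Finset.mem_singleton] at ha
        rcases ha with rfl | rfl
        · simp [p, he2]
        · simp [(hpq _).symm]; simp [q, he2])
    refine ⟨h, ?_, ?_⟩
    · have := hh (p (t x, t y)) (by simp)
      simpa using this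
    · have := hh (q (t x, t y)) (by simp)
      simpa [(hpq _).symm] using this
  choose! tr htr1 htr2 using htr
  have hstab := fun j : Fin n × Fin n => HT.stab {p j, q j}
  choose S hS using hstab
  obtain ⟨T, hT⟩ := (fg_of_fp M).out
  obtain ⟨R3, hR3, hR3'⟩ := HT.finOrb 3
  obtain ⟨R4, hR4, hR4'⟩ := HT.finOrb 4
  let aW : X → X → M → W := fun x y m =>
    if x = y then 1 else iW (tr x y) * tW (t x, t y) m * (iW (tr x y))⁻¹
  have haW : ∀ x y, x ≠ y → ∀ m, aW x y m = iW (tr x y) * tW (t x, t y) m * (iW (tr x y))⁻¹ := by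
    intro x y hxy m
    simp only [aW, if_neg hxy]
  let cm : W → W → W := fun a b => a * b * (b * a)⁻¹
  let Q1 : Set W := ⋃ j : Fin n × Fin n, (fun s : H × M => cm (iW s.1) (tW j s.2)) ''
    ((S j : Set H) ×ˢ (T : Set M))
  let Q2 : Set W := (fun s : (Fin 4 → X) × M × M =>
    cm (aW (s.1 0) (s.1 1) s.2.1) (aW (s.1 2) (s.1 3) s.2.2)) ''
    ((R4 ∩ {r | r 0 ≠ r 1 ∧ r 2 ≠ r 3 ∧ r 0 ≠ r 2 ∧ r 1 ≠ r 2 ∧ r 3 ≠ r 0}) ×ˢ
      ((T : Set M) ×ˢ (T : Set M)))
  let Q3 : Set W := (fun s : (Fin 3 → X) × M × M =>
    cm (aW (s.1 0) (s.1 1) s.2.1) (aW (s.1 0) (s.1 2) s.2.2 * aW (s.1 1) (s.1 2) s.2.2)) ''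
    ((R3 ∩ {r | r 0 ≠ r 1 ∧ r 0 ≠ r 2 ∧ r 1 ≠ r 2}) ×ˢ
      ((T : Set M) ×ˢ (T : Set M)))
  let R : Set W := Q1 ∪ Q2 ∪ Q3
  have hRfin : R.Finite := by
    refine Set.Finite.union (Set.Finite.union ?_ ?_) ?_
    · exact Set.finite_iUnion (fun j => ((S j).finite_toSet.prod T.finite_toSet).image _)
    · exact ((hR4.inter_of_left _).prod (T.finite_toSet.prod T.finite_toSet)).image _
    · exact ((hR3.inter_of_left _).prod (T.finite_toSet.prod T.finite_toSet)).image _
  let N : Subgroup W := normalClosure R
  let π : W →* W ⧸ N := QuotientGroup.mk' N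
  have hker : ∀ r ∈ R, π r = 1 := fun r hr =>
    (QuotientGroup.eq_one_iff r).2 (subset_normalClosure hr)
  have hfpK : Group.IsFinitelyPresented (W ⧸ N) :=
    Group.IsFinitelyPresented.quotient N ⟨R, hRfin, rfl⟩
  have hcm : ∀ a b, cm a b ∈ R → π a * π b = π b * π a := by
    intro a b hab
    have := hker _ hab
    simp only [cm, map_mul, map_inv] at this
    exact mul_inv_eq_one.1 this
  let i : H →* W ⧸ N := π.comp iW
  let α : X → X → M → W ⧸ N := fun x y m => π (aW x y m)
  have hα : ∀ x y, x ≠ y → ∀ m, α x y m = i (tr x y) * π (tW (t x, t y) m) * (i (tr x y))⁻¹ := by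
    intro x y hxy m
    simp only [α, haW x y hxy, map_mul, map_inv, i, MonoidHom.comp_apply]
  -- stabilizers commute with the copies
  have hcomm : ∀ j, ∀ s : H, s • p j = p j → s • q j = q j → ∀ m,
      i s * π (tW j m) = π (tW j m) * i s := by
    intro j s hs1 hs2 m
    have hm : m ∈ closure (T : Set M) := by rw [hT]; trivial
    have hle : closure (T : Set M) ≤ (centralizer {i s}).comap (π.comp (tW j)) := by
      rw [closure_le]
      intro m hm
      have hs : s ∈ closure (S j : Set H) := by
        rw [hS]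
        simp only [Subgroup.mem_iInf, Finset.mem_insert, Finset.mem_singleton,
          MulAction.mem_stabilizer_iff]
        rintro x (rfl | rfl)
        · exact hs1
        · exact hs2
      have hle' : closure (S j : Set H) ≤ (centralizer {π (tW j m)}).comap i := by
        rw [closure_le]
        intro s hs
        change i s ∈ centralizer {π (tW j m)}
        rw [mem_centralizer_singleton_iff]
        exact hcm _ _ (Or.inl (Or.inl (Set.mem_iUnion.2 ⟨j, ⟨(s, m), ⟨hs, hm⟩, rfl⟩⟩)))
      have := hle' hs
      rw [mem_comap, mem_centralizer_singleton_iff] at this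
      change π (tW j m) ∈ centralizer {i s}
      rw [mem_centralizer_singleton_iff]
      exact this.symm
    have := hle hm
    rw [mem_comap, mem_centralizer_singleton_iff] at this
    exact this.symm
  have hconj : ∀ (h : H) x y m, i h * α x y m * (i h)⁻¹ = α (h • x) (h • y) m := by
    intro h x y m
    by_cases hxy : x = y
    · subst hxy
      simp [α, aW]
    · have hxy' : h • x ≠ h • y := fun hh => hxy (MulAction.injective h hh)
      rw [hα x y hxy, hα _ _ hxy', HT.typ, HT.typ]
      set j := (t x, t y) with hj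
      have e1 := htr1 (h • x) (h • y) hxy'
      have e2 := htr2 (h • x) (h • y) hxy'
      rw [HT.typ, HT.typ, ← hj] at e1 e2
      have hc := hcomm j ((tr (h • x) (h • y))⁻¹ * h * tr x y) (by
        rw [mul_smul, mul_smul, htr1 x y hxy, inv_smul_eq_iff]
        exact e1.symm) (by
        rw [mul_smul, mul_smul, htr2 x y hxy, inv_smul_eq_iff]
        exact e2.symm) m
      simp only [map_mul, map_inv] at hc
      calc i h * (i (tr x y) * π (tW j m) * (i (tr x y))⁻¹) * (i h)⁻¹
          = i (tr (h • x) (h • y)) * (((i (tr (h • x) (h • y)))⁻¹ * i h * i (tr x y)) *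
              π (tW j m)) * (i (tr x y))⁻¹ * (i h)⁻¹ := by group
        _ = _ := by rw [hc]; group
  have hαhom : ∀ x y, x ≠ y → ∀ m m', α x y (m * m') = α x y m * α x y m' := by
    intro x y hxy m m'
    rw [hα x y hxy, hα x y hxy, hα x y hxy, map_mul, map_mul]
    group
  let αh : ∀ x y, x ≠ y → M →* W ⧸ N := fun x y hxy =>
    { toFun := α x y
      map_one' := by
        have := hαhom x y hxy 1 1
        rw [mul_one] at this
        exact (mul_eq_left.1 this.symm)
      map_mul' := hαhom x y hxy }
  -- commuting of homs from commuting of generators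
  have gen2 : ∀ (f g : M →* W ⧸ N), (∀ m ∈ T, ∀ m' ∈ T, f m * g m' = g m' * f m) →
      ∀ m m', f m * g m' = g m' * f m := by
    intro f g hfg
    have h1 : ∀ m' ∈ T, ∀ m, f m * g m' = g m' * f m := by
      intro m' hm' m
      have hm : m ∈ closure (T : Set M) := by rw [hT]; trivial
      have hle : closure (T : Set M) ≤ (centralizer {g m'}).comap f := by
        rw [closure_le]
        intro m hm
        change f m ∈ centralizer {g m'}
        rw [mem_centralizer_singleton_iff]
        exact hfg m hm m' hm'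
      have := hle hm
      rw [mem_comap, mem_centralizer_singleton_iff] at this
      exact this
    intro m m'
    have hm : m' ∈ closure (T : Set M) := by rw [hT]; trivial
    have hle : closure (T : Set M) ≤ (centralizer {f m}).comap g := by
      rw [closure_le]
      intro m' hm'
      change g m' ∈ centralizer {f m}
      rw [mem_centralizer_singleton_iff]
      exact (h1 m' hm' m).symm
    have := hle hm
    rw [mem_comap, mem_centralizer_singleton_iff] at this
    exact this.symm
  have hcommα : ∀ x y x' y', x ≠ y → x' ≠ y' → x ≠ x' → y ≠ x' → y' ≠ x → ∀ m m',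
      α x y m * α x' y' m' = α x' y' m' * α x y m := by
    intro x y x' y' hxy hxy' h1 h2 h3
    have := gen2 (αh x y hxy) (αh x' y' hxy') (by
      intro m hm m' hm'
      obtain ⟨r, hr, h, hh⟩ := hR4' ![x, y, x', y']
      have e0 : h • r 0 = x := hh 0
      have e1 : h • r 1 = y := hh 1
      have e2 : h • r 2 = x' := hh 2
      have e3 : h • r 3 = y' := hh 3
      have := hcm (aW (r 0) (r 1) m) (aW (r 2) (r 3) m') (Or.inl (Or.inr
        ⟨(r, m, m'), ⟨⟨hr, by
          rintro h'; apply hxy; rw [← e0, ← e1]; exact congrArg (h • ·) h', by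
          rintro h'; apply hxy'; rw [← e2, ← e3]; exact congrArg (h • ·) h', by
          rintro h'; apply h1; rw [← e0, ← e2]; exact congrArg (h • ·) h', by
          rintro h'; apply h2; rw [← e1, ← e2]; exact congrArg (h • ·) h', by
          rintro h'; apply h3; rw [← e3, ← e0]; exact congrArg (h • ·) h'⟩, hm, hm'⟩, rfl⟩))
      change α x y m * α x' y' m' = α x' y' m' * α x y m
      rw [← e0, ← e1, ← e2, ← e3, ← hconj, ← hconj]
      calc i h * α (r 0) (r 1) m * (i h)⁻¹ * (i h * α (r 2) (r 3) m' * (i h)⁻¹)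
          = i h * (α (r 0) (r 1) m * α (r 2) (r 3) m') * (i h)⁻¹ := by group
        _ = i h * (α (r 2) (r 3) m' * α (r 0) (r 1) m) * (i h)⁻¹ := by
            simp only [α]; rw [this]
        _ = _ := by group)
    exact this
  have htri : ∀ x y z, x ≠ y → x ≠ z → y ≠ z → ∀ a c,
      α x y a * (α x z c * α y z c) = (α x z c * α y z c) * α x y a := by
    intro x y z hxy hxz hyz
    have hcc : ∀ m m', α y z m * α x z m' = α x z m' * α y z m :=
      hcommα y z x z hyz hxz hxy.symm hxz.symm hyz.symm
    let g : M →* W ⧸ N :=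
      { toFun := fun c => α x z c * α y z c
        map_one' := by
          change αh x z hxz 1 * αh y z hyz 1 = 1
          rw [map_one, map_one, mul_one]
        map_mul' := by
          intro c c'
          change α x z (c * c') * α y z (c * c') = α x z c * α y z c * (α x z c' * α y z c')
          rw [hαhom x z hxz, hαhom y z hyz]
          calc α x z c * α x z c' * (α y z c * α y z c')
              = α x z c * (α x z c' * α y z c) * α y z c' := by group
            _ = α x z c * (α y z c * α x z c') * α y z c' := by rw [hcc]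
            _ = _ := by group }
    have := gen2 (αh x y hxy) g (by
      intro a ha c hc
      obtain ⟨r, hr, h, hh⟩ := hR3' ![x, y, z]
      have e0 : h • r 0 = x := hh 0
      have e1 : h • r 1 = y := hh 1
      have e2 : h • r 2 = z := hh 2
      have := hcm (aW (r 0) (r 1) a) (aW (r 0) (r 2) c * aW (r 1) (r 2) c) (Or.inr
        ⟨(r, a, c), ⟨⟨hr, by
          rintro h'; apply hxy; rw [← e0, ← e1]; exact congrArg (h • ·) h', by
          rintro h'; apply hxz; rw [← e0, ← e2]; exact congrArg (h • ·) h', by
          rintro h'; apply hyz; rw [← e1, ← e2]; exact congrArg (h • ·) h'⟩, ha, hc⟩, rfl⟩)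
      change α x y a * (α x z c * α y z c) = (α x z c * α y z c) * α x y a
      rw [map_mul] at this
      rw [← e0, ← e1, ← e2, ← hconj, ← hconj, ← hconj]
      calc i h * α (r 0) (r 1) a * (i h)⁻¹ * (i h * α (r 0) (r 2) c * (i h)⁻¹ *
            (i h * α (r 1) (r 2) c * (i h)⁻¹))
          = i h * (α (r 0) (r 1) a * (α (r 0) (r 2) c * α (r 1) (r 2) c)) * (i h)⁻¹ := by group
        _ = i h * ((α (r 0) (r 2) c * α (r 1) (r 2) c) * α (r 0) (r 1) a) * (i h)⁻¹ := by
            simp only [α]; rw [this]
        _ = _ := by group)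
    exact this
  have hgen : closure (Set.range i ∪ {a | ∃ x y m, x ≠ y ∧ a = α x y m}) = ⊤ := by
    rw [eq_top_iff]
    have hW : (⊤ : Subgroup W) ≤
        (closure (Set.range i ∪ {a | ∃ x y m, x ≠ y ∧ a = α x y m})).comap π := by
      rw [← hWgen, closure_le]
      rintro _ (⟨g, rfl⟩ | hm)
      · exact subset_closure (Or.inl ⟨g, rfl⟩)
      · obtain ⟨j', m, rfl⟩ := Set.mem_iUnion.1 hm
        obtain ⟨j, rfl⟩ := finProdFinEquiv.surjective j'
        have hne := hpq j
        have htp : (t (p j), t (q j)) = j := by simp [p, q, he2]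
        have : π (tW j m) = (i (tr (p j) (q j)))⁻¹ * α (p j) (q j) m * i (tr (p j) (q j)) := by
          rw [hα _ _ hne, htp]; group
        change π (tW j m) ∈ closure (Set.range i ∪ {a | ∃ x y m, x ≠ y ∧ a = α x y m})
        rw [this]
        exact mul_mem (mul_mem (inv_mem (subset_closure (Or.inl ⟨_, rfl⟩)))
          (subset_closure (Or.inr ⟨_, _, _, hne, rfl⟩))) (subset_closure (Or.inl ⟨_, rfl⟩))
    intro γ _
    obtain ⟨w, rfl⟩ := QuotientGroup.mk'_surjective N γ
    exact hW trivial
  refine ⟨W ⧸ N, inferInstance, i, α, hfpK, ⟨⟨hαhom, hcommα, htri⟩, ?_, hconj⟩, hgen, ?_⟩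
  · intro x m
    simp [α, aW]
  · intro P _ f β hβ
    obtain ⟨F, hF1, hF2⟩ := hWlift P inferInstance f (fun j' =>
      { toFun := fun m => β (p (finProdFinEquiv.symm j')) (q (finProdFinEquiv.symm j')) m
        map_one' := hβ.rel.one (hpq _)
        map_mul' := hβ.rel.mul _ _ (hpq _) })
    have hF2' : ∀ j m, F (tW j m) = β (p j) (q j) m := by
      intro j m
      have := hF2 (finProdFinEquiv j) m
      simp only [MonoidHom.coe_mk, OneHom.coe_mk, Equiv.symm_apply_apply] at this
      exact this
    have hFa : ∀ x y m, F (aW x y m) = β x y m := by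
      intro x y m
      by_cases hxy : x = y
      · subst hxy
        simp [aW, hβ.diag]
      · rw [haW x y hxy, map_mul, map_mul, map_inv, hF1, hF2', hβ.conj, htr1 x y hxy,
          htr2 x y hxy]
    have hcF : ∀ a b, F a * F b = F b * F a → F (cm a b) = 1 := by
      intro a b hab
      simp only [cm, map_mul, map_inv]
      rw [hab, mul_inv_cancel]
    have hRF : ∀ r ∈ R, F r = 1 := by
      rintro r ((hr | hr) | hr)
      · obtain ⟨j, ⟨s, m⟩, ⟨hs, hm⟩, rfl⟩ := Set.mem_iUnion.1 hr
        apply hcF
        have hs' : s ∈ closure (S j : Set H) := subset_closure hs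
        rw [hS] at hs'
        simp only [Subgroup.mem_iInf, Finset.mem_insert, Finset.mem_singleton,
          MulAction.mem_stabilizer_iff] at hs'
        have hc := hβ.conj s (p j) (q j) m
        rw [hs' (p j) (Or.inl rfl), hs' (q j) (Or.inr rfl)] at hc
        rw [hF1, hF2']
        exact mul_inv_eq_iff_eq_mul.1 hc
      · obtain ⟨⟨r, m, m'⟩, ⟨⟨-, h1, h2, h3, h4, h5⟩, -⟩, rfl⟩ := hr
        apply hcF
        rw [hFa, hFa]
        exact hβ.rel.comm _ _ _ _ h1 h2 h3 h4 h5 _ _
      · obtain ⟨⟨r, a, c⟩, ⟨⟨-, h1, h2, h3⟩, -⟩, rfl⟩ := hr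
        apply hcF
        rw [map_mul, hFa, hFa, hFa]
        exact hβ.rel.tri _ _ _ h1 h2 h3 _ _
    have hNle : N ≤ F.ker := normalClosure_le_normal (fun r hr => hRF r hr)
    refine ⟨QuotientGroup.lift N F hNle, ?_, ?_⟩
    · intro h
      exact hF1 h
    · intro x y m
      exact hFa x y m

end Pool.Agent.Helper13
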