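import Pool.Agent.Helper13.RegisterStab

set_option autoImplicit false

/-!
# Orbits of pairs of register tuples
-/

namespace Pool.Agent.Helper13

open Subgroup Monoid Equiv FRW

section Pairs

variable {H X M K G : Type} {n : ℕ} [Group H] [MulAction H X] [Group M] [Group K] [Group G]
  [DecidableEq X] {i : H →* K} {α : X → X → M → K} {t : X → Fin n}

/-- The subgroup of pairs of values of words. -/
def Rp (ι : M →* G) (a a' : X → G) : Subgroup (G × G) := ((ev ι a).prod (ev ι a')).range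

/-- The associated subgroup. -/
def Np (ι : M →* G) (a a' : X → G) : Subgroup G := (Rp ι a a').comap (MonoidHom.inr G G)

omit [DecidableEq X] in
lemma mem_Np {ι : M →* G} {a a' : X → G} {g : G} : g ∈ Np ι a a' ↔ (1, g) ∈ Rp ι a a' := Iff.rfl

omit [DecidableEq X] in
lemma diag_mem (HT : TypedHT H X (Fin n) t) (ι : M →* G) (s : Fin n → G)
    (hs : Function.Surjective (ev ι s)) {a a' : X → G} {D : Finset X}
    (ha : ∀ x, x ∉ D → a x = s (t x)) (ha' : ∀ x, x ∉ D → a' x = s (t x)) (g : G) :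
    (g, g) ∈ Rp ι a a' := by
  classical
  choose f hf1 hf2 using HT.fresh D
  obtain ⟨w, rfl⟩ := hs g
  refine ⟨frm f w, ?_⟩
  have h1 : (ev ι a).comp (frm f) = ev ι s := by
    apply FP_ext
    intro j m
    simp [ha _ (hf1 j), hf2]
  have h2 : (ev ι a').comp (frm f) = ev ι s := by
    apply FP_ext
    intro j m
    simp [ha' _ (hf1 j), hf2]
  rw [MonoidHom.prod_apply]
  exact Prod.ext (DFunLike.congr_fun h1 w) (DFunLike.congr_fun h2 w)

omit [DecidableEq X] in
lemma mem_Rp_iff {ι : M →* G} {a a' : X → G} (hd : ∀ g, (g, g) ∈ Rp ι a a') (g g' : G) :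
    (g, g') ∈ Rp ι a a' ↔ g⁻¹ * g' ∈ Np ι a a' := by
  rw [mem_Np]
  constructor
  · intro h
    have := mul_mem (inv_mem (hd g)) h
    simpa using this
  · intro h
    have := mul_mem (hd g) h
    simpa using this

omit [DecidableEq X] in
lemma Np_normal {ι : M →* G} {a a' : X → G} (hd : ∀ g, (g, g) ∈ Rp ι a a') :
    (Np ι a a').Normal := by
  refine ⟨fun k hk g => ?_⟩
  rw [mem_Np] at hk ⊢
  have := mul_mem (mul_mem (hd g) hk) (inv_mem (hd g))
  simpa using this

omit [DecidableEq X] in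
/-- The values of the registers themselves. -/
lemma val_mem (ι : M →* G)
    (hcent : ∀ N : Subgroup G, N.Normal → N ≠ ⊤ → ∀ g, (∀ m, g * ι m * g⁻¹ * (ι m)⁻¹ ∈ N) → g ∈ N)
    {a a' : X → G} (hd : ∀ g, (g, g) ∈ Rp ι a a') (x : X) : (a x, a' x) ∈ Rp ι a a' := by
  rw [mem_Rp_iff hd]
  have hN := Np_normal hd
  by_cases htop : Np ι a a' = ⊤
  · rw [htop]; trivial
  apply hcent _ hN htop
  intro m
  have h1 : (a x * ι m * (a x)⁻¹, a' x * ι m * (a' x)⁻¹) ∈ Rp ι a a' :=
    ⟨lt x m, by rw [MonoidHom.prod_apply, ev_lt, ev_lt]⟩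
  rw [mem_Rp_iff hd] at h1
  have h2 := hN.conj_mem _ h1 ((ι m) * (a x)⁻¹)
  have e : (ι m) * (a x)⁻¹ * ((a x * ι m * (a x)⁻¹)⁻¹ * (a' x * ι m * (a' x)⁻¹)) *
      ((ι m) * (a x)⁻¹)⁻¹ = (a x)⁻¹ * a' x * ι m * ((a x)⁻¹ * a' x)⁻¹ * (ι m)⁻¹ := by group
  rwa [e] at h2

omit [DecidableEq X] in
lemma Rp_le_act (ι : M →* G) (a a' : X → G) (h : H) :
    Rp ι (fun x => a (h • x)) (fun x => a' (h • x)) ≤ Rp ι a a' := by
  rintro _ ⟨u, rfl⟩
  refine ⟨pm h u, ?_⟩
  rw [MonoidHom.prod_apply, MonoidHom.prod_apply, ev_pm, ev_pm]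

omit [DecidableEq X] in
lemma Np_act (ι : M →* G) (a a' : X → G) (h : H) :
    Np ι (fun x => a (h • x)) (fun x => a' (h • x)) = Np ι a a' := by
  have h1 := Rp_le_act ι a a' h
  have h2 := Rp_le_act ι (fun x => a (h • x)) (fun x => a' (h • x)) h⁻¹
  simp only [smul_inv_smul] at h2
  unfold Np
  rw [le_antisymm h1 h2]

/-- From one pair of tuples to the join with another one with disjoint support. -/
lemma exists_join (HT : TypedHT H X (Fin n) t) (hR : RegSys i α) (ι : M →* G)
    (ρ : K →* Perm (X → G))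
    (hρ : ∀ x y, x ≠ y → ∀ m a, ρ (α x y m) a = Function.update a x (a y * ι m * (a y)⁻¹ * a x))
    (hcent : ∀ N : Subgroup G, N.Normal → N ≠ ⊤ → ∀ g, (∀ m, g * ι m * g⁻¹ * (ι m)⁻¹ ∈ N) → g ∈ N)
    (s : Fin n → G) (hs : Function.Surjective (ev ι s))
    {a a' c c' : X → G} {D D' : Finset X} (hDD : Disjoint D D')
    (ha : ∀ x, x ∉ D → a x = s (t x)) (ha' : ∀ x, x ∉ D → a' x = s (t x))
    (hc : ∀ x, x ∉ D' → c x = s (t x)) (hc' : ∀ x, x ∉ D' → c' x = s (t x))
    (hN : Np ι a a' = Np ι c c') :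
    ∃ k, ρ k a = (fun x => if x ∈ D' then c x else a x) ∧
      ρ k a' = (fun x => if x ∈ D' then c' x else a' x) := by
  classical
  have hda := diag_mem HT ι s hs ha ha'
  have hdc := diag_mem HT ι s hs hc hc'
  -- the words
  have hw : ∀ x ∈ D', ∃ u ∈ Lv (M := M) ((D' : Set X)ᶜ), ev ι a u = c x * (s (t x))⁻¹ ∧
      ev ι a' u = c' x * (s (t x))⁻¹ := by
    intro x hx
    have h1 : (c x * (s (t x))⁻¹, c' x * (s (t x))⁻¹) ∈ Rp ι c c' := by
      have := mul_mem (val_mem ι hcent hdc x) (inv_mem (hdc (s (t x))))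
      simpa using this
    rw [mem_Rp_iff hdc, ← hN, ← mem_Rp_iff hda] at h1
    obtain ⟨u, hu⟩ := h1
    rw [MonoidHom.prod_apply, Prod.mk.injEq] at hu
    choose f hf1 hf2 using HT.fresh (D ∪ D')
    simp only [Finset.mem_union, not_or] at hf1
    let cc : X → X := fun z => if z ∈ D' then f (t z) else z
    let σ : FP X M →* FP X M := CoprodI.lift (fun z => lt (cc z))
    have hσ : ∀ z m, σ (lt z m) = lt (cc z) m := by
      intro z m
      unfold lt
      exact CoprodI.lift_of _ _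
    have hcc : ∀ z, cc z ∉ D' := by
      intro z
      simp only [cc]
      split_ifs with hz
      · exact (hf1 _).2
      · exact hz
    have hcca : ∀ e : X → G, (∀ x, x ∉ D → e x = s (t x)) → ∀ z, e (cc z) = e z := by
      intro e he z
      simp only [cc]
      split_ifs with hz
      · rw [he _ (hf1 _).1, hf2, he z (fun h => Finset.disjoint_left.1 hDD h hz)]
      · rfl
    have hev : ∀ e : X → G, (∀ x, x ∉ D → e x = s (t x)) → ev ι e (σ u) = ev ι e u := by
      intro e he
      have : (ev ι e).comp σ = ev ι e := by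
        apply FP_ext
        intro x m
        rw [MonoidHom.comp_apply, hσ, ev_lt, ev_lt, hcca e he]
      rw [← MonoidHom.comp_apply, this]
    refine ⟨σ u, ?_, ?_, ?_⟩
    · refine Lv_induction (V := Set.univ) (p := fun u => σ u ∈ Lv ((D' : Set X)ᶜ))
        (by simp [one_mem]) ?_ u (by rw [Lv_univ]; trivial)
      intro y _ m u _ ih
      rw [map_mul, hσ]
      exact mul_mem (lt_mem_Lv (hcc _) m) ih
    · rw [hev a ha, hu.1]
    · rw [hev a' ha', hu.2]
  choose! u hu1 hu2 hu3 using hw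
  have key : ∀ S : Finset X, S ⊆ D' → ∃ k, ρ k a = (fun x => if x ∈ S then c x else a x) ∧
      ρ k a' = (fun x => if x ∈ S then c' x else a' x) := by
    intro S
    induction S using Finset.induction_on with
    | empty =>
      intro _
      exact ⟨1, by simp, by simp⟩
    | insert x S hxS ih =>
      intro hS
      have hxD' : x ∈ D' := hS (Finset.mem_insert_self _ _)
      obtain ⟨k, hk1, hk2⟩ := ih ((Finset.subset_insert _ _).trans hS)
      have hux : u x ∈ Lv ({x} : Set X)ᶜ := Lv_mono (by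
        intro w hw
        simp only [Set.mem_compl_iff, Set.mem_singleton_iff]
        rintro rfl
        exact hw hxD') (hu1 x hxD')
      have hxD : x ∉ D := fun h => Finset.disjoint_left.1 hDD h hxD'
      have aux : ∀ e d : X → G, (∀ x, x ∉ D → e x = s (t x)) →
          ev ι e (u x) = d x * (s (t x))⁻¹ →
          ρ (Ax hR x (u x)) (fun z => if z ∈ S then d z else e z) =
            (fun z => if z ∈ insert x S then d z else e z) := by
        intro e d he hed
        rw [rho_Ax hR ι ρ hρ x (u x) hux]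
        have h1 : ev ι (fun z => if z ∈ S then d z else e z) (u x) = ev ι e (u x) := by
          apply ev_congr ι (V := ((D' : Set X)ᶜ)) _ _ (hu1 x hxD')
          intro w hw
          have : w ∉ S := fun h => hw (hS (Finset.mem_insert_of_mem h))
          simp only [if_neg this]
        rw [h1, hed, if_neg hxS, he x hxD, inv_mul_cancel_right]
        funext z
        by_cases hz : z = x
        · subst hz
          rw [Function.update_self, if_pos (Finset.mem_insert_self _ _)]
        · rw [Function.update_of_ne hz]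
          simp only [Finset.mem_insert, hz, false_or]
      refine ⟨Ax hR x (u x) * k, ?_, ?_⟩
      · rw [map_mul, Perm.mul_apply, hk1]
        exact aux a c ha (hu2 x hxD')
      · rw [map_mul, Perm.mul_apply, hk2]
        exact aux a' c' ha' (hu3 x hxD')
  exact key D' subset_rfl

/-- Tuples with the same invariant are in the same orbit. -/
theorem same_orbit (HT : TypedHT H X (Fin n) t) (hR : RegSys i α) (ι : M →* G)
    (ρ : K →* Perm (X → G))
    (hρ : ∀ x y, x ≠ y → ∀ m a, ρ (α x y m) a = Function.update a x (a y * ι m * (a y)⁻¹ * a x))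
    (hρi : ∀ h a x, ρ (i h) a x = a (h⁻¹ • x))
    (hcent : ∀ N : Subgroup G, N.Normal → N ≠ ⊤ → ∀ g, (∀ m, g * ι m * g⁻¹ * (ι m)⁻¹ ∈ N) → g ∈ N)
    (s : Fin n → G) (hs : Function.Surjective (ev ι s)) {a a' c c' : X → G}
    (ha : {x | a x ≠ s (t x)}.Finite) (ha' : {x | a' x ≠ s (t x)}.Finite)
    (hc : {x | c x ≠ s (t x)}.Finite) (hc' : {x | c' x ≠ s (t x)}.Finite)
    (hN : Np ι a a' = Np ι c c') : ∃ k, ρ k a = c ∧ ρ k a' = c' := by
  classical
  let D : Finset X := ha.toFinset ∪ ha'.toFinset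
  let D' : Finset X := hc.toFinset ∪ hc'.toFinset
  have hD : (∀ x, x ∉ D → a x = s (t x)) ∧ (∀ x, x ∉ D → a' x = s (t x)) := by
    constructor
    · intro x hx
      by_contra h
      exact hx (Finset.mem_union_left _ (ha.mem_toFinset.2 h))
    · intro x hx
      by_contra h
      exact hx (Finset.mem_union_right _ (ha'.mem_toFinset.2 h))
  have hD' : (∀ x, x ∉ D' → c x = s (t x)) ∧ (∀ x, x ∉ D' → c' x = s (t x)) := by
    constructor
    · intro x hx
      by_contra h
      exact hx (Finset.mem_union_left _ (hc.mem_toFinset.2 h))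
    · intro x hx
      by_contra h
      exact hx (Finset.mem_union_right _ (hc'.mem_toFinset.2 h))
  -- move the second support away
  have hinf : ∀ j, (t ⁻¹' {j} \ (D : Set X)).Infinite := fun j =>
    (HT.inf j).sdiff D.finite_toSet
  obtain ⟨h, hh⟩ : ∃ h : H, ∀ x ∈ D', h • x ∉ D := by
    let e0 : ∀ j, ℕ ↪ (t ⁻¹' {j} \ (D : Set X) : Set X) := fun j =>
      Set.Infinite.natEmbedding _ (hinf j)
    let e : ∀ j, ℕ → X := fun j l => (e0 j l : X)
    have he : ∀ j l, t (e j l) = j ∧ e j l ∉ D := fun j l =>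
      ⟨(e0 j l).2.1, (e0 j l).2.2⟩
    let φ : X → X := fun x => if hx : x ∈ D' then e (t x) (D'.equivFin ⟨x, hx⟩) else x
    obtain ⟨h, hh⟩ := HT.ht D' φ (by
      intro x hx y hy hxy
      have hx' : x ∈ D' := hx
      have hy' : y ∈ D' := hy
      simp only [φ, dif_pos hx', dif_pos hy'] at hxy
      have h1 : t x = t y := by
        have := congrArg t hxy
        rwa [(he _ _).1, (he _ _).1] at this
      rw [h1] at hxy
      have h2 := (e0 (t y)).injective (Subtype.ext hxy)
      have h3 := D'.equivFin.injective (Fin.ext h2)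
      exact congrArg Subtype.val h3) (by
      intro x hx
      simp only [φ, dif_pos hx, (he _ _).1])
    refine ⟨h, fun x hx => ?_⟩
    rw [hh x hx]
    simp only [φ, dif_pos hx]
    exact (he _ _).2
  let c₁ : X → G := fun x => c (h⁻¹ • x)
  let c₁' : X → G := fun x => c' (h⁻¹ • x)
  let D₁ : Finset X := D'.image (fun x => h • x)
  have hmem : ∀ x, x ∉ D₁ → h⁻¹ • x ∉ D' := by
    intro x hx hcon
    apply hx
    exact Finset.mem_image.2 ⟨h⁻¹ • x, hcon, smul_inv_smul h x⟩
  have hc₁ : ∀ x, x ∉ D₁ → c₁ x = s (t x) := by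
    intro x hx
    have := hD'.1 _ (hmem x hx)
    rwa [HT.typ] at this
  have hc₁' : ∀ x, x ∉ D₁ → c₁' x = s (t x) := by
    intro x hx
    have := hD'.2 _ (hmem x hx)
    rwa [HT.typ] at this
  have hdisj : Disjoint D D₁ := by
    rw [Finset.disjoint_right]
    intro x hx hxD
    obtain ⟨y, hy, rfl⟩ := Finset.mem_image.1 hx
    exact hh y hy hxD
  have hN₁ : Np ι c₁ c₁' = Np ι c c' := Np_act ι c c' h⁻¹
  obtain ⟨k1, hk1, hk1'⟩ := exists_join HT hR ι ρ hρ hcent s hs hdisj hD.1 hD.2 hc₁ hc₁'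
    (hN.trans hN₁.symm)
  obtain ⟨k2, hk2, hk2'⟩ := exists_join HT hR ι ρ hρ hcent s hs hdisj.symm hc₁ hc₁' hD.1 hD.2
    (hN.trans hN₁.symm).symm
  have e1 : ρ (i h) c = c₁ := by funext x; rw [hρi]
  have e2 : ρ (i h) c' = c₁' := by funext x; rw [hρi]
  have j1 : (fun x => if x ∈ D₁ then c₁ x else a x) = (fun x => if x ∈ D then a x else c₁ x) := by
    funext x
    by_cases h1 : x ∈ D₁
    · have h2 : x ∉ D := Finset.disjoint_right.1 hdisj h1
      rw [if_pos h1, if_neg h2]
    · by_cases h2 : x ∈ D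
      · rw [if_neg h1, if_pos h2]
      · rw [if_neg h1, if_neg h2, hD.1 x h2, hc₁ x h1]
  have j2 : (fun x => if x ∈ D₁ then c₁' x else a' x) =
      (fun x => if x ∈ D then a' x else c₁' x) := by
    funext x
    by_cases h1 : x ∈ D₁
    · have h2 : x ∉ D := Finset.disjoint_right.1 hdisj h1
      rw [if_pos h1, if_neg h2]
    · by_cases h2 : x ∈ D
      · rw [if_neg h1, if_pos h2]
      · rw [if_neg h1, if_neg h2, hD.2 x h2, hc₁' x h1]
  refine ⟨(i h)⁻¹ * k2⁻¹ * k1, ?_, ?_⟩
  · rw [map_mul, map_mul, map_inv, map_inv, Perm.mul_apply, Perm.mul_apply, hk1, j1, ← hk2]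
    rw [Perm.inv_eq_iff_eq, Perm.inv_eq_iff_eq, e1]
  · rw [map_mul, map_mul, map_inv, map_inv, Perm.mul_apply, Perm.mul_apply, hk1', j2, ← hk2']
    rw [Perm.inv_eq_iff_eq, Perm.inv_eq_iff_eq, e2]

end Pairs

end Pool.Agent.Helper13
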