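import Pool.Agent.Helper13.RegisterConj

set_option autoImplicit false

/-!
# The stabilizer of the base register tuple
-/

namespace Pool.Agent.Helper13

open Subgroup Monoid Equiv FRW

lemma TypedHT.fresh {H X I : Type} [Group H] [MulAction H X] {t : X → I} (HT : TypedHT H X I t)
    (F : Finset X) (j : I) : ∃ y, y ∉ F ∧ t y = j := by
  obtain ⟨y, hy, hyF⟩ := (HT.inf j).exists_notMem_finset F
  exact ⟨y, hyF, hy⟩

section Gen

variable {H X M K G : Type} {n : ℕ} [Group H] [MulAction H X] [Group M] [Group K] [Group G]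
  {i : H →* K} {α : X → X → M → K} {t : X → Fin n}

/-- The closure trick. -/
lemma closure_trick (hR : RegSys i α) (L : Subgroup K) {x y y' : X} (hxy : x ≠ y) (hy'x : y' ≠ x)
    (hy'y : y' ≠ y) {κ : FP X M} (hκ : κ ∈ Lv ({x, y} : Set X)ᶜ) (h1 : Ax hR x κ ∈ L)
    (h2 : Ax hR y κ ∈ L) (m : M) (h3 : Ax hR x (lt y m * (lt y' m)⁻¹) ∈ L) :
    Ax hR x (lt y m * κ * (lt y m)⁻¹) ∈ L := by
  have e1 := conj_sb hR hxy hκ (lt y m * (lt y' m)⁻¹)
  rw [map_mul (sb y κ), map_inv, sb_self, sb_ne hy'y] at e1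
  have e2 : Ax hR x (κ * lt y m * κ⁻¹ * (lt y' m)⁻¹) ∈ L := by
    rw [← e1]
    exact mul_mem (mul_mem (inv_mem h2) h3) h2
  have e3 : lt y m * κ * (lt y m)⁻¹ =
      (κ⁻¹ * (κ * lt y m * κ⁻¹ * (lt y' m)⁻¹) * (lt y m * (lt y' m)⁻¹)⁻¹)⁻¹ := by group
  rw [e3, map_inv, map_mul, map_mul, map_inv, map_inv]
  exact inv_mem (mul_mem (mul_mem (inv_mem h1) e2) (inv_mem h3))

/-- Differences of letters of the same type. -/
lemma diff_mem (HT : TypedHT H X (Fin n) t) (hR : RegSys i α) (L : Subgroup K) (T : Set M)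
    (hT : closure T = ⊤) (hTinv : ∀ m ∈ T, m⁻¹ ∈ T)
    (hδ : ∀ x y y', x ≠ y → x ≠ y' → y ≠ y' → t y = t y' → ∀ m ∈ T,
      Ax hR x (lt y m * (lt y' m)⁻¹) ∈ L) (m : M) :
    ∀ x y y', x ≠ y → x ≠ y' → y ≠ y' → t y = t y' → Ax hR x (lt y m * (lt y' m)⁻¹) ∈ L := by
  classical
  have step : ∀ a ∈ T, ∀ b : M, (∀ x y y', x ≠ y → x ≠ y' → y ≠ y' → t y = t y' →
      Ax hR x (lt y b * (lt y' b)⁻¹) ∈ L) → ∀ x y y', x ≠ y → x ≠ y' → y ≠ y' → t y = t y' →
      Ax hR x (lt y (a * b) * (lt y' (a * b))⁻¹) ∈ L := by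
    intro a ha b ih x y y' hxy hxy' hyy ht
    obtain ⟨y2, hy2, ht2⟩ := HT.fresh {x, y, y'} (t y)
    obtain ⟨y3, hy3, ht3⟩ := HT.fresh {x, y, y', y2} (t y)
    simp only [Finset.mem_insert, Finset.mem_singleton, not_or] at hy2 hy3
    set κ := lt y b * (lt y' b)⁻¹ with hκ
    have hκm : κ ∈ Lv ({x, y2} : Set X)ᶜ := by
      refine mul_mem (lt_mem_Lv ?_ _) (inv_mem (lt_mem_Lv ?_ _))
      · simp only [Set.mem_compl_iff, Set.mem_insert_iff, Set.mem_singleton_iff, not_or]
        exact ⟨hxy.symm, Ne.symm hy2.2.1⟩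
      · simp only [Set.mem_compl_iff, Set.mem_insert_iff, Set.mem_singleton_iff, not_or]
        exact ⟨hxy'.symm, Ne.symm hy2.2.2⟩
    have h1 := closure_trick hR L (x := x) (y := y2) (y' := y3) (Ne.symm hy2.1) hy3.1 hy3.2.2.2 hκm
      (ih x y y' hxy hxy' hyy ht) (ih y2 y y' hy2.2.1 hy2.2.2 hyy ht) a
      (hδ x y2 y3 (Ne.symm hy2.1) (Ne.symm hy3.1) (Ne.symm hy3.2.2.2) (ht2.trans ht3.symm) a ha)
    have h2 := hδ x y y2 hxy (Ne.symm hy2.1) (Ne.symm hy2.2.1) ht2.symm a ha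
    have h3 := hδ x y y' hxy hxy' hyy ht a ha
    have e : lt y (a * b) * (lt y' (a * b))⁻¹ =
        (lt y a * (lt y2 a)⁻¹) * (lt y2 a * κ * (lt y2 a)⁻¹) * (lt y a * (lt y2 a)⁻¹)⁻¹ *
          (lt y a * (lt y' a)⁻¹) := by
      rw [hκ, map_mul, map_mul]; group
    rw [e, map_mul, map_mul, map_mul, map_inv]
    exact mul_mem (mul_mem (mul_mem h2 h1) (inv_mem h2)) h3
  have hm : m ∈ closure T := by rw [hT]; trivial
  induction hm using closure_induction_left with
  | one =>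
    intro x y y' _ _ _ _
    simp [one_mem]
  | mul_left a ha b _ ih => exact step a ha b ih
  | inv_mul_cancel a ha b _ ih => exact step a⁻¹ (hTinv a ha) b ih

/-- Evaluation of words in types. -/
def frm (f : Fin n → X) : FP (Fin n) M →* FP X M := CoprodI.lift (fun j => lt (f j))

@[simp] lemma frm_lt (f : Fin n → X) (j : Fin n) (m : M) : frm f (lt j m) = lt (f j) m := by
  unfold frm lt
  exact CoprodI.lift_of _ _

/-- Replace every register by its type. -/
def toTyp (t : X → Fin n) : FP X M →* FP (Fin n) M := CoprodI.lift (fun y => lt (t y))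

@[simp] lemma toTyp_lt (t : X → Fin n) (y : X) (m : M) : toTyp t (lt y m) = lt (t y) m := by
  unfold toTyp lt
  exact CoprodI.lift_of _ _

/-- **Generation.** -/
theorem rel_mem (HT : TypedHT H X (Fin n) t) (hR : RegSys i α) (L : Subgroup K) (T : Set M)
    (hT : closure T = ⊤) (hTinv : ∀ m ∈ T, m⁻¹ ∈ T)
    (hδ : ∀ x y y', x ≠ y → x ≠ y' → y ≠ y' → t y = t y' → ∀ m ∈ T,
      Ax hR x (lt y m * (lt y' m)⁻¹) ∈ L)
    (ι : M →* G) (s : Fin n → G) (R : Set (FP (Fin n) M))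
    (hRk : normalClosure R = (ev ι s).ker)
    (hr : ∀ (x : X) (f : Fin n → X), (∀ j, t (f j) = j) → (∀ j, f j ≠ x) → ∀ r ∈ R,
      Ax hR x (frm f r) ∈ L)
    (x : X) (κ : FP X M) (hκ : κ ∈ Lv ({x} : Set X)ᶜ) (hev : ev ι (fun y => s (t y)) κ = 1) :
    Ax hR x κ ∈ L := by
  classical
  have hδ' := diff_mem HT hR L T hT hTinv hδ
  choose f hf1 hf2 using HT.fresh {x}
  simp only [Finset.mem_singleton] at hf1
  obtain ⟨F, hF, hκF⟩ := Lv_finite κ hκ
  let V : Finset X := F ∪ Finset.univ.image f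
  have hxV : x ∉ V := by
    simp only [V, Finset.mem_union, Finset.mem_image, Finset.mem_univ, true_and, not_or,
      not_exists]
    refine ⟨fun h => ?_, hf1⟩
    have := hF h
    simp at this
  have hfV : ∀ j, f j ∈ V := fun j => by simp [V]
  -- the good words
  let Γ : Subgroup (FP X M) :=
    { carrier := {κ | κ ∈ Lv (V : Set X) ∧ ∀ x, x ∉ V → Ax hR x κ ∈ L}
      one_mem' := ⟨one_mem _, fun x _ => by rw [map_one]; exact one_mem _⟩
      mul_mem' := fun ha hb => ⟨mul_mem ha.1 hb.1, fun x hx => by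
        rw [map_mul]; exact mul_mem (ha.2 x hx) (hb.2 x hx)⟩
      inv_mem' := fun ha => ⟨inv_mem ha.1, fun x hx => by
        rw [map_inv]; exact inv_mem (ha.2 x hx)⟩ }
  have hΓ : ∀ κ, κ ∈ Γ ↔ κ ∈ Lv (V : Set X) ∧ ∀ x, x ∉ V → Ax hR x κ ∈ L := fun κ => Iff.rfl
  -- differences are good
  have hΓδ : ∀ y ∈ V, ∀ y' ∈ V, t y = t y' → ∀ m, lt y m * (lt y' m)⁻¹ ∈ Γ := by
    intro y hy y' hy' ht m
    refine ⟨mul_mem (lt_mem_Lv hy m) (inv_mem (lt_mem_Lv hy' m)), fun z hz => ?_⟩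
    by_cases hyy : y = y'
    · subst hyy
      rw [mul_inv_cancel, map_one]
      exact one_mem _
    · exact hδ' m z y y' (fun h => hz (h ▸ hy)) (fun h => hz (h ▸ hy')) hyy ht
  -- stability under conjugation by letters
  have hΓlt : ∀ y ∈ V, ∀ m, ∀ κ ∈ Γ, lt y m * κ * (lt y m)⁻¹ ∈ Γ := by
    intro y hy m κ hκ
    refine ⟨mul_mem (mul_mem (lt_mem_Lv hy m) hκ.1) (inv_mem (lt_mem_Lv hy m)), fun z hz => ?_⟩
    obtain ⟨y2, hy2, ht2⟩ := HT.fresh (insert z V) (t y)
    obtain ⟨y3, hy3, ht3⟩ := HT.fresh (insert y2 (insert z V)) (t y)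
    simp only [Finset.mem_insert, not_or] at hy2 hy3
    have hzy : z ≠ y := fun h => hz (h ▸ hy)
    have hy2y : y ≠ y2 := fun h => hy2.2 (h ▸ hy)
    have h1 := closure_trick hR L (x := z) (y := y2) (y' := y3) (κ := κ) (Ne.symm hy2.1) hy3.2.1
      hy3.1 (Lv_mono (by
        intro v hv
        simp only [Set.mem_compl_iff, Set.mem_insert_iff, Set.mem_singleton_iff, not_or]
        exact ⟨fun h => hz (h ▸ hv), fun h => hy2.2 (h ▸ hv)⟩) hκ.1) (hκ.2 z hz)
        (hκ.2 y2 hy2.2) m (hδ' m z y2 y3 (Ne.symm hy2.1) (Ne.symm hy3.2.1) (Ne.symm hy3.1)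
          (ht2.trans ht3.symm))
    have h2 := hδ' m z y y2 hzy (Ne.symm hy2.1) hy2y ht2.symm
    have e : lt y m * κ * (lt y m)⁻¹ = (lt y m * (lt y2 m)⁻¹) * (lt y2 m * κ * (lt y2 m)⁻¹) *
        (lt y m * (lt y2 m)⁻¹)⁻¹ := by group
    rw [e, map_mul, map_mul, map_inv]
    exact mul_mem (mul_mem h2 h1) (inv_mem h2)
  have hΓconj : ∀ w ∈ Lv (V : Set X), ∀ κ ∈ Γ, w * κ * w⁻¹ ∈ Γ := by
    intro w hw
    refine Lv_induction (V := (V : Set X)) (p := fun w => ∀ κ ∈ Γ, w * κ * w⁻¹ ∈ Γ) ?_ ?_ w hw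
    · intro κ hκ; simpa using hκ
    · intro y hy m u _ ih κ hκ
      have e : lt y m * u * κ * (lt y m * u)⁻¹ = lt y m * (u * κ * u⁻¹) * (lt y m)⁻¹ := by group
      rw [e]
      exact hΓlt y hy m _ (ih κ hκ)
  -- comparison with the frame
  have hψ : ∀ w ∈ Lv (V : Set X), w * (frm f (toTyp t w))⁻¹ ∈ Γ := by
    intro w hw
    refine Lv_induction (V := (V : Set X)) (p := fun w => w * (frm f (toTyp t w))⁻¹ ∈ Γ)
      (by simp [one_mem]) ?_ w hw
    intro y hy m u _ ih
    have e : lt y m * u * (frm f (toTyp t (lt y m * u)))⁻¹ =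
        (lt y m * (u * (frm f (toTyp t u))⁻¹) * (lt y m)⁻¹) *
          (lt y m * (lt (f (t y)) m)⁻¹) := by
      rw [map_mul, map_mul, toTyp_lt, frm_lt]; group
    rw [e]
    exact mul_mem (hΓlt y hy m _ ih) (hΓδ y hy _ (hfV _) (hf2 _).symm m)
  have hfrm : ∀ g : FP (Fin n) M, frm f g ∈ Lv (V : Set X) := by
    intro g
    refine Lv_induction (V := Set.univ) (p := fun g => frm f g ∈ Lv (V : Set X))
      (by simp [one_mem]) ?_ g (by rw [Lv_univ]; trivial)
    intro j _ m u _ ih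
    rw [map_mul, frm_lt]
    exact mul_mem (lt_mem_Lv (hfV j) m) ih
  have hnorm : (Γ.comap (frm f)).Normal := by
    refine ⟨fun κ hκ g => ?_⟩
    rw [Subgroup.mem_comap] at hκ ⊢
    rw [map_mul, map_mul, map_inv]
    exact hΓconj _ (hfrm g) _ hκ
  have hker : (ev ι s).ker ≤ Γ.comap (frm f) := by
    rw [← hRk]
    apply normalClosure_le_normal
    intro r hr'
    refine ⟨hfrm r, fun z hz => hr z f hf2 (fun j h => hz (h ▸ hfV j)) r hr'⟩
  have h1 : toTyp t κ ∈ (ev ι s).ker := by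
    have : (ev ι s).comp (toTyp t) = ev ι (fun y => s (t y)) := by
      apply FP_ext
      intro y m
      simp
    rw [MonoidHom.mem_ker, ← hev, ← this]
    rfl
  have h2 : frm f (toTyp t κ) ∈ Γ := hker h1
  have hκV : κ ∈ Lv (V : Set X) := Lv_mono (by simp [V]) hκF
  have h3 := mul_mem (hψ κ hκV) h2
  rw [inv_mul_cancel_right] at h3
  exact h3.2 x hxV

end Gen

section Section

variable {H X M K G : Type} {n : ℕ} [Group H] [MulAction H X] [Group M] [Group K] [Group G]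
  [DecidableEq X] {i : H →* K} {α : X → X → M → K} {t : X → Fin n}

/-- The subgroup generated by the moves with targets in `D` and sources in `W`. -/
def UD (hR : RegSys i α) (D : Finset X) (W : Set X) : Subgroup K :=
  closure {k | ∃ z ∈ D, ∃ v ∈ Lv (M := M) W, k = Ax hR z v}

omit [DecidableEq X] in
lemma UD_mem (hR : RegSys i α) {D : Finset X} {W : Set X} {z : X} (hz : z ∈ D) {v : FP X M}
    (hv : v ∈ Lv W) : Ax hR z v ∈ UD hR D W := subset_closure ⟨z, hz, v, hv, rfl⟩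

omit [DecidableEq X] in
lemma UD_mono (hR : RegSys i α) {D D' : Finset X} {W W' : Set X} (hD : D ⊆ D') (hW : W ⊆ W') :
    UD hR D W ≤ UD hR D' W' :=
  closure_mono (fun _ ⟨z, hz, v, hv, e⟩ => ⟨z, hD hz, v, Lv_mono hW hv, e⟩)

omit [DecidableEq X] in
lemma UD_induction (hR : RegSys i α) {D : Finset X} {W : Set X} {p : K → Prop} (one : p 1)
    (mul : ∀ z ∈ D, ∀ v ∈ Lv (M := M) W, ∀ k ∈ UD hR D W, p k → p (Ax hR z v * k)) (k : K)
    (hk : k ∈ UD hR D W) : p k := by
  induction hk using closure_induction_left with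
  | one => exact one
  | mul_left a ha b hb ih =>
    obtain ⟨z, hz, v, hv, rfl⟩ := ha
    exact mul z hz v hv b hb ih
  | inv_mul_cancel a ha b hb ih =>
    obtain ⟨z, hz, v, hv, rfl⟩ := ha
    rw [← map_inv]
    exact mul z hz v⁻¹ (inv_mem hv) b hb ih

omit [DecidableEq X] in
lemma UD_comm (hR : RegSys i α) {D : Finset X} {V W : Set X} {x : X} (hxD : x ∉ D)
    (hVD : ∀ z ∈ D, z ∉ V) (hxW : x ∉ W) {κ : FP X M} (hκ : κ ∈ Lv V) (k : K)
    (hk : k ∈ UD hR D W) : Ax hR x κ * k = k * Ax hR x κ := by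
  refine UD_induction hR (p := fun k => Ax hR x κ * k = k * Ax hR x κ) (by simp) ?_ k hk
  intro z hz v hv k' _ ih
  have hxz : x ≠ z := fun h => hxD (h ▸ hz)
  rw [← mul_assoc, comm_Ax hR hxz (hVD z hz) hxW hκ hv, mul_assoc, ih, mul_assoc]

lemma UD_insert (hR : RegSys i α) {D : Finset X} {W : Set X} {x : X} (hxD : x ∉ D)
    (hDW : ∀ z ∈ D, z ∉ W) (hxW : x ∉ W) (k : K) (hk : k ∈ UD hR (insert x D) W) :
    ∃ u ∈ Lv (M := M) W, ∃ k' ∈ UD hR D W, k = Ax hR x u * k' := by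
  refine UD_induction hR (p := fun k => ∃ u ∈ Lv (M := M) W, ∃ k' ∈ UD hR D W,
    k = Ax hR x u * k') ⟨1, one_mem _, 1, one_mem _, by simp⟩ ?_ k hk
  rintro z hz v hv _ - ⟨u, hu, k', hk', rfl⟩
  rcases Finset.mem_insert.1 hz with rfl | hz
  · exact ⟨v * u, mul_mem hv hu, k', hk', by rw [map_mul, mul_assoc]⟩
  · refine ⟨u, hu, Ax hR z v * k', mul_mem (UD_mem hR hz hv) hk', ?_⟩
    rw [← mul_assoc, ← mul_assoc, comm_Ax hR (x := z) (z := x) (fun h => hxD (h ▸ hz)) hxW
      (hDW z hz) hv hu]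

lemma UD_eval (hR : RegSys i α) (ι : M →* G) (ρ : K →* Perm (X → G))
    (hρ : ∀ x y, x ≠ y → ∀ m a, ρ (α x y m) a = Function.update a x (a y * ι m * (a y)⁻¹ * a x))
    {D : Finset X} {W : Set X} (hDW : ∀ z ∈ D, z ∉ W) (k : K)
    (hk : k ∈ UD hR D W) (a : X → G) (x : X) (hx : x ∉ D) : ρ k a x = a x := by
  refine UD_induction hR (p := fun k => ρ k a x = a x) (by simp) ?_ k hk
  intro z hz v hv k' _ ih
  have hxz : x ≠ z := fun h => hx (h ▸ hz)
  rw [map_mul, Perm.mul_apply, rho_Ax hR ι ρ hρ z v (Lv_mono (by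
    intro w hw
    simp only [Set.mem_compl_iff, Set.mem_singleton_iff]
    rintro rfl
    exact hDW _ hz hw) hv), Function.update_of_ne hxz, ih]

/-- An element supported on finitely many registers that fixes the base lies in `L`. -/
lemma UD_stab (hR : RegSys i α) (ι : M →* G) (ρ : K →* Perm (X → G))
    (hρ : ∀ x y, x ≠ y → ∀ m a, ρ (α x y m) a = Function.update a x (a y * ι m * (a y)⁻¹ * a x))
    (b : X → G) (L : Subgroup K)
    (hL : ∀ x (κ : FP X M), κ ∈ Lv ({x} : Set X)ᶜ → ev ι b κ = 1 → Ax hR x κ ∈ L)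
    (W : Set X) (D : Finset X) (hDW : ∀ z ∈ D, z ∉ W) :
    ∀ k ∈ UD hR D W, ρ k b = b → k ∈ L := by
  induction D using Finset.induction_on with
  | empty =>
    intro k hk _
    have : UD hR (∅ : Finset X) W = ⊥ := by
      unfold UD
      rw [← Subgroup.closure_empty]
      congr 1
      ext k
      simp
    rw [this, Subgroup.mem_bot] at hk
    rw [hk]
    exact one_mem _
  | insert x D hxD ih =>
    intro k hk hkb
    have hxW : x ∉ W := hDW x (Finset.mem_insert_self _ _)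
    have hDW' : ∀ z ∈ D, z ∉ W := fun z hz => hDW z (Finset.mem_insert_of_mem hz)
    obtain ⟨u, hu, k', hk', rfl⟩ := UD_insert hR hxD hDW' hxW k hk
    have hux : u ∈ Lv ({x} : Set X)ᶜ := Lv_mono (by
      intro w hw
      simp only [Set.mem_compl_iff, Set.mem_singleton_iff]
      rintro rfl
      exact hxW hw) hu
    have e1 : ρ k' b x = b x := UD_eval hR ι ρ hρ hDW' k' hk' b x hxD
    have e2 : ev ι (ρ k' b) u = ev ι b u := by
      apply ev_congr ι (V := W) _ u hu
      intro w hw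
      exact UD_eval hR ι ρ hρ hDW' k' hk' b w (fun h => hDW' w h hw)
    have e3 : ev ι b u = 1 := by
      have := congrFun hkb x
      rw [map_mul, Perm.mul_apply, rho_Ax hR ι ρ hρ x u hux, Function.update_self, e1, e2] at this
      exact mul_eq_right.1 this
    have hAu : Ax hR x u ∈ L := hL x u hux e3
    have e4 : ρ k' b = b := by
      rw [map_mul, Perm.mul_apply, rho_Ax hR ι ρ hρ x u hux, e2, e3, one_mul] at hkb
      rwa [Function.update_eq_self] at hkb
    exact mul_mem hAu (ih hDW' k' hk' e4)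

/-- Change of the source registers. -/
lemma UD_change (hR : RegSys i α) (ι : M →* G) (b : X → G) (L : Subgroup K)
    (hL : ∀ x (κ : FP X M), κ ∈ Lv ({x} : Set X)ᶜ → ev ι b κ = 1 → Ax hR x κ ∈ L)
    {W W' : Set X} (hWW : W' ⊆ W) (hsub : ∀ u ∈ Lv (M := M) W, ∃ u' ∈ Lv W', ev ι b u = ev ι b u')
    (D : Finset X) (hDW : ∀ z ∈ D, z ∉ W) :
    ∀ k ∈ UD hR D W, ∃ k' ∈ UD hR D W', ∃ l ∈ L, k = k' * l := by
  induction D using Finset.induction_on with
  | empty =>
    intro k hk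
    have : UD hR (∅ : Finset X) W = ⊥ := by
      unfold UD
      rw [← Subgroup.closure_empty]
      congr 1
      ext k
      simp
    rw [this, Subgroup.mem_bot] at hk
    exact ⟨1, one_mem _, 1, one_mem _, by rw [hk, mul_one]⟩
  | insert x D hxD ih =>
    intro k hk
    have hxW : x ∉ W := hDW x (Finset.mem_insert_self _ _)
    have hDW' : ∀ z ∈ D, z ∉ W := fun z hz => hDW z (Finset.mem_insert_of_mem hz)
    obtain ⟨u, hu, k', hk', rfl⟩ := UD_insert hR hxD hDW' hxW k hk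
    obtain ⟨k2, hk2, l, hl, rfl⟩ := ih hDW' k' hk'
    obtain ⟨u', hu', hev⟩ := hsub u hu
    have hκW : u'⁻¹ * u ∈ Lv W := mul_mem (inv_mem (Lv_mono hWW hu')) hu
    have hAκ : Ax hR x (u'⁻¹ * u) ∈ L := by
      apply hL x
      · exact Lv_mono (by
          intro w hw
          simp only [Set.mem_compl_iff, Set.mem_singleton_iff]
          rintro rfl
          exact hxW hw) hκW
      · rw [map_mul, map_inv, hev, inv_mul_cancel]
    refine ⟨Ax hR x u' * k2, mul_mem (UD_mem hR (Finset.mem_insert_self _ _) hu')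
      (UD_mono hR (Finset.subset_insert _ _) subset_rfl hk2), Ax hR x (u'⁻¹ * u) * l,
      mul_mem hAκ hl, ?_⟩
    have hc := UD_comm hR hxD hDW' (fun h => hxW (hWW h)) hκW k2 hk2
    have e : Ax hR x u = Ax hR x u' * Ax hR x (u'⁻¹ * u) := by
      rw [← map_mul, mul_inv_cancel_left]
    calc Ax hR x u * (k2 * l) = Ax hR x u' * (Ax hR x (u'⁻¹ * u) * k2) * l := by
          rw [e]; group
      _ = _ := by rw [hc]; group

/-- Replace letters in a finite set by fresh letters of the same type. -/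
lemma exists_fresh_word (HT : TypedHT H X (Fin n) t) (ι : M →* G) (b : X → G)
    (hb : ∀ x y, t x = t y → b x = b y) (D' : Finset X) (u : FP X M) :
    ∃ u' ∈ Lv (M := M) ((D' : Set X)ᶜ), ev ι b u = ev ι b u' := by
  classical
  choose f hf1 hf2 using HT.fresh D'
  let c : X → X := fun z => f (t z)
  let σ : FP X M →* FP X M := CoprodI.lift (fun z => lt (c z))
  have hσ : ∀ z m, σ (lt z m) = lt (c z) m := by
    intro z m
    unfold lt
    exact CoprodI.lift_of _ _
  refine ⟨σ u, ?_, ?_⟩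
  · refine Lv_induction (V := Set.univ) (p := fun u => σ u ∈ Lv ((D' : Set X)ᶜ))
      (by simp [one_mem]) ?_ u (by rw [Lv_univ]; trivial)
    intro y _ m u _ ih
    rw [map_mul, hσ]
    exact mul_mem (lt_mem_Lv (hf1 _) m) ih
  · have : (ev ι b).comp σ = ev ι b := by
      apply FP_ext
      intro x m
      rw [MonoidHom.comp_apply, hσ, ev_lt, ev_lt, hb (c x) x (hf2 _)]
    rw [← MonoidHom.comp_apply, this]

/-- **The section argument.** -/
theorem stab_le (HT : TypedHT H X (Fin n) t) (hR : RegSys i α)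
    (hgen : closure (Set.range i ∪ {a | ∃ x y m, x ≠ y ∧ a = α x y m}) = ⊤) (ι : M →* G)
    (ρ : K →* Perm (X → G))
    (hρ : ∀ x y, x ≠ y → ∀ m a, ρ (α x y m) a = Function.update a x (a y * ι m * (a y)⁻¹ * a x))
    (b : X → G) (hb : ∀ x y, t x = t y → b x = b y) (L : Subgroup K) (hLi : ∀ h, i h ∈ L)
    (hLs : ∀ l ∈ L, ρ l b = b)
    (hL : ∀ x (κ : FP X M), κ ∈ Lv ({x} : Set X)ᶜ → ev ι b κ = 1 → Ax hR x κ ∈ L)
    (k : K) (hk : ρ k b = b) : k ∈ L := by
  classical
  -- every element has a section form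
  have sec : ∃ D : Finset X, ∃ k1 ∈ UD hR D ((D : Set X)ᶜ), ∃ l ∈ L, k = k1 * l := by
    clear hk
    have stepi : ∀ h : H, ∀ k : K, (∃ D : Finset X, ∃ k1 ∈ UD hR D ((D : Set X)ᶜ), ∃ l ∈ L,
        k = k1 * l) → ∃ D : Finset X, ∃ k1 ∈ UD hR D ((D : Set X)ᶜ), ∃ l ∈ L, i h * k = k1 * l := by
      rintro h _ ⟨D, k1, hk1, l, hl, rfl⟩
      refine ⟨D.image (fun x => h • x), i h * k1 * (i h)⁻¹, ?_, i h * l, mul_mem (hLi h) hl, by
        group⟩
      refine UD_induction hR (p := fun k => i h * k * (i h)⁻¹ ∈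
        UD hR (D.image (fun x => h • x)) ((D.image (fun x => h • x) : Finset X) : Set X)ᶜ)
        (by simp [one_mem]) ?_ k1 hk1
      intro z hz v hv k' _ ih
      have e : i h * (Ax hR z v * k') * (i h)⁻¹ = (i h * Ax hR z v * (i h)⁻¹) *
          (i h * k' * (i h)⁻¹) := by group
      rw [e, conj_Ax]
      refine mul_mem (UD_mem hR (Finset.mem_image_of_mem _ hz) ?_) ih
      refine Lv_mono ?_ (pm_mem_Lv h hv)
      rintro _ ⟨w, hw, rfl⟩
      simp only [Finset.coe_image, Set.mem_compl_iff, Set.mem_image, not_exists, not_and]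
      intro y hy hyw
      have := MulAction.injective h hyw
      subst this
      exact hw hy
    have stepα : ∀ x y m, x ≠ y → ∀ k : K, (∃ D : Finset X, ∃ k1 ∈ UD hR D ((D : Set X)ᶜ),
        ∃ l ∈ L, k = k1 * l) → ∃ D : Finset X, ∃ k1 ∈ UD hR D ((D : Set X)ᶜ), ∃ l ∈ L,
        α x y m * k = k1 * l := by
      rintro x y m hxy _ ⟨D₀, k1, hk1, l, hl, rfl⟩
      -- enlarge `D`
      let D₁ : Finset X := (D₀.erase x).erase y
      let D : Finset X := insert x (insert y D₁)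
      have hD₀D : D₀ ⊆ D := by
        intro z hz
        simp only [D, D₁, Finset.mem_insert, Finset.mem_erase]
        by_cases hzx : z = x
        · exact Or.inl hzx
        · by_cases hzy : z = y
          · exact Or.inr (Or.inl hzy)
          · exact Or.inr (Or.inr ⟨hzy, hzx, hz⟩)
      let W : Set X := ((D : Set X)ᶜ)
      obtain ⟨k2, hk2, l', hl', rfl⟩ := UD_change hR ι b L hL (W := ((D₀ : Set X)ᶜ)) (W' := W)
        (Set.compl_subset_compl.2 (by exact_mod_cast hD₀D))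
        (fun u _ => exists_fresh_word HT ι b hb D u) D₀ (fun z hz h => h hz) k1 hk1
      have hk2' : k2 ∈ UD hR D W := UD_mono hR hD₀D subset_rfl hk2
      have hxD₁ : x ∉ insert y D₁ := by
        simp only [D₁, Finset.mem_insert, Finset.mem_erase, not_or]
        exact ⟨hxy, fun h => h.2.1 rfl⟩
      have hyD₁ : y ∉ D₁ := by
        simp only [D₁, Finset.mem_erase]
        exact fun h => h.1 rfl
      have hWD : ∀ z ∈ D, z ∉ W := fun z hz h => h hz
      have hxW : x ∉ W := hWD x (Finset.mem_insert_self _ _)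
      have hyW : y ∉ W := hWD y (Finset.mem_insert_of_mem (Finset.mem_insert_self _ _))
      obtain ⟨u, hu, k3, hk3, rfl⟩ := UD_insert hR hxD₁
        (fun z hz => hWD z (Finset.mem_insert_of_mem hz)) hxW k2 hk2'
      obtain ⟨v, hv, k4, hk4, rfl⟩ := UD_insert hR hyD₁
        (fun z hz => hWD z (Finset.mem_insert_of_mem (Finset.mem_insert_of_mem hz))) hyW k3 hk3
      obtain ⟨y', hy', hty'⟩ := HT.fresh D (t y)
      have hy'W : y' ∈ W := hy'
      let u' : FP X M := v * lt y' m * v⁻¹ * u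
      have hu' : u' ∈ Lv W :=
        mul_mem (mul_mem (mul_mem hv (lt_mem_Lv hy'W m)) (inv_mem hv)) hu
      let κ : FP X M := u'⁻¹ * (v * lt y m * v⁻¹ * u)
      have hWi : W ⊆ insert y W := Set.subset_insert _ _
      have hκ : κ ∈ Lv (insert y W) := by
        refine mul_mem (inv_mem (Lv_mono hWi hu')) (mul_mem (mul_mem (mul_mem (Lv_mono hWi hv)
          (lt_mem_Lv (Set.mem_insert _ _) m)) (inv_mem (Lv_mono hWi hv))) (Lv_mono hWi hu))
      have hκx : κ ∈ Lv ({x} : Set X)ᶜ := Lv_mono (by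
        intro w hw
        simp only [Set.mem_compl_iff, Set.mem_singleton_iff]
        rintro rfl
        rcases Set.mem_insert_iff.1 hw with h | h
        · exact hxy h
        · exact hxW h) hκ
      have hκev : ev ι b κ = 1 := by
        simp only [κ, u', map_mul, map_inv, ev_lt, hb y' y hty']
        group
      have hAκ : Ax hR x κ ∈ L := hL x κ hκx hκev
      have hvxy : v ∈ Lv ({x, y} : Set X)ᶜ := Lv_mono (by
        intro w hw
        simp only [Set.mem_compl_iff, Set.mem_insert_iff, Set.mem_singleton_iff, not_or]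
        exact ⟨fun h => hxW (h ▸ hw), fun h => hyW (h ▸ hw)⟩) hv
      have e1 := conj_sb hR hxy hvxy (lt y m * u)
      rw [map_mul (sb y v), sb_self, sb_fix hyW v hu] at e1
      have e2 : α x y m * Ax hR x u * Ax hR y v = Ax hR y v * Ax hR x (v * lt y m * v⁻¹ * u) := by
        rw [← e1, map_mul (Ax hR x), Ax_lt]; group
      have e3 : Ax hR x (v * lt y m * v⁻¹ * u) = Ax hR x u' * Ax hR x κ := by
        rw [← map_mul]; simp only [κ, mul_inv_cancel_left]
      have e4 : Ax hR x κ * k4 = k4 * Ax hR x κ := by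
        refine UD_comm hR (D := D₁) (V := insert y W) (W := W) (fun h => hxD₁
          (Finset.mem_insert_of_mem h)) ?_ hxW hκ k4 hk4
        intro z hz h
        rcases Set.mem_insert_iff.1 h with h | h
        · exact hyD₁ (h ▸ hz)
        · exact hWD z (Finset.mem_insert_of_mem (Finset.mem_insert_of_mem hz)) h
      refine ⟨D, Ax hR y v * Ax hR x u' * k4, ?_, Ax hR x κ * (l' * l),
        mul_mem hAκ (mul_mem hl' hl), ?_⟩
      · refine mul_mem (mul_mem (UD_mem hR ?_ hv) (UD_mem hR ?_ hu')) ?_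
        · exact Finset.mem_insert_of_mem (Finset.mem_insert_self _ _)
        · exact Finset.mem_insert_self _ _
        · exact UD_mono hR ((Finset.subset_insert _ _).trans (Finset.subset_insert _ _))
            subset_rfl hk4
      · calc α x y m * (Ax hR x u * (Ax hR y v * k4) * l' * l)
            = (α x y m * Ax hR x u * Ax hR y v) * k4 * (l' * l) := by group
          _ = Ax hR y v * Ax hR x u' * (Ax hR x κ * k4) * (l' * l) := by rw [e2, e3]; group
          _ = _ := by rw [e4]; group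
    have hk : k ∈ closure (Set.range i ∪ {a | ∃ x y m, x ≠ y ∧ a = α x y m}) := by
      rw [hgen]; trivial
    induction hk using closure_induction_left with
    | one => exact ⟨∅, 1, one_mem _, 1, one_mem _, by simp⟩
    | mul_left a ha b _ ih =>
      rcases ha with ⟨h, rfl⟩ | ⟨x, y, m, hxy, rfl⟩
      · exact stepi h b ih
      · exact stepα x y m hxy b ih
    | inv_mul_cancel a ha b _ ih =>
      rcases ha with ⟨h, rfl⟩ | ⟨x, y, m, hxy, rfl⟩
      · rw [← map_inv]
        exact stepi h⁻¹ b ih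
      · rw [hR.rel.inv hxy]
        exact stepα x y m⁻¹ hxy b ih
  obtain ⟨D, k1, hk1, l, hl, rfl⟩ := sec
  rw [map_mul, Perm.mul_apply, hLs l hl] at hk
  exact mul_mem (UD_stab hR ι ρ hρ b L hL ((D : Set X)ᶜ) D (fun z hz h => h hz) k1 hk1 hk) hl

end Section

end Pool.Agent.Helper13
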