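import Pool.Agent.Helper13.OligoDefs
import Pool.Agent.Helper13.HoughtonStab

set_option autoImplicit false

/-!
# Type (A) actions give finitely presented highly transitive groups
-/

namespace Pool.Agent.Helper13

open Subgroup Equiv

/-- Transport to `ℕ` and to a presented group. -/
theorem transport {H Γ Ω : Type*} [Group H] [Group Γ] [Group.IsFinitelyPresented Γ] [Countable Ω]
    [Infinite Ω] (φ : H →* Γ) (hφ : Function.Injective φ) (ρ : Γ →* Perm Ω)
    (hρ : Function.Injective ρ) (hfin : ContainsFin ρ.range)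
    (hstab : ∀ F : Set Ω, F.Finite → Nonempty (fixer ρ.range F ≃* ρ.range)) :
    EmbedsInHighlyTransitive H := by
  classical
  obtain ⟨m, s, hs, ⟨e⟩⟩ := Group.IsFinitelyPresented.exists_mulEquiv_presentedGroup (G := Γ)
  obtain ⟨rels, rfl⟩ : ∃ rels : Finset (FreeGroup (Fin m)), (rels : Set _) = s :=
    ⟨hs.toFinset, hs.coe_toFinset⟩
  obtain ⟨w⟩ : Nonempty (Ω ≃ ℕ) := nonempty_equiv_of_countable
  let ρ' : PresentedGroup (rels : Set (FreeGroup (Fin m))) →* Perm ℕ :=
    (w.permCongrHom.toMonoidHom.comp ρ).comp e.symm.toMonoidHom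
  have hρ'apply : ∀ h n, ρ' h n = w (ρ (e.symm h) (w.symm n)) := fun h n => rfl
  refine ⟨m, rels, e.toMonoidHom.comp φ, ρ', e.injective.comp hφ, ?_, ?_, ?_, ?_⟩
  · exact (w.permCongrHom.injective.comp hρ).comp e.symm.injective
  · intro k x y hx hy
    obtain ⟨σ, ⟨γ, rfl⟩, hσ⟩ := hfin.highly (fun i => w.symm (x i)) (fun i => w.symm (y i))
      (w.symm.injective.comp hx) (w.symm.injective.comp hy)
    refine ⟨e γ, fun i => ?_⟩
    rw [hρ'apply, e.symm_apply_apply, hσ, w.apply_symm_apply]
  · intro σ hσ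
    obtain ⟨γ, hγ⟩ := hfin (w.permCongrHom.symm σ) (by
      refine (hσ.image w.symm).subset ?_
      intro x hx
      refine ⟨w x, ?_, w.symm_apply_apply x⟩
      intro hcon
      apply hx
      change w.symm (σ (w x)) = x
      rw [hcon, w.symm_apply_apply])
    refine ⟨e γ, ?_⟩
    change w.permCongrHom (ρ (e.symm (e γ))) = σ
    rw [e.symm_apply_apply, hγ, MulEquiv.apply_symm_apply]
  · intro F
    obtain ⟨f⟩ := hstab (w.symm '' (F : Set ℕ)) (F.finite_toSet.image _)
    -- the stabilizer is isomorphic to `fixer`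
    have key : ∀ h : PresentedGroup (rels : Set (FreeGroup (Fin m))),
        h ∈ (⨅ a ∈ F, MulAction.stabilizer (Perm ℕ) a).comap ρ' ↔
          ρ (e.symm h) ∈ fixer ρ.range (w.symm '' (F : Set ℕ)) := by
      intro h
      rw [mem_fixer]
      simp only [Subgroup.mem_comap, Subgroup.mem_iInf, MulAction.mem_stabilizer_iff,
        Perm.smul_def, hρ'apply]
      constructor
      · intro hh
        refine ⟨⟨_, rfl⟩, ?_⟩
        rintro _ ⟨n, hn, rfl⟩
        apply w.injective
        rw [w.apply_symm_apply]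
        exact hh n hn
      · rintro ⟨-, hh⟩ n hn
        rw [hh _ ⟨n, hn, rfl⟩, w.apply_symm_apply]
    let g : PresentedGroup (rels : Set (FreeGroup (Fin m))) ≃* ρ.range :=
      e.symm.trans (MonoidHom.ofInjective hρ)
    have hmap : ((⨅ a ∈ F, MulAction.stabilizer (Perm ℕ) a).comap ρ').map
        (ρ.comp e.symm.toMonoidHom) = fixer ρ.range (w.symm '' (F : Set ℕ)) := by
      ext p
      constructor
      · rintro ⟨h, hh, rfl⟩
        exact (key h).1 hh
      · intro hp
        obtain ⟨γ, rfl⟩ := (mem_fixer.1 hp).1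
        refine ⟨e γ, ?_, ?_⟩
        · refine (key (e γ)).2 ?_
          rw [e.symm_apply_apply]
          exact hp
        · change ρ (e.symm (e γ)) = ρ γ
          rw [e.symm_apply_apply]
    have hinj : Function.Injective (ρ.comp e.symm.toMonoidHom) := hρ.comp e.symm.injective
    refine ⟨((Subgroup.equivMapOfInjective _ _ hinj).trans
      ((MulEquiv.subgroupCongr hmap).trans (f.trans g.symm)))⟩

/-- The action on `X ⊕ Fin 3`, trivial on the second summand. -/
@[instance_reducible] def sumAction (G X : Type*) [Group G] [MulAction G X] : MulAction G (X ⊕ Fin 3) where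
  smul g := Sum.map (g • ·) id
  one_smul := by
    rintro (x | i)
    · change Sum.inl ((1 : G) • x) = _
      rw [one_smul]
    · rfl
  mul_smul := by
    rintro g h (x | i)
    · change Sum.inl ((g * h) • x) = Sum.inl (g • h • x)
      rw [mul_smul]
    · rfl

lemma countable_of_fp (G : Type*) [Group G] [h : Group.IsFinitelyPresented G] : Countable G := by
  obtain ⟨n, f, hf, -⟩ := h.out
  exact hf.countable

theorem typeA_imp_highly {H G X : Type*} [Group H] [Group G] [MulAction G X] (hA : IsTypeA G X)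
    (φ : H →* G) (hφ : Function.Injective φ) : EmbedsInHighlyTransitive H := by
  classical
  have hfp := hA.finitelyPresented
  have hfaith := hA.faithful
  let inst : MulAction G (X ⊕ Fin 3) := sumAction G X
  have hl : ∀ (g : G) (x : X), g • (Sum.inl x : X ⊕ Fin 3) = Sum.inl (g • x) := fun _ _ => rfl
  have hr : ∀ (g : G) (i : Fin 3), g • (Sum.inr i : X ⊕ Fin 3) = Sum.inr i := fun _ _ => rfl
  have hpairs : FinOrb G (X × X) := by
    have := hA.orbits
    refine ⟨Set.range (fun q : MulAction.orbitRel.Quotient G (X × X) => Quotient.out q),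
      Set.finite_range _, fun p => ?_⟩
    refine ⟨_, ⟨Quotient.mk'' p, rfl⟩, ?_⟩
    have : MulAction.orbitRel G (X × X) p (Quotient.out (Quotient.mk'' p :
        MulAction.orbitRel.Quotient G (X × X))) := by
      apply Quotient.exact'
      exact (Quotient.out_eq' _).symm
    rw [MulAction.orbitRel_apply] at this
    exact this
  have hpts := hpairs.of_pairs
  have hA' : TypeA G (X ⊕ Fin 3) := by
    constructor
    · obtain ⟨R₂, hR₂, h₂⟩ := hpairs
      obtain ⟨R₁, hR₁, h₁⟩ := hpts
      refine ⟨(Prod.map Sum.inl Sum.inl '' R₂) ∪ ((Sum.inl '' R₁) ×ˢ Set.range Sum.inr) ∪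
        (Set.range Sum.inr ×ˢ (Sum.inl '' R₁)) ∪ (Set.range Sum.inr ×ˢ Set.range Sum.inr),
        (((hR₂.image _).union ((hR₁.image _).prod (Set.finite_range _))).union
          ((Set.finite_range _).prod (hR₁.image _))).union
          ((Set.finite_range _).prod (Set.finite_range _)), ?_⟩
      rintro ⟨x | i, y | j⟩
      · obtain ⟨r, hr, g, hg⟩ := h₂ (x, y)
        refine ⟨(Sum.inl r.1, Sum.inl r.2), Or.inl (Or.inl (Or.inl ⟨r, hr, rfl⟩)), g, ?_⟩
        have h1 : g • r.1 = x := congrArg Prod.fst hg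
        have h2 : g • r.2 = y := congrArg Prod.snd hg
        change (g • (Sum.inl r.1 : X ⊕ Fin 3), g • (Sum.inl r.2 : X ⊕ Fin 3)) = _
        rw [hl, hl, h1, h2]
      · obtain ⟨r, hr', g, hg⟩ := h₁ x
        refine ⟨(Sum.inl r, Sum.inr j), Or.inl (Or.inl (Or.inr ⟨⟨r, hr', rfl⟩, ⟨j, rfl⟩⟩)), g, ?_⟩
        change (g • (Sum.inl r : X ⊕ Fin 3), g • (Sum.inr j : X ⊕ Fin 3)) = _
        rw [hl, hr, hg]
      · obtain ⟨r, hr', g, hg⟩ := h₁ y
        refine ⟨(Sum.inr i, Sum.inl r), Or.inl (Or.inr ⟨⟨i, rfl⟩, ⟨r, hr', rfl⟩⟩), g, ?_⟩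
        change (g • (Sum.inr i : X ⊕ Fin 3), g • (Sum.inl r : X ⊕ Fin 3)) = _
        rw [hl, hr, hg]
      · exact ⟨(Sum.inr i, Sum.inr j), Or.inr ⟨⟨i, rfl⟩, ⟨j, rfl⟩⟩, 1, one_smul _ _⟩
    · rintro (x | i)
      · have : MulAction.stabilizer G (Sum.inl x : X ⊕ Fin 3) = MulAction.stabilizer G x := by
          ext g
          rw [MulAction.mem_stabilizer_iff, MulAction.mem_stabilizer_iff, hl]
          exact Sum.inl_injective.eq_iff
        rw [this]
        exact hA.stabilizer x
      · have : MulAction.stabilizer G (Sum.inr i : X ⊕ Fin 3) = ⊤ := by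
          ext g
          simp only [MulAction.mem_stabilizer_iff, hr, Subgroup.mem_top]
        rw [this]
        exact (fg_of_fp G).out
  have hfaith' : FaithfulSMul G (X ⊕ Fin 3) := by
    constructor
    intro g h hgh
    apply hfaith.eq_of_smul_eq_smul
    intro x
    have := hgh (Sum.inl x)
    rw [hl, hl] at this
    exact Sum.inl_injective this
  have h3 : Three (X ⊕ Fin 3) := ⟨Sum.inr 0, Sum.inr 1, Sum.inr 2, by simp, by simp, by simp⟩
  obtain ⟨Γ, _, ι, u, a, ρ, hΓ, hrel, hstd⟩ := exists_fp_houghton (G := G) hA'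
  have hinj := hstd.injective hrel h3
  have hrange := hstd.range_eq hrel
  have hcount : Countable (X ⊕ Fin 3) := by
    have := countable_of_fp G
    obtain ⟨R₁, hR₁, h₁⟩ := hpts
    have := hR₁.countable.to_subtype
    have : Countable X := by
      refine Function.Surjective.countable (f := fun p : R₁ × G => p.2 • (p.1 : X)) ?_
      intro x
      obtain ⟨r, hr, g, hg⟩ := h₁ x
      exact ⟨(⟨r, hr⟩, g), hg⟩
    infer_instance
  have hinf : Infinite (Ray (X ⊕ Fin 3)) := inferInstance
  refine transport (ι.comp φ) ?_ ρ hinj ?_ ?_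
  · refine Function.Injective.comp (g := ι) ?_ hφ
    intro g g' hgg
    apply hfaith'.eq_of_smul_eq_smul
    intro x
    have h1 := hstd.act g
    rw [hgg, hstd.act g'] at h1
    have h2 := congrArg (fun f : Perm (Ray (X ⊕ Fin 3)) => f (some x, 0)) h1
    simp only [rayAct_some, Prod.mk.injEq, Option.some.injEq, and_true] at h2
    exact h2.symm
  · rw [hrange]
    exact containsFin_houghton (Sum.inr 0)
  · intro F hF
    rw [hrange]
    exact fixer_houghton (Sum.inr 0) F hF

end Pool.Agent.Helper13
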