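import Pool.Agent.Helper13.FPTools
import Pool.Agent.Helper13.TypeAMain

set_option autoImplicit false

/-!
# Finitely presented groups that are highly transitive on registers of each type
-/

namespace Pool.Agent.Helper13

open Subgroup Equiv

/-- `H` acts on `X` preserving types, and is otherwise as transitive as possible. -/
structure TypedHT (H X I : Type) [Group H] [MulAction H X] (t : X → I) : Prop where
  fp : Group.IsFinitelyPresented H
  faithful : FaithfulSMul H X
  countable : Countable X
  typ : ∀ (h : H) (x : X), t (h • x) = t x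
  ht : ∀ (F : Finset X) (φ : X → X), Set.InjOn φ F → (∀ x ∈ F, t (φ x) = t x) →
    ∃ h : H, ∀ x ∈ F, h • x = φ x
  stab : ∀ F : Finset X, (⨅ x ∈ F, MulAction.stabilizer H x).FG
  inf : ∀ i, (t ⁻¹' {i}).Infinite

/-- The product action on a disjoint union. -/
@[instance_reducible] def prodSumAction (H H' X X' : Type*) [Group H] [Group H'] [MulAction H X]
    [MulAction H' X'] : MulAction (H × H') (X ⊕ X') where
  smul g := Sum.map (g.1 • ·) (g.2 • ·)
  one_smul := by
    rintro (x | x)
    · change Sum.inl ((1 : H) • x) = _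
      rw [one_smul]
    · change Sum.inr ((1 : H') • x) = _
      rw [one_smul]
  mul_smul := by
    rintro g h (x | x)
    · change Sum.inl ((g.1 * h.1) • x) = Sum.inl (g.1 • h.1 • x)
      rw [mul_smul]
    · change Sum.inr ((g.2 * h.2) • x) = Sum.inr (g.2 • h.2 • x)
      rw [mul_smul]

theorem TypedHT.sum {H X I H' X' I' : Type} [Group H] [MulAction H X] [Group H'] [MulAction H' X']
    {t : X → I} {t' : X' → I'} (h1 : TypedHT H X I t) (h2 : TypedHT H' X' I' t') :
    @TypedHT (H × H') (X ⊕ X') (I ⊕ I') _ (prodSumAction H H' X X') (Sum.map t t') := by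
  classical
  let inst := prodSumAction H H' X X'
  have hl : ∀ (g : H × H') (x : X), g • (Sum.inl x : X ⊕ X') = Sum.inl (g.1 • x) := fun _ _ => rfl
  have hr : ∀ (g : H × H') (x : X'), g • (Sum.inr x : X ⊕ X') = Sum.inr (g.2 • x) := fun _ _ => rfl
  have fp1 := h1.fp
  have fp2 := h2.fp
  have c1 := h1.countable
  have c2 := h2.countable
  refine ⟨fp_prod H H', ⟨?_⟩, inferInstance, ?_, ?_, ?_, ?_⟩
  · intro g g' hgg
    ext
    · apply h1.faithful.eq_of_smul_eq_smul
      intro x
      exact Sum.inl_injective (hgg (Sum.inl x))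
    · apply h2.faithful.eq_of_smul_eq_smul
      intro x
      exact Sum.inr_injective (hgg (Sum.inr x))
  · rintro g (x | x)
    · rw [hl, Sum.map_inl, Sum.map_inl, h1.typ]
    · rw [hr, Sum.map_inr, Sum.map_inr, h2.typ]
  · intro F φ hinj htyp
    -- the two halves
    have key1 : ∀ x : X, Sum.inl x ∈ F → ∃ y, φ (Sum.inl x) = Sum.inl y := by
      intro x hx
      have := htyp _ hx
      rcases hφ : φ (Sum.inl x) with y | y
      · exact ⟨y, rfl⟩
      · rw [hφ] at this; simp at this
    have key2 : ∀ x : X', Sum.inr x ∈ F → ∃ y, φ (Sum.inr x) = Sum.inr y := by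
      intro x hx
      have := htyp _ hx
      rcases hφ : φ (Sum.inr x) with y | y
      · rw [hφ] at this; simp at this
      · exact ⟨y, rfl⟩
    let φ1 : X → X := fun x => if hx : Sum.inl x ∈ F then (key1 x hx).choose else x
    let φ2 : X' → X' := fun x => if hx : Sum.inr x ∈ F then (key2 x hx).choose else x
    have hφ1 : ∀ x, Sum.inl x ∈ F → φ (Sum.inl x) = Sum.inl (φ1 x) := by
      intro x hx
      simp only [φ1, dif_pos hx]
      exact (key1 x hx).choose_spec
    have hφ2 : ∀ x, Sum.inr x ∈ F → φ (Sum.inr x) = Sum.inr (φ2 x) := by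
      intro x hx
      simp only [φ2, dif_pos hx]
      exact (key2 x hx).choose_spec
    let F1 : Finset X := F.preimage Sum.inl Sum.inl_injective.injOn
    let F2 : Finset X' := F.preimage Sum.inr Sum.inr_injective.injOn
    obtain ⟨a, ha⟩ := h1.ht F1 φ1 (by
      intro x hx y hy hxy
      have hx' : Sum.inl x ∈ F := Finset.mem_preimage.1 hx
      have hy' : Sum.inl y ∈ F := Finset.mem_preimage.1 hy
      apply Sum.inl_injective (β := X')
      apply hinj hx' hy'
      rw [hφ1 x hx', hφ1 y hy', hxy]) (by
      intro x hx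
      have hx' : Sum.inl x ∈ F := Finset.mem_preimage.1 hx
      have := htyp _ hx'
      rw [hφ1 x hx'] at this
      exact Sum.inl_injective this)
    obtain ⟨b, hb⟩ := h2.ht F2 φ2 (by
      intro x hx y hy hxy
      have hx' : Sum.inr x ∈ F := Finset.mem_preimage.1 hx
      have hy' : Sum.inr y ∈ F := Finset.mem_preimage.1 hy
      apply Sum.inr_injective (α := X)
      apply hinj hx' hy'
      rw [hφ2 x hx', hφ2 y hy', hxy]) (by
      intro x hx
      have hx' : Sum.inr x ∈ F := Finset.mem_preimage.1 hx
      have := htyp _ hx'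
      rw [hφ2 x hx'] at this
      exact Sum.inr_injective this)
    refine ⟨(a, b), ?_⟩
    rintro (x | x) hx
    · rw [hl, hφ1 x hx]
      congr 1
      exact ha x (Finset.mem_preimage.2 hx)
    · rw [hr, hφ2 x hx]
      congr 1
      exact hb x (Finset.mem_preimage.2 hx)
  · intro F
    let F1 : Finset X := F.preimage Sum.inl Sum.inl_injective.injOn
    let F2 : Finset X' := F.preimage Sum.inr Sum.inr_injective.injOn
    have : (⨅ x ∈ F, MulAction.stabilizer (H × H') x) =
        (⨅ x ∈ F1, MulAction.stabilizer H x).prod (⨅ x ∈ F2, MulAction.stabilizer H' x) := by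
      ext g
      rw [Subgroup.mem_prod]
      simp only [Subgroup.mem_iInf, MulAction.mem_stabilizer_iff]
      constructor
      · intro h
        constructor
        · intro x hx
          exact Sum.inl_injective (h (Sum.inl x) (Finset.mem_preimage.1 hx))
        · intro x hx
          exact Sum.inr_injective (h (Sum.inr x) (Finset.mem_preimage.1 hx))
      · rintro ⟨h, h'⟩ (x | x) hx
        · rw [hl, h x (Finset.mem_preimage.2 hx)]
        · rw [hr, h' x (Finset.mem_preimage.2 hx)]
    rw [this]
    exact (h1.stab F1).prod (h2.stab F2)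
  · rintro (i | i)
    · have := (h1.inf i).image (f := (Sum.inl : X → X ⊕ X')) Sum.inl_injective.injOn
      refine this.mono ?_
      rintro _ ⟨x, hx, rfl⟩
      simp only [Set.mem_preimage, Set.mem_singleton_iff] at hx ⊢
      rw [Sum.map_inl, hx]
    · have := (h2.inf i).image (f := (Sum.inr : X' → X ⊕ X')) Sum.inr_injective.injOn
      refine this.mono ?_
      rintro _ ⟨x, hx, rfl⟩
      simp only [Set.mem_preimage, Set.mem_singleton_iff] at hx ⊢
      rw [Sum.map_inr, hx]

theorem TypedHT.relabel {H X I J : Type} [Group H] [MulAction H X] {t : X → I}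
    (h : TypedHT H X I t) (e : I ≃ J) : TypedHT H X J (e ∘ t) := by
  refine ⟨h.fp, h.faithful, h.countable, ?_, ?_, h.stab, ?_⟩
  · intro g x
    simp [h.typ]
  · intro F φ h1 h2
    exact h.ht F φ h1 (fun x hx => e.injective (h2 x hx))
  · intro j
    have := h.inf (e.symm j)
    convert this using 1
    ext x
    simp only [Set.mem_preimage, Function.comp, Set.mem_singleton_iff]
    exact ⟨fun h => by rw [← h, e.symm_apply_apply], fun h => by rw [h, e.apply_symm_apply]⟩

theorem typedHT_one : ∃ (H : Type) (_ : Group H) (_ : MulAction H ℕ),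
    TypedHT H ℕ Unit (fun _ => ()) := by
  classical
  let act : MulAction Unit Unit :=
    { smul := fun _ x => x, one_smul := fun _ => rfl, mul_smul := fun _ _ _ => rfl }
  have hA : IsTypeA Unit Unit := by
    refine ⟨inferInstance, ⟨fun _ => rfl⟩, ?_, ?_⟩
    · infer_instance
    · intro x
      have : (MulAction.stabilizer Unit x) = ⊥ := Subsingleton.elim _ _
      rw [this]
      exact Subgroup.FG.bot
  obtain ⟨m, rels, φ, ρ, hφ, hρ, htr, -, hst⟩ :=
    typeA_imp_highly hA (MonoidHom.id Unit) (fun _ _ _ => rfl)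
  let H := PresentedGroup (rels : Set (FreeGroup (Fin m)))
  let inst : MulAction H ℕ := MulAction.compHom ℕ ρ
  have hsm : ∀ (g : H) (n : ℕ), g • n = ρ g n := fun _ _ => rfl
  have hfp : Group.IsFinitelyPresented H := by
    have : Finite (rels : Set (FreeGroup (Fin m))) := rels.finite_toSet
    infer_instance
  refine ⟨H, inferInstance, inst, hfp, ⟨?_⟩, inferInstance, fun _ _ => rfl, ?_, ?_, ?_⟩
  · intro g g' hgg
    apply hρ
    ext n
    rw [← hsm, ← hsm, hgg]
  · intro F ψ hinj _
    obtain ⟨g, hg⟩ := htr F.card (fun i => (F.equivFin.symm i : ℕ)) (fun i => ψ (F.equivFin.symm i))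
      (Subtype.val_injective.comp F.equivFin.symm.injective) (by
        intro i j hij
        have := hinj (F.equivFin.symm i).2 (F.equivFin.symm j).2 hij
        exact F.equivFin.symm.injective (Subtype.ext this))
    refine ⟨g, fun x hx => ?_⟩
    have := hg (F.equivFin ⟨x, hx⟩)
    simp only [Equiv.symm_apply_apply] at this
    exact this
  · intro F
    obtain ⟨e⟩ := hst F
    have h1 : (⨅ x ∈ F, MulAction.stabilizer H x) =
        (⨅ a ∈ F, MulAction.stabilizer (Perm ℕ) a).comap ρ := by
      ext g
      simp only [Subgroup.mem_comap, Subgroup.mem_iInf, MulAction.mem_stabilizer_iff, hsm,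
        Perm.smul_def]
    rw [h1, ← Group.fg_iff_subgroup_fg]
    have : Group.FG H := fg_of_fp H
    exact Group.fg_of_surjective (f := e.symm.toMonoidHom) e.symm.surjective
  · intro i
    have : ((fun _ : ℕ => ()) ⁻¹' {i}) = Set.univ := by ext; simp
    rw [this]
    exact Set.infinite_univ

theorem exists_typedHT (n : ℕ) : ∃ (H X : Type) (_ : Group H) (_ : MulAction H X)
    (t : X → Fin n), TypedHT H X (Fin n) t := by
  induction n with
  | zero =>
    let act : MulAction Unit Empty :=
      { smul := fun _ x => x, one_smul := fun _ => rfl, mul_smul := fun _ _ _ => rfl }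
    refine ⟨Unit, Empty, inferInstance, act, fun x => x.elim, inferInstance, ⟨fun _ => rfl⟩,
      inferInstance, fun _ x => x.elim, fun _ _ _ _ => ⟨1, fun x => x.elim⟩, ?_, fun i => i.elim0⟩
    intro F
    have : (⨅ x ∈ F, MulAction.stabilizer Unit x) = ⊥ := Subsingleton.elim _ _
    rw [this]
    exact Subgroup.FG.bot
  | succ n ih =>
    obtain ⟨H, X, _, _, t, h⟩ := ih
    obtain ⟨H', _, _, h'⟩ := typedHT_one
    have := @TypedHT.relabel _ _ _ (Fin (n + 1)) _ (prodSumAction H H' X ℕ) _ (h.sum h')
      ((Equiv.sumCongr (Equiv.refl _) (Equiv.ofUnique Unit (Fin 1))).trans finSumFinEquiv)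
    exact ⟨H × H', X ⊕ ℕ, inferInstance, prodSumAction H H' X ℕ, _, this⟩

end Pool.Agent.Helper13
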