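import Pool.Agent.Helper13.VTrans
import Pool.Agent.Helper13.LemmaB
import Pool.Agent.Helper13.OneRayRange

set_option autoImplicit false

/-!
# The labelled Thompson group is finitely presented
-/

namespace Pool.Agent.Helper13

open Equiv MulAction

section Swap

variable {S : Type*} [Group S]

/-- Disjoint cones. -/
def Dj (u v : List Bool) : Prop := ∀ z z', app u z ≠ app v z'

lemma Dj.symm {u v : List Bool} (h : Dj u v) : Dj v u := fun z z' e => h z' z e.symm

lemma Dj.of_length {u v : List Bool} (hl : u.length = v.length) (hne : u ≠ v) : Dj u v :=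
  fun _ _ h => hne (app_eq_length h hl).1

lemma Dj.append {u v : List Bool} (h : Dj u v) (w w' : List Bool) : Dj (u ++ w) (v ++ w') :=
  fun z z' e => by
    rw [app_append, app_append] at e
    exact h _ _ e

lemma Dj.isP {u v : List Bool} (h : Dj u v) :
    IsP ![u, v] (Set.range (app u) ∪ Set.range (app v)) where
  inj := by
    intro i j z z' e
    fin_cases i <;> fin_cases j
    · rfl
    · exact (h _ _ e).elim
    · exact (h _ _ e.symm).elim
    · rfl
  ran z := by
    constructor
    · rintro (⟨z', rfl⟩ | ⟨z', rfl⟩)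
      · exact ⟨0, z', rfl⟩
      · exact ⟨1, z', rfl⟩
    · rintro ⟨i, z', rfl⟩
      fin_cases i
      · exact Or.inl ⟨z', rfl⟩
      · exact Or.inr ⟨z', rfl⟩

variable (S) in
/-- The element exchanging two disjoint cones. -/
theorem exists_swap {u v : List Bool} (h : Dj u v) : ∃ T : VG S, IsCone T.1 u v 1 ∧
    IsCone T.1 v u 1 ∧ ∀ z ∉ Set.range (app u) ∪ Set.range (app v), ∀ s, T.1 (z, s) = (z, s) := by
  have h2 := h.symm.isP
  rw [Set.union_comm] at h2
  obtain ⟨T, hT, hT'⟩ := exists_supported h.isP h2 (fun _ => (1 : S))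
  exact ⟨T, hT 0, hT 1, hT'⟩

lemma dy_cases (z : Dy) : (∃ z', app [false] z' = z) ∨ ∃ z', app [true] z' = z := by
  obtain ⟨b, z', rfl⟩ := bz_surj z
  cases b
  · exact Or.inl ⟨z', rfl⟩
  · exact Or.inr ⟨z', rfl⟩

lemma true_not_false (z : Dy) : app [true] z ∉ Set.range (app [false]) :=
  not_mem_cone_of_ne (u := [true]) (v := [false]) rfl (by decide) z

lemma false_not_true (z : Dy) : app [false] z ∉ Set.range (app [true]) :=
  not_mem_cone_of_ne (u := [false]) (v := [true]) rfl (by decide) z

lemma nil_false : app [false] [] = ([] : Dy) := rfl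
lemma zero_true : app [true] [] = ([0] : Dy) := rfl

/-- The subgroup `K`. -/
theorem K_eq {T : VG S} (hT1 : IsCone T.1 [false, true] [true, true] 1)
    (hT2 : IsCone T.1 [true, true] [false, true] 1)
    (hT3 : ∀ z ∉ Set.range (app [false, true]) ∪ Set.range (app [true, true]),
      ∀ s, T.1 (z, s) = (z, s)) :
    stabilizer (VG S) ([] : Dy) ⊓ stabilizer (VG S) ([0] : Dy) =
      (stabilizer (VG S) ([] : Dy)).map (VG.phi [false]) ⊔
      (stabilizer (VG S) ([] : Dy)).map (VG.phi [true]) ⊔ Subgroup.zpowers T := by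
  have hTout : ∀ z ∉ Set.range (app [false, true]) ∪ Set.range (app [true, true]), T • z = z := by
    intro z hz
    change (T.1 (z, 1)).1 = z
    rw [hT3 z hz]
  have hT0 : T • ([] : Dy) = [] := hTout _ (by
    rintro (⟨z, h⟩ | ⟨z, h⟩) <;> simp at h)
  have hT1' : T • ([0] : Dy) = [0] := hTout _ (by
    rintro (⟨z, h⟩ | ⟨z, h⟩) <;> simp at h)
  set L := (stabilizer (VG S) ([] : Dy)).map (VG.phi [false]) ⊔
      (stabilizer (VG S) ([] : Dy)).map (VG.phi [true]) ⊔ Subgroup.zpowers T with hL
  have hLK : L ≤ stabilizer (VG S) ([] : Dy) ⊓ stabilizer (VG S) ([0] : Dy) := by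
    rw [hL, sup_le_iff, sup_le_iff]
    refine ⟨⟨?_, ?_⟩, ?_⟩
    · rintro _ ⟨g, hg, rfl⟩
      have hg' : g • ([] : Dy) = [] := hg
      refine ⟨?_, ?_⟩
      · change VG.phi [false] g • app [false] [] = app [false] []
        rw [VG.phi_in, hg']
      · change VG.phi [false] g • app [true] [] = app [true] []
        rw [VG.phi_out _ _ (true_not_false _)]
    · rintro _ ⟨g, hg, rfl⟩
      have hg' : g • ([] : Dy) = [] := hg
      refine ⟨?_, ?_⟩
      · change VG.phi [true] g • app [false] [] = app [false] []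
        rw [VG.phi_out _ _ (false_not_true _)]
      · change VG.phi [true] g • app [true] [] = app [true] []
        rw [VG.phi_in, hg']
    · rw [Subgroup.zpowers_le]
      exact ⟨hT0, hT1'⟩
  have hphi0 : ∀ g : VG S, g • ([] : Dy) = [] → VG.phi [false] g ∈ L := fun g hg =>
    Subgroup.mem_sup_left (Subgroup.mem_sup_left ⟨g, hg, rfl⟩)
  have hphi1 : ∀ g : VG S, g • ([] : Dy) = [] → VG.phi [true] g ∈ L := fun g hg =>
    Subgroup.mem_sup_left (Subgroup.mem_sup_right ⟨g, hg, rfl⟩)
  have hTL : T ∈ L := Subgroup.mem_sup_right (Subgroup.mem_zpowers T)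
  -- elements preserving the two halves
  have claimD : ∀ h : VG S, h • ([] : Dy) = [] → h • ([0] : Dy) = [0] →
      (∀ z, h • z ∈ Set.range (app [false]) ↔ z ∈ Set.range (app [false])) → h ∈ L := by
    intro h h0 h1 hP
    have hP' : ∀ z, h⁻¹ • z ∈ Set.range (app [false]) ↔ z ∈ Set.range (app [false]) := by
      intro z
      rw [← hP, smul_inv_smul]
    obtain ⟨g0, hg0⟩ := exists_restrict [false] h
      (fun z => by
        obtain ⟨z', hz'⟩ := (hP (app [false] z)).2 ⟨z, rfl⟩
        exact ⟨z', hz'.symm⟩)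
      (fun z => by
        obtain ⟨z', hz'⟩ := (hP' (app [false] z)).2 ⟨z, rfl⟩
        exact ⟨z', hz'.symm⟩)
    obtain ⟨g1, hg1⟩ := exists_restrict [true] h
      (fun z => by
        rcases dy_cases (h • app [true] z) with h2 | ⟨z', hz'⟩
        · exact absurd ((hP _).1 h2) (true_not_false z)
        · exact ⟨z', hz'.symm⟩)
      (fun z => by
        rcases dy_cases (h⁻¹ • app [true] z) with h2 | ⟨z', hz'⟩
        · exact absurd ((hP' _).1 h2) (true_not_false z)
        · exact ⟨z', hz'.symm⟩)
    have e : h = VG.phi [false] g0 * VG.phi [true] g1 := by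
      apply VG.ext
      · intro z
        rw [mul_smul]
        rcases dy_cases z with ⟨z', rfl⟩ | ⟨z', rfl⟩
        · rw [(hg0 z').1, VG.phi_out _ _ (false_not_true _), VG.phi_in]
        · rw [(hg1 z').1, VG.phi_in, VG.phi_out _ _ (true_not_false _)]
      · intro z
        rw [VG.lab_mul]
        rcases dy_cases z with ⟨z', rfl⟩ | ⟨z', rfl⟩
        · rw [VG.phi_out _ _ (false_not_true _), VG.lab_phi_in, VG.lab_phi_out _ _
            (false_not_true _), mul_one, (hg0 z').2]
        · rw [VG.phi_in, VG.lab_phi_out _ _ (true_not_false _), VG.lab_phi_in, one_mul,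
            (hg1 z').2]
    rw [e]
    apply mul_mem
    · apply hphi0
      apply app_inj (u := [false])
      rw [← (hg0 _).1, nil_false, h0]
    · apply hphi1
      apply app_inj (u := [true])
      rw [← (hg1 _).1, zero_true, h1]
  -- the main case
  have case1 : ∀ h : VG S, h • ([] : Dy) = [] → h • ([0] : Dy) = [0] →
      (∃ a, h⁻¹ • app [false] a ∉ Set.range (app [false])) →
      (∃ b, h⁻¹ • app [true] b ∈ Set.range (app [false])) → h ∈ L := by
    intro h h0 h1 hA hB
    have h0' : h⁻¹ • ([] : Dy) = [] := by rw [inv_smul_eq_iff, h0]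
    have h1' : h⁻¹ • ([0] : Dy) = [0] := by rw [inv_smul_eq_iff, h1]
    have hUclo : Clo {z : Dy | h⁻¹ • z ∈ Set.range (app [false])} := (Clo.cone [false]).smul h⁻¹
    obtain ⟨x, hx0, hx⟩ := exists_to_true S (U := (app [false] ⁻¹'
        {z : Dy | h⁻¹ • z ∈ Set.range (app [false])})ᶜ) (hUclo.preimage [false]).compl hA (by
      intro hcon
      apply hcon
      change h⁻¹ • app [false] [] ∈ Set.range (app [false])
      rw [nil_false, h0']
      exact ⟨[], rfl⟩)
    obtain ⟨y, hy0, hy⟩ := exists_to_true S (U := app [true] ⁻¹'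
        {z : Dy | h⁻¹ • z ∈ Set.range (app [false])}) (hUclo.preimage [true]) hB (by
      intro hcon
      change h⁻¹ • app [true] [] ∈ Set.range (app [false]) at hcon
      rw [zero_true, h1'] at hcon
      exact true_not_false [] hcon)
    have hmem : T * VG.phi [false] x * VG.phi [true] y ∈ L :=
      mul_mem (mul_mem hTL (hphi0 x hx0)) (hphi1 y hy0)
    have hK := hLK hmem
    have hfin : T * VG.phi [false] x * VG.phi [true] y * h ∈ L := by
      apply claimD
      · rw [mul_smul, h0]
        exact hK.1
      · rw [mul_smul, h1]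
        exact hK.2
      · intro z
        rw [mul_smul]
        have key : ∀ w : Dy, (T * VG.phi [false] x * VG.phi [true] y) • w ∈ Set.range (app [false])
            ↔ h⁻¹ • w ∈ Set.range (app [false]) := by
          intro w
          rw [mul_smul, mul_smul]
          rcases dy_cases w with ⟨w', rfl⟩ | ⟨w', rfl⟩
          · rw [VG.phi_out _ _ (false_not_true _), VG.phi_in]
            have hxw := hx w'
            by_cases hw : h⁻¹ • app [false] w' ∈ Set.range (app [false])
            · have h2 : x • w' ∉ Set.range (app [true]) := fun hcon => (hxw.2 hcon) hw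
              have h3 : T • app [false] (x • w') = app [false] (x • w') := by
                apply hTout
                rintro (⟨z', hz'⟩ | ⟨z', hz'⟩)
                · exact h2 ⟨z', app_inj (u := [false]) hz'⟩
                · exact false_not_true _ ⟨app [true] z', hz'⟩
              rw [h3]
              exact ⟨fun _ => hw, fun _ => ⟨_, rfl⟩⟩
            · obtain ⟨z', hz'⟩ := hxw.1 hw
              rw [← hz']
              have h3 : T • app [false] (app [true] z') = app [true, true] z' := hT1.smul z'
              rw [h3]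
              exact ⟨fun hcon => (true_not_false (app [true] z') hcon).elim,
                fun hcon => (hw hcon).elim⟩
          · rw [VG.phi_in, VG.phi_out _ _ (true_not_false _)]
            have hyw := hy w'
            by_cases hw : h⁻¹ • app [true] w' ∈ Set.range (app [false])
            · obtain ⟨z', hz'⟩ := hyw.1 hw
              rw [← hz']
              have h3 : T • app [true] (app [true] z') = app [false, true] z' := hT2.smul z'
              rw [h3]
              exact ⟨fun _ => hw, fun _ => ⟨app [true] z', rfl⟩⟩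
            · have h2 : y • w' ∉ Set.range (app [true]) := fun hcon => hw (hyw.2 hcon)
              have h3 : T • app [true] (y • w') = app [true] (y • w') := by
                apply hTout
                rintro (⟨z', hz'⟩ | ⟨z', hz'⟩)
                · exact true_not_false _ ⟨app [true] z', hz'⟩
                · exact h2 ⟨z', app_inj (u := [true]) hz'⟩
              rw [h3]
              exact ⟨fun hcon => (true_not_false _ hcon).elim, fun hcon => (hw hcon).elim⟩
        rw [key, inv_smul_smul]
    have := mul_mem (inv_mem hmem) hfin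
    rwa [inv_mul_cancel_left] at this
  apply le_antisymm _ hLK
  rintro h ⟨h0, h1⟩
  have h0' : h • ([] : Dy) = [] := h0
  have h1' : h • ([0] : Dy) = [0] := h1
  have hi0 : h⁻¹ • ([] : Dy) = [] := by rw [inv_smul_eq_iff, h0']
  have hi1 : h⁻¹ • ([0] : Dy) = [0] := by rw [inv_smul_eq_iff, h1']
  have hUclo : Clo {z : Dy | h⁻¹ • z ∈ Set.range (app [false])} := (Clo.cone [false]).smul h⁻¹
  obtain ⟨k1, hk1⟩ := (hUclo.preimage [true]).avoid (by
    intro hcon
    change h⁻¹ • app [true] [] ∈ Set.range (app [false]) at hcon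
    rw [zero_true, hi1] at hcon
    exact true_not_false [] hcon)
  obtain ⟨k2, hk2⟩ := (hUclo.preimage [false]).compl.avoid (by
    intro hcon
    apply hcon
    change h⁻¹ • app [false] [] ∈ Set.range (app [false])
    rw [nil_false, hi0]
    exact ⟨[], rfl⟩)
  let k := k1 + k2
  let x : VG S := ⟨hp (swap 0 k), hp_mem _ (k + 1) (fun i hi =>
    swap_apply_of_ne_of_ne (by omega) (by omega))⟩
  have hx0 : x • ([] : Dy) = [] := rfl
  have hxk : x⁻¹ • ([0] : Dy) = [k] := by
    rw [inv_smul_eq_iff]
    change ([0] : Dy) = [swap 0 k k]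
    rw [swap_apply_right]
  have hmem : T * VG.phi [false] x * VG.phi [true] x ∈ L :=
    mul_mem (mul_mem hTL (hphi0 x hx0)) (hphi1 x hx0)
  have hK := hLK hmem
  have hTi : T⁻¹ • app [false, true] [] = app [true, true] [] := by
    rw [inv_smul_eq_iff]
    exact (hT2.smul _).symm
  have hTi' : T⁻¹ • app [true, true] [] = app [false, true] [] := by
    rw [inv_smul_eq_iff]
    exact (hT1.smul _).symm
  have hfin : T * VG.phi [false] x * VG.phi [true] x * h ∈ L := by
    apply case1
    · rw [mul_smul, h0']
      exact hK.1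
    · rw [mul_smul, h1']
      exact hK.2
    · refine ⟨[0], ?_⟩
      have e : (T * VG.phi [false] x * VG.phi [true] x * h)⁻¹ • app [false] [0] =
          h⁻¹ • app [true] (app (zw k) [0]) := by
        rw [mul_inv_rev, mul_inv_rev, mul_inv_rev, mul_smul, mul_smul, mul_smul]
        congr 1
        rw [show app [false] ([0] : Dy) = app [false, true] [] from rfl, hTi]
        rw [show app [true, true] ([] : Dy) = app [true] [0] from rfl, ← map_inv, ← map_inv,
          VG.phi_out _ _ (true_not_false _), VG.phi_in, hxk, app_zw_cons, Nat.zero_add]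
      rw [e]
      exact hk1 k (by omega) [0]
    · refine ⟨[0], ?_⟩
      have e : (T * VG.phi [false] x * VG.phi [true] x * h)⁻¹ • app [true] [0] =
          h⁻¹ • app [false] (app (zw k) [0]) := by
        rw [mul_inv_rev, mul_inv_rev, mul_inv_rev, mul_smul, mul_smul, mul_smul]
        congr 1
        rw [show app [true] ([0] : Dy) = app [true, true] [] from rfl, hTi']
        rw [show app [false, true] ([] : Dy) = app [false] [0] from rfl, ← map_inv, ← map_inv,
          VG.phi_in, hxk, VG.phi_out _ _ (false_not_true _), app_zw_cons, Nat.zero_add]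
      rw [e]
      by_contra hcon
      exact hk2 k (by omega) [0] hcon
  have := mul_mem (inv_mem hmem) hfin
  rwa [inv_mul_cancel_left] at this

end Swap

section FP

lemma fg_map {A B : Type*} [Group A] [Group B] {P : Subgroup A} (h : P.FG) (f : A →* B) :
    (P.map f).FG := by
  classical
  obtain ⟨T, hT⟩ := h
  refine ⟨T.image f, ?_⟩
  rw [Finset.coe_image, ← MonoidHom.map_closure, hT]

/-- The stabilizer of the base point is finitely presented. -/
theorem G0_fp (S : Type) [Group S] [Group.IsFinitelyPresented S] :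
    Group.IsFinitelyPresented (stabilizer (VG S) ([] : Dy)) := by
  obtain ⟨Γ, instΓ, x0, x1, t, s, c, ρ, hfp, hR, hSR, hgen, hρ⟩ := exists_oneRay S
  have hrange : ρ.range = Gb S := by
    rw [MonoidHom.range_eq_map, ← hgen, MonoidHom.map_closure]
    congr 1
    rw [Set.image_union, Set.image_union]
    congr 1
    · congr 1
      · rw [Set.image_insert_eq, Set.image_insert_eq, Set.image_singleton, hSR.r0, hSR.r1, hSR.rt]
      · ext g
        constructor
        · rintro ⟨_, ⟨a, rfl⟩, rfl⟩
          exact ⟨a, (hSR.rs a).symm⟩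
        · rintro ⟨a, rfl⟩
          exact ⟨s a, ⟨a, rfl⟩, hSR.rs a⟩
    · ext g
      constructor
      · rintro ⟨_, ⟨a, rfl⟩, rfl⟩
        exact ⟨a, (hSR.rcc a).symm⟩
      · rintro ⟨a, rfl⟩
        exact ⟨c a, ⟨a, rfl⟩, hSR.rcc a⟩
  let f : stabilizer (VG S) ([] : Dy) →* Perm (Dy × S) :=
    (VG S).subtype.comp (stabilizer (VG S) ([] : Dy)).subtype
  have hf : Function.Injective f := fun a b h => Subtype.ext (Subtype.ext h)
  have hfr : f.range = Gb S := by
    ext g
    rw [mem_Gb_iff]
    constructor
    · rintro ⟨a, rfl⟩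
      refine ⟨a.1.2, fun s => ⟨?_, ?_⟩⟩
      · have h1 : a.1 • ([] : Dy) = [] := a.2
        change (a.1.1 ([], s)).1 = []
        rw [VG.apply, h1]
      · have h1 : a.1⁻¹ • ([] : Dy) = [] := (a⁻¹).2
        change ((a.1⁻¹ : VG S).1 ([], s)).1 = []
        rw [VG.apply, h1]
    · rintro ⟨hg, h0⟩
      exact ⟨⟨⟨g, hg⟩, (h0 1).1⟩, rfl⟩
  have e1 : Γ ≃* Gb S := (MonoidHom.ofInjective hρ).trans (MulEquiv.subgroupCongr hrange)
  have e2 : stabilizer (VG S) ([] : Dy) ≃* Gb S :=
    (MonoidHom.ofInjective hf).trans (MulEquiv.subgroupCongr hfr)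
  exact Group.IsFinitelyPresented.equiv (e1.trans e2.symm)

/-- The labelled Thompson group is finitely presented. -/
theorem VG_fp (S : Type) [Group S] [Group.IsFinitelyPresented S] :
    Group.IsFinitelyPresented (VG S) := by
  have h0 := G0_fp S
  have hfg : (stabilizer (VG S) ([] : Dy)).FG := by
    rw [← Group.fg_iff_subgroup_fg]
    obtain ⟨n, φ, hφ, -⟩ := h0.out
    exact Group.fg_of_surjective hφ
  obtain ⟨T, hT1, hT2, hT3⟩ := exists_swap S (u := [false, true]) (v := [true, true])
    (Dj.of_length rfl (by simp))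
  have hK : (stabilizer (VG S) ([] : Dy) ⊓ stabilizer (VG S) ([0] : Dy)).FG := by
    rw [K_eq hT1 hT2 hT3]
    apply Subgroup.FG.sup
    · exact Subgroup.FG.sup (fg_map hfg _) (fg_map hfg _)
    · exact ⟨{T}, by simp [Subgroup.zpowers_eq_closure]⟩
  obtain ⟨s, hs1, hs2, -⟩ := exists_swap S (u := [false]) (v := [true])
    (Dj.of_length rfl (by simp))
  obtain ⟨t, ht0, ht1⟩ := VG.two S (a := []) (b := [0]) (c := []) (d := [1]) (by simp) (by simp)
  refine fp_of_stabilizer (z0 := ([] : Dy)) (z1 := [0]) (s := s) (t := t) (hs1.smul [])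
    (hs2.smul []) (by simp) h0 hK ht0 (by rw [ht1]; simp) ?_ ?_
  · intro z hz0 hz1
    obtain ⟨k, hk0, hk1, hk2⟩ := VG.three S (a := []) (b := [0]) (c := z) (d := []) (e := [0])
      (f := [1]) (by simp) (Ne.symm hz0) (Ne.symm hz1) (by simp) (by simp) (by simp)
    exact ⟨k, ⟨hk0, hk1⟩, by rw [hk2, ht1]⟩
  · intro z hz
    obtain ⟨g, hg0, hg1⟩ := VG.two S (a := []) (b := [0]) (c := []) (d := z) (by simp)
      (Ne.symm hz)
    exact ⟨g, hg0, hg1⟩

end FP

end Pool.Agent.Helper13
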