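import Pool.Agent.Helper13.VNormal
import Pool.Agent.Helper13.RegisterMain

set_option autoImplicit false

/-!
# From a finitely presented simple group to an action of type (A)
-/

namespace Pool.Agent.Helper13

open Equiv MulAction Monoid Function

section Final

variable {S : Type*} [Group S]

/-- Compare the label at the base point with a homomorphism. -/
def labSub {A : Type*} [Group A] (Ψ : A →* VG S) (χ : A →* S) : Subgroup A where
  carrier := {x | Ψ x • ([] : Dy) = [] ∧ lab (Ψ x).1 [] = χ x}
  one_mem' := by
    refine ⟨by rw [map_one, one_smul], ?_⟩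
    rw [map_one, map_one]
    rfl
  mul_mem' := by
    rintro x y ⟨hx1, hx2⟩ ⟨hy1, hy2⟩
    refine ⟨?_, ?_⟩
    · rw [map_mul, mul_smul, hy1, hx1]
    · rw [map_mul, VG.lab_mul, hy1, hx2, hy2, map_mul]
  inv_mem' := by
    rintro x ⟨hx1, hx2⟩
    have h1 : (Ψ x)⁻¹ • ([] : Dy) = [] := by rw [inv_smul_eq_iff, hx1]
    refine ⟨by rw [map_inv, h1], ?_⟩
    have h2 := VG.lab_mul (Ψ x)⁻¹ (Ψ x) []
    rw [inv_mul_cancel, hx1, hx2] at h2
    have h3 : lab (1 : VG S).1 [] = (1 : S) := rfl
    rw [h3] at h2
    rw [map_inv, map_inv]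
    exact eq_inv_of_mul_eq_one_left h2.symm

lemma lab_Bk_comm {g h : VG S} (hg : g ∈ Bk S) (hgh : g * h = h * g) (z : Dy) :
    lab g.1 (h • z) * lab h.1 z = lab h.1 z * lab g.1 z := by
  have h1 := VG.lab_mul g h z
  have h2 := VG.lab_mul h g z
  rw [hg z] at h2
  rw [← h1, ← h2, hgh]

/-- An element commuting with the stabilizer of the base point on points acts trivially. -/
lemma mem_Bk_of_comm {g : VG S} (h : ∀ k : VG S, k • ([] : Dy) = [] → ∀ z : Dy,
    g • k • z = k • g • z) : g ∈ Bk S := by
  have h0 : g • ([] : Dy) = [] := by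
    by_contra hcon
    obtain ⟨w, hw⟩ := Infinite.exists_notMem_finset ({[], g • ([] : Dy)} : Finset Dy)
    simp only [Finset.mem_insert, Finset.mem_singleton, not_or] at hw
    obtain ⟨k, hk0, hk1⟩ := VG.two S (a := []) (b := g • ([] : Dy)) (c := []) (d := w)
      (Ne.symm hcon) (Ne.symm hw.1)
    have := h k hk0 []
    rw [hk0, hk1] at this
    exact hw.2 this.symm
  intro z
  by_cases hz : z = []
  · rw [hz, h0]
  by_contra hcon
  have h1 : g • z ≠ [] := by
    intro h'
    rw [← h0] at h'
    exact hz (VG.smul_inj g h')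
  obtain ⟨w, hw⟩ := Infinite.exists_notMem_finset ({[], z, g • z} : Finset Dy)
  simp only [Finset.mem_insert, Finset.mem_singleton, not_or] at hw
  obtain ⟨k, hk0, hk1, hk2⟩ := VG.three S (a := []) (b := z) (c := g • z) (d := []) (e := z)
    (f := w) (Ne.symm hz) (Ne.symm h1) (Ne.symm hcon) (Ne.symm hz) (Ne.symm hw.1)
    (Ne.symm hw.2.1)
  have := h k hk0 z
  rw [hk1, hk2] at this
  exact hw.2.2 this.symm

end Final

section Main

theorem typeA_of_simple {H S : Type} [Group H] [Group.IsFinitelyPresented H] [Group S]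
    [Group.IsFinitelyPresented S] [IsSimpleGroup S] (lam : Coprod H (FreeGroup ℕ) →* S)
    (hlam : Injective lam) : EmbedsInTypeA H := by
  classical
  -- `S` is not commutative
  have hab : ∃ a b : S, a * b ≠ b * a := by
    refine ⟨lam (Coprod.inr (FreeGroup.of 0)), lam (Coprod.inr (FreeGroup.of 1)), ?_⟩
    rw [← map_mul, ← map_mul, ← map_mul, ← map_mul]
    intro h
    have h1 := Coprod.inr_injective (hlam h)
    have h2 := congrArg FreeGroup.toWord h1
    simp [FreeGroup.toWord_mul, FreeGroup.toWord_of] at h2
  -- generators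
  obtain ⟨T, hT⟩ : ∃ T : Finset S, Subgroup.closure (T : Set S) = ⊤ := by
    obtain ⟨n, φ, hφ, -⟩ := (inferInstance : Group.IsFinitelyPresented S).out
    exact (Group.fg_of_surjective hφ).out
  obtain ⟨Q, hQ⟩ : (stabilizer (VG S) ([] : Dy)).FG := by
    rw [← Group.fg_iff_subgroup_fg]
    obtain ⟨n, φ, hφ, -⟩ := (G0_fp S).out
    exact Group.fg_of_surjective hφ
  let K := T ⊕ Q
  obtain ⟨e⟩ : Nonempty (K ⊕ ℕ ≃ ℕ) := nonempty_equiv_of_countable
  let c : S →* VG S := (cH).codRestrict (VG S) cH_mem
  have hcp : ∀ (a : S) (z : Dy), c a • z = z := by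
    intro a z
    change (cH a (z, 1)).1 = z
    rw [cH_apply]
  have hcl : ∀ (a : S) (z : Dy), lab (c a).1 z = a := by
    intro a z
    change (cH a (z, 1)).2 = a
    rw [cH_apply, mul_one]
  let zz : ℕ → S := fun n => lam (Coprod.inr (FreeGroup.of n))
  let y : K → VG S := Sum.elim (fun t => lbl [true] t.1 * lbl [false] (zz (e (Sum.inl (Sum.inl t)))))
    (fun q => q.1 * c ((lab q.1.1 [])⁻¹ * zz (e (Sum.inl (Sum.inr q)))))
  let ι : Coprod H (FreeGroup K) →* VG S :=
    Coprod.lift (c.comp (lam.comp Coprod.inl)) (FreeGroup.lift y)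
  let Ψ : Coprod (Coprod H (FreeGroup K)) (FreeGroup ℕ) →* VG S :=
    Coprod.lift ι (FreeGroup.lift fun n => c (zz (e (Sum.inr n))))
  have hΨι : ∀ m, Ψ (Coprod.inl m) = ι m := fun m => Coprod.lift_apply_inl _ _ m
  have hιy : ∀ k, ι (Coprod.inr (FreeGroup.of k)) = y k := by
    intro k
    have h1 : ι (Coprod.inr (FreeGroup.of k)) = FreeGroup.lift y (FreeGroup.of k) :=
      Coprod.lift_apply_inr _ _ _
    rw [h1, FreeGroup.lift_apply_of]
  -- the comparison isomorphism
  let Θ : Coprod (Coprod H (FreeGroup K)) (FreeGroup ℕ) →* Coprod H (FreeGroup ℕ) :=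
    Coprod.lift (Coprod.lift Coprod.inl (FreeGroup.lift fun k =>
      Coprod.inr (FreeGroup.of (e (Sum.inl k)))))
      (FreeGroup.lift fun n => Coprod.inr (FreeGroup.of (e (Sum.inr n))))
  let Θ' : Coprod H (FreeGroup ℕ) →* Coprod (Coprod H (FreeGroup K)) (FreeGroup ℕ) :=
    Coprod.lift (Coprod.inl.comp Coprod.inl) (FreeGroup.lift fun n =>
      Sum.elim (fun k => Coprod.inl (Coprod.inr (FreeGroup.of k)))
        (fun n => Coprod.inr (FreeGroup.of n)) (e.symm n))
  have hΘ : Injective Θ := by
    have h1 : Θ'.comp Θ = MonoidHom.id _ := by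
      apply Coprod.hom_ext
      · apply Coprod.hom_ext
        · ext h
          simp [Θ, Θ']
        · ext k
          simp [Θ, Θ']
      · ext n
        simp [Θ, Θ']
    intro a b hab'
    have h2 := congrArg Θ' hab'
    have h3 : ∀ x, Θ' (Θ x) = x := fun x => DFunLike.congr_fun h1 x
    rwa [h3, h3] at h2
  -- the label at the base point
  have hΨL : ∀ x, x ∈ labSub Ψ (lam.comp Θ) := by
    intro x
    induction x using Coprod.induction_on with
    | inl m =>
      induction m using Coprod.induction_on with
      | inl h =>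
        refine ⟨?_, ?_⟩
        · rw [hΨι]
          have : ι (Coprod.inl h) = c (lam (Coprod.inl h)) := Coprod.lift_apply_inl _ _ _
          rw [this, hcp]
        · rw [hΨι]
          have : ι (Coprod.inl h) = c (lam (Coprod.inl h)) := Coprod.lift_apply_inl _ _ _
          rw [this, hcl]
          simp [Θ]
      | inr f =>
        induction f using FreeGroup.induction_on with
        | C1 => rw [map_one, map_one]; exact one_mem _
        | of k =>
          have h1 : (lam.comp Θ) (Coprod.inl (Coprod.inr (FreeGroup.of k))) =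
              zz (e (Sum.inl k)) := by
            simp [Θ, zz]
          change Ψ (Coprod.inl (Coprod.inr (FreeGroup.of k))) • ([] : Dy) = [] ∧
            lab (Ψ (Coprod.inl (Coprod.inr (FreeGroup.of k)))).1 [] = _
          rw [hΨι, hιy, h1]
          rcases k with t | q
          · have e1 : IsCone (y (Sum.inl t)).1 [false] [false] (zz (e (Sum.inl (Sum.inl t)))) := by
              have h1 := ((lbl_spt [true] t.1).cone false_not_true).mul
                (lbl_cone [false] (zz (e (Sum.inl (Sum.inl t)))))
              rwa [one_mul] at h1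
            exact ⟨e1.smul [], e1.lab_eq []⟩
          · have hq : (q.1 : VG S) • ([] : Dy) = [] := by
              have : q.1 ∈ stabilizer (VG S) ([] : Dy) := by
                rw [← hQ]
                exact Subgroup.subset_closure q.2
              exact this
            refine ⟨?_, ?_⟩
            · change (q.1 * c _) • ([] : Dy) = []
              rw [mul_smul, hcp, hq]
            · change lab (q.1 * c _).1 [] = _
              rw [VG.lab_mul, hcp, hcl, mul_inv_cancel_left]
        | inv_of k ih => rw [map_inv, map_inv]; exact inv_mem ih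
        | mul a b iha ihb => rw [map_mul, map_mul]; exact mul_mem iha ihb
      | mul a b iha ihb => rw [map_mul]; exact mul_mem iha ihb
    | inr f =>
      induction f using FreeGroup.induction_on with
      | C1 => rw [map_one]; exact one_mem _
      | of n =>
        have h1 : (lam.comp Θ) (Coprod.inr (FreeGroup.of n)) = zz (e (Sum.inr n)) := by
          simp [Θ, zz]
        have h2 : Ψ (Coprod.inr (FreeGroup.of n)) = c (zz (e (Sum.inr n))) := by
          have h3 : Ψ (Coprod.inr (FreeGroup.of n)) =
              FreeGroup.lift (fun n => c (zz (e (Sum.inr n)))) (FreeGroup.of n) :=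
            Coprod.lift_apply_inr _ _ _
          rw [h3, FreeGroup.lift_apply_of]
        change Ψ (Coprod.inr (FreeGroup.of n)) • ([] : Dy) = [] ∧
            lab (Ψ (Coprod.inr (FreeGroup.of n))).1 [] = _
        rw [h1, h2]
        exact ⟨hcp _ _, hcl _ _⟩
      | inv_of n ih => rw [map_inv]; exact inv_mem ih
      | mul a b iha ihb => rw [map_mul]; exact mul_mem iha ihb
    | mul a b iha ihb => exact mul_mem iha ihb
  have hΨ : Injective Ψ := by
    rw [injective_iff_map_eq_one]
    intro x hx
    have h1 := (hΨL x).2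
    rw [hx] at h1
    have h2 : lab (1 : VG S).1 [] = (1 : S) := rfl
    rw [h2] at h1
    have h3 : lam (Θ x) = 1 := h1.symm
    rw [← map_one lam] at h3
    have h4 := hlam h3
    rw [← map_one Θ] at h4
    exact hΘ h4
  -- the action of `M` on points is that of the stabilizer of the base point
  have hact : ∀ g : VG S, g • ([] : Dy) = [] → ∃ m, ∀ z : Dy, ι m • z = g • z := by
    intro g hg
    have hg' : g ∈ Subgroup.closure (Q : Set (VG S)) := by
      rw [hQ]
      exact hg
    induction hg' using Subgroup.closure_induction with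
    | mem q hq =>
      refine ⟨Coprod.inr (FreeGroup.of (Sum.inr ⟨q, hq⟩)), fun z => ?_⟩
      rw [hιy]
      change (q * c _) • z = q • z
      rw [mul_smul, hcp]
    | one => exact ⟨1, fun z => by rw [map_one]⟩
    | mul a b ha hb iha ihb =>
      have ha' : a • ([] : Dy) = [] := by
        rw [hQ] at ha
        exact ha
      have hb' : b • ([] : Dy) = [] := by
        rw [hQ] at hb
        exact hb
      obtain ⟨m, hm⟩ := iha ha'
      obtain ⟨m', hm'⟩ := ihb hb'
      exact ⟨m * m', fun z => by rw [map_mul, mul_smul, mul_smul, hm', hm]⟩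
    | inv a ha iha =>
      have ha' : a • ([] : Dy) = [] := by
        rw [hQ] at ha
        exact ha
      obtain ⟨m, hm⟩ := iha ha'
      refine ⟨m⁻¹, fun z => ?_⟩
      rw [map_inv, inv_smul_eq_iff, hm, smul_inv_smul]
  have hncl : Subgroup.normalClosure (Set.range ι) = ⊤ := by
    apply normal_top hab
    intro hle
    obtain ⟨g, hg0, hg1⟩ := VG.two S (a := []) (b := [0]) (c := []) (d := [1]) (by simp) (by simp)
    obtain ⟨m, hm⟩ := hact g hg0
    have h1 := hle (Subgroup.subset_normalClosure ⟨m, rfl⟩) [0]
    rw [hm, hg1] at h1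
    simp at h1
  have hstepA : ∀ g : VG S, (∀ m, g * ι m * g⁻¹ * (ι m)⁻¹ ∈ Bk S) → g ∈ Bk S := by
    intro g hg
    apply mem_Bk_of_comm
    intro k hk z
    obtain ⟨m, hm⟩ := hact k hk
    have h1 := hg m (ι m • g • z)
    rw [mul_smul, mul_smul, mul_smul, inv_smul_smul, inv_smul_smul, hm, hm] at h1
    exact h1
  have hcent : ∀ N : Subgroup (VG S), N.Normal → N ≠ ⊤ → ∀ g,
      (∀ m, g * ι m * g⁻¹ * (ι m)⁻¹ ∈ N) → g ∈ N := by
    intro N hN hNtop g hg
    rcases normal_cases hab (N := N) with rfl | rfl | h
    · have hcomm : ∀ m, g * ι m = ι m * g := by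
        intro m
        have := hg m
        rw [Subgroup.mem_bot, mul_inv_eq_one, mul_inv_eq_iff_eq_mul] at this
        exact this
      have hgB : g ∈ Bk S := hstepA g (fun m => by
        have := hg m
        rw [Subgroup.mem_bot] at this
        rw [this]
        exact one_mem _)
      have hl1 : ∀ z, lab g.1 (app [true] z) = 1 := by
        intro z
        apply center_trivial hab
        intro b
        have hb : b ∈ Subgroup.closure (T : Set S) := by rw [hT]; trivial
        have hle : Subgroup.closure (T : Set S) ≤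
            Subgroup.centralizer {lab g.1 (app [true] z)} := by
          rw [Subgroup.closure_le]
          intro t ht
          rw [SetLike.mem_coe, Subgroup.mem_centralizer_singleton_iff]
          have h1 := lab_Bk_comm hgB (hcomm (Coprod.inr (FreeGroup.of (Sum.inl ⟨t, ht⟩))))
            (app [true] z)
          have e1 : IsCone (y (Sum.inl ⟨t, ht⟩)).1 [true] [true] t := by
            have h1 := (lbl_cone [true] t).mul
              ((lbl_spt [false] (zz (e (Sum.inl (Sum.inl ⟨t, ht⟩))))).cone true_not_false)
            rwa [mul_one] at h1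
          rw [hιy, e1.smul, e1.lab_eq] at h1
          exact h1.symm
        have := hle hb
        rwa [Subgroup.mem_centralizer_singleton_iff] at this
      have hl2 : ∀ z, z ≠ [] → lab g.1 z = 1 := by
        intro z hz
        obtain ⟨k, hk0, hk1⟩ := VG.two S (a := []) (b := [0]) (c := []) (d := z) (by simp)
          (Ne.symm hz)
        obtain ⟨m, hm⟩ := hact k hk0
        have h1 := lab_Bk_comm hgB (hcomm m) [0]
        rw [hm, hk1] at h1
        have h2 : lab g.1 ([0] : Dy) = 1 := hl1 []
        rw [h2, mul_one] at h1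
        exact mul_eq_right.1 h1
      rw [Subgroup.mem_bot]
      apply VG.ext
      · intro z
        rw [hgB z, one_smul]
      · intro z
        have h3 : lab (1 : VG S).1 z = (1 : S) := rfl
        rw [h3]
        by_cases hz : z = []
        · subst hz
          obtain ⟨k, hk⟩ := g.2
          obtain ⟨v, a, hv⟩ := hk (zw k) (zw_length k)
          have h4 := IsCone.lab_eq hv []
          have h5 := IsCone.lab_eq hv [0]
          rw [app_zw_nil] at h4
          rw [app_zw_cons] at h5
          rw [h4, ← h5]
          exact hl2 _ (by simp)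
        · exact hl2 z hz
    · exact hstepA g hg
    · exact absurd h hNtop
  have hVfp := VG_fp S
  have hM := register_typeA ι (finite_normal hab) hncl hcent Ψ hΨ hΨι
  obtain ⟨G, X, _, _, hA, φ, hφ⟩ := hM
  exact ⟨G, X, _, _, hA, φ.comp Coprod.inl, hφ.comp Coprod.inl_injective⟩

end Main

end Pool.Agent.Helper13
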