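import Mathlib

set_option autoImplicit false

/-!
# A Thompson group with labels

Points are finite lists of natural numbers: `[]` is the base point and `i :: z` is the image of `z`
in the ray cone number `i`.  In binary notation, `i :: z` is `0^i 1 z`.
-/

namespace Pool.Agent.Helper13

open Equiv

/-- Points of the tree boundary with finitely many ones. -/
abbrev Dy := List ℕ

/-- Prepend a binary digit. -/
def bz : Bool → Dy → Dy
  | false, [] => []
  | false, i :: z => (i + 1) :: z
  | true, z => 0 :: z

@[simp] lemma bz_false_nil : bz false [] = [] := rfl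
@[simp] lemma bz_false_cons (i : ℕ) (z : Dy) : bz false (i :: z) = (i + 1) :: z := rfl
@[simp] lemma bz_true (z : Dy) : bz true z = 0 :: z := rfl

lemma bz_inj {b b' : Bool} {z z' : Dy} (h : bz b z = bz b' z') : b = b' ∧ z = z' := by
  cases b <;> cases b' <;> rcases z with _ | ⟨i, z⟩ <;> rcases z' with _ | ⟨j, z'⟩ <;>
    simp_all

lemma bz_surj (z : Dy) : ∃ b z', z = bz b z' := by
  rcases z with _ | ⟨i, z⟩
  · exact ⟨false, [], rfl⟩
  · rcases i with _ | i
    · exact ⟨true, z, rfl⟩
    · exact ⟨false, i :: z, rfl⟩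

/-- Prepend a binary word. -/
def app (u : List Bool) (z : Dy) : Dy := u.foldr bz z

@[simp] lemma app_nil (z : Dy) : app [] z = z := rfl
@[simp] lemma app_cons (b : Bool) (u : List Bool) (z : Dy) : app (b :: u) z = bz b (app u z) := rfl

lemma app_append (u v : List Bool) (z : Dy) : app (u ++ v) z = app u (app v z) := by
  induction u with
  | nil => rfl
  | cons b u ih => simp [ih]

lemma app_inj {u : List Bool} {z z' : Dy} (h : app u z = app u z') : z = z' := by
  induction u with
  | nil => exact h
  | cons b u ih => exact ih (bz_inj h).2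

lemma app_prefix {u v : List Bool} {z z' : Dy} (h : app u z = app v z')
    (hl : u.length ≤ v.length) : ∃ w, v = u ++ w ∧ z = app w z' := by
  induction u generalizing v with
  | nil => exact ⟨v, rfl, h⟩
  | cons b u ih =>
    rcases v with _ | ⟨c, v⟩
    · simp at hl
    · simp only [app_cons] at h
      obtain ⟨rfl, h'⟩ := bz_inj h
      obtain ⟨w, hw, hz⟩ := ih h' (by simpa using hl)
      exact ⟨w, by rw [hw]; rfl, hz⟩

lemma app_eq_length {u v : List Bool} {z z' : Dy} (h : app u z = app v z')
    (hl : u.length = v.length) : u = v ∧ z = z' := by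
  obtain ⟨w, hw, hz⟩ := app_prefix h hl.le
  have : w = [] := by
    have := congrArg List.length hw
    rw [List.length_append] at this
    exact List.length_eq_zero_iff.1 (by omega)
  subst this
  exact ⟨by simpa using hw.symm, hz⟩

lemma exists_app (k : ℕ) (z : Dy) : ∃ u z', u.length = k ∧ z = app u z' := by
  induction k generalizing z with
  | zero => exact ⟨[], z, rfl, rfl⟩
  | succ k ih =>
    obtain ⟨b, z', rfl⟩ := bz_surj z
    obtain ⟨u, z'', hu, rfl⟩ := ih z'
    exact ⟨b :: u, z'', by simp [hu], rfl⟩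

/-- The zero word. -/
def zw (k : ℕ) : List Bool := List.replicate k false

@[simp] lemma zw_zero : zw 0 = [] := rfl
lemma zw_succ (k : ℕ) : zw (k + 1) = false :: zw k := rfl
@[simp] lemma zw_length (k : ℕ) : (zw k).length = k := by simp [zw]
@[simp] lemma app_zw_nil (k : ℕ) : app (zw k) [] = [] := by
  induction k with
  | zero => rfl
  | succ k ih => rw [zw_succ, app_cons, ih]; rfl
@[simp] lemma app_zw_cons (k i : ℕ) (z : Dy) : app (zw k) (i :: z) = (i + k) :: z := by
  induction k with
  | zero => rfl
  | succ k ih => rw [zw_succ, app_cons, ih]; rfl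
lemma zw_add (k l : ℕ) : zw (k + l) = zw k ++ zw l := by
  simp [zw, List.replicate_append_replicate]

/-- The ray cone word. -/
def rc (i : ℕ) : List Bool := zw i ++ [true]

@[simp] lemma app_rc (i : ℕ) (z : Dy) : app (rc i) z = i :: z := by
  unfold rc
  rw [app_append]
  simp

@[simp] lemma rc_length (i : ℕ) : (rc i).length = i + 1 := by simp [rc]

lemma app_rc_append (i : ℕ) (w : List Bool) (z : Dy) : app (rc i ++ w) z = i :: app w z := by
  rw [app_append, app_rc]

/-- Every word is a zero word or starts with a ray cone word. -/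
lemma word_cases (u : List Bool) : (∃ k, u = zw k) ∨ ∃ i w, u = rc i ++ w := by
  induction u with
  | nil => exact Or.inl ⟨0, rfl⟩
  | cons b u ih =>
    cases b
    · rcases ih with ⟨k, rfl⟩ | ⟨i, w, rfl⟩
      · exact Or.inl ⟨k + 1, rfl⟩
      · exact Or.inr ⟨i + 1, w, rfl⟩
    · exact Or.inr ⟨0, u, rfl⟩

lemma rc_append_inj {i j : ℕ} {w w' : List Bool} (h : rc i ++ w = rc j ++ w') : i = j ∧ w = w' := by
  have h1 := congrArg (fun u => app u ([] : Dy)) h
  simp only [app_rc_append, List.cons.injEq] at h1
  obtain ⟨rfl, -⟩ := h1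
  exact ⟨rfl, List.append_cancel_left h⟩

lemma app_word_inj {u v : List Bool} (h : ∀ z, app u z = app v z) : u = v := by
  rcases le_total u.length v.length with hl | hl
  · obtain ⟨w, hw, -⟩ := app_prefix (h []) hl
    rcases w with _ | ⟨b, w⟩
    · simpa using hw.symm
    · exfalso
      subst hw
      -- the image of `app u` is not contained in a proper cone
      have h1 := h (app [!b] [])
      rw [app_append] at h1
      have h2 := app_inj h1
      simp only [app_cons, app_nil] at h2
      have := (bz_inj h2).1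
      cases b <;> simp at this
  · obtain ⟨w, hw, -⟩ := app_prefix (h []).symm hl
    rcases w with _ | ⟨b, w⟩
    · simpa using hw
    · exfalso
      subst hw
      have h1 := (h (app [!b] [])).symm
      rw [app_append] at h1
      have h2 := app_inj h1
      simp only [app_cons, app_nil] at h2
      have := (bz_inj h2).1
      cases b <;> simp at this

section Cone

variable {S : Type*} [Group S]

/-- `g` maps the cone of `u` to the cone of `v`, with label `a`. -/
def IsCone (g : Perm (Dy × S)) (u v : List Bool) (a : S) : Prop :=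
  ∀ z s, g (app u z, s) = (app v z, a * s)

lemma IsCone.one (u : List Bool) : IsCone (1 : Perm (Dy × S)) u u 1 := fun z s => by simp

lemma IsCone.append {g : Perm (Dy × S)} {u v : List Bool} {a : S} (h : IsCone g u v a)
    (w : List Bool) : IsCone g (u ++ w) (v ++ w) a := fun z s => by
  rw [app_append, app_append, h]

lemma IsCone.mul {g h : Perm (Dy × S)} {u v w : List Bool} {a b : S} (hg : IsCone g v w a)
    (hh : IsCone h u v b) : IsCone (g * h) u w (a * b) := fun z s => by
  rw [Perm.mul_apply, hh, hg, mul_assoc]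

lemma IsCone.inv {g : Perm (Dy × S)} {u v : List Bool} {a : S} (h : IsCone g u v a) :
    IsCone g⁻¹ v u a⁻¹ := fun z s => by
  rw [Perm.inv_eq_iff_eq, h, mul_inv_cancel_left]

lemma IsCone.unique {g : Perm (Dy × S)} {u v v' : List Bool} {a a' : S} (h : IsCone g u v a)
    (h' : IsCone g u v' a') : v = v' ∧ a = a' := by
  constructor
  · apply app_word_inj
    intro z
    have := (h z 1).symm.trans (h' z 1)
    exact congrArg Prod.fst this
  · have := (h [] 1).symm.trans (h' [] 1)
    simpa using congrArg Prod.snd this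

lemma IsCone.unique_left {g : Perm (Dy × S)} {u u' v : List Bool} {a a' : S} (h : IsCone g u v a)
    (h' : IsCone g u' v a') : u = u' ∧ a = a' := by
  obtain ⟨h1, h2⟩ := h.inv.unique h'.inv
  exact ⟨h1, inv_injective h2⟩

/-- `g` is cone-like on the cone of `u`. -/
def CL (g : Perm (Dy × S)) (u : List Bool) : Prop := ∃ v a, IsCone g u v a

lemma CL.append {g : Perm (Dy × S)} {u : List Bool} (h : CL g u) (w : List Bool) :
    CL g (u ++ w) := by
  obtain ⟨v, a, h⟩ := h
  exact ⟨_, _, h.append w⟩

lemma CL.of_length {g : Perm (Dy × S)} {k : ℕ} (h : ∀ u : List Bool, u.length = k → CL g u)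
    (u : List Bool) (hu : k ≤ u.length) : CL g u := by
  have := (h (u.take k) (by simpa using hu)).append (u.drop k)
  rwa [List.take_append_drop] at this

variable (S) in
/-- The Thompson group with labels in `S`. -/
def VG : Subgroup (Perm (Dy × S)) where
  carrier := {g | ∃ k, ∀ u : List Bool, u.length = k → CL g u}
  one_mem' := ⟨0, fun u _ => ⟨u, 1, IsCone.one u⟩⟩
  mul_mem' := by
    rintro g h ⟨k, hg⟩ ⟨l, hh⟩
    refine ⟨k + l, fun u hu => ?_⟩
    have h1 : u = u.take l ++ u.drop l := (List.take_append_drop l u).symm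
    obtain ⟨v, b, hv⟩ := hh (u.take l) (by simp; omega)
    have h2 : CL g (v ++ u.drop l) := CL.of_length hg _ (by simp; omega)
    obtain ⟨w, a, hw⟩ := h2
    refine ⟨w, a * b, ?_⟩
    rw [h1]
    exact hw.mul (hv.append _)
  inv_mem' := by
    rintro g ⟨k, hg⟩
    choose! v a hva using hg
    -- bound on the lengths
    have hfin : {u : List Bool | u.length = k}.Finite := List.finite_length_eq Bool k
    obtain ⟨l, hl⟩ : ∃ l, ∀ u : List Bool, u.length = k → (v u).length ≤ l := by
      have := (hfin.image (fun u => (v u).length)).bddAbove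
      obtain ⟨l, hl⟩ := this
      exact ⟨l, fun u hu => hl ⟨u, hu, rfl⟩⟩
    refine ⟨l, fun w hw => ?_⟩
    obtain ⟨⟨z, s⟩, hz⟩ := g.surjective (app w [], 1)
    obtain ⟨u, z', hu, rfl⟩ := exists_app k z
    rw [hva u hu] at hz
    have h1 : app (v u) z' = app w [] := congrArg Prod.fst hz
    obtain ⟨w', hw', -⟩ := app_prefix h1 (by rw [hw]; exact hl u hu)
    refine ⟨u ++ w', (a u)⁻¹, ?_⟩
    rw [hw']
    exact (hva u hu).inv.append w'

lemma mem_VG {g : Perm (Dy × S)} : g ∈ VG S ↔ ∃ k, ∀ u : List Bool, u.length = k → CL g u := Iff.rfl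

/-- Elements act on points, with a label. -/
lemma VG.fiber {g : Perm (Dy × S)} (hg : g ∈ VG S) (z : Dy) (s : S) :
    g (z, s) = ((g (z, 1)).1, (g (z, 1)).2 * s) := by
  obtain ⟨k, hk⟩ := hg
  obtain ⟨u, z', hu, rfl⟩ := exists_app k z
  obtain ⟨v, a, h⟩ := hk u hu
  rw [h, h, mul_one]

/-- The action on points. -/
instance : MulAction (VG S) Dy where
  smul g z := (g.1 (z, 1)).1
  one_smul z := rfl
  mul_smul g h z := by
    change ((g * h).1 (z, 1)).1 = (g.1 ((h.1 (z, 1)).1, 1)).1
    change (g.1 (h.1 (z, 1))).1 = _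
    rw [VG.fiber g.2 (h.1 (z, 1)).1 1]
    have := VG.fiber g.2 (h.1 (z, 1)).1 (h.1 (z, 1)).2
    rw [Prod.mk.eta] at this
    rw [this]

lemma VG.smul_def (g : VG S) (z : Dy) : g • z = (g.1 (z, 1)).1 := rfl

/-- The label of an element at a point. -/
def lab (g : Perm (Dy × S)) (z : Dy) : S := (g (z, 1)).2

lemma VG.apply (g : VG S) (z : Dy) (s : S) : g.1 (z, s) = (g • z, lab g.1 z * s) :=
  VG.fiber g.2 z s

lemma VG.lab_mul (g h : VG S) (z : Dy) : lab (g * h).1 z = lab g.1 (h • z) * lab h.1 z := by
  change (g.1 (h.1 (z, 1))).2 = _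
  rw [VG.apply h, VG.apply g]
  simp

lemma IsCone.smul {g : VG S} {u v : List Bool} {a : S} (h : IsCone g.1 u v a) (z : Dy) :
    g • app u z = app v z := congrArg Prod.fst (h z 1)

lemma IsCone.lab_eq {g : VG S} {u v : List Bool} {a : S} (h : IsCone g.1 u v a) (z : Dy) :
    lab g.1 (app u z) = a := by
  have := congrArg Prod.snd (h z 1)
  change (g.1 (app u z, 1)).2 = a
  simpa using this

lemma VG.ext {g h : VG S} (h1 : ∀ z : Dy, g • z = h • z) (h2 : ∀ z, lab g.1 z = lab h.1 z) : g = h := by
  apply Subtype.ext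
  ext1 ⟨z, s⟩
  rw [VG.apply, VG.apply, h1, h2]

/-- Every element is cone-like near every point. -/
lemma VG.local (g : VG S) (z : Dy) (k : ℕ) : ∃ u z' v a, k ≤ u.length ∧ z = app u z' ∧
    IsCone g.1 u v a := by
  obtain ⟨l, hl⟩ := g.2
  obtain ⟨u, z', hu, rfl⟩ := exists_app (k + l) z
  obtain ⟨v, a, h⟩ := CL.of_length hl u (by omega)
  exact ⟨u, z', v, a, by omega, rfl, h⟩

end Cone

end Pool.Agent.Helper13
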