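import Pool.Agent.Helper13.VFP

set_option autoImplicit false

/-!
# Normal subgroups of the labelled Thompson group
-/

namespace Pool.Agent.Helper13

open Equiv MulAction
open scoped commutatorElement

section Normal

variable {S : Type*} [Group S]

/-- `g` is the identity outside `U`. -/
def Spt (g : VG S) (U : Set Dy) : Prop := ∀ z ∉ U, ∀ s, g.1 (z, s) = (z, s)

lemma Spt.mul {g h : VG S} {U : Set Dy} (hg : Spt g U) (hh : Spt h U) : Spt (g * h) U :=
  fun z hz s => by
    change g.1 (h.1 (z, s)) = _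
    rw [hh z hz, hg z hz]

lemma Spt.inv {g : VG S} {U : Set Dy} (hg : Spt g U) : Spt g⁻¹ U :=
  fun z hz s => by
    change g.1⁻¹ (z, s) = _
    rw [Perm.inv_eq_iff_eq, hg z hz]

lemma Spt.mono {g : VG S} {U V : Set Dy} (hg : Spt g U) (h : U ⊆ V) : Spt g V :=
  fun z hz s => hg z (fun h' => hz (h h')) s

lemma Spt.smul_eq {g : VG S} {U : Set Dy} (hg : Spt g U) {z : Dy} (hz : z ∉ U) : g • z = z := by
  change (g.1 (z, 1)).1 = z
  rw [hg z hz]

lemma Spt.conj {g : VG S} {U : Set Dy} (hg : Spt g U) (n : VG S) :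
    Spt (n * g * n⁻¹) {z | n⁻¹ • z ∈ U} := fun z hz s => by
  change n.1 (g.1 ((n⁻¹ : VG S).1 (z, s))) = _
  have h1 : (n⁻¹ : VG S).1 (z, s) = (n⁻¹ • z, lab (n⁻¹ : VG S).1 z * s) := VG.apply _ _ _
  rw [h1, hg _ hz, ← h1]
  exact Equiv.apply_symm_apply n.1 (z, s)

lemma Spt.commute {g h : VG S} {U V : Set Dy} (hg : Spt g U) (hh : Spt h V)
    (hd : ∀ z, z ∈ U → z ∉ V) : g * h = h * g := by
  have h1 : Perm.Disjoint g.1 h.1 := by
    rintro ⟨z, s⟩
    by_cases hz : z ∈ U
    · exact Or.inr (hh z (hd z hz) s)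
    · exact Or.inl (hg z hz s)
  exact Subtype.ext h1.commute

lemma sup_ext {I : Type*} {u : I → List Bool} {U : Set Dy} (hu : IsP u U) {g h : VG S}
    (hgh : ∀ i, ∃ v a, IsCone g.1 (u i) v a ∧ IsCone h.1 (u i) v a) (hg : Spt g U)
    (hh : Spt h U) : g = h := by
  apply Subtype.ext
  ext1 ⟨z, s⟩
  by_cases hz : z ∈ U
  · obtain ⟨i, z', rfl⟩ := (hu.ran z).1 hz
    obtain ⟨v, a, h1, h2⟩ := hgh i
    rw [h1, h2]
  · rw [hg z hz, hh z hz]

lemma VG.phi_spt (w : List Bool) (g : VG S) : Spt (VG.phi w g) (Set.range (app w)) :=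
  fun z hz s => by rw [VG.phi_val, phi0_out w _ hz]

variable (S) in
/-- Permutations of a family of cones. -/
theorem exists_permV {J : Type*} [Finite J] {w : J → List Bool} {U : Set Dy} (hw : IsP w U) :
    ∃ f : Perm J →* VG S, (∀ σ j, IsCone (f σ).1 (w j) (w (σ j)) 1) ∧ ∀ σ, Spt (f σ) U := by
  have h : ∀ σ : Perm J, ∃ g : VG S, (∀ j, IsCone g.1 (w j) (w (σ j)) 1) ∧ Spt g U := by
    intro σ
    exact exists_supported hw (hw.comp σ) (fun _ => (1 : S))
  choose f hf1 hf2 using h
  refine ⟨MonoidHom.mk' f ?_, hf1, hf2⟩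
  intro σ τ
  apply sup_ext hw _ (hf2 _) ((hf2 σ).mul (hf2 τ))
  intro j
  refine ⟨_, 1, hf1 (σ * τ) j, ?_⟩
  have := (hf1 σ (τ j)).mul (hf1 τ j)
  rwa [mul_one] at this

/-- The label homomorphism on the cone of `u`. -/
noncomputable def lbl (u : List Bool) : S →* VG S :=
  (VG.phi u).comp ((cH).codRestrict (VG S) cH_mem)

lemma cH_cone (a : S) (u : List Bool) : IsCone (cH a : Perm (Dy × S)) u u a := fun z s => by
  rw [cH_apply]

lemma lbl_cone (u : List Bool) (a : S) : IsCone (lbl u a).1 u u a := by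
  have := phi0_cone (cH_cone a []) u
  rwa [List.append_nil] at this

lemma lbl_spt (u : List Bool) (a : S) : Spt (lbl u a) (Set.range (app u)) := VG.phi_spt u _

lemma isP_single (u : List Bool) : IsP (fun _ : Fin 1 => u) (Set.range (app u)) := by
  have := IsP.one.cons u
  simpa using this

variable (S) in
/-- The kernel of the action on points. -/
def Bk : Subgroup (VG S) where
  carrier := {g | ∀ z : Dy, g • z = z}
  one_mem' := fun z => one_smul _ z
  mul_mem' := fun {a b} ha hb z => by rw [mul_smul, hb, ha]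
  inv_mem' := fun {a} ha z => by rw [inv_smul_eq_iff, ha]

lemma mem_Bk {g : VG S} : g ∈ Bk S ↔ ∀ z : Dy, g • z = z := Iff.rfl

instance : (Bk S).Normal where
  conj_mem := by
    intro n hn g z
    rw [mul_smul, mul_smul, hn, smul_inv_smul]

lemma Bk.cone {g : VG S} (hg : g ∈ Bk S) {u v : List Bool} {a : S} (h : IsCone g.1 u v a) :
    v = u := by
  apply app_word_inj
  intro z
  rw [← h.smul, hg]

/-- The commutator trick. -/
theorem exists_comm_mem {N : Subgroup (VG S)} [hN : N.Normal] (h : ¬ N ≤ Bk S) :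
    ∃ u : List Bool, u ≠ [] ∧ ∀ a b : VG S, ⁅VG.phi u a, VG.phi u b⁆ ∈ N := by
  obtain ⟨n, hn, hnB⟩ := Set.not_subset.1 h
  have hnB' : ¬ ∀ z : Dy, n • z = z := hnB
  push Not at hnB'
  obtain ⟨z, hz⟩ := hnB'
  obtain ⟨k, hk⟩ := exists_base_fin ![z, n • z]
  obtain ⟨u, z', v, a, hku, rfl, hc⟩ := VG.local n z (k + 1)
  rw [hc.smul] at hz
  -- extend the words so that the cones are disjoint
  obtain ⟨w, z'', hw, hz''⟩ := exists_app k z'
  subst hz''
  have hc' := hc.append w
  have hdj : Dj (u ++ w) (v ++ w) := by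
    obtain ⟨q, hq1, hq2⟩ := hk k le_rfl
    intro y y' e
    have e0 := hq2 0
    have e1 := hq2 1
    simp only [Matrix.cons_val_zero, Matrix.cons_val_one] at e0 e1
    rw [hc.smul] at e1
    have l0 := hq1 0
    have l1 := hq1 1
    obtain ⟨p0, hp0, -⟩ := app_prefix (u := q 0) (v := u ++ w) (z := []) (z' := z'')
      (by rw [e0, app_append]) (by simp; omega)
    obtain ⟨p1, hp1, -⟩ := app_prefix (u := q 1) (v := v ++ w) (z := []) (z' := z'')
      (by rw [e1, app_append]) (by simp; omega)
    rw [hp0, hp1, app_append, app_append] at e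
    have h2 := (app_eq_length e (by rw [l0, l1])).1
    apply hz
    rw [← e0, ← e1, h2]
  refine ⟨u ++ w, fun hcon => ?_, fun a b => ?_⟩
  · rw [hcon] at hdj
    exact hdj (app (v ++ w) []) [] rfl
  set x := VG.phi (u ++ w) a
  set y := VG.phi (u ++ w) b
  have hx : Spt x (Set.range (app (u ++ w))) := VG.phi_spt _ _
  have hy : Spt y (Set.range (app (u ++ w))) := VG.phi_spt _ _
  have h1 : n * x⁻¹ * n⁻¹ * y = y * (n * x⁻¹ * n⁻¹) := by
    apply Spt.commute (hx.inv.conj n) hy
    intro t ht ⟨t', ht'⟩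
    obtain ⟨t'', ht''⟩ := ht
    have : n • app (u ++ w) t'' = t := by rw [ht'', smul_inv_smul]
    rw [hc'.smul] at this
    rw [← this] at ht'
    exact hdj _ _ ht'
  have h2 : x * (n * x⁻¹ * n⁻¹) ∈ N := by
    have : x * (n * x⁻¹ * n⁻¹) = (x * n * x⁻¹) * n⁻¹ := by group
    rw [this]
    exact mul_mem (hN.conj_mem n hn x) (inv_mem hn)
  have h3 : ⁅x * (n * x⁻¹ * n⁻¹), y⁆ ∈ N := by
    rw [commutatorElement_def]
    have : x * (n * x⁻¹ * n⁻¹) * y * (x * (n * x⁻¹ * n⁻¹))⁻¹ * y⁻¹ =
        x * (n * x⁻¹ * n⁻¹) * (y * (x * (n * x⁻¹ * n⁻¹))⁻¹ * y⁻¹) := by group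
    rw [this]
    exact mul_mem h2 (hN.conj_mem _ (inv_mem h2) y)
  have h4 : ⁅x * (n * x⁻¹ * n⁻¹), y⁆ = ⁅x, y⁆ := by
    rw [commutatorElement_def, commutatorElement_def]
    calc x * (n * x⁻¹ * n⁻¹) * y * (x * (n * x⁻¹ * n⁻¹))⁻¹ * y⁻¹
        = x * ((n * x⁻¹ * n⁻¹) * y) * (n * x⁻¹ * n⁻¹)⁻¹ * x⁻¹ * y⁻¹ := by group
      _ = _ := by rw [h1]; group
  rw [h4] at h3
  exact h3

/-- A normal subgroup of a simple group with a nontrivial element contains everything. -/
lemma simple_all [hS : IsSimpleGroup S] {M : Subgroup S} (hM : M.Normal) {a : S} (ha : a ∈ M)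
    (ha1 : a ≠ 1) (b : S) : b ∈ M := by
  rcases hM.eq_bot_or_eq_top with h | h
  · rw [h, Subgroup.mem_bot] at ha
    exact absurd ha ha1
  · rw [h]
    trivial

section NormalCases

variable [hS : IsSimpleGroup S] (hab : ∃ a b : S, a * b ≠ b * a)

include hab

lemma lbl_mem_of {N : Subgroup (VG S)} [hN : N.Normal] {u : List Bool}
    (h : ∃ a : S, a ≠ 1 ∧ lbl u a ∈ N) (a : S) : lbl u a ∈ N := by
  obtain ⟨b, hb1, hb⟩ := h
  have hM : (N.comap (lbl u)).Normal := inferInstance
  exact simple_all hM (a := b) hb hb1 a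

/-- Labels and transpositions in small cones. -/
lemma small_mem {N : Subgroup (VG S)} [hN : N.Normal] {u : List Bool}
    (h : ∀ a b : VG S, ⁅VG.phi u a, VG.phi u b⁆ ∈ N) :
    (∀ a : S, lbl u a ∈ N) ∧ ∃ T ∈ N, IsCone T.1 (u ++ [false, false]) (u ++ [false, true]) 1 ∧
      IsCone T.1 (u ++ [false, true]) (u ++ [false, false]) 1 ∧
      Spt T (Set.range (app (u ++ [false, false])) ∪ Set.range (app (u ++ [false, true]))) := by
  constructor
  · obtain ⟨b, c, hbc⟩ := hab
    apply lbl_mem_of ⟨b, c, hbc⟩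
    refine ⟨⁅b, c⁆, ?_, ?_⟩
    · rw [Ne, commutatorElement_eq_one_iff_mul_comm]
      exact hbc
    · rw [map_commutatorElement]
      exact h _ _
  · let w : Fin 4 → List Bool := ![[false, false, false], [false, false, true],
      [false, true, false], [false, true, true]]
    have hwP : IsP w (Set.range (app [false])) := by
      have h1 : IsP ![[false, false], [false, true], [true, false], [true, true]]
          (Set.univ : Set Dy) := by
        constructor
        · intro i j z z' e
          fin_cases i <;> fin_cases j <;> first | rfl | exact absurd (app_eq_length e rfl).1 (by decide)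
        · intro z
          refine ⟨fun _ => ?_, fun _ => trivial⟩
          obtain ⟨b, z1, rfl⟩ := bz_surj z
          obtain ⟨c, z2, rfl⟩ := bz_surj z1
          cases b <;> cases c
          · exact ⟨0, z2, rfl⟩
          · exact ⟨1, z2, rfl⟩
          · exact ⟨2, z2, rfl⟩
          · exact ⟨3, z2, rfl⟩
      have h2 := h1.cons [false]
      convert h2 using 1
      funext i
      fin_cases i <;> rfl
    obtain ⟨f, hf1, hf2⟩ := exists_permV S hwP
    have hcomm : (swap 0 2 * swap 1 3 : Perm (Fin 4)) =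
        ⁅(swap 0 2 : Perm (Fin 4)), (swap 0 1 * swap 2 3 : Perm (Fin 4))⁆ := by
      decide
    refine ⟨VG.phi u (f (swap 0 2 * swap 1 3)), ?_, ?_, ?_, ?_⟩
    · rw [hcomm, map_commutatorElement, map_commutatorElement]
      exact h _ _
    · have h1 : IsCone (f (swap 0 2 * swap 1 3)).1 [false, false] [false, true] 1 := by
        intro z s
        obtain ⟨b, z', rfl⟩ := bz_surj z
        cases b
        · exact hf1 (swap 0 2 * swap 1 3) 0 z' s
        · exact hf1 (swap 0 2 * swap 1 3) 1 z' s
      exact phi0_cone h1 u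
    · have h1 : IsCone (f (swap 0 2 * swap 1 3)).1 [false, true] [false, false] 1 := by
        intro z s
        obtain ⟨b, z', rfl⟩ := bz_surj z
        cases b
        · exact hf1 (swap 0 2 * swap 1 3) 2 z' s
        · exact hf1 (swap 0 2 * swap 1 3) 3 z' s
      exact phi0_cone h1 u
    · intro z hz s
      by_cases hzu : z ∈ Set.range (app u)
      · obtain ⟨z', rfl⟩ := hzu
        rw [VG.phi_val, phi0_in]
        have h2 : z' ∉ Set.range (app [false]) := by
          rintro ⟨z'', rfl⟩
          apply hz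
          obtain ⟨b, y, rfl⟩ := bz_surj z''
          cases b
          · left
            exact ⟨y, by rw [app_append]; rfl⟩
          · right
            exact ⟨y, by rw [app_append]; rfl⟩
        rw [hf2 _ z' h2]
      · exact VG.phi_spt u _ z hzu s

/-- Transport of labels. -/
lemma lbl_mem_all {N : Subgroup (VG S)} [hN : N.Normal] {u : List Bool} (hu : u ≠ [])
    (h : ∀ a : S, lbl u a ∈ N) {x : List Bool} (hx : x ≠ []) (a : S) : lbl x a ∈ N := by
  have hne : ∀ {y : List Bool}, y ≠ [] → (Set.range (app y))ᶜ.Nonempty := by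
    intro y hy
    rcases y with _ | ⟨b, y⟩
    · exact absurd rfl hy
    · refine ⟨app [!b] [], ?_⟩
      rintro ⟨z, hz⟩
      simp only [app_cons] at hz
      have := (bz_inj hz).1
      cases b <;> simp at this
  obtain ⟨g, hg⟩ := exists_transport (isP_single x) (isP_single u) (hne hx) (hne hu)
    (fun _ => (1 : S))
  have e : lbl x a = g⁻¹ * lbl u a * g := by
    have h1 : g * lbl x a * g⁻¹ = lbl u a := by
      apply sup_ext (isP_single u) _ _ (lbl_spt u a)
      · intro i
        refine ⟨u, a, ?_, lbl_cone u a⟩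
        have := ((hg i).mul (lbl_cone x a)).mul (hg i).inv
        simpa using this
      · apply ((lbl_spt x a).conj g).mono
        rintro z ⟨z', hz'⟩
        refine ⟨z', ?_⟩
        rw [← (hg 0).smul, hz', smul_inv_smul]
    rw [← h1]
    group
  rw [e]
  have := hN.conj_mem _ (h a) g⁻¹
  rwa [inv_inv] at this

omit hS hab in
/-- Transport of transpositions. -/
lemma swap_mem_all {N : Subgroup (VG S)} [hN : N.Normal] {u v : List Bool} (huv : Dj u v)
    (hne : (Set.range (app u) ∪ Set.range (app v))ᶜ.Nonempty)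
    (h : ∃ T ∈ N, IsCone T.1 u v 1 ∧ IsCone T.1 v u 1 ∧
      Spt T (Set.range (app u) ∪ Set.range (app v))) {x y : List Bool} (hxy : Dj x y)
    (hne' : (Set.range (app x) ∪ Set.range (app y))ᶜ.Nonempty) {T' : VG S}
    (h1 : IsCone T'.1 x y 1) (h2 : IsCone T'.1 y x 1)
    (h3 : Spt T' (Set.range (app x) ∪ Set.range (app y))) : T' ∈ N := by
  obtain ⟨T, hT, t1, t2, t3⟩ := h
  obtain ⟨g, hg⟩ := exists_transport hxy.isP huv.isP hne' hne (fun _ => (1 : S))
  have g0 : IsCone g.1 x u 1 := hg 0
  have g1 : IsCone g.1 y v 1 := hg 1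
  have e : g * T' * g⁻¹ = T := by
    apply sup_ext huv.isP _ _ t3
    · intro i
      fin_cases i
      · refine ⟨v, 1, ?_, t1⟩
        have := (g1.mul h1).mul g0.inv
        simpa using this
      · refine ⟨u, 1, ?_, t2⟩
        have := (g0.mul h2).mul g1.inv
        simpa using this
    · apply (h3.conj g).mono
      rintro z (⟨z', hz'⟩ | ⟨z', hz'⟩)
      · left
        exact ⟨z', by rw [← g0.smul, hz', smul_inv_smul]⟩
      · right
        exact ⟨z', by rw [← g1.smul, hz', smul_inv_smul]⟩
  have e2 : T' = g⁻¹ * T * g := by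
    rw [← e]
    group
  rw [e2]
  have := hN.conj_mem _ hT g⁻¹
  rwa [inv_inv] at this

omit hS hab in
lemma Spt.cone {g : VG S} {U : Set Dy} (hg : Spt g U) {w : List Bool} (h : ∀ z, app w z ∉ U) :
    IsCone g.1 w w 1 := fun z s => by rw [hg _ (h z), one_mul]

omit hS hab in
lemma Dj.not_mem {w x y : List Bool} (h1 : Dj w x) (h2 : Dj w y) (z : Dy) :
    app w z ∉ Set.range (app x) ∪ Set.range (app y) := by
  rintro (⟨z', h⟩ | ⟨z', h⟩)
  · exact h1 _ _ h.symm
  · exact h2 _ _ h.symm

omit hS hab in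
lemma isP_three : IsP ![[false], [true, false], [true, true]] (Set.univ : Set Dy) := by
  constructor
  · have d1 : Dj [false] [true, false] := (Dj.of_length (u := [false]) (v := [true]) rfl
      (by decide)).append [] [false]
    have d2 : Dj [false] [true, true] := (Dj.of_length (u := [false]) (v := [true]) rfl
      (by decide)).append [] [true]
    have d3 : Dj [true, false] [true, true] := Dj.of_length rfl (by decide)
    intro i j z z' e
    fin_cases i <;> fin_cases j
    · rfl
    · exact (d1 _ _ e).elim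
    · exact (d2 _ _ e).elim
    · exact (d1 _ _ e.symm).elim
    · rfl
    · exact (d3 _ _ e).elim
    · exact (d2 _ _ e.symm).elim
    · exact (d3 _ _ e.symm).elim
    · rfl
  · intro z
    refine ⟨fun _ => ?_, fun _ => trivial⟩
    obtain ⟨b, z1, rfl⟩ := bz_surj z
    obtain ⟨c, z2, rfl⟩ := bz_surj z1
    cases b
    · exact ⟨0, bz c z2, rfl⟩
    · cases c
      · exact ⟨1, z2, rfl⟩
      · exact ⟨2, z2, rfl⟩

omit hS hab in
lemma isP_two : IsP ![[false], [true]] (Set.univ : Set Dy) := by
  have h := (Dj.of_length (u := [false]) (v := [true]) rfl (by decide)).isP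
  have e : Set.range (app [false]) ∪ Set.range (app [true]) = Set.univ := by
    ext z
    simp only [Set.mem_univ, iff_true]
    exact dy_cases z
  rwa [e] at h

omit hS hab in
lemma isP_four : IsP ![[false, false], [false, true], [true, false], [true, true]]
    (Set.univ : Set Dy) := by
  constructor
  · intro i j z z' e
    fin_cases i <;> fin_cases j <;> first | rfl | exact absurd (app_eq_length e rfl).1 (by decide)
  · intro z
    refine ⟨fun _ => ?_, fun _ => trivial⟩
    obtain ⟨b, z1, rfl⟩ := bz_surj z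
    obtain ⟨c, z2, rfl⟩ := bz_surj z1
    cases b <;> cases c
    · exact ⟨0, z2, rfl⟩
    · exact ⟨1, z2, rfl⟩
    · exact ⟨2, z2, rfl⟩
    · exact ⟨3, z2, rfl⟩

/-- A normal subgroup acting nontrivially on points is everything. -/
theorem normal_top {N : Subgroup (VG S)} [hN : N.Normal] (h : ¬ N ≤ Bk S) : N = ⊤ := by
  obtain ⟨u, hu0, hu⟩ := exists_comm_mem h
  obtain ⟨hl, hT⟩ := small_mem hab hu
  have hlbl : ∀ {x : List Bool}, x ≠ [] → ∀ a : S, lbl x a ∈ N := fun hx a =>
    lbl_mem_all hab hu0 hl hx a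
  have hsw : ∀ {x y w : List Bool}, Dj x y → Dj w x → Dj w y → ∀ {T' : VG S},
      IsCone T'.1 x y 1 → IsCone T'.1 y x 1 →
      Spt T' (Set.range (app x) ∪ Set.range (app y)) → T' ∈ N := by
    intro x y w hxy hwx hwy T' h1 h2 h3
    refine swap_mem_all (u := u ++ [false, false]) (v := u ++ [false, true])
      (Dj.of_length (by simp) (by simp)) ⟨app (u ++ [true]) [], ?_⟩ hT hxy
      ⟨app w [], Dj.not_mem hwx hwy []⟩ h1 h2 h3
    have d : Dj [true] [false] := Dj.of_length rfl (by decide)
    apply Dj.not_mem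
    · intro z z' e
      rw [app_append, app_append] at e
      exact (d.append [] [false]) _ _ (app_inj e)
    · intro z z' e
      rw [app_append, app_append] at e
      exact (d.append [] [true]) _ _ (app_inj e)
  have dft : Dj [false] [true] := Dj.of_length rfl (by decide)
  have dtf : Dj [true] [false] := dft.symm
  -- the swap of the two halves
  have hs : ∀ {s : VG S}, IsCone s.1 [false] [true] 1 → IsCone s.1 [true] [false] 1 → s ∈ N := by
    intro s hs1 hs2
    obtain ⟨A, hA1, hA2, hA3⟩ := exists_swap S (u := [false, false]) (v := [true, false])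
      (Dj.of_length rfl (by decide))
    obtain ⟨B, hB1, hB2, hB3⟩ := exists_swap S (u := [false, true]) (v := [true, true])
      (Dj.of_length rfl (by decide))
    have hA : A ∈ N := hsw (x := [false, false]) (y := [true, false]) (w := [true, true])
      (Dj.of_length rfl (by decide))
      (Dj.of_length rfl (by decide)) (Dj.of_length rfl (by decide)) hA1 hA2 hA3
    have hB : B ∈ N := hsw (x := [false, true]) (y := [true, true]) (w := [true, false])
      (Dj.of_length rfl (by decide))
      (Dj.of_length rfl (by decide)) (Dj.of_length rfl (by decide)) hB1 hB2 hB3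
    have hA4 : IsCone A.1 [false, true] [false, true] 1 := Spt.cone hA3
      (Dj.not_mem (Dj.of_length rfl (by decide)) (Dj.of_length rfl (by decide)))
    have hA5 : IsCone A.1 [true, true] [true, true] 1 := Spt.cone hA3
      (Dj.not_mem (Dj.of_length rfl (by decide)) (Dj.of_length rfl (by decide)))
    have hB4 : IsCone B.1 [false, false] [false, false] 1 := Spt.cone hB3
      (Dj.not_mem (Dj.of_length rfl (by decide)) (Dj.of_length rfl (by decide)))
    have hB5 : IsCone B.1 [true, false] [true, false] 1 := Spt.cone hB3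
      (Dj.not_mem (Dj.of_length rfl (by decide)) (Dj.of_length rfl (by decide)))
    have e : s = A * B := by
      apply Subtype.ext
      apply eq_of_isP isP_four
      intro i
      fin_cases i
      · exact ⟨[true, false], 1, hs1.append [false], by simpa using hA1.mul hB4⟩
      · exact ⟨[true, true], 1, hs1.append [true], by simpa using hA5.mul hB1⟩
      · exact ⟨[false, false], 1, hs2.append [false], by simpa using hA2.mul hB5⟩
      · exact ⟨[false, true], 1, hs2.append [true], by simpa using hA4.mul hB2⟩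
    rw [e]
    exact mul_mem hA hB
  obtain ⟨s, hs1, hs2, -⟩ := exists_swap S (u := [false]) (v := [true]) dft
  have hsN : s ∈ N := hs hs1 hs2
  -- the splitting
  have ht : (⟨tsp 0, tsp_mem⟩ : VG S) ∈ N := by
    obtain ⟨A, hA1, hA2, hA3⟩ := exists_swap S (u := [false]) (v := [true, false])
      (dft.append [] [false])
    have hA : A ∈ N := hsw (w := [true, true]) (dft.append [] [false])
      (dtf.append [true] []) (Dj.of_length rfl (by decide)) hA1 hA2 hA3
    have hA4 : IsCone A.1 [true, true] [true, true] 1 := Spt.cone hA3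
      (Dj.not_mem (dtf.append [true] []) (Dj.of_length rfl (by decide)))
    have e : (⟨tsp 0, tsp_mem⟩ : VG S) = s * A := by
      apply Subtype.ext
      apply eq_of_isP isP_three
      intro i
      fin_cases i
      · exact ⟨[false, false], 1, tsp_cone_zw, by simpa using (hs2.append [false]).mul hA1⟩
      · exact ⟨[true], 1, tsp_cone_false, by simpa using hs1.mul hA2⟩
      · exact ⟨[false, true], 1, tsp_cone_true, by simpa using (hs2.append [true]).mul hA4⟩
    rw [e]
    exact mul_mem hsN hA
  -- adjacent transpositions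
  have hrcd : ∀ {i j : ℕ}, i ≠ j → Dj (rc i) (rc j) := by
    intro i j hij z z' e
    rw [app_rc, app_rc] at e
    exact hij (List.cons.inj e).1
  have hsw2 : ∀ {p : Perm ℕ} {i j l : ℕ} (hp' : hp p ∈ VG S), i ≠ j → l ≠ i → l ≠ j →
      p i = j → p j = i → (∀ m, m ≠ i → m ≠ j → p m = m) → (⟨hp p, hp'⟩ : VG S) ∈ N := by
    intro p i j l hp' hij hli hlj hpi hpj hpo
    apply hsw (hrcd hij) (hrcd hli) (hrcd hlj)
    · have := hp_cone (S := S) p i []
      rwa [List.append_nil, List.append_nil, hpi] at this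
    · have := hp_cone (S := S) p j []
      rwa [List.append_nil, List.append_nil, hpj] at this
    · intro z hz t
      rcases z with _ | ⟨m, z⟩
      · rfl
      · change (p m :: z, t) = _
        rw [hpo]
        · rintro rfl
          exact hz (Or.inl ⟨z, by rw [app_rc]⟩)
        · rintro rfl
          exact hz (Or.inr ⟨z, by rw [app_rc]⟩)
  -- the stabilizer of the base point
  have hGb : Gb S ≤ N.map (VG S).subtype := by
    unfold Gb
    rw [Subgroup.closure_le]
    rintro _ (((rfl | rfl | rfl) | ⟨a, rfl⟩) | ⟨a, rfl⟩)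
    · exact ⟨⟨_, Gb_le_VG Gb_x0⟩, hsw2 (i := 0) (j := 1) (l := 2) _ (by decide) (by decide)
        (by decide) (swap_apply_left _ _) (swap_apply_right _ _)
        (fun m h1 h2 => swap_apply_of_ne_of_ne h1 h2), rfl⟩
    · exact ⟨⟨_, Gb_le_VG Gb_x1⟩, hsw2 (i := 1) (j := 2) (l := 0) _ (by decide) (by decide)
        (by decide) (swap_apply_left _ _) (swap_apply_right _ _)
        (fun m h1 h2 => swap_apply_of_ne_of_ne h1 h2), rfl⟩
    · exact ⟨_, ht, rfl⟩
    · refine ⟨lbl [true] a, hlbl (by simp) a, ?_⟩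
      change (lbl [true] a).1 = sH a
      apply eq_of_isP isP_two
      intro i
      fin_cases i
      · refine ⟨[false], 1, (lbl_spt [true] a).cone false_not_true, ?_⟩
        exact lb_cone_zw (Pi.mulSingle 0 a, 1) 1 (fun i hi => by
          change Pi.mulSingle (M := fun _ : ℕ => S) 0 a i = 1
          rw [Pi.mulSingle_eq_of_ne (by omega)])
      · refine ⟨[true], a, lbl_cone [true] a, ?_⟩
        intro z t
        change sH a (0 :: z, t) = _
        rw [sH_zero]
        rfl
    · refine ⟨lbl [false] a * lbl [true] a, mul_mem (hlbl (by simp) a) (hlbl (by simp) a), ?_⟩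
      change (lbl [false] a * lbl [true] a).1 = cH a
      apply eq_of_isP isP_two
      intro i
      fin_cases i
      · refine ⟨[false], a, ?_, cH_cone a _⟩
        simpa using (lbl_cone [false] a).mul ((lbl_spt [true] a).cone false_not_true)
      · refine ⟨[true], a, ?_, cH_cone a _⟩
        simpa using ((lbl_spt [false] a).cone true_not_false).mul (lbl_cone [true] a)
  have hstab : ∀ g ∈ stabilizer (VG S) ([] : Dy), g ∈ N := by
    intro g hg
    have h1 : g.1 ∈ Gb S := by
      rw [mem_Gb_iff]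
      refine ⟨g.2, fun t => ⟨?_, ?_⟩⟩
      · have h1 : g • ([] : Dy) = [] := hg
        rw [VG.apply, h1]
      · have h1 : g⁻¹ • ([] : Dy) = [] := (inv_mem hg : g⁻¹ ∈ stabilizer (VG S) ([] : Dy))
        change ((g⁻¹ : VG S).1 ([], t)).1 = []
        rw [VG.apply, h1]
    obtain ⟨n, hn, hng⟩ := hGb h1
    rwa [Subtype.ext (show n.1 = g.1 from hng)] at hn
  rw [eq_top_iff]
  intro g _
  rcases two_transitive_form (z0 := ([] : Dy)) (z1 := [0]) (s := s) (hs1.smul []) (by
    intro z hz
    obtain ⟨g, hg0, hg1⟩ := VG.two S (a := []) (b := [0]) (c := []) (d := z) (by simp)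
      (Ne.symm hz)
    exact ⟨g, hg0, hg1⟩) g with h1 | ⟨a, ha, b, hb, rfl⟩
  · exact hstab g h1
  · exact mul_mem (mul_mem (hstab a ha) hsN) (hstab b hb)

lemma center_trivial {a : S} (ha : ∀ b : S, b * a = a * b) : a = 1 := by
  rcases (inferInstance : (Subgroup.center S).Normal).eq_bot_or_eq_top with h | h
  · have : a ∈ Subgroup.center S := Subgroup.mem_center_iff.2 ha
    rwa [h, Subgroup.mem_bot] at this
  · exfalso
    obtain ⟨b, c, hbc⟩ := hab
    have : b ∈ Subgroup.center S := by rw [h]; trivial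
    exact hbc (Subgroup.mem_center_iff.1 this c).symm

/-- Normal subgroups acting trivially on points. -/
theorem normal_bot {N : Subgroup (VG S)} [hN : N.Normal] (h : N ≤ Bk S) : N = ⊥ ∨ N = Bk S := by
  by_cases hbot : N = ⊥
  · exact Or.inl hbot
  right
  apply le_antisymm h
  obtain ⟨⟨n, hn⟩, hn1'⟩ := Subgroup.ne_bot_iff_exists_ne_one.1 hbot
  have hn1 : n ≠ 1 := fun h => hn1' (Subtype.ext h)
  have hnB := h hn
  obtain ⟨z, hz⟩ : ∃ z, lab n.1 z ≠ 1 := by
    by_contra hcon
    push Not at hcon
    apply hn1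
    apply VG.ext
    · intro z
      rw [hnB z, one_smul]
    · intro z
      rw [hcon]
      rfl
  obtain ⟨u, z', v, a, hku, rfl, hc⟩ := VG.local n z 1
  rw [hc.lab_eq] at hz
  have hvu := Bk.cone hnB hc
  subst hvu
  have hv0 : v ≠ [] := by
    rintro rfl
    simp at hku
  obtain ⟨b, hb⟩ : ∃ b : S, b * a ≠ a * b := by
    by_contra hcon
    push Not at hcon
    exact hz (center_trivial hab hcon)
  have hcomm : lbl v ⁅b, a⁆ ∈ N := by
    have e : lbl v ⁅b, a⁆ = lbl v b * (n * (lbl v b)⁻¹ * n⁻¹) := by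
      apply sup_ext (isP_single v) _ (lbl_spt v _)
      · apply (lbl_spt v b).mul
        apply ((lbl_spt v b).inv.conj n).mono
        intro z hz
        have : n⁻¹ • z ∈ Set.range (app v) := hz
        rwa [(inv_mem hnB : n⁻¹ ∈ Bk S) z] at this
      · intro i
        refine ⟨v, ⁅b, a⁆, lbl_cone v _, ?_⟩
        have := (lbl_cone v b).mul ((hc.mul (lbl_cone v b).inv).mul hc.inv)
        have e2 : ⁅b, a⁆ = b * (a * b⁻¹ * a⁻¹) := by
          rw [commutatorElement_def]
          group
        rw [e2]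
        exact this
    rw [e]
    have e3 : lbl v b * (n * (lbl v b)⁻¹ * n⁻¹) = (lbl v b * n * (lbl v b)⁻¹) * n⁻¹ := by group
    rw [e3]
    exact mul_mem (hN.conj_mem n hn _) (inv_mem hn)
  have hall : ∀ c : S, lbl v c ∈ N := lbl_mem_of hab ⟨⁅b, a⁆, by
    rw [Ne, commutatorElement_eq_one_iff_mul_comm]
    exact hb, hcomm⟩
  have hall2 : ∀ {x : List Bool}, x ≠ [] → ∀ c : S, lbl x c ∈ N := fun hx c =>
    lbl_mem_all hab hv0 hall hx c
  intro β hβ
  obtain ⟨k, hk⟩ := β.2
  have hk2 : ∀ w : List Bool, w.length = k + 1 → ∃ c, IsCone β.1 w w c := by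
    intro w hw
    obtain ⟨v', c, hc'⟩ := CL.of_length hk w (by omega)
    have := Bk.cone hβ hc'
    subst this
    exact ⟨c, hc'⟩
  choose! c hcβ using hk2
  classical
  have hF : ∀ F : Finset (List Bool), (∀ w ∈ F, w.length = k + 1) → ∃ m ∈ N,
      (∀ w ∈ F, IsCone m.1 w w (c w)) ∧ ∀ w ∉ F, w.length = k + 1 → IsCone m.1 w w 1 := by
    intro F
    induction F using Finset.induction_on with
    | empty => exact fun _ => ⟨1, one_mem _, by simp, fun w _ _ => IsCone.one w⟩
    | insert w0 F hw0 ih =>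
      intro hF
      obtain ⟨m, hm, hm1, hm2⟩ := ih (fun w hw => hF w (Finset.mem_insert_of_mem hw))
      have hl0 := hF w0 (Finset.mem_insert_self _ _)
      refine ⟨lbl w0 (c w0) * m, mul_mem (hall2 (by rintro rfl; simp at hl0) _) hm, ?_, ?_⟩
      · intro w hw
        rw [Finset.mem_insert] at hw
        rcases hw with rfl | hw
        · have := (lbl_cone w (c w)).mul (hm2 w hw0 hl0)
          rwa [mul_one] at this
        · have hne : w ≠ w0 := by
            rintro rfl
            exact hw0 hw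
          have hlw := hF w (Finset.mem_insert_of_mem hw)
          have h1 : IsCone (lbl w0 (c w0)).1 w w 1 := (lbl_spt w0 (c w0)).cone
            (fun z => not_mem_cone_of_ne (hlw.trans hl0.symm) hne z)
          have := h1.mul (hm1 w hw)
          rwa [one_mul] at this
      · intro w hw hlw
        rw [Finset.mem_insert, not_or] at hw
        have h1 : IsCone (lbl w0 (c w0)).1 w w 1 := (lbl_spt w0 (c w0)).cone
            (fun z => not_mem_cone_of_ne (hlw.trans hl0.symm) hw.1 z)
        have := h1.mul (hm2 w hw.2 hlw)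
        rwa [one_mul] at this
  obtain ⟨m, hm, hm1, -⟩ := hF (List.finite_length_eq Bool (k + 1)).toFinset (by
    intro w hw
    simpa using hw)
  have e : β = m := by
    apply Subtype.ext
    ext1 ⟨z, s⟩
    obtain ⟨w, z', hw, rfl⟩ := exists_app (k + 1) z
    rw [hcβ w hw, hm1 w (by simpa using hw)]
  rw [e]
  exact hm

theorem normal_cases {N : Subgroup (VG S)} [hN : N.Normal] : N = ⊥ ∨ N = Bk S ∨ N = ⊤ := by
  by_cases h : N ≤ Bk S
  · rcases normal_bot hab h with h | h
    · exact Or.inl h
    · exact Or.inr (Or.inl h)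
  · exact Or.inr (Or.inr (normal_top hab h))

theorem finite_normal : Finite {N : Subgroup (VG S) // N.Normal} := by
  have : Set.Finite {N : Subgroup (VG S) | N.Normal} := by
    apply Set.Finite.subset (Set.toFinite {⊥, Bk S, ⊤})
    intro N hN
    have : N.Normal := hN
    exact normal_cases hab
  exact this.to_subtype

end NormalCases

end Normal

end Pool.Agent.Helper13
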