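import Pool.Agent.Helper13.VGroup

set_option autoImplicit false

/-!
# Partitions into cones
-/

namespace Pool.Agent.Helper13

open Equiv

/-- The cones of the words `u i` form a partition of `U`. -/
structure IsP {I : Type*} (u : I → List Bool) (U : Set Dy) : Prop where
  inj : ∀ {i j : I} {z z' : Dy}, app (u i) z = app (u j) z' → i = j
  ran : ∀ z, z ∈ U ↔ ∃ i z', app (u i) z' = z

namespace IsP

variable {I J : Type*} {u : I → List Bool} {v : J → List Bool} {U V : Set Dy}

lemma mem (h : IsP u U) (i : I) (z : Dy) : app (u i) z ∈ U := (h.ran _).2 ⟨i, z, rfl⟩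

lemma one : IsP (fun _ : Fin 1 => ([] : List Bool)) Set.univ where
  inj := fun {i j} {z z'} _ => Subsingleton.elim _ _
  ran z := by
    constructor
    · intro _; exact ⟨0, z, rfl⟩
    · intro _; trivial

lemma empty : IsP (fun i : Fin 0 => (i.elim0 : List Bool)) ∅ where
  inj := fun {i j} {z z'} _ => i.elim0
  ran z := by
    constructor
    · intro h; exact h.elim
    · rintro ⟨i, -⟩; exact i.elim0

lemma sum (hu : IsP u U) (hv : IsP v V) (hd : Disjoint U V) : IsP (Sum.elim u v) (U ∪ V) where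
  inj := by
    rintro (i | i) (j | j) z z' h
    · rw [hu.inj h]
    · exact (Set.disjoint_left.1 hd (hu.mem i z) (by rw [show app (u i) z = app (v j) z' from h]; exact hv.mem j z')).elim
    · exact (Set.disjoint_left.1 hd (hu.mem j z') (by rw [← show app (v i) z = app (u j) z' from h]; exact hv.mem i z)).elim
    · rw [hv.inj h]
  ran z := by
    rw [Set.mem_union, hu.ran, hv.ran]
    constructor
    · rintro (⟨i, z', h⟩ | ⟨i, z', h⟩)
      · exact ⟨Sum.inl i, z', h⟩
      · exact ⟨Sum.inr i, z', h⟩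
    · rintro ⟨i | i, z', h⟩
      · exact Or.inl ⟨i, z', h⟩
      · exact Or.inr ⟨i, z', h⟩

lemma comp (hu : IsP u U) (e : J ≃ I) : IsP (fun j => u (e j)) U where
  inj := fun h => e.injective (hu.inj h)
  ran z := by
    rw [hu.ran]
    constructor
    · rintro ⟨i, z', h⟩
      exact ⟨e.symm i, z', by rw [e.apply_symm_apply]; exact h⟩
    · rintro ⟨j, z', h⟩
      exact ⟨e j, z', h⟩

/-- Prepend a word. -/
lemma cons (hu : IsP u Set.univ) (w : List Bool) :
    IsP (fun i => w ++ u i) (Set.range (app w)) where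
  inj := fun {i j} {z z'} h => by
    simp only [app_append] at h
    exact hu.inj (app_inj h)
  ran z := by
    constructor
    · rintro ⟨z', rfl⟩
      obtain ⟨i, z'', h⟩ := (hu.ran z').1 trivial
      exact ⟨i, z'', by rw [app_append, h]⟩
    · rintro ⟨i, z', rfl⟩
      exact ⟨app (u i) z', by rw [app_append]⟩

/-- Split one cone. -/
lemma split [DecidableEq I] (hu : IsP u U) (i0 : I) :
    IsP (fun o : Option I => match o with
      | none => u i0 ++ [true]
      | some i => if i = i0 then u i0 ++ [false] else u i) U where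
  inj := by
    have h1 : ∀ (i : I) z z', app (u i0 ++ [true]) z =
        app (if i = i0 then u i0 ++ [false] else u i) z' → False := by
      intro i z z' h
      split_ifs at h with h2
      · have := (app_eq_length h (by simp)).1
        simp at this
      · rw [app_append] at h
        exact h2 (hu.inj h).symm
    rintro (_ | i) (_ | j) z z' h
    · rfl
    · exact (h1 j z z' h).elim
    · exact (h1 i z' z h.symm).elim
    · simp only at h
      by_cases hi : i = i0 <;> by_cases hj : j = i0
      · rw [hi, hj]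
      · rw [if_pos hi, if_neg hj, app_append] at h
        exact (hj (hu.inj h).symm).elim
      · rw [if_neg hi, if_pos hj, app_append] at h
        exact (hi (hu.inj h)).elim
      · rw [if_neg hi, if_neg hj] at h
        rw [hu.inj h]
  ran z := by
    rw [hu.ran]
    constructor
    · rintro ⟨i, z', rfl⟩
      by_cases hi : i = i0
      · subst hi
        obtain ⟨b, z'', rfl⟩ := bz_surj z'
        cases b
        · refine ⟨some i, z'', ?_⟩
          simp only [if_true]
          rw [app_append]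
          rfl
        · refine ⟨none, z'', ?_⟩
          simp only
          rw [app_append]
          rfl
      · exact ⟨some i, z', by simp only [if_neg hi]⟩
    · rintro ⟨_ | i, z', rfl⟩
      · exact ⟨i0, app [true] z', by rw [← app_append]⟩
      · by_cases hi : i = i0
        · simp only [if_pos hi]
          exact ⟨i0, app [false] z', by rw [← app_append]⟩
        · simp only [if_neg hi]
          exact ⟨i, z', rfl⟩

end IsP

/-- A finite union of cones. -/
def Clo (U : Set Dy) : Prop :=
  ∃ k, ∀ u : List Bool, u.length = k → (∀ z, app u z ∈ U) ∨ (∀ z, app u z ∉ U)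

lemma Clo.ge {U : Set Dy} {k : ℕ} (h : ∀ u : List Bool, u.length = k →
    (∀ z, app u z ∈ U) ∨ (∀ z, app u z ∉ U)) (u : List Bool) (hu : k ≤ u.length) :
    (∀ z, app u z ∈ U) ∨ (∀ z, app u z ∉ U) := by
  rcases h (u.take k) (by simpa using hu) with h1 | h1
  · left
    intro z
    have := h1 (app (u.drop k) z)
    rwa [← app_append, List.take_append_drop] at this
  · right
    intro z
    have := h1 (app (u.drop k) z)
    rwa [← app_append, List.take_append_drop] at this

lemma Clo.compl {U : Set Dy} (h : Clo U) : Clo Uᶜ := by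
  obtain ⟨k, hk⟩ := h
  refine ⟨k, fun u hu => ?_⟩
  rcases hk u hu with h | h
  · exact Or.inr (fun z hz => hz (h z))
  · exact Or.inl (fun z hz => h z hz)

lemma Clo.inter {U V : Set Dy} (hU : Clo U) (hV : Clo V) : Clo (U ∩ V) := by
  obtain ⟨k, hk⟩ := hU
  obtain ⟨l, hl⟩ := hV
  refine ⟨k + l, fun u hu => ?_⟩
  rcases Clo.ge hk u (by omega) with h | h
  · rcases Clo.ge hl u (by omega) with h' | h'
    · exact Or.inl (fun z => ⟨h z, h' z⟩)
    · exact Or.inr (fun z hz => h' z hz.2)
  · exact Or.inr (fun z hz => h z hz.1)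

lemma Clo.cone (w : List Bool) : Clo (Set.range (app w)) := by
  refine ⟨w.length, fun u hu => ?_⟩
  by_cases h : u = w
  · subst h
    exact Or.inl (fun z => ⟨z, rfl⟩)
  · right
    rintro z ⟨z', hz⟩
    exact h (app_eq_length hz hu.symm).1.symm

lemma Clo.preimage {U : Set Dy} (h : Clo U) (w : List Bool) : Clo (app w ⁻¹' U) := by
  obtain ⟨k, hk⟩ := h
  refine ⟨k, fun u hu => ?_⟩
  rcases Clo.ge hk (w ++ u) (by simp; omega) with h | h
  · left
    intro z
    have := h z
    rwa [app_append] at this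
  · right
    intro z
    have := h z
    rwa [app_append] at this

/-- A clopen set has a partition. -/
lemma Clo.exists_isP {U : Set Dy} (h : Clo U) : ∃ n, ∃ u : Fin n → List Bool, IsP u U := by
  obtain ⟨k, hk⟩ := h
  let I := {u : List Bool // u.length = k ∧ ∀ z, app u z ∈ U}
  have hfin : Finite I := by
    apply Set.Finite.to_subtype
    exact (List.finite_length_eq Bool k).subset (fun u hu => hu.1)
  have hP : IsP (fun u : I => u.1) U := by
    constructor
    · rintro ⟨u, hu⟩ ⟨v, hv⟩ z z' h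
      exact Subtype.ext (app_eq_length h (hu.1.trans hv.1.symm)).1
    · intro z
      constructor
      · intro hz
        obtain ⟨u, z', hu, rfl⟩ := exists_app k z
        refine ⟨⟨u, hu, ?_⟩, z', rfl⟩
        rcases hk u hu with h | h
        · exact h
        · exact (h z' hz).elim
      · rintro ⟨⟨u, hu⟩, z', rfl⟩
        exact hu.2 z'
  obtain ⟨n, ⟨e⟩⟩ := Finite.exists_equiv_fin I
  exact ⟨n, _, hP.comp e.symm⟩

lemma IsP.clo {I : Type*} [Finite I] {u : I → List Bool} {U : Set Dy} (h : IsP u U) : Clo U := by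
  obtain ⟨k, hk⟩ : ∃ k, ∀ i, (u i).length ≤ k := by
    obtain ⟨k, hk⟩ := (Set.finite_range (fun i => (u i).length)).bddAbove
    exact ⟨k, fun i => hk ⟨i, rfl⟩⟩
  refine ⟨k, fun w hw => ?_⟩
  by_cases hcon : ∃ z, app w z ∈ U
  · left
    obtain ⟨z, hz⟩ := hcon
    obtain ⟨i, z', h'⟩ := (h.ran _).1 hz
    obtain ⟨w', rfl, -⟩ := app_prefix h' (by rw [hw]; exact hk i)
    intro z''
    rw [app_append]
    exact h.mem i _
  · right
    push Not at hcon
    exact hcon

/-- Partitions can be refined. -/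
lemma IsP.grow {n : ℕ} {u : Fin (n + 1) → List Bool} {U : Set Dy} (h : IsP u U) :
    ∃ u' : Fin (n + 2) → List Bool, IsP u' U :=
  ⟨_, (h.split 0).comp (finSuccEquiv (n + 1))⟩

lemma IsP.grow_add {n : ℕ} {u : Fin (n + 1) → List Bool} {U : Set Dy} (h : IsP u U) (d : ℕ) :
    ∃ u' : Fin (n + 1 + d) → List Bool, IsP u' U := by
  induction d with
  | zero => exact ⟨u, h⟩
  | succ d ih =>
    obtain ⟨u', h'⟩ := ih
    have e : n + 1 + d = n + d + 1 := by omega
    have h2 : ∃ u'' : Fin (n + d + 1) → List Bool, IsP u'' U :=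
      ⟨_, h'.comp (finCongr e.symm)⟩
    obtain ⟨u'', h''⟩ := h2
    obtain ⟨w, hw⟩ := h''.grow
    exact ⟨_, hw.comp (finCongr (show n + 1 + (d + 1) = n + d + 2 by omega))⟩

/-- A nonempty clopen set has a partition into `m` cones for every large `m`. -/
lemma Clo.exists_ge {U : Set Dy} (h : Clo U) (hne : U.Nonempty) :
    ∃ n, ∀ m, n ≤ m → ∃ u : Fin m → List Bool, IsP u U := by
  obtain ⟨n, u, hu⟩ := h.exists_isP
  obtain ⟨z, hz⟩ := hne
  obtain ⟨i, -⟩ := (hu.ran z).1 hz
  obtain ⟨k, rfl⟩ : ∃ k, n = k + 1 := ⟨n - 1, by have := i.2; omega⟩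
  refine ⟨k + 1, fun m hm => ?_⟩
  obtain ⟨d, rfl⟩ := Nat.exists_eq_add_of_le hm
  exact hu.grow_add d

/-- A cone has a partition into `m` cones for every positive `m`. -/
lemma exists_isP_cone (w : List Bool) (m : ℕ) :
    ∃ u : Fin (m + 1) → List Bool, IsP u (Set.range (app w)) := by
  obtain ⟨u, hu⟩ := IsP.one.grow_add m
  exact ⟨_, (hu.comp (finCongr (show m + 1 = 0 + 1 + m by omega))).cons w⟩

section Elements

variable {S : Type*} [Group S]

/-- The element defined by two partitions and labels. -/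
theorem exists_element {I : Type*} [Finite I] {u v : I → List Bool} (hu : IsP u Set.univ)
    (hv : IsP v Set.univ) (a : I → S) : ∃ g : VG S, ∀ i, IsCone g.1 (u i) (v i) (a i) := by
  let eu : I × Dy ≃ Dy := Equiv.ofBijective (fun p => app (u p.1) p.2) (by
    constructor
    · rintro ⟨i, z⟩ ⟨j, z'⟩ h
      obtain rfl := hu.inj h
      exact congrArg (Prod.mk i) (app_inj h)
    · intro z
      obtain ⟨i, z', h⟩ := (hu.ran z).1 trivial
      exact ⟨(i, z'), h⟩)
  let ev : I × Dy ≃ Dy := Equiv.ofBijective (fun p => app (v p.1) p.2) (by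
    constructor
    · rintro ⟨i, z⟩ ⟨j, z'⟩ h
      obtain rfl := hv.inj h
      exact congrArg (Prod.mk i) (app_inj h)
    · intro z
      obtain ⟨i, z', h⟩ := (hv.ran z).1 trivial
      exact ⟨(i, z'), h⟩)
  let m : Perm ((I × Dy) × S) :=
    { toFun := fun x => (x.1, a x.1.1 * x.2)
      invFun := fun x => (x.1, (a x.1.1)⁻¹ * x.2)
      left_inv := by rintro ⟨x, s⟩; simp
      right_inv := by rintro ⟨x, s⟩; simp }
  let g : Perm (Dy × S) := (eu.symm.prodCongr (Equiv.refl S)).trans
    (m.trans (ev.prodCongr (Equiv.refl S)))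
  have hg : ∀ i, IsCone g (u i) (v i) (a i) := by
    intro i z s
    have h1 : eu.symm (app (u i) z) = (i, z) := by
      rw [Equiv.symm_apply_eq]
      rfl
    change (ev.prodCongr (Equiv.refl S)) (m (eu.symm (app (u i) z), s)) = _
    rw [h1]
    rfl
  refine ⟨⟨g, ?_⟩, hg⟩
  obtain ⟨k, hk⟩ : ∃ k, ∀ i, (u i).length ≤ k := by
    obtain ⟨k, hk⟩ := (Set.finite_range (fun i => (u i).length)).bddAbove
    exact ⟨k, fun i => hk ⟨i, rfl⟩⟩
  refine ⟨k, fun w hw => ?_⟩
  obtain ⟨i, z', h'⟩ := (hu.ran (app w [])).1 trivial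
  obtain ⟨w', rfl, -⟩ := app_prefix h' (by rw [hw]; exact hk i)
  exact ⟨_, _, (hg i).append w'⟩

/-- Equality can be checked on a partition. -/
lemma eq_of_isP {I : Type*} {u : I → List Bool} (hu : IsP u Set.univ) {g h : Perm (Dy × S)}
    (hgh : ∀ i, ∃ v a, IsCone g (u i) v a ∧ IsCone h (u i) v a) : g = h := by
  ext1 ⟨z, s⟩
  obtain ⟨i, z', rfl⟩ := (hu.ran z).1 trivial
  obtain ⟨v, a, h1, h2⟩ := hgh i
  rw [h1, h2]

/-- Elements supported on a clopen set. -/
theorem exists_supported {I : Type*} [Finite I] {u v : I → List Bool} {U : Set Dy} (hu : IsP u U)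
    (hv : IsP v U) (a : I → S) : ∃ g : VG S, (∀ i, IsCone g.1 (u i) (v i) (a i)) ∧
      ∀ z ∉ U, ∀ s, g.1 (z, s) = (z, s) := by
  obtain ⟨n, w, hw⟩ := hu.clo.compl.exists_isP
  have h1 := hu.sum hw disjoint_compl_right
  have h2 := hv.sum hw disjoint_compl_right
  rw [Set.union_compl_self] at h1 h2
  obtain ⟨g, hg⟩ := exists_element h1 h2 (Sum.elim a (fun _ => 1))
  refine ⟨g, fun i => hg (Sum.inl i), fun z hz s => ?_⟩
  obtain ⟨i, z', rfl⟩ := (hw.ran z).1 hz
  have := hg (Sum.inr i) z' s
  simpa using this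

/-- Transport of families of cones with nonempty complements. -/
theorem exists_transport {I : Type*} [Finite I] {u v : I → List Bool} {U V : Set Dy}
    (hu : IsP u U) (hv : IsP v V) (hU : Uᶜ.Nonempty) (hV : Vᶜ.Nonempty) (a : I → S) :
    ∃ g : VG S, ∀ i, IsCone g.1 (u i) (v i) (a i) := by
  obtain ⟨n, hn⟩ := hu.clo.compl.exists_ge hU
  obtain ⟨m, hm⟩ := hv.clo.compl.exists_ge hV
  obtain ⟨w, hw⟩ := hn (n + m) (by omega)
  obtain ⟨w', hw'⟩ := hm (n + m) (by omega)
  have h1 := hu.sum hw disjoint_compl_right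
  have h2 := hv.sum hw' disjoint_compl_right
  rw [Set.union_compl_self] at h1 h2
  obtain ⟨g, hg⟩ := exists_element h1 h2 (Sum.elim a (fun _ => 1))
  exact ⟨g, fun i => hg (Sum.inl i)⟩

end Elements

end Pool.Agent.Helper13
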