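import Pool.Agent.Helper13.VPart

set_option autoImplicit false

/-!
# Transitivity and rigid stabilizers
-/

namespace Pool.Agent.Helper13

open Equiv

section Trans

variable {S : Type*} [Group S]

lemma not_mem_cone_of_ne {u v : List Bool} (hl : u.length = v.length) (hne : u ≠ v) (z : Dy) :
    app u z ∉ Set.range (app v) := by
  rintro ⟨z', h⟩
  exact hne (app_eq_length h hl.symm).1.symm

/-- Every point is the base point of a cone of every large depth. -/
lemma exists_base (z : Dy) : ∃ k0, ∀ k, k0 ≤ k → ∃ u : List Bool, u.length = k ∧ app u [] = z := by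
  induction z with
  | nil => exact ⟨0, fun k _ => ⟨zw k, zw_length k, app_zw_nil k⟩⟩
  | cons i z ih =>
    obtain ⟨k0, h⟩ := ih
    refine ⟨k0 + (i + 1), fun k hk => ?_⟩
    obtain ⟨u, hu, hz⟩ := h (k - (i + 1)) (by omega)
    refine ⟨rc i ++ u, by simp; omega, ?_⟩
    rw [app_rc_append, hz]

lemma exists_base_fin {r : ℕ} (p : Fin r → Dy) :
    ∃ k0, ∀ k, k0 ≤ k → ∃ u : Fin r → List Bool, (∀ i, (u i).length = k) ∧
      ∀ i, app (u i) [] = p i := by
  choose k hk using fun i => exists_base (p i)
  refine ⟨Finset.univ.sup k, fun m hm => ?_⟩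
  have : ∀ i, ∃ u : List Bool, u.length = m ∧ app u [] = p i := fun i =>
    hk i m (le_trans (Finset.le_sup (Finset.mem_univ i)) hm)
  choose u hu using this
  exact ⟨u, fun i => (hu i).1, fun i => (hu i).2⟩

lemma exists_perm_extend {W : Type*} [Finite W] {r : ℕ} (x y : Fin r → W)
    (hx : Function.Injective x) (hy : Function.Injective y) : ∃ σ : Perm W, ∀ i, σ (x i) = y i := by
  classical
  let e : {w // w ∈ Set.range x} ≃ {w // w ∈ Set.range y} :=
    (Equiv.ofInjective x hx).symm.trans (Equiv.ofInjective y hy)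
  haveI := Fintype.ofFinite W
  refine ⟨e.extendSubtype, fun i => ?_⟩
  rw [Equiv.extendSubtype_apply_of_mem e (x i) ⟨i, rfl⟩]
  have : (Equiv.ofInjective x hx).symm ⟨x i, i, rfl⟩ = i := by
    rw [Equiv.symm_apply_eq]
    rfl
  change ((Equiv.ofInjective y hy) ((Equiv.ofInjective x hx).symm ⟨x i, i, rfl⟩) : W) = y i
  rw [this]
  rfl

variable (S) in
/-- High transitivity on points. -/
theorem VG.highly {r : ℕ} (p q : Fin r → Dy) (hp : Function.Injective p)
    (hq : Function.Injective q) : ∃ g : VG S, ∀ i, g • p i = q i := by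
  obtain ⟨k, hk⟩ := exists_base_fin p
  obtain ⟨l, hl⟩ := exists_base_fin q
  obtain ⟨u, hu, hup⟩ := hk (k + l) (by omega)
  obtain ⟨v, hv, hvq⟩ := hl (k + l) (by omega)
  let W := {w : List Bool // w.length = k + l}
  have hfin : Finite W := Set.Finite.to_subtype (List.finite_length_eq Bool (k + l))
  have hP : IsP (fun w : W => w.1) Set.univ := by
    constructor
    · rintro ⟨u, hu⟩ ⟨v, hv⟩ z z' h
      exact Subtype.ext (app_eq_length h (hu.trans hv.symm)).1
    · intro z
      constructor
      · intro hz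
        obtain ⟨u, z', hu, rfl⟩ := exists_app (k + l) z
        exact ⟨⟨u, hu⟩, z', rfl⟩
      · intro _; trivial
  obtain ⟨σ, hσ⟩ := exists_perm_extend (W := W) (fun i => ⟨u i, hu i⟩) (fun i => ⟨v i, hv i⟩)
    (by
      intro i j h
      apply hp
      rw [← hup, ← hup]
      rw [show u i = u j from congrArg Subtype.val h])
    (by
      intro i j h
      apply hq
      rw [← hvq, ← hvq]
      rw [show v i = v j from congrArg Subtype.val h])
  obtain ⟨g, hg⟩ := exists_element hP (hP.comp σ) (fun _ => (1 : S))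
  refine ⟨g, fun i => ?_⟩
  have h1 := (hg ⟨u i, hu i⟩).smul []
  rw [hσ] at h1
  rw [← hup, ← hvq]
  exact h1

lemma VG.smul_inj (g : VG S) {z z' : Dy} (h : g • z = g • z') : z = z' := smul_left_cancel g h

variable (S) in
/-- Two points. -/
lemma VG.two {a b c d : Dy} (hab : a ≠ b) (hcd : c ≠ d) : ∃ g : VG S, g • a = c ∧ g • b = d := by
  obtain ⟨g, hg⟩ := VG.highly S ![a, b] ![c, d]
    (by
      intro i j h
      fin_cases i <;> fin_cases j <;> simp_all)
    (by
      intro i j h
      fin_cases i <;> fin_cases j <;> simp_all)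
  exact ⟨g, hg 0, hg 1⟩

variable (S) in
/-- Three points. -/
lemma VG.three {a b c d e f : Dy} (hab : a ≠ b) (hac : a ≠ c) (hbc : b ≠ c) (hde : d ≠ e)
    (hdf : d ≠ f) (hef : e ≠ f) : ∃ g : VG S, g • a = d ∧ g • b = e ∧ g • c = f := by
  obtain ⟨g, hg⟩ := VG.highly S ![a, b, c] ![d, e, f]
    (by
      intro i j h
      fin_cases i <;> fin_cases j <;> simp_all)
    (by
      intro i j h
      fin_cases i <;> fin_cases j <;> simp_all)
  exact ⟨g, hg 0, hg 1, hg 2⟩

lemma Clo.smul {U : Set Dy} (hU : Clo U) (g : VG S) : Clo {z | g • z ∈ U} := by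
  obtain ⟨k, hk⟩ := g.2
  obtain ⟨l, hl⟩ := hU
  refine ⟨k + l, fun u hu => ?_⟩
  have h1 : u = u.take k ++ u.drop k := (List.take_append_drop k u).symm
  obtain ⟨v, b, hv⟩ := hk (u.take k) (by simp; omega)
  have h2 := hv.append (u.drop k)
  rw [← h1] at h2
  rcases Clo.ge hl (v ++ u.drop k) (by simp; omega) with h | h
  · left
    intro z
    change g • app u z ∈ U
    rw [h2.smul]
    exact h z
  · right
    intro z
    change g • app u z ∉ U
    rw [h2.smul]
    exact h z

/-- A clopen set avoiding the base point avoids a cone at the base point. -/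
lemma Clo.avoid {U : Set Dy} (hU : Clo U) (h : ([] : Dy) ∉ U) :
    ∃ k0, ∀ k, k0 ≤ k → ∀ z, app (zw k) z ∉ U := by
  obtain ⟨l, hl⟩ := hU
  refine ⟨l, fun k hk => ?_⟩
  rcases Clo.ge hl (zw k) (by simpa using hk) with h' | h'
  · exact absurd (by simpa using h' []) h
  · exact h'

variable (S) in
/-- The stabilizer of the base point maps any nonempty clopen set avoiding the base point onto the
cone of `true`. -/
theorem exists_to_true {U : Set Dy} (hU : Clo U) (hne : U.Nonempty) (h0 : ([] : Dy) ∉ U) :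
    ∃ g : VG S, g • ([] : Dy) = [] ∧ ∀ z, z ∈ U ↔ g • z ∈ Set.range (app [true]) := by
  obtain ⟨n, hn⟩ := hU.exists_ge hne
  obtain ⟨u, hu⟩ := hn (n + 1) (by omega)
  obtain ⟨v, hv⟩ := exists_isP_cone [true] n
  obtain ⟨k0, hk0⟩ := hU.avoid h0
  have hz : IsP (fun _ : Fin 1 => zw (k0 + 1)) (Set.range (app (zw (k0 + 1)))) := by
    have := IsP.one.cons (zw (k0 + 1))
    simpa using this
  have hz' : IsP (fun _ : Fin 1 => zw 2) (Set.range (app (zw 2))) := by
    have := IsP.one.cons (zw 2)
    simpa using this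
  have h1 := hu.sum hz (by
    rw [Set.disjoint_left]
    rintro z hz1 ⟨z', rfl⟩
    exact hk0 _ (by omega) z' hz1)
  have h2 := hv.sum hz' (by
    rw [Set.disjoint_left]
    rintro z ⟨z1, rfl⟩ ⟨z', h⟩
    rcases z' with _ | ⟨i, z'⟩
    · rw [app_zw_nil] at h
      simp at h
    · rw [app_zw_cons] at h
      simp at h)
  obtain ⟨g, hg⟩ := exists_transport h1 h2 ⟨app (rc k0) [], by
      rintro (h | ⟨z', h⟩)
      · apply hk0 k0 le_rfl (app [true] [])
        rw [← app_append]
        exact h
      · rw [app_rc] at h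
        rcases z' with _ | ⟨i, z'⟩
        · rw [app_zw_nil] at h
          simp at h
        · rw [app_zw_cons] at h
          simp only [List.cons.injEq] at h
          omega⟩ ⟨[1], by
      rintro (⟨z', h⟩ | ⟨z', h⟩)
      · simp at h
      · rcases z' with _ | ⟨i, z'⟩
        · rw [app_zw_nil] at h
          simp at h
        · rw [app_zw_cons] at h
          simp only [List.cons.injEq] at h
          omega⟩ (fun _ => (1 : S))
  refine ⟨g, ?_, fun z => ⟨?_, ?_⟩⟩
  · have := (hg (Sum.inr 0)).smul []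
    simpa using this
  · intro hz
    obtain ⟨i, z', rfl⟩ := (hu.ran z).1 hz
    have := (hg (Sum.inl i)).smul z'
    simp only [Sum.elim_inl] at this
    rw [this]
    exact hv.mem i z'
  · intro hz
    obtain ⟨i, z', h⟩ := (hv.ran _).1 hz
    have := (hg (Sum.inl i)).smul z'
    simp only [Sum.elim_inl] at this
    rw [h] at this
    rw [← VG.smul_inj g this]
    exact hu.mem i z'

/-- The identification of everything with the cone of `w`. -/
noncomputable def coneEquiv (S : Type*) (w : List Bool) : Dy × S ≃ {x : Dy × S // x.1 ∈ Set.range (app w)} :=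
  Equiv.ofBijective (fun x => ⟨(app w x.1, x.2), x.1, rfl⟩) (by
    constructor
    · rintro ⟨z, s⟩ ⟨z', s'⟩ h
      have h1 := congrArg (fun x => x.1.1) h
      have h2 := congrArg (fun x => x.1.2) h
      exact Prod.ext (app_inj h1) h2
    · rintro ⟨⟨z, s⟩, z', h⟩
      exact ⟨(z', s), Subtype.ext (Prod.ext h rfl)⟩)

open Classical in
/-- The rigid embedding in the cone of `w`. -/
noncomputable def phi0 (w : List Bool) : Perm (Dy × S) →* Perm (Dy × S) :=
  Perm.extendDomainHom (coneEquiv S w)

lemma phi0_in (w : List Bool) (g : Perm (Dy × S)) (z : Dy) (s : S) :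
    phi0 w g (app w z, s) = (app w (g (z, s)).1, (g (z, s)).2) := by
  classical
  have := Perm.extendDomain_apply_image g (coneEquiv S w) (z, s)
  exact this

lemma phi0_out (w : List Bool) (g : Perm (Dy × S)) {z : Dy} (hz : z ∉ Set.range (app w)) (s : S) :
    phi0 w g (z, s) = (z, s) := by
  classical
  exact Perm.extendDomain_apply_not_subtype g (coneEquiv S w) hz

lemma phi0_cone {g : Perm (Dy × S)} {u v : List Bool} {a : S} (h : IsCone g u v a)
    (w : List Bool) : IsCone (phi0 w g) (w ++ u) (w ++ v) a := fun z s => by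
  rw [app_append, app_append, phi0_in, h]

lemma phi0_cone_out (g : Perm (Dy × S)) {u w : List Bool} (h : ∀ z, app u z ∉ Set.range (app w)) :
    IsCone (phi0 w g) u u 1 := fun z s => by
  rw [phi0_out w g (h z), one_mul]

lemma phi0_mem {g : Perm (Dy × S)} (hg : g ∈ VG S) (w : List Bool) : phi0 w g ∈ VG S := by
  obtain ⟨k, hk⟩ := hg
  refine ⟨w.length + k, fun u hu => ?_⟩
  by_cases h : ∃ z, app u z ∈ Set.range (app w)
  · obtain ⟨z, z', hz⟩ := h
    obtain ⟨u', rfl, -⟩ := app_prefix hz (by omega)
    obtain ⟨v, a, hv⟩ := hk u' (by simpa using hu)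
    exact ⟨_, _, phi0_cone hv w⟩
  · push Not at h
    exact ⟨_, _, phi0_cone_out g h⟩

/-- The rigid embedding in the cone of `w`, in the group. -/
noncomputable def VG.phi (w : List Bool) : VG S →* VG S :=
  ((phi0 w).comp (VG S).subtype).codRestrict (VG S) (fun g => phi0_mem g.2 w)

lemma VG.phi_val (w : List Bool) (g : VG S) : (VG.phi w g).1 = phi0 w g.1 := rfl

lemma VG.phi_in (w : List Bool) (g : VG S) (z : Dy) : VG.phi w g • app w z = app w (g • z) := by
  change ((VG.phi w g).1 (app w z, 1)).1 = _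
  rw [VG.phi_val, phi0_in]
  rfl

lemma VG.phi_out (w : List Bool) (g : VG S) {z : Dy} (hz : z ∉ Set.range (app w)) :
    VG.phi w g • z = z := by
  change ((VG.phi w g).1 (z, 1)).1 = _
  rw [VG.phi_val, phi0_out w _ hz]

lemma VG.lab_phi_in (w : List Bool) (g : VG S) (z : Dy) :
    lab (VG.phi w g).1 (app w z) = lab g.1 z := by
  change ((VG.phi w g).1 (app w z, 1)).2 = _
  rw [VG.phi_val, phi0_in]
  rfl

lemma VG.lab_phi_out (w : List Bool) (g : VG S) {z : Dy} (hz : z ∉ Set.range (app w)) :
    lab (VG.phi w g).1 z = 1 := by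
  change ((VG.phi w g).1 (z, 1)).2 = _
  rw [VG.phi_val, phi0_out w _ hz]

lemma cone_subset {v w : List Bool} (h : ∀ z, app v z ∈ Set.range (app w)) :
    ∃ v', v = w ++ v' := by
  rcases le_total w.length v.length with hl | hl
  · obtain ⟨z', hz⟩ := h []
    obtain ⟨v', hv', -⟩ := app_prefix hz hl
    exact ⟨v', hv'⟩
  · obtain ⟨z', hz⟩ := h []
    obtain ⟨w', rfl, -⟩ := app_prefix hz.symm hl
    rcases w' with _ | ⟨b, w'⟩
    · exact ⟨[], by simp⟩
    · exfalso
      obtain ⟨z', hz⟩ := h (app [!b] [])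
      rw [app_append] at hz
      have h2 := app_inj hz
      simp only [app_cons] at h2
      have := (bz_inj h2).1
      cases b <;> simp at this

/-- Restriction to a preserved cone. -/
theorem exists_restrict (w : List Bool) (h : VG S) (hw : ∀ z, ∃ z', h • app w z = app w z')
    (hw' : ∀ z, ∃ z', h⁻¹ • app w z = app w z') :
    ∃ g : VG S, ∀ z, h • app w z = app w (g • z) ∧ lab g.1 z = lab h.1 (app w z) := by
  choose r hr using hw
  choose r' hr' using hw'
  have h1 : ∀ z, r' (r z) = z := by
    intro z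
    apply app_inj (u := w)
    rw [← hr', ← hr, inv_smul_smul]
  have h2 : ∀ z, r (r' z) = z := by
    intro z
    apply app_inj (u := w)
    rw [← hr, ← hr', smul_inv_smul]
  let g0 : Perm (Dy × S) :=
    { toFun := fun x => (r x.1, lab h.1 (app w x.1) * x.2)
      invFun := fun x => (r' x.1, (lab h.1 (app w (r' x.1)))⁻¹ * x.2)
      left_inv := by
        rintro ⟨z, s⟩
        simp [h1]
      right_inv := by
        rintro ⟨z, s⟩
        simp [h2] }
  have hmem : g0 ∈ VG S := by
    obtain ⟨k, hk⟩ := h.2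
    refine ⟨k, fun u hu => ?_⟩
    obtain ⟨v, a, hv⟩ := CL.of_length hk (w ++ u) (by simp; omega)
    obtain ⟨v', rfl⟩ : ∃ v', v = w ++ v' := by
      apply cone_subset
      intro z
      rw [← IsCone.smul hv, app_append, hr]
      exact ⟨_, rfl⟩
    refine ⟨v', a, fun z s => ?_⟩
    change (r (app u z), lab h.1 (app w (app u z)) * s) = _
    have e1 : r (app u z) = app v' z := by
      apply app_inj (u := w)
      rw [← hr, ← app_append, ← app_append]
      exact IsCone.smul hv z
    have e2 : lab h.1 (app w (app u z)) = a := by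
      rw [← app_append]
      exact IsCone.lab_eq hv z
    rw [e1, e2]
  refine ⟨⟨g0, hmem⟩, fun z => ⟨hr z, ?_⟩⟩
  change lab h.1 (app w z) * 1 = _
  rw [mul_one]

end Trans

end Pool.Agent.Helper13
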