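import Pool.Agent.Helper13.FreeProd

set_option autoImplicit false

/-!
# The word problem of a free product with a free group of rank two

If a finitely presented group has decidable word problem, then so does its free product with a free
group of rank two, for the obvious finite presentation.
-/

namespace Pool.Agent.Helper13

open Monoid Function

namespace WPF

/-- Words in `n` letters and their inverses. -/
abbrev Wd (n : ℕ) := List (Fin n × Bool)

/-- The letters of the free group of rank two. -/
abbrev L2 := Fin 2 × Bool

/-- The inverse letter. -/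
def flp (x : L2) : L2 := (x.1, !x.2)

@[simp] lemma flp_flp (x : L2) : flp (flp x) = x := by simp [flp]

section Sem

variable {G : Type} [Group G]

open Classical in
/-- Multiplication of a normal form by a letter of the free group. -/
noncomputable def bsem (x : L2) : G × List (L2 × G) → G × List (L2 × G)
  | (g, []) => (1, [(x, g)])
  | (g, p :: L) => if g = 1 ∧ p.1 = flp x then (p.2, L) else (1, (x, g) :: p :: L)

open Classical in
lemma bsem_cons (x : L2) (g : G) (p : L2 × G) (L : List (L2 × G)) :
    bsem x (g, p :: L) = if g = 1 ∧ p.1 = flp x then (p.2, L) else (1, (x, g) :: p :: L) := rfl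

lemma bsem_pop {x : L2} {g : G} {p : L2 × G} {L : List (L2 × G)} (h : g = 1 ∧ p.1 = flp x) :
    bsem x (g, p :: L) = (p.2, L) := by
  classical
  rw [bsem_cons, if_pos h]

lemma bsem_push {x : L2} {g : G} {p : L2 × G} {L : List (L2 × G)} (h : ¬ (g = 1 ∧ p.1 = flp x)) :
    bsem x (g, p :: L) = (1, (x, g) :: p :: L) := by
  classical
  rw [bsem_cons, if_neg h]

/-- No cancellation. -/
def NC (p q : L2 × G) : Prop := p.2 = 1 → q.1 ≠ flp p.1

/-- Reduced states. -/
def Red (s : G × List (L2 × G)) : Prop := List.IsChain NC s.2

lemma red_bsem (x : L2) (s : G × List (L2 × G)) (h : Red s) : Red (bsem x s) := by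
  obtain ⟨g, L⟩ := s
  cases L with
  | nil => simp [bsem, Red]
  | cons p L =>
    by_cases hc : g = 1 ∧ p.1 = flp x
    · rw [bsem_pop hc]
      exact h.tail
    · rw [bsem_push hc]
      unfold Red
      rw [List.isChain_cons_cons]
      refine ⟨?_, h⟩
      intro h1 h2
      exact hc ⟨h1, h2⟩

lemma bsem_bsem (x : L2) (s : G × List (L2 × G)) (h : Red s) : bsem (flp x) (bsem x s) = s := by
  obtain ⟨g, L⟩ := s
  cases L with
  | nil => simp [bsem]
  | cons p L =>
    by_cases hc : g = 1 ∧ p.1 = flp x
    · rw [bsem_pop hc]
      obtain ⟨h1, h2⟩ := hc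
      cases L with
      | nil =>
        simp only [bsem]
        rw [h1, ← h2]
      | cons q L =>
        have h3 := (List.isChain_cons_cons.1 h).1
        rw [bsem_push]
        · rw [h1, ← h2]
        · rintro ⟨h4, h5⟩
          apply h3 h4
          rw [h2, h5]
    · rw [bsem_push hc, bsem_pop ⟨rfl, (flp_flp x).symm⟩]

/-- Reduced states. -/
abbrev RSt (G : Type) [Group G] := {s : G × List (L2 × G) // Red s}

/-- A free generator acts as a permutation. -/
noncomputable def bperm (G : Type) [Group G] (b : Fin 2) : Equiv.Perm (RSt G) where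
  toFun s := ⟨bsem (b, true) s.1, red_bsem _ _ s.2⟩
  invFun s := ⟨bsem (b, false) s.1, red_bsem _ _ s.2⟩
  left_inv s := Subtype.ext (bsem_bsem (b, true) s.1 s.2)
  right_inv s := Subtype.ext (bsem_bsem (b, false) s.1 s.2)

/-- The group `G` acts by multiplication. -/
def gact (G : Type) [Group G] : G →* Equiv.Perm (RSt G) where
  toFun g :=
    { toFun := fun s => ⟨(g * s.1.1, s.1.2), s.2⟩
      invFun := fun s => ⟨(g⁻¹ * s.1.1, s.1.2), s.2⟩
      left_inv := fun s => Subtype.ext (by simp)
      right_inv := fun s => Subtype.ext (by simp) }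
  map_one' := by ext s <;> simp
  map_mul' a b := by
    apply Equiv.ext
    intro s
    apply Subtype.ext
    simp [mul_assoc]

/-- The action of the free product. -/
noncomputable def theta (G : Type) [Group G] : Coprod G (FreeGroup (Fin 2)) →*
    Equiv.Perm (RSt G) := Coprod.lift (gact G) (FreeGroup.lift (bperm G))

lemma theta_inl (g : G) (s : RSt G) : (theta G (Coprod.inl g) s).1 = (g * s.1.1, s.1.2) := by
  unfold theta
  rw [Coprod.lift_apply_inl]
  rfl

lemma theta_inr (x : L2) (s : RSt G) :
    (theta G (Coprod.inr (FreeGroup.mk [x])) s).1 = bsem x s.1 := by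
  unfold theta
  rw [Coprod.lift_apply_inr]
  obtain ⟨b, e⟩ := x
  cases e with
  | true =>
    have : FreeGroup.mk [(b, true)] = FreeGroup.of b := rfl
    rw [this, FreeGroup.lift_apply_of]
    rfl
  | false =>
    have : FreeGroup.mk [(b, false)] = (FreeGroup.of b)⁻¹ := rfl
    rw [this, map_inv, FreeGroup.lift_apply_of]
    rfl

end Sem

section Syn

variable {n : ℕ} (rels : Set (FreeGroup (Fin n)))

/-- The value of a word. -/
def mk (w : Wd n) : PresentedGroup rels := PresentedGroup.mk rels (FreeGroup.mk w)

lemma mk_nil : mk rels [] = 1 := by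
  unfold mk
  rw [← FreeGroup.one_eq_mk, map_one]

lemma mk_cons (x : Fin n × Bool) (w : Wd n) : mk rels (x :: w) = mk rels [x] * mk rels w := by
  unfold mk
  rw [← map_mul, FreeGroup.mul_mk]
  rfl

/-- Syntactic states. -/
abbrev SSt (n : ℕ) := Wd n × List (L2 × Wd n)

/-- Is the top letter of the stack the inverse of `x`? -/
def chk (x : L2) (L : List (L2 × Wd n)) : Bool := decide (L.head?.map Prod.fst = some (flp x))

/-- The word on top of the stack. -/
def hd (L : List (L2 × Wd n)) : Wd n := (L.head?.map Prod.snd).getD []

/-- Multiplication by a letter of the free group. -/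
def bst (c : Wd n → Bool) (x : L2) (s : SSt n) : SSt n :=
  bif c s.1 && chk x s.2 then (hd s.2, s.2.tail) else ([], (x, s.1) :: s.2)

/-- Multiplication by a letter. -/
def stp (c : Wd n → Bool) (x : Fin (n + 2) × Bool) (s : SSt n) : SSt n :=
  Sum.casesOn (finSumFinEquiv.symm x.1) (fun a => ((a, x.2) :: s.1, s.2))
    (fun b => bst c (b, x.2) s)

/-- The state of a word. -/
def stt (c : Wd n → Bool) (w : Wd (n + 2)) : SSt n := w.foldr (stp c) ([], [])

/-- The semantic state. -/
def mp (s : SSt n) : PresentedGroup rels × List (L2 × PresentedGroup rels) :=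
  (mk rels s.1, s.2.map fun p => (p.1, mk rels p.2))

variable {rels}

lemma mp_bst {c : Wd n → Bool} (hc : ∀ w, c w = true ↔ mk rels w = 1) (x : L2) (s : SSt n) :
    mp rels (bst c x s) = bsem x (mp rels s) := by
  obtain ⟨w, L⟩ := s
  cases L with
  | nil => simp [bst, chk, mp, bsem, mk_nil]
  | cons p L =>
    by_cases h : mk rels w = 1 ∧ p.1 = flp x
    · have h1 : c w = true := (hc w).2 h.1
      simp only [bst, chk, mp, bsem, h1, List.head?_cons, Option.map_some, h.2, decide_true,
        Bool.and_self, cond_true, List.map_cons, h.1, and_self, if_true, hd, Option.getD_some,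
        List.tail_cons]
    · have h2 : (c w && chk x (p :: L)) = false := by
        rw [Bool.and_eq_false_iff]
        by_cases h3 : mk rels w = 1
        · right
          simp only [chk, List.head?_cons, Option.map_some, Option.some.injEq,
            decide_eq_false_iff_not]
          exact fun h4 => h ⟨h3, h4⟩
        · left
          rw [← Bool.not_eq_true, hc]
          exact h3
      have h3 : mp rels (w, p :: L) = (mk rels w, (p.1, mk rels p.2) ::
        L.map fun p => (p.1, mk rels p.2)) := rfl
      rw [h3, bsem_push h]
      unfold bst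
      dsimp only
      rw [h2, cond_false]
      simp [mp, mk_nil]

/-- The value of a letter of the free product. -/
def vl (rels : Set (FreeGroup (Fin n))) (x : Fin (n + 2) × Bool) :
    Coprod (PresentedGroup rels) (FreeGroup (Fin 2)) :=
  Sum.casesOn (finSumFinEquiv.symm x.1) (fun a => Coprod.inl (mk rels [(a, x.2)]))
    (fun b => Coprod.inr (FreeGroup.mk [(b, x.2)]))

/-- The value of a state. -/
def sval (rels : Set (FreeGroup (Fin n))) (s : SSt n) :
    Coprod (PresentedGroup rels) (FreeGroup (Fin 2)) :=
  Coprod.inl (mk rels s.1) *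
    (s.2.map fun p => Coprod.inr (FreeGroup.mk [p.1]) * Coprod.inl (mk rels p.2)).prod

lemma mk_flp (x : L2) : FreeGroup.mk [x] * FreeGroup.mk [flp x] = 1 := by
  obtain ⟨b, e⟩ := x
  cases e
  · exact inv_mul_cancel (FreeGroup.of b)
  · exact mul_inv_cancel (FreeGroup.of b)

lemma sval_bst {c : Wd n → Bool} (hc : ∀ w, c w = true ↔ mk rels w = 1) (x : L2) (s : SSt n) :
    sval rels (bst c x s) = Coprod.inr (FreeGroup.mk [x]) * sval rels s := by
  obtain ⟨w, L⟩ := s
  unfold bst
  by_cases h : (c w && chk x L) = true
  · dsimp only
    rw [h, cond_true]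
    rw [Bool.and_eq_true] at h
    obtain ⟨h1, h2⟩ := h
    cases L with
    | nil => simp [chk] at h2
    | cons p L =>
      have h3 : p.1 = flp x := by simpa [chk] using h2
      have h4 := (hc w).1 h1
      simp only [sval, hd, List.head?_cons, Option.map_some, Option.getD_some, List.tail_cons, h4,
        map_one, one_mul, List.map_cons, List.prod_cons, h3]
      rw [← mul_assoc, ← mul_assoc, ← map_mul, mk_flp, map_one, one_mul]
  · rw [Bool.not_eq_true] at h
    dsimp only
    rw [h, cond_false]
    simp [sval, mk_nil, mul_assoc]

lemma sval_stp {c : Wd n → Bool} (hc : ∀ w, c w = true ↔ mk rels w = 1) (x : Fin (n + 2) × Bool)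
    (s : SSt n) : sval rels (stp c x s) = vl rels x * sval rels s := by
  unfold stp vl
  cases h : finSumFinEquiv.symm x.1 with
  | inl a =>
    dsimp only
    unfold sval
    dsimp only
    rw [mk_cons, map_mul, mul_assoc]
  | inr b => exact sval_bst hc _ _

lemma theta_stp {c : Wd n → Bool} (hc : ∀ w, c w = true ↔ mk rels w = 1)
    (x : Fin (n + 2) × Bool) (s : SSt n) (r : RSt (PresentedGroup rels))
    (h : r.1 = mp rels s) : (theta _ (vl rels x) r).1 = mp rels (stp c x s) := by
  unfold stp vl
  cases h' : finSumFinEquiv.symm x.1 with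
  | inl a =>
    dsimp only
    rw [theta_inl, h]
    unfold mp
    dsimp only
    rw [mk_cons rels (a, x.2) s.1]
  | inr b =>
    dsimp only
    rw [theta_inr, mp_bst hc, h]

/-- The value of a word of the free product. -/
def wval (rels : Set (FreeGroup (Fin n))) (w : Wd (n + 2)) :
    Coprod (PresentedGroup rels) (FreeGroup (Fin 2)) := (w.map (vl rels)).prod

lemma sval_stt {c : Wd n → Bool} (hc : ∀ w, c w = true ↔ mk rels w = 1) (w : Wd (n + 2)) :
    sval rels (stt c w) = wval rels w := by
  induction w with
  | nil => simp [stt, sval, wval, mk_nil]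
  | cons x w ih =>
    have : stt c (x :: w) = stp c x (stt c w) := rfl
    rw [this, sval_stp hc, ih]
    simp [wval]

lemma theta_stt {c : Wd n → Bool} (hc : ∀ w, c w = true ↔ mk rels w = 1) (w : Wd (n + 2)) :
    (theta _ (wval rels w) ⟨(1, []), List.IsChain.nil⟩).1 = mp rels (stt c w) := by
  induction w with
  | nil => simp [stt, wval, mp, mk_nil]
  | cons x w ih =>
    have : stt c (x :: w) = stp c x (stt c w) := rfl
    have h2 : wval rels (x :: w) = vl rels x * wval rels w := by simp [wval]
    rw [this, h2, map_mul, Equiv.Perm.mul_apply]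
    exact theta_stp hc _ _ _ ih

/-- The decision procedure. -/
def dec (c : Wd n → Bool) (s : SSt n) : Bool := c s.1 && s.2.isEmpty

lemma dec_iff {c : Wd n → Bool} (hc : ∀ w, c w = true ↔ mk rels w = 1) (w : Wd (n + 2)) :
    dec c (stt c w) = true ↔ wval rels w = 1 := by
  constructor
  · intro h
    unfold dec at h
    rw [Bool.and_eq_true, hc, List.isEmpty_iff] at h
    rw [← sval_stt hc, sval, h.1, h.2]
    simp
  · intro h
    have h1 := theta_stt hc w
    rw [h, map_one, Equiv.Perm.one_apply] at h1
    have h2 : mk rels (stt c w).1 = 1 := (congrArg Prod.fst h1).symm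
    have h3 : (stt c w).2.map (fun p => (p.1, mk rels p.2)) = [] := (congrArg Prod.snd h1).symm
    unfold dec
    rw [Bool.and_eq_true, hc, List.isEmpty_iff]
    exact ⟨h2, by simpa using h3⟩

end Syn

section Comp

variable {n : ℕ}

theorem computable_foldl {α σ : Type*} [Primcodable α] [Primcodable σ] (f : σ → α → σ)
    (hf : Computable₂ f) (s0 : σ) : Computable (fun l : List α => l.foldl f s0) := by
  have h : Computable (fun l : List α => (Nat.rec s0 (fun i IH =>
      (Option.casesOn (l[i]?) IH (fun x => f IH x) : σ)) l.length : σ)) := by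
    refine Computable.nat_rec (h := fun (l : List α) (p : ℕ × σ) =>
      (Option.casesOn (l[p.1]?) p.2 (fun x => f p.2 x) : σ)) Computable.list_length
      (Computable.const s0) ?_
    refine Computable.option_casesOn (o := fun q : List α × (ℕ × σ) => q.1[q.2.1]?)
      (f := fun q => q.2.2) (g := fun q x => f q.2.2 x) ?_ ?_ ?_
    · exact Computable.list_getElem?.comp Computable.fst (Computable.fst.comp Computable.snd)
    · exact Computable.snd.comp Computable.snd
    · exact hf.comp (Computable.snd.comp (Computable.snd.comp Computable.fst)) Computable.snd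
  refine h.of_eq fun l => ?_
  have key : ∀ k, k ≤ l.length → (Nat.rec s0 (fun i IH =>
      (Option.casesOn (l[i]?) IH (fun x => f IH x) : σ)) k : σ) = (l.take k).foldl f s0 := by
    intro k
    induction k with
    | zero => intro _; rfl
    | succ k ih =>
      intro hk
      have ih' := ih (by omega)
      dsimp only at ih' ⊢
      rw [ih', List.getElem?_eq_getElem (by omega : k < l.length),
        List.take_succ_eq_append_getElem (by omega : k < l.length), List.foldl_append]
      rfl
  rw [key _ le_rfl, List.take_length]

lemma computable_bst {c : Wd n → Bool} (hc : Computable c) :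
    Computable (fun p : L2 × SSt n => bst c p.1 p.2) := by
  unfold bst
  have h1 : Computable (fun p : L2 × SSt n => p.2.1) := Computable.fst.comp Computable.snd
  have h2 : Computable (fun p : L2 × SSt n => p.2.2) := Computable.snd.comp Computable.snd
  have h2' : Primrec (fun p : L2 × SSt n => p.2.2) := Primrec.snd.comp Primrec.snd
  have h3 : Computable (fun p : L2 × SSt n => chk p.1 p.2.2) := by
    apply Primrec.to_comp
    unfold chk
    refine PrimrecPred.decide (p := fun p : L2 × SSt n =>
      p.2.2.head?.map Prod.fst = some (flp p.1)) ?_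
    refine PrimrecRel.comp Primrec.eq ?_ ?_
    · exact Primrec.option_map (Primrec.list_head?.comp h2') (Primrec.fst.comp Primrec.snd)
    · exact Primrec.option_some.comp ((Primrec.dom_finite flp).comp Primrec.fst)
  have h4 : Computable (fun p : L2 × SSt n => hd p.2.2) := by
    apply Primrec.to_comp
    unfold hd
    refine Primrec.option_getD.comp ?_ (Primrec.const [])
    exact Primrec.option_map (Primrec.list_head?.comp h2') (Primrec.snd.comp Primrec.snd)
  refine Computable.cond ?_ ?_ ?_
  · exact (Primrec.and.to_comp).comp (hc.comp h1) h3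
  · exact h4.pair ((Primrec.list_tail.comp h2').to_comp)
  · exact (Computable.const []).pair
      (Computable.list_cons.comp (Computable.fst.pair h1) h2)

lemma computable_stp {c : Wd n → Bool} (hc : Computable c) :
    Computable (fun p : (Fin (n + 2) × Bool) × SSt n => stp c p.1 p.2) := by
  unfold stp
  refine Computable.sumCasesOn (f := fun p : (Fin (n + 2) × Bool) × SSt n =>
      (finSumFinEquiv.symm p.1.1 : Fin n ⊕ Fin 2))
    (g := fun p a => ((a, p.1.2) :: p.2.1, p.2.2)) (h := fun p b => bst c (b, p.1.2) p.2) ?_ ?_ ?_
  · exact ((Primrec.dom_finite _).comp (Primrec.fst.comp Primrec.fst)).to_comp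
  · have h1 : Computable (fun q : ((Fin (n + 2) × Bool) × SSt n) × Fin n => q.1.1.2) :=
      Computable.snd.comp (Computable.fst.comp Computable.fst)
    have h2 : Computable (fun q : ((Fin (n + 2) × Bool) × SSt n) × Fin n => q.1.2.1) :=
      Computable.fst.comp (Computable.snd.comp Computable.fst)
    have h3 : Computable (fun q : ((Fin (n + 2) × Bool) × SSt n) × Fin n => q.1.2.2) :=
      Computable.snd.comp (Computable.snd.comp Computable.fst)
    exact (Computable.list_cons.comp (Computable.snd.pair h1) h2).pair h3
  · have h1 : Computable (fun q : ((Fin (n + 2) × Bool) × SSt n) × Fin 2 => q.1.1.2) :=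
      Computable.snd.comp (Computable.fst.comp Computable.fst)
    have h2 : Computable (fun q : ((Fin (n + 2) × Bool) × SSt n) × Fin 2 => q.1.2) :=
      Computable.snd.comp Computable.fst
    exact Computable.comp (f := fun p : L2 × SSt n => bst c p.1 p.2)
      (g := fun q : ((Fin (n + 2) × Bool) × SSt n) × Fin 2 => (((q.2, q.1.1.2) : L2), q.1.2))
      (computable_bst hc) ((Computable.snd.pair h1).pair h2)

lemma computable_stt {c : Wd n → Bool} (hc : Computable c) : Computable (stt c) := by
  have h1 : Computable (fun l : Wd (n + 2) => l.foldl (fun s x => stp c x s) ([], [])) := by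
    have h0 : Computable (fun q : SSt n × (Fin (n + 2) × Bool) => stp c q.2 q.1) :=
      Computable.comp (f := fun p : (Fin (n + 2) × Bool) × SSt n => stp c p.1 p.2)
        (g := fun q : SSt n × (Fin (n + 2) × Bool) => (q.2, q.1)) (computable_stp hc)
        (Computable.snd.pair Computable.fst)
    exact computable_foldl (fun (s : SSt n) x => stp c x s) h0 ([], [])
  refine (h1.comp Computable.list_reverse).of_eq fun l => ?_
  rw [List.foldl_reverse]
  rfl

lemma computable_dec {c : Wd n → Bool} (hc : Computable c) :
    Computable (fun w => dec c (stt c w)) := by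
  unfold dec
  refine (Primrec.and.to_comp).comp (hc.comp (Computable.fst.comp (computable_stt hc))) ?_
  have h1 : Primrec (fun l : List (L2 × Wd n) => l.isEmpty) := by
    have h2 : Primrec (fun l : List (L2 × Wd n) => decide (l = [])) :=
      PrimrecPred.decide (PrimrecRel.comp Primrec.eq Primrec.id (Primrec.const []))
    refine h2.of_eq fun l => ?_
    cases l <;> simp
  exact h1.to_comp.comp (Computable.snd.comp (computable_stt hc))

end Comp

section Pres

variable {n : ℕ} (rels : Finset (FreeGroup (Fin n)))

open Classical in
/-- The relators of the free product. -/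
noncomputable def relsF : Finset (FreeGroup (Fin (n + 2))) :=
  rels.image (FreeGroup.map (Fin.castAdd 2))

/-- The images of the generators. -/
def gens (i : Fin (n + 2)) : Coprod (PresentedGroup (rels : Set (FreeGroup (Fin n))))
    (FreeGroup (Fin 2)) :=
  Sum.casesOn (finSumFinEquiv.symm i) (fun a => Coprod.inl (PresentedGroup.of a))
    (fun b => Coprod.inr (FreeGroup.of b))

lemma lift_gens_map (w : FreeGroup (Fin n)) :
    FreeGroup.lift (gens rels) (FreeGroup.map (Fin.castAdd 2) w) =
      Coprod.inl (PresentedGroup.mk (rels : Set (FreeGroup (Fin n))) w) := by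
  have h : (FreeGroup.lift (gens rels)).comp (FreeGroup.map (Fin.castAdd 2)) =
      (Coprod.inl : _ →* Coprod _ (FreeGroup (Fin 2))).comp
        (PresentedGroup.mk (rels : Set (FreeGroup (Fin n)))) := by
    ext i
    simp only [MonoidHom.comp_apply, FreeGroup.map.of, FreeGroup.lift_apply_of, gens]
    rw [show Fin.castAdd 2 i = finSumFinEquiv (Sum.inl i) from rfl, Equiv.symm_apply_apply]
    rfl
  exact DFunLike.congr_fun h w

/-- The presented group maps to the free product. -/
noncomputable def toCo : PresentedGroup (relsF rels : Set (FreeGroup (Fin (n + 2)))) →*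
    Coprod (PresentedGroup (rels : Set (FreeGroup (Fin n)))) (FreeGroup (Fin 2)) :=
  PresentedGroup.toGroup (f := gens rels) (by
    classical
    intro r hr
    simp only [relsF, Finset.coe_image, Set.mem_image] at hr
    obtain ⟨r', hr', rfl⟩ := hr
    rw [lift_gens_map]
    have : PresentedGroup.mk (rels : Set (FreeGroup (Fin n))) r' = 1 := by
      rw [PresentedGroup.mk_eq_one_iff]
      exact Subgroup.subset_normalClosure hr'
    rw [this, map_one])

/-- The free product maps to the presented group. -/
noncomputable def ofCo : Coprod (PresentedGroup (rels : Set (FreeGroup (Fin n))))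
    (FreeGroup (Fin 2)) →* PresentedGroup (relsF rels : Set (FreeGroup (Fin (n + 2)))) :=
  Coprod.lift
    (PresentedGroup.toGroup (f := fun i => PresentedGroup.of (Fin.castAdd 2 i)) (by
      classical
      intro r hr
      have h : (FreeGroup.lift fun i : Fin n =>
          (PresentedGroup.of (rels := (relsF rels : Set (FreeGroup (Fin (n + 2)))))
            (Fin.castAdd 2 i))) =
          (PresentedGroup.mk (relsF rels : Set (FreeGroup (Fin (n + 2))))).comp
            (FreeGroup.map (Fin.castAdd 2)) := by
        ext i
        simp only [FreeGroup.lift_apply_of, MonoidHom.comp_apply, FreeGroup.map.of]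
        rfl
      rw [h, MonoidHom.comp_apply, PresentedGroup.mk_eq_one_iff]
      apply Subgroup.subset_normalClosure
      simp only [relsF, Finset.coe_image, Set.mem_image]
      exact ⟨r, hr, rfl⟩))
    (FreeGroup.lift fun j => PresentedGroup.of (Fin.natAdd n j))

lemma ofCo_toCo (x) : ofCo rels (toCo rels x) = x := by
  have h : (ofCo rels).comp (toCo rels) = MonoidHom.id _ := by
    apply PresentedGroup.ext
    intro i
    obtain ⟨j, rfl⟩ := finSumFinEquiv.surjective i
    rw [MonoidHom.comp_apply, MonoidHom.id_apply]
    unfold toCo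
    rw [PresentedGroup.toGroup.of]
    unfold gens
    rw [Equiv.symm_apply_apply]
    cases j with
    | inl a =>
      dsimp only
      unfold ofCo
      rw [Coprod.lift_apply_inl, PresentedGroup.toGroup.of]
      rfl
    | inr b =>
      dsimp only
      unfold ofCo
      rw [Coprod.lift_apply_inr, FreeGroup.lift_apply_of]
      rfl
  exact DFunLike.congr_fun h x

lemma toCo_ofCo (x) : toCo rels (ofCo rels x) = x := by
  have h : (toCo rels).comp (ofCo rels) = MonoidHom.id _ := by
    apply Coprod.hom_ext
    · apply PresentedGroup.ext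
      intro i
      simp only [MonoidHom.comp_apply, MonoidHom.id_apply]
      unfold ofCo
      rw [Coprod.lift_apply_inl, PresentedGroup.toGroup.of]
      unfold toCo
      rw [PresentedGroup.toGroup.of]
      unfold gens
      rw [show Fin.castAdd 2 i = finSumFinEquiv (Sum.inl i) from rfl, Equiv.symm_apply_apply]
    · ext j
      simp only [MonoidHom.comp_apply, MonoidHom.id_apply]
      unfold ofCo
      rw [Coprod.lift_apply_inr, FreeGroup.lift_apply_of]
      unfold toCo
      rw [PresentedGroup.toGroup.of]
      unfold gens
      rw [show Fin.natAdd n j = finSumFinEquiv (Sum.inr j) from rfl, Equiv.symm_apply_apply]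
  exact DFunLike.congr_fun h x

lemma ofCo_injective : Injective (ofCo rels) := by
  intro a b h
  rw [← toCo_ofCo rels a, ← toCo_ofCo rels b, h]

lemma toCo_injective : Injective (toCo rels) := by
  intro a b h
  rw [← ofCo_toCo rels a, ← ofCo_toCo rels b, h]

lemma toCo_mk (w : Wd (n + 2)) :
    toCo rels (PresentedGroup.mk (relsF rels : Set (FreeGroup (Fin (n + 2)))) (FreeGroup.mk w)) =
      wval (rels : Set (FreeGroup (Fin n))) w := by
  induction w with
  | nil =>
    rw [← FreeGroup.one_eq_mk, map_one, map_one]
    simp [wval]
  | cons x w ih =>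
    have h1 : FreeGroup.mk (x :: w) = FreeGroup.mk [x] * FreeGroup.mk w := by
      rw [FreeGroup.mul_mk]; rfl
    rw [h1, map_mul, map_mul, ih]
    have h2 : wval (rels : Set (FreeGroup (Fin n))) (x :: w) =
        vl (rels : Set (FreeGroup (Fin n))) x * wval (rels : Set (FreeGroup (Fin n))) w := by
      simp [wval]
    rw [h2]
    congr 1
    obtain ⟨i, e⟩ := x
    obtain ⟨j, rfl⟩ := finSumFinEquiv.surjective i
    unfold vl
    dsimp only
    rw [Equiv.symm_apply_apply]
    have h3 : toCo rels (PresentedGroup.mk (relsF rels : Set (FreeGroup (Fin (n + 2))))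
        (FreeGroup.of (finSumFinEquiv j))) = gens rels (finSumFinEquiv j) := by
      unfold toCo
      exact PresentedGroup.toGroup.of _
    have h4 : gens rels (finSumFinEquiv j) = (Sum.casesOn j
        (fun a => Coprod.inl (PresentedGroup.of a)) (fun b => Coprod.inr (FreeGroup.of b)) :
        Coprod (PresentedGroup (rels : Set (FreeGroup (Fin n)))) (FreeGroup (Fin 2))) := by
      unfold gens
      rw [Equiv.symm_apply_apply]
    cases e with
    | true =>
      have h5 : FreeGroup.mk [(finSumFinEquiv j, true)] = FreeGroup.of (finSumFinEquiv j) := rfl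
      rw [h5, h3, h4]
      cases j <;> rfl
    | false =>
      have h5 : FreeGroup.mk [(finSumFinEquiv j, false)] =
        (FreeGroup.of (finSumFinEquiv j))⁻¹ := rfl
      rw [h5, map_inv, map_inv, h3, h4]
      cases j with
      | inl a =>
        dsimp only
        rw [← map_inv]
        rfl
      | inr b =>
        dsimp only
        rw [← map_inv]
        rfl

/-- The word problem of the free product with a free group of rank two is decidable. -/
theorem computable_wp (h : ComputablePred (fun w : List (Fin n × Bool) =>
      PresentedGroup.mk (rels : Set (FreeGroup (Fin n))) (FreeGroup.mk w) = 1)) :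
    ComputablePred (fun w : List (Fin (n + 2) × Bool) =>
      PresentedGroup.mk (relsF rels : Set (FreeGroup (Fin (n + 2)))) (FreeGroup.mk w) = 1) := by
  obtain ⟨hd, hc⟩ := h
  let c : Wd n → Bool := fun w => decide (PresentedGroup.mk (rels : Set (FreeGroup (Fin n)))
    (FreeGroup.mk w) = 1)
  have hc' : ∀ w, c w = true ↔ mk (rels : Set (FreeGroup (Fin n))) w = 1 := by
    intro w
    simp only [c, decide_eq_true_eq]
    rfl
  have h1 : ∀ w : Wd (n + 2), dec c (stt c w) = true ↔
      PresentedGroup.mk (relsF rels : Set (FreeGroup (Fin (n + 2)))) (FreeGroup.mk w) = 1 := by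
    intro w
    rw [dec_iff hc', ← toCo_mk rels]
    constructor
    · intro h
      apply toCo_injective rels
      rw [h, map_one]
    · intro h
      rw [h, map_one]
  haveI : DecidablePred (fun w : List (Fin (n + 2) × Bool) =>
      PresentedGroup.mk (relsF rels : Set (FreeGroup (Fin (n + 2)))) (FreeGroup.mk w) = 1) :=
    fun w => decidable_of_iff _ (h1 w)
  refine ⟨this, ?_⟩
  refine (computable_dec (c := c) hc).of_eq fun w => ?_
  rw [Bool.eq_iff_iff, h1]
  exact (decide_eq_true_iff).symm

end Pres

end WPF

end Pool.Agent.Helper13
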